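import Pool.Agent.Work.MP_a793bb_nt.TR.TRDefs
import Pool.Agent.Work.MP_f2148a_nt.DivisorBound

set_option autoImplicit false

namespace AbcTR

open Finset

theorem card_divisors_le {ε : ℝ} (hε : 0 < ε) :
    ∃ C : ℝ, 1 ≤ C ∧ ∀ n : ℕ, 1 ≤ n → (n.divisors.card : ℝ) ≤ C * (n : ℝ) ^ ε :=
  Pool.Agent.Work.MP_f2148a_nt.exists_card_divisors_le ε hε

end AbcTR
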