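import Pool.Agent.Work.MP_a793bb_nt.TR.TRDefs

set_option autoImplicit false

namespace AbcTR

open Finset

/-- `n ↦ n ^ (-ε)` as a homomorphism of monoids. -/
noncomputable def powHom (ε : ℝ) : ℕ →* ℝ where
  toFun n := (n : ℝ) ^ (-ε)
  map_one' := by simp
  map_mul' m n := by
    rw [Nat.cast_mul, Real.mul_rpow (by positivity) (by positivity)]

theorem rad_primeFactors {n : ℕ} : (rad n).primeFactors = n.primeFactors := by
  unfold rad
  exact Nat.primeFactors_prod (fun p hp => Nat.prime_of_mem_primeFactors hp)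

/-- numbers with a given radical -/
theorem card_rad_eq_le {ε : ℝ} (hε : 0 < ε) :
    ∃ C : ℝ, 1 ≤ C ∧ ∀ X r : ℕ, 1 ≤ X →
      (((Icc 1 X).filter (fun n => rad n = r)).card : ℝ) ≤ C * (X : ℝ) ^ ε := by
  obtain ⟨P, hP⟩ : ∃ P : ℕ, ∀ p : ℕ, P ≤ p → (2 : ℝ) ≤ (p : ℝ) ^ ε := by
    have := (tendsto_rpow_atTop hε).comp (tendsto_natCast_atTop_atTop (R := ℝ))
    have h2 := (this.eventually_ge_atTop 2)
    obtain ⟨P, hP⟩ := Filter.eventually_atTop.1 h2
    exact ⟨P, fun p hp => hP p hp⟩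
  set c : ℝ := max 1 (1 / ((2 : ℝ) ^ ε - 1)) with hc
  have hc1 : 1 ≤ c := le_max_left _ _
  refine ⟨c ^ P, one_le_pow₀ hc1, fun X r hX => ?_⟩
  have hXε : (0 : ℝ) ≤ (X : ℝ) ^ ε := by positivity
  have hCpos : 0 ≤ c ^ P * (X : ℝ) ^ ε := by positivity
  rcases ((Icc 1 X).filter (fun n => rad n = r)).eq_empty_or_nonempty with he | ⟨n₀, hn₀⟩
  · rw [he]; simpa using hCpos
  rw [mem_filter, mem_Icc] at hn₀
  have hr_def : r = ∏ p ∈ n₀.primeFactors, p := hn₀.2.symm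
  have hrpf : r.primeFactors = n₀.primeFactors := by rw [← hn₀.2]; exact rad_primeFactors
  have hr_eq : r = ∏ p ∈ r.primeFactors, p := by rw [hrpf]; exact hr_def
  have hr0 : r ≠ 0 := by
    rw [hr_def, Finset.prod_ne_zero_iff]
    intro p hp
    exact (Nat.prime_of_mem_primeFactors hp).ne_zero
  set S := r.primeFactors with hS
  have hSp : ∀ p ∈ S, p.Prime := fun p hp => Nat.prime_of_mem_primeFactors hp
  have hlt : ∀ p : ℕ, p.Prime → (1 : ℝ) < (p : ℝ) ^ ε := fun p hp =>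
    Real.one_lt_rpow (by exact_mod_cast hp.one_lt) hε
  have hh : ∀ {p : ℕ}, p.Prime → ‖powHom ε p‖ < 1 := by
    intro p hp
    have h1 : powHom ε p = (p : ℝ) ^ (-ε) := rfl
    rw [h1, Real.norm_of_nonneg (by positivity), Real.rpow_neg (by positivity)]
    exact inv_lt_one_of_one_lt₀ (hlt p hp)
  obtain ⟨hsum, hhas⟩ :=
    EulerProduct.summable_and_hasSum_factoredNumbers_prod_filter_prime_geometric (f := powHom ε) hh S
  have hfilt : S.filter (fun p => p.Prime) = S := by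
    apply Finset.filter_true_of_mem hSp
  rw [hfilt] at hhas
  -- the map n ↦ n / r
  set A := (Icc 1 X).filter (fun n => rad n = r) with hA
  have hdvd : ∀ n ∈ A, r ∣ n := by
    intro n hn
    rw [hA, mem_filter] at hn
    rw [← hn.2]
    exact Nat.prod_primeFactors_dvd n
  have hmem : ∀ n ∈ A, n / r ∈ Nat.factoredNumbers S := by
    intro n hn
    have hd := hdvd n hn
    rw [hA, mem_filter, mem_Icc] at hn
    have hn0 : n ≠ 0 := by omega
    rw [Nat.mem_factoredNumbers_iff_primeFactors_subset]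
    refine ⟨?_, ?_⟩
    · intro h
      rw [Nat.div_eq_zero_iff] at h
      rcases h with h | h
      · exact hr0 h
      · have := Nat.le_of_dvd (by omega) hd
        omega
    · intro p hp
      have : S = n.primeFactors := by rw [hS, ← hn.2]; exact rad_primeFactors
      rw [this]
      exact Nat.primeFactors_mono (Nat.div_dvd_of_dvd hd) hn0 hp
  have hinj : ∀ n ∈ A, ∀ m ∈ A, n / r = m / r → n = m := by
    intro n hn m hm h
    rw [← Nat.div_mul_cancel (hdvd n hn), ← Nat.div_mul_cancel (hdvd m hm), h]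
  have hsumle : ∑ n ∈ A, ((n / r : ℕ) : ℝ) ^ (-ε) ≤ ∏ p ∈ S, (1 - (p : ℝ) ^ (-ε))⁻¹ := by
    have h1 : ∑ n ∈ A.attach, ((n.1 / r : ℕ) : ℝ) ^ (-ε) = ∑ n ∈ A, ((n / r : ℕ) : ℝ) ^ (-ε) :=
      Finset.sum_attach A (fun n => ((n / r : ℕ) : ℝ) ^ (-ε))
    rw [← h1]
    let g : {x // x ∈ A} → Nat.factoredNumbers S := fun n => ⟨n.1 / r, hmem n.1 n.2⟩
    have hginj : Function.Injective g := by
      intro a b hab
      apply Subtype.ext
      exact hinj a.1 a.2 b.1 b.2 (congrArg Subtype.val hab)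
    have h2 : ∑ n ∈ A.attach, ((n.1 / r : ℕ) : ℝ) ^ (-ε)
        = ∑ m ∈ A.attach.map ⟨g, hginj⟩, powHom ε (m : ℕ) := by
      rw [Finset.sum_map]
      rfl
    rw [h2]
    exact sum_le_hasSum _ (fun m _ => by
      change (0 : ℝ) ≤ ((m : ℕ) : ℝ) ^ (-ε)
      positivity) hhas
  have hXr : (A.card : ℝ) ≤ (X : ℝ) ^ ε * ((r : ℝ) ^ ε)⁻¹ * ∑ n ∈ A, ((n / r : ℕ) : ℝ) ^ (-ε) := by
    rw [Finset.mul_sum, Finset.card_eq_sum_ones]
    push_cast
    apply Finset.sum_le_sum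
    intro n hn
    have hd := hdvd n hn
    have hn' := hn
    rw [hA, mem_filter, mem_Icc] at hn'
    have hn0 : (0 : ℝ) < n := by exact_mod_cast (by omega : 0 < n)
    have hr0' : (0 : ℝ) < r := by exact_mod_cast Nat.pos_of_ne_zero hr0
    have h3 : ((n / r : ℕ) : ℝ) = n / r := Nat.cast_div hd (by positivity)
    rw [h3, Real.rpow_neg (by positivity), Real.div_rpow (by positivity) (by positivity)]
    have h4 : 0 < (r : ℝ) ^ ε := by positivity
    have h5 : 0 < (n : ℝ) ^ ε := by positivity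
    have h6 : (n : ℝ) ^ ε ≤ (X : ℝ) ^ ε :=
      Real.rpow_le_rpow hn0.le (by exact_mod_cast hn'.1.2) hε.le
    rw [inv_div]
    have : (X : ℝ) ^ ε * ((r : ℝ) ^ ε)⁻¹ * ((r : ℝ) ^ ε / (n : ℝ) ^ ε) = (X : ℝ) ^ ε / (n : ℝ) ^ ε := by
      field_simp
    rw [this, le_div_iff₀ h5, one_mul]
    exact h6
  have hprod : ((r : ℝ) ^ ε)⁻¹ * ∏ p ∈ S, (1 - (p : ℝ) ^ (-ε))⁻¹ ≤ c ^ P := by
    have h1 : (r : ℝ) ^ ε = ∏ p ∈ S, (p : ℝ) ^ ε := by
      conv_lhs => rw [hr_eq]
      push_cast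
      rw [← Real.finsetProd_rpow _ _ (fun i _ => by positivity)]
    rw [h1, ← Finset.prod_inv_distrib, ← Finset.prod_mul_distrib]
    have h2 : ∀ p ∈ S, ((p : ℝ) ^ ε)⁻¹ * (1 - (p : ℝ) ^ (-ε))⁻¹ ≤ if p < P then c else 1 := by
      intro p hp
      have hpp := hSp p hp
      have hp1 := hlt p hpp
      have hp0 : (0 : ℝ) < (p : ℝ) ^ ε := by linarith
      have h3 : ((p : ℝ) ^ ε)⁻¹ * (1 - (p : ℝ) ^ (-ε))⁻¹ = 1 / ((p : ℝ) ^ ε - 1) := by
        rw [Real.rpow_neg (by positivity)]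
        have : (p : ℝ) ^ ε - 1 ≠ 0 := by linarith
        have : 1 - ((p : ℝ) ^ ε)⁻¹ ≠ 0 := by
          have := inv_lt_one_of_one_lt₀ hp1
          linarith
        rw [← mul_inv, one_div]
        congr 1
        field_simp
      rw [h3]
      split_ifs with hpP
      · rw [hc]
        refine le_trans ?_ (le_max_right _ _)
        have h2 : (1 : ℝ) < (2 : ℝ) ^ ε := by
          exact Real.one_lt_rpow (by norm_num) hε
        apply one_div_le_one_div_of_le (by linarith)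
        have : (2 : ℝ) ^ ε ≤ (p : ℝ) ^ ε :=
          Real.rpow_le_rpow (by norm_num) (by exact_mod_cast hpp.two_le) hε.le
        linarith
      · have := hP p (not_lt.1 hpP)
        rw [div_le_one (by linarith)]
        linarith
    have h2' : ∀ p ∈ S, 0 ≤ ((p : ℝ) ^ ε)⁻¹ * (1 - (p : ℝ) ^ (-ε))⁻¹ := by
      intro p hp
      have hp1 := hlt p (hSp p hp)
      have : (p : ℝ) ^ (-ε) < 1 := by
        rw [Real.rpow_neg (by positivity)]
        exact inv_lt_one_of_one_lt₀ hp1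
      have h0 : 0 < 1 - (p : ℝ) ^ (-ε) := by linarith
      positivity
    refine (Finset.prod_le_prod h2' h2).trans ?_
    rw [Finset.prod_ite, Finset.prod_const_one, mul_one, Finset.prod_const]
    apply pow_le_pow_right₀ hc1
    calc (S.filter (fun p => p < P)).card ≤ (range P).card := by
          apply Finset.card_le_card
          intro p hp
          rw [mem_filter] at hp
          exact mem_range.2 hp.2
      _ = P := card_range P
  have hr0' : (0 : ℝ) < (r : ℝ) := by exact_mod_cast Nat.pos_of_ne_zero hr0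
  calc (A.card : ℝ) ≤ (X : ℝ) ^ ε * ((r : ℝ) ^ ε)⁻¹ * ∑ n ∈ A, ((n / r : ℕ) : ℝ) ^ (-ε) := hXr
    _ ≤ (X : ℝ) ^ ε * ((r : ℝ) ^ ε)⁻¹ * ∏ p ∈ S, (1 - (p : ℝ) ^ (-ε))⁻¹ := by
        gcongr
    _ = (X : ℝ) ^ ε * (((r : ℝ) ^ ε)⁻¹ * ∏ p ∈ S, (1 - (p : ℝ) ^ (-ε))⁻¹) := by ring
    _ ≤ (X : ℝ) ^ ε * c ^ P := by gcongr
    _ = c ^ P * (X : ℝ) ^ ε := by ring

theorem card_rad_dyadic {ε : ℝ} (hε : 0 < ε) :
    ∃ C : ℝ, 1 ≤ C ∧ ∀ X k : ℕ, 1 ≤ X →
      (((Icc 1 X).filter (fun n => 2 ^ k ≤ rad n ∧ rad n < 2 ^ (k + 1))).card : ℝ)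
        ≤ C * (X : ℝ) ^ ε * 2 ^ k := by
  obtain ⟨C, hC1, hC⟩ := card_rad_eq_le hε
  refine ⟨C, hC1, fun X k hX => ?_⟩
  set A := (Icc 1 X).filter (fun n => 2 ^ k ≤ rad n ∧ rad n < 2 ^ (k + 1)) with hA
  have hmaps : ∀ n ∈ A, rad n ∈ Ico (2 ^ k) (2 ^ (k + 1)) := by
    intro n hn
    rw [hA, mem_filter] at hn
    exact mem_Ico.2 hn.2
  have h1 := Finset.card_eq_sum_card_fiberwise (f := rad) (s := A)
    (t := Ico (2 ^ k) (2 ^ (k + 1))) (fun n hn => hmaps n hn)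
  rw [h1]
  push_cast
  calc ∑ r ∈ Ico (2 ^ k) (2 ^ (k + 1)), ((A.filter (fun n => rad n = r)).card : ℝ)
      ≤ ∑ r ∈ Ico (2 ^ k) (2 ^ (k + 1)), C * (X : ℝ) ^ ε := by
        apply Finset.sum_le_sum
        intro r _
        refine le_trans ?_ (hC X r hX)
        have : A.filter (fun n => rad n = r) ⊆ (Icc 1 X).filter (fun n => rad n = r) := by
          intro n hn
          rw [mem_filter, hA, mem_filter] at hn
          exact mem_filter.2 ⟨hn.1.1, hn.2⟩
        exact_mod_cast Finset.card_le_card this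
    _ = C * (X : ℝ) ^ ε * 2 ^ k := by
        rw [Finset.sum_const, Nat.card_Ico, nsmul_eq_mul]
        have : 2 ^ (k + 1) - 2 ^ k = 2 ^ k := by
          rw [pow_succ]; omega
        rw [this]
        push_cast
        ring

end AbcTR
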