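import Pool.Agent.Work.MP_a793bb_nt.TR.TRDefs

set_option autoImplicit false

namespace AbcTR

open Finset

/-- Every `c ≥ 2` has the decomposition `1 + (c - 1) = c`, whose radical is at most `c ^ 2`. -/
theorem lower_sq (c : ℕ) (hc : 2 ≤ c) : ∃ a b : ℕ, 0 < a ∧ 0 < b ∧ a + b = c ∧ Nat.Coprime a b ∧
    rad (a * b * c) ≤ c ^ 2 := by
  refine ⟨1, c - 1, one_pos, by omega, by omega, Nat.coprime_one_left _, ?_⟩
  have h1 : rad (1 * (c - 1) * c) ≤ 1 * (c - 1) * c := by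
    apply Nat.le_of_dvd
    · have : 0 < c - 1 := by omega
      positivity
    · exact Nat.prod_primeFactors_dvd _
  calc rad (1 * (c - 1) * c) ≤ 1 * (c - 1) * c := h1
    _ ≤ c * c := Nat.mul_le_mul_right _ (by omega)
    _ = c ^ 2 := by ring

theorem lower {ε : ℝ} (hε : 0 < ε) :
    ∃ C : ℝ, ∀ c : ℕ, 2 ≤ c → ∃ a b : ℕ, 0 < a ∧ 0 < b ∧ a + b = c ∧ Nat.Coprime a b ∧
      (rad (a * b * c) : ℝ) ≤ C * (c : ℝ) ^ (2 + ε) := by
  refine ⟨1, fun c hc => ?_⟩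
  obtain ⟨a, b, ha, hb, hab, hco, hr⟩ := lower_sq c hc
  refine ⟨a, b, ha, hb, hab, hco, ?_⟩
  have hc1 : (1 : ℝ) ≤ c := by exact_mod_cast (by omega : 1 ≤ c)
  calc (rad (a * b * c) : ℝ) ≤ (c : ℝ) ^ 2 := by exact_mod_cast hr
    _ = (c : ℝ) ^ (2 : ℝ) := by norm_cast
    _ ≤ (c : ℝ) ^ (2 + ε) := Real.rpow_le_rpow_of_exponent_le hc1 (by linarith)
    _ = 1 * (c : ℝ) ^ (2 + ε) := by ring

end AbcTR
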