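import Pool.Agent.Work.MP_a793bb_nt.TR.TRDefs

set_option autoImplicit false

namespace AbcTR

open Finset

theorem card_le_of_separated (S : Finset ℝ) (a l s : ℝ) (hs : 0 < s) (hl : 0 ≤ l)
    (h1 : ∀ x ∈ S, a ≤ x ∧ x ≤ a + l) (h2 : ∀ x ∈ S, ∀ y ∈ S, x ≠ y → s ≤ |x - y|) :
    (S.card : ℝ) ≤ 1 + l / s := by
  have hmap : S.card ≤ (Finset.range (⌊l / s⌋₊ + 1)).card := by
    refine Finset.card_le_card_of_injOn (fun x => ⌊(x - a) / s⌋₊) ?_ ?_
    · intro x hx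
      simp only [Finset.coe_range, Set.mem_Iio]
      have := h1 x hx
      refine Nat.lt_succ_of_le (Nat.floor_le_floor ?_)
      exact div_le_div_of_nonneg_right (by linarith) hs.le
    · intro x hx y hy hxy
      by_contra hne
      have hsep := h2 x hx y hy hne
      simp only at hxy
      have hx0 : 0 ≤ (x - a) / s := div_nonneg (by linarith [(h1 x hx).1]) hs.le
      have hy0 : 0 ≤ (y - a) / s := div_nonneg (by linarith [(h1 y hy).1]) hs.le
      have ax := Nat.floor_le hx0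
      have bx := Nat.lt_floor_add_one ((x - a) / s)
      have ay := Nat.floor_le hy0
      have by' := Nat.lt_floor_add_one ((y - a) / s)
      rw [hxy] at ax bx
      have h3 : |(x - a) / s - (y - a) / s| < 1 := by
        rw [abs_lt]
        constructor <;> linarith
      have h4 : (x - a) / s - (y - a) / s = (x - y) / s := by ring
      rw [h4, abs_div, abs_of_pos hs, div_lt_one hs] at h3
      linarith
  rw [Finset.card_range] at hmap
  have h5 : (S.card : ℝ) ≤ (⌊l / s⌋₊ : ℝ) + 1 := by exact_mod_cast hmap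
  have h6 : (⌊l / s⌋₊ : ℝ) ≤ l / s := Nat.floor_le (div_nonneg hl hs.le)
  linarith

private theorem half (q c L : ℕ) (hq : 1 ≤ q) (hc : 1 ≤ c) (P : Finset (ℕ × ℕ))
    (h1 : ∀ p ∈ P, 1 ≤ p.1 ∧ p.1 ≤ L ∧ 1 ≤ p.2 ∧ p.2 ≤ L ∧ Nat.Coprime p.1 p.2)
    (h2 : ∀ p ∈ P, ∀ r ∈ P, (q : ℤ) ∣ (c : ℤ) * ((p.1 : ℤ) * r.2 - (r.1 : ℤ) * p.2))
    (h3 : ∀ p ∈ P, p.1 ≤ p.2) :
    (P.card : ℝ) ≤ 1 + c * (L : ℝ) ^ 2 / q := by
  classical
  by_cases hP : P = ∅
  · rw [hP, Finset.card_empty]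
    push_cast
    positivity
  obtain ⟨p0, hp0⟩ := Finset.nonempty_iff_ne_empty.2 hP
  have hL : 1 ≤ L := le_trans (h1 p0 hp0).1 (h1 p0 hp0).2.1
  have hinj : Set.InjOn (fun p : ℕ × ℕ => (p.1 : ℝ) / p.2) P := by
    intro p hp r hr hpr
    simp only at hpr
    have hp1 := h1 p hp
    have hr1 := h1 r hr
    have a1 : (p.2 : ℝ) ≠ 0 := by
      have := hp1.2.2.1
      positivity
    have a2 : (r.2 : ℝ) ≠ 0 := by
      have := hr1.2.2.1
      positivity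
    rw [div_eq_div_iff a1 a2] at hpr
    have hN : p.1 * r.2 = r.1 * p.2 := by exact_mod_cast hpr
    have d1 : p.1 ∣ r.1 := by
      have : p.1 ∣ r.1 * p.2 := Dvd.intro _ hN
      exact (Nat.Coprime.dvd_of_dvd_mul_right hp1.2.2.2.2 this)
    have d2 : r.1 ∣ p.1 := by
      have : r.1 ∣ p.1 * r.2 := by rw [hN]; exact dvd_mul_right _ _
      exact (Nat.Coprime.dvd_of_dvd_mul_right hr1.2.2.2.2 this)
    have e1 : p.1 = r.1 := Nat.dvd_antisymm d1 d2
    have e2 : p.2 = r.2 := by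
      rw [e1] at hN
      exact (Nat.eq_of_mul_eq_mul_left hr1.1 hN).symm
    exact Prod.ext e1 e2
  have hcard : P.card = (P.image (fun p : ℕ × ℕ => (p.1 : ℝ) / p.2)).card :=
    (Finset.card_image_of_injOn hinj).symm
  rw [hcard]
  have hs : (0 : ℝ) < q / (c * (L : ℝ) ^ 2) := by positivity
  have := card_le_of_separated (P.image (fun p : ℕ × ℕ => (p.1 : ℝ) / p.2)) 0 1
    (q / (c * (L : ℝ) ^ 2)) hs zero_le_one ?_ ?_
  · rw [one_div_div] at this
    exact this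
  · intro x hx
    obtain ⟨p, hp, rfl⟩ := Finset.mem_image.1 hx
    refine ⟨by positivity, ?_⟩
    rw [zero_add]
    have hp1 := h1 p hp
    have a1 : (0 : ℝ) < p.2 := by
      have := hp1.2.2.1
      positivity
    rw [div_le_one a1]
    exact_mod_cast h3 p hp
  · intro x hx y hy hxy
    obtain ⟨p, hp, rfl⟩ := Finset.mem_image.1 hx
    obtain ⟨r, hr, rfl⟩ := Finset.mem_image.1 hy
    have hp1 := h1 p hp
    have hr1 := h1 r hr
    have a1 : (0 : ℝ) < p.2 := by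
      have := hp1.2.2.1
      positivity
    have a2 : (0 : ℝ) < r.2 := by
      have := hr1.2.2.1
      positivity
    have hD : (p.1 : ℤ) * r.2 - (r.1 : ℤ) * p.2 ≠ 0 := by
      intro h0
      apply hxy
      rw [div_eq_div_iff a1.ne' a2.ne']
      have : (p.1 : ℤ) * r.2 = (r.1 : ℤ) * p.2 := by linarith
      exact_mod_cast this
    have hq' : (q : ℤ) ≤ |(c : ℤ) * ((p.1 : ℤ) * r.2 - (r.1 : ℤ) * p.2)| := by
      refine Int.le_of_dvd (abs_pos.2 (mul_ne_zero (by exact_mod_cast (by omega : c ≠ 0)) hD)) ?_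
      rw [dvd_abs]
      exact h2 p hp r hr
    have hq2 : (q : ℝ) ≤ c * |(p.1 : ℝ) * r.2 - (r.1 : ℝ) * p.2| := by
      have h7 : ((q : ℤ) : ℝ) ≤ ((|(c : ℤ) * ((p.1 : ℤ) * r.2 - (r.1 : ℤ) * p.2)| : ℤ) : ℝ) := by
        exact_mod_cast hq'
      push_cast at h7
      rwa [abs_mul, abs_of_nonneg (by positivity : (0 : ℝ) ≤ c)] at h7
    rw [div_sub_div _ _ a1.ne' a2.ne', abs_div, abs_of_pos (mul_pos a1 a2)]
    rw [div_le_div_iff₀ (by positivity) (mul_pos a1 a2)]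
    have hpL : (p.2 : ℝ) ≤ L := by exact_mod_cast hp1.2.2.2.1
    have hrL : (r.2 : ℝ) ≤ L := by exact_mod_cast hr1.2.2.2.1
    have h8 : (p.2 : ℝ) * r.2 ≤ (L : ℝ) ^ 2 := by nlinarith
    have h9 : (p.1 : ℝ) * r.2 - p.2 * r.1 = (p.1 : ℝ) * r.2 - (r.1 : ℝ) * p.2 := by ring
    rw [h9]
    calc (q : ℝ) * (p.2 * r.2) ≤ (c * |(p.1 : ℝ) * r.2 - (r.1 : ℝ) * p.2|) * (L : ℝ) ^ 2 :=
          mul_le_mul hq2 h8 (by positivity) (by positivity)
      _ = |(p.1 : ℝ) * r.2 - (r.1 : ℝ) * p.2| * (c * (L : ℝ) ^ 2) := by ring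

theorem card_pairs_le (q c L : ℕ) (hq : 1 ≤ q) (hc : 1 ≤ c) (P : Finset (ℕ × ℕ))
    (h1 : ∀ p ∈ P, 1 ≤ p.1 ∧ p.1 ≤ L ∧ 1 ≤ p.2 ∧ p.2 ≤ L ∧ Nat.Coprime p.1 p.2)
    (h2 : ∀ p ∈ P, ∀ r ∈ P, (q : ℤ) ∣ (c : ℤ) * ((p.1 : ℤ) * r.2 - (r.1 : ℤ) * p.2)) :
    (P.card : ℝ) ≤ 2 * (1 + c * (L : ℝ) ^ 2 / q) := by
  classical
  have hsplit := Finset.card_filter_add_card_filter_not (s := P) (fun p => p.1 ≤ p.2)
  have hA := half q c L hq hc (P.filter (fun p => p.1 ≤ p.2))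
    (fun p hp => h1 p (Finset.mem_filter.1 hp).1)
    (fun p hp r hr => h2 p (Finset.mem_filter.1 hp).1 r (Finset.mem_filter.1 hr).1)
    (fun p hp => (Finset.mem_filter.1 hp).2)
  have hB := half q c L hq hc ((P.filter (fun p => ¬ p.1 ≤ p.2)).image Prod.swap)
    (fun p hp => by
      obtain ⟨r, hr, rfl⟩ := Finset.mem_image.1 hp
      have := h1 r (Finset.mem_filter.1 hr).1
      exact ⟨this.2.2.1, this.2.2.2.1, this.1, this.2.1, this.2.2.2.2.symm⟩)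
    (fun p hp r hr => by
      obtain ⟨p', hp', rfl⟩ := Finset.mem_image.1 hp
      obtain ⟨r', hr', rfl⟩ := Finset.mem_image.1 hr
      have := h2 r' (Finset.mem_filter.1 hr').1 p' (Finset.mem_filter.1 hp').1
      simp only [Prod.fst_swap, Prod.snd_swap]
      have e : (c : ℤ) * ((p'.2 : ℤ) * r'.1 - (r'.2 : ℤ) * p'.1) =
        (c : ℤ) * ((r'.1 : ℤ) * p'.2 - (p'.1 : ℤ) * r'.2) := by ring
      rw [e]
      exact this)
    (fun p hp => by
      obtain ⟨r, hr, rfl⟩ := Finset.mem_image.1 hp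
      have := (Finset.mem_filter.1 hr).2
      simp only [Prod.fst_swap, Prod.snd_swap]
      omega)
  rw [Finset.card_image_of_injective _ Prod.swap_injective] at hB
  have h : (P.card : ℝ) = ((P.filter (fun p => p.1 ≤ p.2)).card : ℝ) +
      ((P.filter (fun p => ¬ p.1 ≤ p.2)).card : ℝ) := by
    exact_mod_cast hsplit.symm
  rw [h]
  linarith

end AbcTR
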