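import Pool.Agent.Work.MP_a793bb_nt.TR.TRDefs
import Pool.Agent.Work.MP_a793bb_nt.TR.Sep

set_option autoImplicit false

/-! Coprime pairs `(s, t)` with `s ^ e = t ^ e` modulo `q`, `e = 1, 2, 3` (helper96). -/

namespace AbcTR

open Finset

theorem card_lin (q A B L : ℕ) (hq : 1 ≤ q) (hA : Nat.Coprime A q) :
    ((((Icc 1 L) ×ˢ (Icc 1 L)).filter
      (fun p => Nat.Coprime p.1 p.2 ∧ A * p.1 ≡ B * p.2 [MOD q])).card : ℝ)
        ≤ 2 * (1 + (L : ℝ) ^ 2 / q) := by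
  have h := card_pairs_le q 1 L hq le_rfl (((Icc 1 L) ×ˢ (Icc 1 L)).filter
      (fun p => Nat.Coprime p.1 p.2 ∧ A * p.1 ≡ B * p.2 [MOD q])) ?_ ?_
  · simpa using h
  · intro p hp
    simp only [mem_filter, mem_product, mem_Icc] at hp
    exact ⟨hp.1.1.1, hp.1.1.2, hp.1.2.1, hp.1.2.2, hp.2.1⟩
  · intro p hp r hr
    simp only [mem_filter, mem_product, mem_Icc] at hp hr
    have h1 := (Nat.modEq_iff_dvd.1 hp.2.2)
    have h2 := (Nat.modEq_iff_dvd.1 hr.2.2)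
    push_cast at h1 h2
    have hc : IsCoprime (q : ℤ) (A : ℤ) := (Nat.isCoprime_iff_coprime.2 hA).symm
    refine hc.dvd_of_dvd_mul_left ?_
    have e : (A : ℤ) * (((1 : ℕ) : ℤ) * ((p.1 : ℤ) * r.2 - (r.1 : ℤ) * p.2)) =
        (B * r.2 - A * r.1) * p.2 - (B * p.2 - A * p.1) * r.2 := by push_cast; ring
    rw [e]
    exact dvd_sub (h2.mul_right _) (h1.mul_right _)

/-- classes of mutually repelling pairs -/
theorem card_class (q c L : ℕ) (hq : 1 ≤ q) (hc : 1 ≤ c) (hc27 : c ≤ 27) (P : Finset (ℕ × ℕ)) (f : ℕ × ℕ → ℕ × ℕ)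
    (h1 : ∀ p ∈ P, 1 ≤ p.1 ∧ p.1 ≤ L ∧ 1 ≤ p.2 ∧ p.2 ≤ L ∧ Nat.Coprime p.1 p.2)
    (hf : ∀ p ∈ P, (f p).1 ∣ q ∧ (f p).2 ∣ q)
    (h2 : ∀ p ∈ P, ∀ r ∈ P, f p = f r →
      (q : ℤ) ∣ (c : ℤ) * ((p.1 : ℤ) * r.2 - (r.1 : ℤ) * p.2)) :
    (P.card : ℝ) ≤ 54 * (q.divisors.card : ℝ) ^ 2 * (1 + (L : ℝ) ^ 2 / q) := by
  have hq' : (0 : ℝ) < q := by exact_mod_cast hq
  have hm : ∀ p ∈ P, f p ∈ q.divisors ×ˢ q.divisors := by
    intro p hp
    rw [mem_product, Nat.mem_divisors, Nat.mem_divisors]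
    exact ⟨⟨(hf p hp).1, by omega⟩, ⟨(hf p hp).2, by omega⟩⟩
  rw [card_eq_sum_card_fiberwise hm]
  push_cast
  have hb : ∀ k ∈ q.divisors ×ˢ q.divisors,
      ((P.filter (fun p => f p = k)).card : ℝ) ≤ 54 * (1 + (L : ℝ) ^ 2 / q) := by
    intro k _
    have h := card_pairs_le q c L hq hc (P.filter (fun p => f p = k)) ?_ ?_
    · refine h.trans ?_
      have h0 : (0 : ℝ) ≤ (L : ℝ) ^ 2 / q := by positivity
      have e : (c : ℝ) * (L : ℝ) ^ 2 / q = c * ((L : ℝ) ^ 2 / q) := by ring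
      have h27 : (c : ℝ) ≤ 27 := by exact_mod_cast hc27
      have h28 := mul_le_mul_of_nonneg_right h27 h0
      rw [e]
      linarith
    · intro p hp
      exact h1 p (mem_filter.1 hp).1
    · intro p hp r hr
      have hp' := mem_filter.1 hp
      have hr' := mem_filter.1 hr
      exact h2 p hp'.1 r hr'.1 (hp'.2.trans hr'.2.symm)
  refine (sum_le_sum hb).trans ?_
  rw [sum_const, card_product, nsmul_eq_mul]
  push_cast
  exact le_of_eq (by ring)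

theorem mul_dvd_of_gcd {a b D k : ℤ} (ha : a ∣ D) (hb : b ∣ D) (hk : (Int.gcd a b : ℤ) ∣ k) :
    a * b ∣ k * D := by
  have h1 : a * b ∣ (Int.gcd a b : ℤ) * D := by
    rw [Int.gcd_eq_gcd_ab, add_mul]
    refine dvd_add ?_ ?_
    · have : a * Int.gcdA a b * D = a * D * Int.gcdA a b := by ring
      rw [this]
      exact (mul_dvd_mul_left a hb).mul_right _
    · have : b * Int.gcdB a b * D = D * b * Int.gcdB a b := by ring
      rw [this]
      exact (mul_dvd_mul_right ha b).mul_right _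
  exact h1.trans (mul_dvd_mul_right hk D)

/-- splitting of a modulus along a factorisation -/
theorem split_mod {q x y : ℤ} (hq : q ≠ 0) (h : q ∣ x * y) :
    ∃ d : ℤ, q = (Int.gcd q x : ℤ) * d ∧ d ∣ y := by
  have hg : (Int.gcd q x : ℤ) ∣ q := Int.gcd_dvd_left ..
  obtain ⟨d, hd⟩ := hg
  have hg0 : (Int.gcd q x : ℤ) ≠ 0 := by
    intro h0
    rw [h0, zero_mul] at hd
    exact hq hd
  refine ⟨d, hd, ?_⟩
  have h2 : q ∣ (Int.gcd q x : ℤ) * y := by
    rw [Int.gcd_eq_gcd_ab, add_mul]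
    refine dvd_add ?_ ?_
    · rw [mul_assoc]; exact dvd_mul_right _ _
    · have : x * Int.gcdB q x * y = x * y * Int.gcdB q x := by ring
      rw [this]
      exact h.mul_right _
  rw [hd] at h2
  have h3 : (Int.gcd q x : ℤ) * d ∣ (Int.gcd q x : ℤ) * y := by
    convert h2 using 2
    rw [← hd]
  exact Int.dvd_of_mul_dvd_mul_left hg0 h3

/-- divisor of a modulus: units stay units -/
theorem unit_dvd {q g s D : ℤ} (hg : g ∣ q) (hs : IsCoprime s q) (h : g ∣ s * D) : g ∣ D :=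
  (IsCoprime.of_isCoprime_of_dvd_right hs hg).symm.dvd_of_dvd_mul_left h

theorem dvd_two_case {q s t s' t' : ℤ} (hq : q ≠ 0) (hs : IsCoprime s q)
    (h : q ∣ (s - t) * (s + t)) (h' : q ∣ (s' - t') * (s' + t'))
    (hg : Int.gcd q (s - t) = Int.gcd q (s' - t')) : q ∣ 2 * (s * t' - s' * t) := by
  obtain ⟨d, hd, hd2⟩ := split_mod hq h
  obtain ⟨d', hd', hd2'⟩ := split_mod hq h'
  have hg0 : (Int.gcd q (s - t) : ℤ) ≠ 0 := by
    intro h0
    rw [h0, zero_mul] at hd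
    exact hq hd
  have hdd : d' = d := by
    rw [hg] at hd
    rw [← hg] at hd hd'
    have := hd.symm.trans hd'
    exact (mul_left_cancel₀ hg0 this).symm
  subst hdd
  set g : ℤ := (Int.gcd q (s - t) : ℤ) with hgdef
  have g1 : g ∣ s - t := Int.gcd_dvd_right ..
  have g2 : g ∣ s' - t' := by rw [hgdef, hg]; exact Int.gcd_dvd_right ..
  have a1 : g ∣ s * t' - s' * t := by
    have e : s * t' - s' * t = (s - t) * t' - (s' - t') * t := by ring
    rw [e]; exact dvd_sub (g1.mul_right _) (g2.mul_right _)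
  have a2 : d' ∣ s * t' - s' * t := by
    have e : s * t' - s' * t = (s + t) * t' - (s' + t') * t := by ring
    rw [e]; exact dvd_sub (hd2.mul_right _) (hd2'.mul_right _)
  rw [hd]
  refine mul_dvd_of_gcd a1 a2 ?_
  have b1 : (Int.gcd g d' : ℤ) ∣ g := Int.gcd_dvd_left ..
  have b2 : (Int.gcd g d' : ℤ) ∣ d' := Int.gcd_dvd_right ..
  have b3 : (Int.gcd g d' : ℤ) ∣ q := b1.trans (Int.gcd_dvd_left ..)
  refine unit_dvd b3 hs ?_
  have e : s * 2 = (s - t) + (s + t) := by ring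
  rw [e]
  exact dvd_add (b1.trans g1) (b2.trans hd2)

theorem dvd_three_case {q s t s' t' s0 t0 d : ℤ} (hq : q ≠ 0)
    (hs : IsCoprime s q) (ht : IsCoprime t q)
    (ht0 : IsCoprime t0 q)
    (hg : Int.gcd q (s - t) = Int.gcd q (s' - t'))
    (hd : q = (Int.gcd q (s - t) : ℤ) * d)
    (h1 : d ∣ s ^ 2 + s * t + t ^ 2) (h1' : d ∣ s' ^ 2 + s' * t' + t' ^ 2)
    (h10 : d ∣ s0 ^ 2 + s0 * t0 + t0 ^ 2)
    (hg2 : Int.gcd d (s * t0 - s0 * t) = Int.gcd d (s' * t0 - s0 * t')) :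
    q ∣ 9 * (s * t' - s' * t) := by
  have hd0 : d ≠ 0 := by
    rintro rfl
    exact hq (by rw [hd, mul_zero])
  have hdq : d ∣ q := ⟨_, hd.trans (mul_comm _ _)⟩
  set D : ℤ := s * t' - s' * t with hD
  have hp : d ∣ (s * t0 - s0 * t) * (s * t0 + s0 * t + t * t0) := by
    have e : (s * t0 - s0 * t) * (s * t0 + s0 * t + t * t0) =
        (s ^ 2 + s * t + t ^ 2) * t0 ^ 2 - (s0 ^ 2 + s0 * t0 + t0 ^ 2) * t ^ 2 := by ring
    rw [e]; exact dvd_sub (h1.mul_right _) (h10.mul_right _)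
  have hp' : d ∣ (s' * t0 - s0 * t') * (s' * t0 + s0 * t' + t' * t0) := by
    have e : (s' * t0 - s0 * t') * (s' * t0 + s0 * t' + t' * t0) =
        (s' ^ 2 + s' * t' + t' ^ 2) * t0 ^ 2 - (s0 ^ 2 + s0 * t0 + t0 ^ 2) * t' ^ 2 := by ring
    rw [e]; exact dvd_sub (h1'.mul_right _) (h10.mul_right _)
  obtain ⟨d3, hd3, hd4⟩ := split_mod hd0 hp
  obtain ⟨d3', hd3', hd4'⟩ := split_mod hd0 hp'
  have hg0 : (Int.gcd d (s * t0 - s0 * t) : ℤ) ≠ 0 := by
    intro h0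
    rw [h0, zero_mul] at hd3
    exact hd0 hd3
  have hdd : d3' = d3 := by
    have h5 := hd3
    rw [hg2] at hd3
    rw [← hg2] at hd3 hd3'
    have := hd3.symm.trans hd3'
    exact (mul_left_cancel₀ hg0 this).symm
  subst hdd
  set g2 : ℤ := (Int.gcd d (s * t0 - s0 * t) : ℤ) with hg2def
  have c1 : g2 ∣ s * t0 - s0 * t := Int.gcd_dvd_right ..
  have c2 : g2 ∣ s' * t0 - s0 * t' := by rw [hg2def, hg2]; exact Int.gcd_dvd_right ..
  have c3 : g2 ∣ d := Int.gcd_dvd_left ..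
  have c4 : d3' ∣ d := ⟨_, hd3.trans (mul_comm _ _)⟩
  have a2 : g2 ∣ D := by
    refine unit_dvd (c3.trans hdq) ht0 ?_
    have e : t0 * D = (s * t0 - s0 * t) * t' - (s' * t0 - s0 * t') * t := by rw [hD]; ring
    rw [e]; exact dvd_sub (c1.mul_right _) (c2.mul_right _)
  have a3 : d3' ∣ D := by
    refine unit_dvd (c4.trans hdq) ht0 ?_
    have e : t0 * D = (s * t0 + s0 * t + t * t0) * t' - (s' * t0 + s0 * t' + t' * t0) * t := by
      rw [hD]; ring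
    rw [e]; exact dvd_sub (hd4.mul_right _) (hd4'.mul_right _)
  -- `gcd (g2, d3) ∣ 3`
  have a4 : g2 * d3' ∣ 3 * D := by
    refine mul_dvd_of_gcd a2 a3 ?_
    set g := (Int.gcd g2 d3' : ℤ) with hgd
    have b1 : g ∣ g2 := Int.gcd_dvd_left ..
    have b2 : g ∣ d3' := Int.gcd_dvd_right ..
    have b3 : g ∣ q := b1.trans (c3.trans hdq)
    have b4 : g ∣ 2 * s + t := by
      refine unit_dvd b3 ht0 ?_
      have e : t0 * (2 * s + t) = (s * t0 - s0 * t) + (s * t0 + s0 * t + t * t0) := by ring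
      rw [e]; exact dvd_add (b1.trans c1) (b2.trans hd4)
    have b5 : g ∣ t * (t * 3) := by
      have e : t * (t * 3) = 4 * (s ^ 2 + s * t + t ^ 2) - (2 * s + t) * (2 * s + t) := by ring
      rw [e]
      exact dvd_sub (((b1.trans c3).trans h1).mul_left _) (b4.mul_right _)
    exact unit_dvd b3 ht (unit_dvd b3 ht b5)
  rw [← hd3] at a4
  -- first factor
  set g1 : ℤ := (Int.gcd q (s - t) : ℤ) with hg1
  have f1 : g1 ∣ s - t := Int.gcd_dvd_right ..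
  have f2 : g1 ∣ s' - t' := by rw [hg1, hg]; exact Int.gcd_dvd_right ..
  have f3 : g1 ∣ 3 * D := by
    refine Dvd.dvd.mul_left ?_ _
    have e : D = (s - t) * t' - (s' - t') * t := by rw [hD]; ring
    rw [e]; exact dvd_sub (f1.mul_right _) (f2.mul_right _)
  have f4 : g1 * d ∣ 3 * (3 * D) := by
    refine mul_dvd_of_gcd f3 a4 ?_
    set g := (Int.gcd g1 d : ℤ) with hgd
    have b1 : g ∣ g1 := Int.gcd_dvd_left ..
    have b2 : g ∣ d := Int.gcd_dvd_right ..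
    have b3 : g ∣ q := b2.trans hdq
    have b5 : g ∣ s * (t * 3) := by
      have e : s * (t * 3) = (s ^ 2 + s * t + t ^ 2) - (s - t) * (s - t) := by ring
      rw [e]
      exact dvd_sub (b2.trans h1) ((b1.trans f1).mul_right _)
    exact unit_dvd b3 ht (unit_dvd b3 hs b5)
  rw [← hd] at f4
  have e : 9 * D = 3 * (3 * D) := by ring
  rw [e]
  exact f4

theorem card_pow_coprime (e q L : ℕ) (he1 : 1 ≤ e) (he3 : e ≤ 3) (hq : 1 ≤ q) :
    ((((cop q L) ×ˢ (cop q L)).filter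
      (fun p => Nat.Coprime p.1 p.2 ∧ p.1 ^ e ≡ p.2 ^ e [MOD q])).card : ℝ)
        ≤ 54 * (q.divisors.card : ℝ) ^ 2 * (1 + (L : ℝ) ^ 2 / q) := by
  classical
  set P := (((cop q L) ×ˢ (cop q L)).filter
      (fun p => Nat.Coprime p.1 p.2 ∧ p.1 ^ e ≡ p.2 ^ e [MOD q])) with hP
  have hq0 : (q : ℤ) ≠ 0 := by exact_mod_cast (by omega : q ≠ 0)
  have hmem : ∀ p ∈ P, (1 ≤ p.1 ∧ p.1 ≤ L ∧ 1 ≤ p.2 ∧ p.2 ≤ L ∧ Nat.Coprime p.1 p.2) ∧
      IsCoprime (p.1 : ℤ) q ∧ IsCoprime (p.2 : ℤ) q ∧ (q : ℤ) ∣ (p.1 : ℤ) ^ e - (p.2 : ℤ) ^ e := by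
    intro p hp
    simp only [hP, cop, mem_filter, mem_product, mem_Icc] at hp
    obtain ⟨⟨⟨⟨a1, a2⟩, a3⟩, ⟨b1, b2⟩, b3⟩, c1, c2⟩ := hp
    refine ⟨⟨a1, a2, b1, b2, c1⟩, Nat.isCoprime_iff_coprime.2 a3, Nat.isCoprime_iff_coprime.2 b3, ?_⟩
    have := Nat.modEq_iff_dvd.1 c2.symm
    push_cast at this
    exact this
  have hgq : ∀ x : ℤ, Int.gcd (q : ℤ) x ∣ q := fun x =>
    Int.natCast_dvd_natCast.1 (Int.gcd_dvd_left ..)
  have hcase : e = 1 ∨ e = 2 ∨ e = 3 := by omega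
  rcases hcase with he | he | he
  · subst he
    refine card_class q 1 L hq le_rfl (by norm_num) P (fun _ => (1, 1)) (fun p hp => (hmem p hp).1)
      (fun p hp => ⟨one_dvd _, one_dvd _⟩) ?_
    intro p hp r hr _
    have h1 := (hmem p hp).2.2.2
    have h2 := (hmem r hr).2.2.2
    rw [pow_one, pow_one] at h1 h2
    refine Dvd.dvd.mul_left ?_ _
    have e : (p.1 : ℤ) * r.2 - (r.1 : ℤ) * p.2 = (p.1 - p.2) * r.2 - (r.1 - r.2) * p.2 := by ring
    rw [e]; exact dvd_sub (h1.mul_right _) (h2.mul_right _)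
  · subst he
    refine card_class q 2 L hq (by norm_num) (by norm_num) P
      (fun p => (Int.gcd (q : ℤ) ((p.1 : ℤ) - p.2), 1))
      (fun p hp => (hmem p hp).1) (fun p hp => ⟨hgq _, one_dvd _⟩) ?_
    intro p hp r hr hpr
    obtain ⟨-, u1, -, h1⟩ := hmem p hp
    obtain ⟨-, -, -, h2⟩ := hmem r hr
    have e1 : ∀ a b : ℤ, a ^ 2 - b ^ 2 = (a - b) * (a + b) := fun a b => by ring
    rw [e1] at h1 h2
    exact dvd_two_case hq0 u1 h1 h2 (Prod.ext_iff.1 hpr).1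
  · subst he
    set g : ℕ × ℕ → ℕ := fun p => Int.gcd (q : ℤ) ((p.1 : ℤ) - p.2) with hg
    set ref : ℕ → ℕ × ℕ := fun k => if h : ∃ r ∈ P, g r = k then h.choose else (1, 1) with href
    have hrefs : ∀ p ∈ P, ref (g p) ∈ P ∧ g (ref (g p)) = g p := by
      intro p hp
      have h : ∃ r ∈ P, g r = g p := ⟨p, hp, rfl⟩
      have e : ref (g p) = h.choose := by rw [href]; exact dif_pos h
      rw [e]
      exact h.choose_spec
    refine card_class q 9 L hq (by norm_num) (by norm_num) P (fun p => (g p, Int.gcd ((q : ℤ) / (g p : ℤ))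
      ((p.1 : ℤ) * (ref (g p)).2 - ((ref (g p)).1 : ℤ) * p.2)))
      (fun p hp => (hmem p hp).1) ?_ ?_
    · intro p hp
      refine ⟨hgq _, ?_⟩
      have : ((q : ℤ) / (g p : ℤ)) ∣ q := Int.ediv_dvd_of_dvd (Int.gcd_dvd_left ..)
      exact Int.natCast_dvd_natCast.1 ((Int.gcd_dvd_left ..).trans this)
    · intro p hp r hr hpr
      obtain ⟨e1, e2⟩ := Prod.ext_iff.1 hpr
      simp only at e1 e2
      obtain ⟨-, u1, u2, h1⟩ := hmem p hp
      obtain ⟨-, v1, v2, h2⟩ := hmem r hr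
      obtain ⟨m0, m1⟩ := hrefs p hp
      obtain ⟨-, w1, w2, h3⟩ := hmem _ m0
      have e3 : ∀ a b : ℤ, a ^ 3 - b ^ 3 = (a - b) * (a ^ 2 + a * b + b ^ 2) := fun a b => by ring
      rw [e3] at h1 h2 h3
      obtain ⟨d, hd, hd2⟩ := split_mod hq0 h1
      obtain ⟨d', hd', hd2'⟩ := split_mod hq0 h2
      obtain ⟨d0, hd0, hd20⟩ := split_mod hq0 h3
      have k1 : (Int.gcd (q : ℤ) ((p.1 : ℤ) - p.2) : ℤ) = (g p : ℤ) := rfl
      have k2 : (Int.gcd (q : ℤ) ((r.1 : ℤ) - r.2) : ℤ) = (g p : ℤ) := by rw [e1]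
      have k3 : (Int.gcd (q : ℤ) (((ref (g p)).1 : ℤ) - (ref (g p)).2) : ℤ) = (g p : ℤ) := by
        exact congrArg (fun n : ℕ => (n : ℤ)) m1
      have hg0 : (g p : ℤ) ≠ 0 := by
        intro h0
        rw [k1, h0, zero_mul] at hd
        exact hq0 hd
      rw [k1] at hd
      rw [k2] at hd'
      rw [k3] at hd0
      have q1 : d' = d := (mul_left_cancel₀ hg0 (hd.symm.trans hd')).symm
      have q2 : d0 = d := (mul_left_cancel₀ hg0 (hd.symm.trans hd0)).symm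
      subst q1
      subst q2
      have q3 : (q : ℤ) / (g p : ℤ) = d0 := by
        rw [hd]; exact Int.mul_ediv_cancel_left _ hg0
      rw [← e1, q3] at e2
      exact dvd_three_case hq0 u1 u2 w2 e1 (by rw [k1]; exact hd) hd2 hd2' hd20 e2

theorem sum_inv_sq (n : ℕ) (hn : 1 ≤ n) :
    ∑ d ∈ Icc 1 n, (1 : ℝ) / (d : ℝ) ^ 2 ≤ 2 - 1 / n := by
  induction n, hn using Nat.le_induction with
  | base => norm_num
  | succ n hn ih =>
    rw [sum_Icc_succ_top (by omega)]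
    have h0 : (0 : ℝ) < n := by exact_mod_cast hn
    have h1 : (1 : ℝ) / ((n + 1 : ℕ) : ℝ) ^ 2 ≤ 1 / n - 1 / ((n + 1 : ℕ) : ℝ) := by
      push_cast
      rw [div_sub_div _ _ h0.ne' (by positivity), div_le_div_iff₀ (by positivity) (by positivity)]
      nlinarith
    linarith

theorem card_pow_all (e q Z : ℕ) (he1 : 1 ≤ e) (he3 : e ≤ 3) (hq : 1 ≤ q) :
    ((((cop q Z) ×ˢ (cop q Z)).filter (fun p => p.1 ^ e ≡ p.2 ^ e [MOD q])).card : ℝ)
        ≤ 108 * (q.divisors.card : ℝ) ^ 2 * ((Z : ℝ) + (Z : ℝ) ^ 2 / q) := by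
  classical
  set S := (((cop q Z) ×ˢ (cop q Z)).filter (fun p => p.1 ^ e ≡ p.2 ^ e [MOD q])) with hS
  have hq' : (0 : ℝ) < q := by exact_mod_cast hq
  rcases Nat.eq_zero_or_pos Z with hZ | hZ
  · subst hZ
    have : S = ∅ := by
      rw [hS]
      have : cop q 0 = ∅ := by simp [cop]
      simp [this]
    rw [this]
    simp
  have hmaps : ∀ p ∈ S, Nat.gcd p.1 p.2 ∈ Icc 1 Z := by
    intro p hp
    simp only [hS, cop, mem_filter, mem_product, mem_Icc] at hp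
    rw [mem_Icc]
    exact ⟨Nat.gcd_pos_of_pos_left _ (by omega),
      (Nat.gcd_le_left _ (by omega)).trans (by omega)⟩
  rw [card_eq_sum_card_fiberwise hmaps]
  push_cast
  have hb : ∀ d ∈ Icc 1 Z, ((S.filter (fun p => Nat.gcd p.1 p.2 = d)).card : ℝ) ≤
      54 * (q.divisors.card : ℝ) ^ 2 * (1 + (Z : ℝ) ^ 2 / q * (1 / (d : ℝ) ^ 2)) := by
    intro d hd
    rw [mem_Icc] at hd
    have hd0 : 0 < d := by omega
    have hd' : (0 : ℝ) < d := by exact_mod_cast hd0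
    have h := card_pow_coprime e q (Z / d) he1 he3 hq
    have hle : (S.filter (fun p => Nat.gcd p.1 p.2 = d)).card ≤
        (((cop q (Z / d)) ×ˢ (cop q (Z / d))).filter
          (fun p => Nat.Coprime p.1 p.2 ∧ p.1 ^ e ≡ p.2 ^ e [MOD q])).card := by
      refine card_le_card_of_injOn (fun p => (p.1 / d, p.2 / d)) ?_ ?_
      · intro p hp
        simp only [hS, cop, coe_filter, mem_filter, mem_product, mem_Icc, Set.mem_ofPred_eq] at hp ⊢
        obtain ⟨⟨⟨⟨⟨a1, a2⟩, a3⟩, ⟨b1, b2⟩, b3⟩, c1⟩, c2⟩ := hp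
        have d1 : d ∣ p.1 := c2 ▸ Nat.gcd_dvd_left _ _
        have d2 : d ∣ p.2 := c2 ▸ Nat.gcd_dvd_right _ _
        obtain ⟨s, hs⟩ := d1
        obtain ⟨t, ht⟩ := d2
        have hs1 : p.1 / d = s := by rw [hs]; exact Nat.mul_div_cancel_left _ hd0
        have ht1 : p.2 / d = t := by rw [ht]; exact Nat.mul_div_cancel_left _ hd0
        have hdq : Nat.Coprime d q := Nat.Coprime.coprime_dvd_left (Dvd.intro _ hs.symm) a3
        have hsq : Nat.Coprime s q :=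
          Nat.Coprime.coprime_dvd_left (Dvd.intro_left _ hs.symm) a3
        have htq : Nat.Coprime t q :=
          Nat.Coprime.coprime_dvd_left (Dvd.intro_left _ ht.symm) b3
        rw [hs1, ht1]
        refine ⟨⟨⟨⟨?_, ?_⟩, hsq⟩, ⟨?_, ?_⟩, htq⟩, ?_, ?_⟩
        · rcases Nat.eq_zero_or_pos s with h0 | h0
          · rw [h0, mul_zero] at hs; omega
          · exact h0
        · rw [Nat.le_div_iff_mul_le hd0, mul_comm, ← hs]; exact a2
        · rcases Nat.eq_zero_or_pos t with h0 | h0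
          · rw [h0, mul_zero] at ht; omega
          · exact h0
        · rw [Nat.le_div_iff_mul_le hd0, mul_comm, ← ht]; exact b2
        · rw [hs, ht, Nat.gcd_mul_left] at c2
          exact Nat.eq_of_mul_eq_mul_left hd0 (by rw [c2, mul_one])
        · rw [hs, ht, mul_pow, mul_pow] at c1
          exact Nat.ModEq.cancel_left_of_coprime
            (by rw [Nat.gcd_comm]; exact Nat.Coprime.pow_left e hdq) c1
      · intro p hp r hr hpr
        simp only [hS, cop, coe_filter, mem_filter, mem_product, mem_Icc,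
          Set.mem_ofPred_eq] at hp hr
        have d1 : d ∣ p.1 := hp.2 ▸ Nat.gcd_dvd_left _ _
        have d2 : d ∣ p.2 := hp.2 ▸ Nat.gcd_dvd_right _ _
        have d3 : d ∣ r.1 := hr.2 ▸ Nat.gcd_dvd_left _ _
        have d4 : d ∣ r.2 := hr.2 ▸ Nat.gcd_dvd_right _ _
        obtain ⟨e1, e2⟩ := Prod.ext_iff.1 hpr
        simp only at e1 e2
        exact Prod.ext (Nat.div_left_inj d1 d3 |>.1 e1) (Nat.div_left_inj d2 d4 |>.1 e2)
    refine (Nat.cast_le.2 hle).trans (h.trans ?_)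
    have h3 : (((Z / d : ℕ) : ℝ)) ≤ (Z : ℝ) / d := Nat.cast_div_le
    have h4 : (((Z / d : ℕ) : ℝ)) ^ 2 ≤ ((Z : ℝ) / d) ^ 2 :=
      pow_le_pow_left₀ (by positivity) h3 2
    have h5 : (((Z / d : ℕ) : ℝ)) ^ 2 / q ≤ (Z : ℝ) ^ 2 / q * (1 / (d : ℝ) ^ 2) := by
      have e5 : (Z : ℝ) ^ 2 / q * (1 / (d : ℝ) ^ 2) = ((Z : ℝ) / d) ^ 2 / q := by
        field_simp
      rw [e5]
      gcongr
    gcongr
  refine (sum_le_sum hb).trans ?_
  rw [← mul_sum, sum_add_distrib, ← mul_sum]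
  have h6 := sum_inv_sq Z hZ
  have h7 : (0 : ℝ) ≤ 1 / Z := by positivity
  have h8 : ∑ _d ∈ Icc 1 Z, (1 : ℝ) = Z := by simp
  rw [h8]
  have h9 : (0 : ℝ) ≤ (Z : ℝ) ^ 2 / q := by positivity
  have h10 : (Z : ℝ) ^ 2 / q * ∑ d ∈ Icc 1 Z, (1 : ℝ) / (d : ℝ) ^ 2 ≤ (Z : ℝ) ^ 2 / q * 2 :=
    mul_le_mul_of_nonneg_left (by linarith) h9
  have h11 : (0 : ℝ) ≤ (q.divisors.card : ℝ) ^ 2 := by positivity
  have h12 : (0 : ℝ) ≤ (Z : ℝ) := by positivity
  have h13 : 54 * (q.divisors.card : ℝ) ^ 2 * (Z + (Z : ℝ) ^ 2 / q *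
      ∑ d ∈ Icc 1 Z, (1 : ℝ) / (d : ℝ) ^ 2) ≤
      54 * (q.divisors.card : ℝ) ^ 2 * (2 * ((Z : ℝ) + (Z : ℝ) ^ 2 / q)) := by
    apply mul_le_mul_of_nonneg_left _ (by positivity)
    linarith
  linarith

end AbcTR
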