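import Pool.Agent.Work.MP_a793bb_nt.TR.TRDefs
import Pool.Agent.Work.MP_a793bb_nt.TR.Tau
import Pool.Agent.Work.MP_a793bb_nt.TR.Powers

set_option autoImplicit false

namespace AbcTR

open Finset

/-! ### membership in `cop` -/

private theorem mem_cop {q Y x : ℕ} : x ∈ cop q Y ↔ 1 ≤ x ∧ x ≤ Y ∧ Nat.Coprime x q := by
  simp [cop, and_assoc]

private theorem card_cop_le (q Y : ℕ) : (cop q Y).card ≤ Y := by
  calc (cop q Y).card ≤ (Icc 1 Y).card := card_filter_le _ _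
    _ = Y := by simp

/-! ### fibrewise counting with real bounds -/

private theorem card_le_of_fibre {α β : Type*} [DecidableEq β] (s : Finset α) (t : Finset β)
    (f : α → β) (M : ℝ) (hf : ∀ a ∈ s, f a ∈ t)
    (hM : ∀ b ∈ t, ((s.filter (fun a => f a = b)).card : ℝ) ≤ M) :
    (s.card : ℝ) ≤ (t.card : ℝ) * M := by
  have h1 : s.card = ∑ b ∈ t, (s.filter (fun a => f a = b)).card :=
    card_eq_sum_card_fiberwise hf
  rw [h1, Nat.cast_sum]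
  calc ∑ b ∈ t, ((s.filter (fun a => f a = b)).card : ℝ) ≤ ∑ _b ∈ t, M := sum_le_sum hM
    _ = (t.card : ℝ) * M := by rw [sum_const, nsmul_eq_mul]

/-- residue classes -/
private theorem card_class_le (q N r : ℕ) (hq : 1 ≤ q) :
    (((Icc 1 N).filter (fun n => n ≡ r [MOD q])).card : ℝ) ≤ 1 + (N : ℝ) / q := by
  have h1 : ((Icc 1 N).filter (fun n => n ≡ r [MOD q])).card ≤ (range (N / q + 1)).card := by
    apply card_le_card_of_injOn (fun n => n / q)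
    · intro n hn
      simp only [coe_filter, mem_Icc, Set.mem_ofPred_eq] at hn
      simp only [coe_range, Set.mem_Iio]
      exact Nat.lt_succ_of_le (Nat.div_le_div_right hn.1.2)
    · intro n hn m hm h
      simp only [coe_filter, mem_Icc, Set.mem_ofPred_eq] at hn hm
      have h2 : n % q = m % q := hn.2.trans hm.2.symm
      have h3 : n / q = m / q := h
      rw [← Nat.div_add_mod n q, ← Nat.div_add_mod m q, h2, h3]
  rw [card_range] at h1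
  have h2 : (((N / q : ℕ) : ℝ)) ≤ (N : ℝ) / q := Nat.cast_div_le
  have h3 : (((Icc 1 N).filter (fun n => n ≡ r [MOD q])).card : ℝ) ≤ ((N / q + 1 : ℕ) : ℝ) := by
    exact_mod_cast h1
  push_cast at h3
  linarith

/-- coprime solutions of `s a³ = t b³` -/
private def Tq (q L A : ℕ) : Finset ((ℕ × ℕ) × (ℕ × ℕ)) :=
  (((cop q L) ×ˢ (cop q L)) ×ˢ ((cop q A) ×ˢ (cop q A))).filter
    (fun p => Nat.Coprime p.1.1 p.1.2 ∧ p.1.1 * p.2.1 ^ 3 ≡ p.1.2 * p.2.2 ^ 3 [MOD q])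

private theorem mem_Tq {q L A : ℕ} {p : (ℕ × ℕ) × (ℕ × ℕ)} :
    p ∈ Tq q L A ↔ p.1.1 ∈ cop q L ∧ p.1.2 ∈ cop q L ∧ p.2.1 ∈ cop q A ∧ p.2.2 ∈ cop q A ∧
      Nat.Coprime p.1.1 p.1.2 ∧ p.1.1 * p.2.1 ^ 3 ≡ p.1.2 * p.2.2 ^ 3 [MOD q] := by
  simp only [Tq, mem_filter, mem_product]
  tauto

/-- (ii) -/
private theorem Tq_ii (q L A : ℕ) (hq : 1 ≤ q) :
    ((Tq q L A).card : ℝ) ≤ (A : ℝ) ^ 2 * (2 * (1 + (L : ℝ) ^ 2 / q)) := by
  classical
  have h1 := card_le_of_fibre (Tq q L A) ((cop q A) ×ˢ (cop q A)) Prod.snd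
    (2 * (1 + (L : ℝ) ^ 2 / q)) (by
      intro p hp
      rw [mem_Tq] at hp
      exact mem_product.mpr ⟨hp.2.2.1, hp.2.2.2.1⟩) (by
      rintro ⟨a, b⟩ hab
      rw [mem_product] at hab
      have ha := mem_cop.mp hab.1
      refine le_trans ?_ (card_lin q (a ^ 3) (b ^ 3) L hq (ha.2.2.pow_left 3))
      have : ((Tq q L A).filter (fun p => p.2 = (a, b))).card ≤
          (((Icc 1 L) ×ˢ (Icc 1 L)).filter
            (fun p => Nat.Coprime p.1 p.2 ∧ a ^ 3 * p.1 ≡ b ^ 3 * p.2 [MOD q])).card := by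
        apply card_le_card_of_injOn (fun p => p.1)
        · intro p hp
          simp only [coe_filter, Set.mem_ofPred_eq] at hp
          obtain ⟨hp1, hp2⟩ := hp
          rw [mem_Tq] at hp1
          obtain ⟨h1, h2, h3, h4, h5, h6⟩ := hp1
          rw [mem_cop] at h1 h2
          rw [hp2] at h6
          simp only [coe_filter, mem_product, mem_Icc, Set.mem_ofPred_eq]
          refine ⟨⟨⟨h1.1, h1.2.1⟩, ⟨h2.1, h2.2.1⟩⟩, h5, ?_⟩
          rw [mul_comm (a ^ 3), mul_comm (b ^ 3)]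
          exact h6
        · intro p hp r hr h
          simp only [coe_filter, Set.mem_ofPred_eq] at hp hr
          exact Prod.ext h (hp.2.trans hr.2.symm)
      exact_mod_cast this)
  have h2 : ((((cop q A) ×ˢ (cop q A)).card : ℕ) : ℝ) ≤ (A : ℝ) ^ 2 := by
    rw [card_product]
    have := Nat.mul_le_mul (card_cop_le q A) (card_cop_le q A)
    have h3 : (((cop q A).card * (cop q A).card : ℕ) : ℝ) ≤ ((A * A : ℕ) : ℝ) := by
      exact_mod_cast this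
    rw [Nat.cast_mul A A] at h3
    rw [sq]; exact h3
  refine h1.trans (mul_le_mul_of_nonneg_right h2 (by positivity))

/-- (i) -/
private theorem Tq_i (q L A : ℕ) (hq : 1 ≤ q) (D : ℝ) (hD0 : 0 ≤ D)
    (hD : ∀ n : ℕ, 1 ≤ n → n ≤ L * A ^ 3 → (n.divisors.card : ℝ) ≤ D) :
    ((Tq q L A).card : ℝ) ≤ ((L : ℝ) * A) * ((1 + (L : ℝ) * (A : ℝ) ^ 3 / q) * D) := by
  classical
  have h1 := card_le_of_fibre (Tq q L A) ((cop q L) ×ˢ (cop q A)) (fun p => (p.1.1, p.2.1))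
    ((1 + (L : ℝ) * (A : ℝ) ^ 3 / q) * D) (by
      intro p hp
      rw [mem_Tq] at hp
      exact mem_product.mpr ⟨hp.1, hp.2.2.1⟩) (by
      rintro ⟨s, a⟩ hsa
      -- second fibration
      have h2 := card_le_of_fibre ((Tq q L A).filter (fun p => (p.1.1, p.2.1) = (s, a)))
        ((Icc 1 (L * A ^ 3)).filter (fun n => n ≡ s * a ^ 3 [MOD q]))
        (fun p => p.1.2 * p.2.2 ^ 3) D (by
          intro p hp
          rw [mem_filter, mem_Tq] at hp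
          obtain ⟨⟨h1, h2, h3, h4, h5, h6⟩, h7⟩ := hp
          rw [mem_cop] at h1 h2 h3 h4
          rw [Prod.mk.injEq] at h7
          rw [h7.1, h7.2] at h6
          rw [mem_filter, mem_Icc]
          refine ⟨⟨?_, ?_⟩, h6.symm⟩
          · exact Nat.mul_pos h2.1 (pow_pos h4.1 3)
          · exact Nat.mul_le_mul h2.2.1 (Nat.pow_le_pow_left h4.2.1 3)) (by
          intro n hn
          rw [mem_filter, mem_Icc] at hn
          refine le_trans ?_ (hD n hn.1.1 hn.1.2)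
          have : (((Tq q L A).filter (fun p => (p.1.1, p.2.1) = (s, a))).filter
              (fun p => p.1.2 * p.2.2 ^ 3 = n)).card ≤ n.divisors.card := by
            apply card_le_card_of_injOn (fun p => p.2.2)
            · intro p hp
              simp only [coe_filter, Set.mem_ofPred_eq, mem_filter] at hp
              simp only [mem_coe, Nat.mem_divisors]
              refine ⟨?_, by omega⟩
              rw [← hp.2]
              exact Dvd.dvd.mul_left (dvd_pow_self _ (by norm_num)) _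
            · intro p hp r hr h
              simp only [coe_filter, Set.mem_ofPred_eq, mem_filter, Prod.mk.injEq] at hp hr
              have hb : p.2.2 = r.2.2 := h
              have h8 := hp.1.1
              rw [mem_Tq, mem_cop, mem_cop, mem_cop, mem_cop] at h8
              have hpos : 0 < p.2.2 ^ 3 := pow_pos h8.2.2.2.1.1 3
              have ht : p.1.2 = r.1.2 := by
                have e1 : p.1.2 * p.2.2 ^ 3 = r.1.2 * p.2.2 ^ 3 := by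
                  rw [hp.2, hb, hr.2]
                exact Nat.eq_of_mul_eq_mul_right hpos e1
              exact Prod.ext (Prod.ext (hp.1.2.1.trans hr.1.2.1.symm) ht)
                (Prod.ext (hp.1.2.2.trans hr.1.2.2.symm) hb)
          exact_mod_cast this)
      refine h2.trans (mul_le_mul_of_nonneg_right ?_ hD0)
      have h3 := card_class_le q (L * A ^ 3) (s * a ^ 3) hq
      push_cast at h3
      exact h3)
  have h2 : ((((cop q L) ×ˢ (cop q A)).card : ℕ) : ℝ) ≤ (L : ℝ) * A := by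
    rw [card_product]
    have := Nat.mul_le_mul (card_cop_le q L) (card_cop_le q A)
    exact_mod_cast this
  refine h1.trans (mul_le_mul_of_nonneg_right h2 (by positivity))

/-- all solutions of `U a³ = V b³` -/
private def Nq (q Z A : ℕ) : Finset ((ℕ × ℕ) × (ℕ × ℕ)) :=
  (((cop q Z) ×ˢ (cop q Z)) ×ˢ ((cop q A) ×ˢ (cop q A))).filter
    (fun p => p.1.1 * p.2.1 ^ 3 ≡ p.1.2 * p.2.2 ^ 3 [MOD q])

private theorem mem_Nq {q Z A : ℕ} {p : (ℕ × ℕ) × (ℕ × ℕ)} :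
    p ∈ Nq q Z A ↔ p.1.1 ∈ cop q Z ∧ p.1.2 ∈ cop q Z ∧ p.2.1 ∈ cop q A ∧ p.2.2 ∈ cop q A ∧
      p.1.1 * p.2.1 ^ 3 ≡ p.1.2 * p.2.2 ^ 3 [MOD q] := by
  simp only [Nq, mem_filter, mem_product]
  tauto

private theorem Nq_le (q Z A : ℕ) :
    (Nq q Z A).card ≤ ∑ j ∈ range (Nat.log 2 Z + 1), (Z / 2 ^ j) * (Tq q (2 ^ (j + 1)) A).card := by
  classical
  have h1 : (Nq q Z A).card = ∑ j ∈ range (Nat.log 2 Z + 1),
      ((Nq q Z A).filter (fun p => Nat.log 2 (max (p.1.1 / Nat.gcd p.1.1 p.1.2)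
        (p.1.2 / Nat.gcd p.1.1 p.1.2)) = j)).card := by
    apply card_eq_sum_card_fiberwise
    intro p hp
    rw [mem_coe, mem_Nq] at hp
    obtain ⟨h1, h2, -⟩ := hp
    rw [mem_cop] at h1 h2
    rw [mem_coe, mem_range]
    apply Nat.lt_succ_of_le
    apply Nat.log_mono_right
    apply max_le
    · exact (Nat.div_le_self _ _).trans h1.2.1
    · exact (Nat.div_le_self _ _).trans h2.2.1
  rw [h1]
  apply sum_le_sum
  intro j hj
  have h2 : (Z / 2 ^ j) * (Tq q (2 ^ (j + 1)) A).card =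
      ((Icc 1 (Z / 2 ^ j)) ×ˢ (Tq q (2 ^ (j + 1)) A)).card := by
    rw [card_product]; simp
  rw [h2]
  apply card_le_card_of_injOn (fun p => (Nat.gcd p.1.1 p.1.2,
    ((p.1.1 / Nat.gcd p.1.1 p.1.2, p.1.2 / Nat.gcd p.1.1 p.1.2), p.2)))
  · rintro ⟨⟨U, V⟩, a, b⟩ hp
    simp only [coe_filter, Set.mem_ofPred_eq, mem_Nq] at hp
    obtain ⟨⟨h3, h4, h5, h6, h7⟩, h8⟩ := hp
    rw [mem_cop] at h3 h4
    set d := Nat.gcd U V with hd
    have hd0 : 0 < d := Nat.gcd_pos_of_pos_left V h3.1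
    have hdU : d ∣ U := Nat.gcd_dvd_left U V
    have hdV : d ∣ V := Nat.gcd_dvd_right U V
    have hU : d * (U / d) = U := Nat.mul_div_cancel' hdU
    have hV : d * (V / d) = V := Nat.mul_div_cancel' hdV
    have hs0 : 0 < U / d := Nat.div_pos (Nat.le_of_dvd h3.1 hdU) hd0
    have ht0 : 0 < V / d := Nat.div_pos (Nat.le_of_dvd h4.1 hdV) hd0
    have hM0 : max (U / d) (V / d) ≠ 0 := by
      have := le_max_left (U / d) (V / d)
      omega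
    have hlo : 2 ^ j ≤ max (U / d) (V / d) := by
      rw [← h8]; exact Nat.pow_log_le_self 2 hM0
    have hhi : max (U / d) (V / d) < 2 ^ (j + 1) := by
      rw [← h8]; exact Nat.lt_pow_succ_log_self (by norm_num) _
    have hdZ : d * max (U / d) (V / d) ≤ Z := by
      rcases le_total (U / d) (V / d) with h | h
      · rw [max_eq_right h, hV]; exact h4.2.1
      · rw [max_eq_left h, hU]; exact h3.2.1
    simp only [coe_product, Set.mem_prod, mem_coe, mem_Icc, mem_Tq, mem_cop]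
    refine ⟨⟨hd0, ?_⟩, ⟨hs0, ?_, ?_⟩, ⟨ht0, ?_, ?_⟩, ?_, ?_, ?_, ?_⟩
    · rw [Nat.le_div_iff_mul_le (by positivity)]
      exact (Nat.mul_le_mul_left d hlo).trans hdZ
    · exact ((le_max_left _ _).trans_lt hhi).le
    · exact Nat.Coprime.coprime_dvd_left (Nat.div_dvd_of_dvd hdU) h3.2.2
    · exact ((le_max_right _ _).trans_lt hhi).le
    · exact Nat.Coprime.coprime_dvd_left (Nat.div_dvd_of_dvd hdV) h4.2.2
    · exact mem_cop.mp h5
    · exact mem_cop.mp h6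
    · exact Nat.coprime_div_gcd_div_gcd hd0
    · have hdq : Nat.Coprime d q := Nat.Coprime.coprime_dvd_left hdU h3.2.2
      have e1 : d * ((U / d) * a ^ 3) ≡ d * ((V / d) * b ^ 3) [MOD q] := by
        rw [← mul_assoc, ← mul_assoc, hU, hV]; exact h7
      exact Nat.ModEq.cancel_left_of_coprime (by rw [Nat.gcd_comm]; exact hdq) e1
  · rintro ⟨⟨U, V⟩, a, b⟩ hp ⟨⟨U', V'⟩, a', b'⟩ hp' h
    simp only [Prod.mk.injEq] at h
    obtain ⟨h9, ⟨h10, h11⟩, h12, h13⟩ := h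
    have hU : U = U' := by
      rw [← Nat.mul_div_cancel' (Nat.gcd_dvd_left U V),
        ← Nat.mul_div_cancel' (Nat.gcd_dvd_left U' V'), h10, h9]
    have hV : V = V' := by
      rw [← Nat.mul_div_cancel' (Nat.gcd_dvd_right U V),
        ← Nat.mul_div_cancel' (Nat.gcd_dvd_right U' V'), h11, h9]
    rw [hU, hV, h12, h13]

/-- the analytic estimate for one dyadic block -/
private theorem block_le (Z A L E q P : ℝ) (hZ : 0 < Z) (hA : 0 < A) (hL : 0 < L) (hE : 1 ≤ E)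
    (hq : 0 < q) (hP0 : 0 ≤ P) (hLZ : L ≤ 2 * Z)
    (h1 : P ≤ (L * A) * ((1 + L * A ^ 3 / q) * E)) (h2 : P ≤ A ^ 2 * (2 * (1 + L ^ 2 / q))) :
    (2 * Z / L) * P ≤ 16 * E * (Z * A + Z * A ^ 3 / Real.sqrt q + Z ^ 2 * A ^ 2 / q) := by
  have hsq : 0 < Real.sqrt q := Real.sqrt_pos.mpr hq
  have hE0 : 0 < E := by linarith
  rcases le_or_gt q (L ^ 2) with h | h
  · -- `L² ≥ q`
    have h3 : 1 + L ^ 2 / q ≤ 2 * (L ^ 2 / q) := by
      have : 1 ≤ L ^ 2 / q := by rwa [le_div_iff₀ hq, one_mul]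
      linarith
    have h4 : (2 * Z / L) * P ≤ (2 * Z / L) * (A ^ 2 * (2 * (2 * (L ^ 2 / q)))) := by
      apply mul_le_mul_of_nonneg_left _ (by positivity)
      refine h2.trans ?_
      gcongr
    have h5 : (2 * Z / L) * (A ^ 2 * (2 * (2 * (L ^ 2 / q)))) = 8 * Z * A ^ 2 * L / q := by
      field_simp
      ring
    have h6 : 8 * Z * A ^ 2 * L / q ≤ 16 * (Z ^ 2 * A ^ 2 / q) := by
      rw [div_le_iff₀ hq]
      have : 16 * (Z ^ 2 * A ^ 2 / q) * q = 16 * (Z ^ 2 * A ^ 2) := by field_simp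
      rw [this]
      have h7 : 8 * Z * A ^ 2 * L ≤ 8 * Z * A ^ 2 * (2 * Z) := by gcongr
      nlinarith [h7]
    have h7 : 16 * (Z ^ 2 * A ^ 2 / q) ≤
        16 * E * (Z * A + Z * A ^ 3 / Real.sqrt q + Z ^ 2 * A ^ 2 / q) := by
      have e1 : 0 ≤ Z * A := by positivity
      have e2 : 0 ≤ Z * A ^ 3 / Real.sqrt q := by positivity
      have e3 : 0 ≤ Z ^ 2 * A ^ 2 / q := by positivity
      calc 16 * (Z ^ 2 * A ^ 2 / q) = 16 * 1 * (0 + 0 + Z ^ 2 * A ^ 2 / q) := by ring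
        _ ≤ 16 * E * (Z * A + Z * A ^ 3 / Real.sqrt q + Z ^ 2 * A ^ 2 / q) := by gcongr
    linarith
  · -- `L² < q`
    set x := 2 * Z * A * E with hx
    set y := 2 * Z * A ^ 4 * L * E / q with hy
    set z := 8 * Z * A ^ 2 / L with hz
    have hx0 : 0 ≤ x := by positivity
    have hy0 : 0 ≤ y := by positivity
    have hz0 : 0 ≤ z := by positivity
    have hm1 : (2 * Z / L) * P ≤ x + y := by
      calc (2 * Z / L) * P ≤ (2 * Z / L) * ((L * A) * ((1 + L * A ^ 3 / q) * E)) := by gcongr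
        _ = x + y := by rw [hx, hy]; field_simp
    have hm2 : (2 * Z / L) * P ≤ z := by
      have h3 : L ^ 2 / q ≤ 1 := by rw [div_le_iff₀ hq]; linarith
      calc (2 * Z / L) * P ≤ (2 * Z / L) * (A ^ 2 * (2 * (1 + L ^ 2 / q))) := by gcongr
        _ ≤ (2 * Z / L) * (A ^ 2 * (2 * (1 + 1))) := by gcongr
        _ = z := by rw [hz]; ring
    have hyz : y * z = (4 * Z * A ^ 3 / Real.sqrt q) ^ 2 * E := by
      rw [hy, hz, div_pow, Real.sq_sqrt hq.le]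
      field_simp
      ring
    have hmin : (2 * Z / L) * P ≤ x + Real.sqrt (y * z) := by
      rcases le_total y z with hh | hh
      · have : y ≤ Real.sqrt (y * z) := by
          apply Real.le_sqrt_of_sq_le
          nlinarith
        linarith
      · have : z ≤ Real.sqrt (y * z) := by
          apply Real.le_sqrt_of_sq_le
          nlinarith
        linarith
    have hs : Real.sqrt (y * z) ≤ 4 * Z * A ^ 3 / Real.sqrt q * E := by
      rw [hyz]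
      have : Real.sqrt ((4 * Z * A ^ 3 / Real.sqrt q) ^ 2 * E) ≤
          Real.sqrt ((4 * Z * A ^ 3 / Real.sqrt q * E) ^ 2) := by
        apply Real.sqrt_le_sqrt
        rw [mul_pow]
        have : E ≤ E ^ 2 := by nlinarith
        gcongr
      refine this.trans ?_
      rw [Real.sqrt_sq (by positivity)]
    calc (2 * Z / L) * P ≤ x + 4 * Z * A ^ 3 / Real.sqrt q * E := by linarith
      _ ≤ 16 * E * (Z * A + Z * A ^ 3 / Real.sqrt q + Z ^ 2 * A ^ 2 / q) := by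
        have e1 : 0 ≤ E * (Z * A) := by positivity
        have e2 : 0 ≤ E * (Z * A ^ 3 / Real.sqrt q) := by positivity
        have e3 : 0 ≤ E * (Z ^ 2 * A ^ 2 / q) := by positivity
        have e4 : x = 2 * (E * (Z * A)) := by rw [hx]; ring
        have e5 : 4 * Z * A ^ 3 / Real.sqrt q * E = 4 * (E * (Z * A ^ 3 / Real.sqrt q)) := by
          ring
        rw [e4, e5]
        nlinarith

private theorem Nq_real (q Z A : ℕ) (hq : 1 ≤ q) (hZ : 1 ≤ Z) (hA : 1 ≤ A) (E : ℝ) (hE : 1 ≤ E)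
    (hD : ∀ n : ℕ, 1 ≤ n → n ≤ 2 * Z * A ^ 3 → (n.divisors.card : ℝ) ≤ E) :
    ((Nq q Z A).card : ℝ) ≤ ((Nat.log 2 Z + 1 : ℕ) : ℝ) *
      (16 * E * ((Z : ℝ) * A + (Z : ℝ) * (A : ℝ) ^ 3 / Real.sqrt q
        + (Z : ℝ) ^ 2 * (A : ℝ) ^ 2 / q)) := by
  have h1 : ((Nq q Z A).card : ℝ) ≤
      ∑ j ∈ range (Nat.log 2 Z + 1), (((Z / 2 ^ j : ℕ) : ℝ) * ((Tq q (2 ^ (j + 1)) A).card : ℝ)) := by
    exact_mod_cast Nq_le q Z A
  refine h1.trans ?_
  have h2 : ∀ j ∈ range (Nat.log 2 Z + 1),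
      (((Z / 2 ^ j : ℕ) : ℝ) * ((Tq q (2 ^ (j + 1)) A).card : ℝ)) ≤
      16 * E * ((Z : ℝ) * A + (Z : ℝ) * (A : ℝ) ^ 3 / Real.sqrt q
        + (Z : ℝ) ^ 2 * (A : ℝ) ^ 2 / q) := by
    intro j hj
    rw [mem_range] at hj
    have hj' : 2 ^ j ≤ Z := by
      calc 2 ^ j ≤ 2 ^ (Nat.log 2 Z) := Nat.pow_le_pow_right (by norm_num) (by omega)
        _ ≤ Z := Nat.pow_log_le_self 2 (by omega)
    have hLZ : 2 ^ (j + 1) ≤ 2 * Z := by rw [pow_succ]; omega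
    have hLZ' : ((2 ^ (j + 1) : ℕ) : ℝ) ≤ 2 * (Z : ℝ) := by exact_mod_cast hLZ
    have hb := block_le (Z : ℝ) (A : ℝ) ((2 ^ (j + 1) : ℕ) : ℝ) E (q : ℝ)
      ((Tq q (2 ^ (j + 1)) A).card : ℝ) (by exact_mod_cast hZ) (by exact_mod_cast hA)
      (by positivity) hE (by exact_mod_cast hq) (by positivity) hLZ'
      (Tq_i q (2 ^ (j + 1)) A hq E (by linarith) (fun n hn1 hn2 => hD n hn1
        (hn2.trans (Nat.mul_le_mul_right _ hLZ))))
      (Tq_ii q (2 ^ (j + 1)) A hq)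
    refine le_trans ?_ hb
    apply mul_le_mul_of_nonneg_right _ (by positivity)
    have h3 : (((Z / 2 ^ j : ℕ) : ℝ)) ≤ (Z : ℝ) / ((2 ^ j : ℕ) : ℝ) := Nat.cast_div_le
    refine h3.trans (le_of_eq ?_)
    push_cast
    rw [pow_succ]
    field_simp
  calc ∑ j ∈ range (Nat.log 2 Z + 1),
        (((Z / 2 ^ j : ℕ) : ℝ) * ((Tq q (2 ^ (j + 1)) A).card : ℝ))
      ≤ ∑ _j ∈ range (Nat.log 2 Z + 1),
        (16 * E * ((Z : ℝ) * A + (Z : ℝ) * (A : ℝ) ^ 3 / Real.sqrt q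
          + (Z : ℝ) ^ 2 * (A : ℝ) ^ 2 / q)) := sum_le_sum h2
    _ = _ := by rw [sum_const, card_range, nsmul_eq_mul]

private theorem un_val {q x : ℕ} (h : Nat.Coprime x q) : ((un q x : (ZMod q)ˣ) : ZMod q) = x := by
  unfold un
  rw [dif_pos h]
  rfl

private theorem en_le (q Y W : ℕ) (E : ℝ) (hE : 0 ≤ E) (hY : 1 ≤ Y) (hW : 1 ≤ W)
    (hD : ∀ n : ℕ, 1 ≤ n → n ≤ 2 * (Y * Y) * (W * W) ^ 3 → (n.divisors.card : ℝ) ≤ E) :
    (En ((cop q Y ×ˢ cop q W) ×ˢ (cop q Y ×ˢ cop q W))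
          (dv (fun p : ℕ × ℕ => un q p.1 * un q p.2 ^ 3)) : ℝ)
      ≤ ((Nq q (Y * Y) (W * W)).card : ℝ) * E ^ 4 := by
  classical
  unfold En
  have hWW : W * W ≤ 2 * (Y * Y) * (W * W) ^ 3 := by
    have e1 : 1 ≤ 2 * (Y * Y) := by nlinarith
    have e2 : W * W ≤ (W * W) ^ 3 := Nat.le_self_pow (by norm_num) _
    nlinarith
  have hYY : Y * Y ≤ 2 * (Y * Y) * (W * W) ^ 3 := by
    have e1 : 1 ≤ (W * W) ^ 3 := Nat.one_le_pow _ _ (Nat.mul_pos hW hW)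
    nlinarith
  refine card_le_of_fibre _ (Nq q (Y * Y) (W * W))
    (fun p : ((ℕ × ℕ) × (ℕ × ℕ)) × ((ℕ × ℕ) × (ℕ × ℕ)) =>
      ((p.1.1.1 * p.2.2.1, p.2.1.1 * p.1.2.1), (p.1.1.2 * p.2.2.2, p.2.1.2 * p.1.2.2)))
    (E ^ 4) ?_ ?_
  · rintro ⟨⟨⟨u1, w1⟩, ⟨u2, w2⟩⟩, ⟨⟨u3, w3⟩, ⟨u4, w4⟩⟩⟩ hp
    simp only [mem_filter, mem_product, mem_cop] at hp
    obtain ⟨⟨⟨⟨hu1, hw1⟩, ⟨hu2, hw2⟩⟩, ⟨⟨hu3, hw3⟩, ⟨hu4, hw4⟩⟩⟩, he⟩ := hp
    simp only [dv] at he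
    rw [div_eq_div_iff_mul_eq_mul] at he
    have he' := congrArg (fun z : (ZMod q)ˣ => (z : ZMod q)) he
    simp only [Units.val_mul, Units.val_pow_eq_pow_val, un_val hu1.2.2, un_val hw1.2.2,
      un_val hu2.2.2, un_val hw2.2.2, un_val hu3.2.2, un_val hw3.2.2, un_val hu4.2.2,
      un_val hw4.2.2] at he'
    rw [mem_Nq]
    simp only [mem_cop]
    refine ⟨⟨Nat.mul_pos hu1.1 hu4.1, Nat.mul_le_mul hu1.2.1 hu4.2.1,
        Nat.Coprime.mul_left hu1.2.2 hu4.2.2⟩,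
      ⟨Nat.mul_pos hu3.1 hu2.1, Nat.mul_le_mul hu3.2.1 hu2.2.1,
        Nat.Coprime.mul_left hu3.2.2 hu2.2.2⟩,
      ⟨Nat.mul_pos hw1.1 hw4.1, Nat.mul_le_mul hw1.2.1 hw4.2.1,
        Nat.Coprime.mul_left hw1.2.2 hw4.2.2⟩,
      ⟨Nat.mul_pos hw3.1 hw2.1, Nat.mul_le_mul hw3.2.1 hw2.2.1,
        Nat.Coprime.mul_left hw3.2.2 hw2.2.2⟩, ?_⟩
    rw [← ZMod.natCast_eq_natCast_iff]
    push_cast
    linear_combination he'
  · rintro ⟨⟨U, V⟩, ⟨a, b⟩⟩ hb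
    rw [mem_Nq] at hb
    simp only [mem_cop] at hb
    obtain ⟨hU, hV, ha, hb', -⟩ := hb
    have hinj : ((((((cop q Y ×ˢ cop q W) ×ˢ (cop q Y ×ˢ cop q W)) ×ˢ
        ((cop q Y ×ˢ cop q W) ×ˢ (cop q Y ×ˢ cop q W))).filter
        (fun p => dv (fun p : ℕ × ℕ => un q p.1 * un q p.2 ^ 3) p.1 =
          dv (fun p : ℕ × ℕ => un q p.1 * un q p.2 ^ 3) p.2)).filter
        (fun p : ((ℕ × ℕ) × (ℕ × ℕ)) × ((ℕ × ℕ) × (ℕ × ℕ)) =>
          ((p.1.1.1 * p.2.2.1, p.2.1.1 * p.1.2.1), (p.1.1.2 * p.2.2.2, p.2.1.2 * p.1.2.2)) =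
            ((U, V), (a, b))))).card ≤
        ((U.divisors ×ˢ V.divisors) ×ˢ (a.divisors ×ˢ b.divisors)).card := by
      apply card_le_card_of_injOn (fun p : ((ℕ × ℕ) × (ℕ × ℕ)) × ((ℕ × ℕ) × (ℕ × ℕ)) =>
        ((p.1.1.1, p.2.1.1), (p.1.1.2, p.2.1.2)))
      · rintro ⟨⟨⟨u1, w1⟩, ⟨u2, w2⟩⟩, ⟨⟨u3, w3⟩, ⟨u4, w4⟩⟩⟩ hp
        simp only [coe_filter, Set.mem_ofPred_eq, mem_filter, Prod.mk.injEq] at hp
        obtain ⟨-, ⟨h1, h2⟩, h3, h4⟩ := hp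
        simp only [coe_product, Set.mem_prod, mem_coe, Nat.mem_divisors]
        refine ⟨⟨⟨⟨_, h1.symm⟩, by omega⟩, ⟨⟨_, h2.symm⟩, by omega⟩⟩,
          ⟨⟨_, h3.symm⟩, by omega⟩, ⟨⟨_, h4.symm⟩, by omega⟩⟩
      · rintro ⟨⟨⟨u1, w1⟩, ⟨u2, w2⟩⟩, ⟨⟨u3, w3⟩, ⟨u4, w4⟩⟩⟩ hp
          ⟨⟨⟨u1', w1'⟩, ⟨u2', w2'⟩⟩, ⟨⟨u3', w3'⟩, ⟨u4', w4'⟩⟩⟩ hp' h
        simp only [coe_filter, Set.mem_ofPred_eq, mem_filter, Prod.mk.injEq, mem_product,
          mem_cop] at hp hp' h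
        obtain ⟨⟨⟨⟨⟨hu1, hw1⟩, ⟨hu2, hw2⟩⟩, ⟨⟨hu3, hw3⟩, ⟨hu4, hw4⟩⟩⟩, -⟩, ⟨h1, h2⟩, h3, h4⟩ := hp
        obtain ⟨-, ⟨h1', h2'⟩, h3', h4'⟩ := hp'
        obtain ⟨⟨e1, e3⟩, f1, f3⟩ := h
        subst e1 e3 f1 f3
        have g4 : u4 = u4' := Nat.eq_of_mul_eq_mul_left hu1.1 (h1.trans h1'.symm)
        have g2 : u2 = u2' := Nat.eq_of_mul_eq_mul_left hu3.1 (h2.trans h2'.symm)
        have k4 : w4 = w4' := Nat.eq_of_mul_eq_mul_left hw1.1 (h3.trans h3'.symm)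
        have k2 : w2 = w2' := Nat.eq_of_mul_eq_mul_left hw3.1 (h4.trans h4'.symm)
        subst g4 g2 k4 k2
        rfl
    have hreal : ((((U.divisors ×ˢ V.divisors) ×ˢ (a.divisors ×ˢ b.divisors)).card : ℕ) : ℝ) ≤
        E ^ 4 := by
      rw [card_product, card_product, card_product]
      push_cast
      have d1 := hD U hU.1 (hU.2.1.trans hYY)
      have d2 := hD V hV.1 (hV.2.1.trans hYY)
      have d3 := hD a ha.1 (ha.2.1.trans hWW)
      have d4 := hD b hb'.1 (hb'.2.1.trans hWW)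
      calc (U.divisors.card : ℝ) * V.divisors.card * (a.divisors.card * b.divisors.card)
          ≤ (E * E) * (E * E) := by gcongr
        _ = E ^ 4 := by ring
    refine le_trans (Nat.cast_le.mpr ?_) hreal
    convert hinj

theorem attach_le {ε : ℝ} (hε : 0 < ε) :
    ∃ C : ℝ, 1 ≤ C ∧ ∀ q Y W : ℕ, 1 ≤ q → 1 ≤ Y → 1 ≤ W →
      (En ((cop q Y ×ˢ cop q W) ×ˢ (cop q Y ×ˢ cop q W))
          (dv (fun p : ℕ × ℕ => un q p.1 * un q p.2 ^ 3)) : ℝ)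
        ≤ C * ((q : ℝ) * Y * W) ^ ε *
          ((Y : ℝ) ^ 2 * (W : ℝ) ^ 2 + (Y : ℝ) ^ 2 * (W : ℝ) ^ 6 / Real.sqrt q
            + (Y : ℝ) ^ 4 * (W : ℝ) ^ 4 / q) := by
  have hδ : 0 < ε / 36 := by positivity
  obtain ⟨C, hC1, hC⟩ := card_divisors_le hδ
  have h2 : (1 : ℝ) ≤ 2 ^ (ε / 6) := Real.one_le_rpow (by norm_num) (by positivity)
  refine ⟨16 * C ^ 6 * 2 ^ (ε / 6), ?_, ?_⟩
  · have : 1 ≤ C ^ 6 := one_le_pow₀ hC1
    nlinarith
  intro q Y W hq hY hW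
  have hqr : (1 : ℝ) ≤ q := by exact_mod_cast hq
  have hYr : (1 : ℝ) ≤ Y := by exact_mod_cast hY
  have hWr : (1 : ℝ) ≤ W := by exact_mod_cast hW
  set N : ℝ := 2 * ((Y : ℝ) * Y) * ((W : ℝ) * W) ^ 3 with hN
  have hN1 : 1 ≤ N := by
    have e1 : 1 ≤ (Y : ℝ) * Y := by nlinarith
    have e2 : 1 ≤ ((W : ℝ) * W) ^ 3 := one_le_pow₀ (by nlinarith)
    rw [hN]; nlinarith
  set E : ℝ := C * N ^ (ε / 36) with hE
  have hE1 : 1 ≤ E := by
    have : (1 : ℝ) ≤ N ^ (ε / 36) := Real.one_le_rpow hN1 hδ.le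
    rw [hE]; nlinarith
  have hD : ∀ n : ℕ, 1 ≤ n → n ≤ 2 * (Y * Y) * (W * W) ^ 3 → (n.divisors.card : ℝ) ≤ E := by
    intro n hn1 hn2
    refine (hC n hn1).trans ?_
    rw [hE]
    have hn2' : (n : ℝ) ≤ N := by
      rw [hN]; exact_mod_cast hn2
    apply mul_le_mul_of_nonneg_left _ (by linarith)
    exact Real.rpow_le_rpow (by positivity) hn2' hδ.le
  have hYY : 1 ≤ Y * Y := Nat.mul_pos hY hY
  have hWW : 1 ≤ W * W := Nat.mul_pos hW hW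
  have h3 := en_le q Y W E (by linarith) hY hW hD
  have h4 := Nq_real q (Y * Y) (W * W) hq hYY hWW E hE1 hD
  -- the number of dyadic blocks
  have hJ : ((Nat.log 2 (Y * Y) + 1 : ℕ) : ℝ) ≤ E := by
    have e1 : (2 ^ Nat.log 2 (Y * Y)).divisors.card = Nat.log 2 (Y * Y) + 1 := by
      rw [Nat.divisors_prime_pow Nat.prime_two, card_map, card_range]
    rw [← e1]
    apply hD _ (Nat.one_le_two_pow)
    have e2 : 2 ^ Nat.log 2 (Y * Y) ≤ Y * Y := Nat.pow_log_le_self 2 (by omega)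
    have e3 : 1 ≤ (W * W) ^ 3 := Nat.one_le_pow _ _ hWW
    nlinarith
  set B : ℝ := ((Y : ℝ) ^ 2 * (W : ℝ) ^ 2 + (Y : ℝ) ^ 2 * (W : ℝ) ^ 6 / Real.sqrt q
            + (Y : ℝ) ^ 4 * (W : ℝ) ^ 4 / q) with hB
  have hB0 : 0 ≤ B := by positivity
  have hBeq : ((Y * Y : ℕ) : ℝ) * ((W * W : ℕ) : ℝ) +
      ((Y * Y : ℕ) : ℝ) * ((W * W : ℕ) : ℝ) ^ 3 / Real.sqrt q
        + ((Y * Y : ℕ) : ℝ) ^ 2 * ((W * W : ℕ) : ℝ) ^ 2 / q = B := by
    rw [hB]; push_cast; ring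
  rw [hBeq] at h4
  have h5 : ((Nq q (Y * Y) (W * W)).card : ℝ) ≤ E * (16 * E * B) := by
    refine h4.trans ?_
    apply mul_le_mul_of_nonneg_right hJ
    have : 0 ≤ E := by linarith
    positivity
  have h6 : ((Nq q (Y * Y) (W * W)).card : ℝ) * E ^ 4 ≤ 16 * E ^ 6 * B := by
    have : 0 ≤ E ^ 4 := by positivity
    calc ((Nq q (Y * Y) (W * W)).card : ℝ) * E ^ 4 ≤ (E * (16 * E * B)) * E ^ 4 := by gcongr
      _ = 16 * E ^ 6 * B := by ring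
  refine (h3.trans h6).trans ?_
  apply mul_le_mul_of_nonneg_right _ hB0
  have h7 : E ^ 6 = C ^ 6 * N ^ (ε / 6) := by
    rw [hE, mul_pow, ← Real.rpow_natCast (N ^ (ε / 36)) 6, ← Real.rpow_mul (by linarith)]
    congr 2
    push_cast
    ring
  have h8 : N ≤ 2 * ((q : ℝ) * Y * W) ^ 6 := by
    have e0 : N = 2 * ((Y : ℝ) ^ 2 * (W : ℝ) ^ 6) := by rw [hN]; ring
    have e1 : (Y : ℝ) ^ 2 ≤ (Y : ℝ) ^ 6 := pow_le_pow_right₀ hYr (by norm_num)
    have e2 : (1 : ℝ) ≤ (q : ℝ) ^ 6 := one_le_pow₀ hqr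
    have e3 : (0 : ℝ) ≤ (W : ℝ) ^ 6 := by positivity
    have e4 : (Y : ℝ) ^ 2 * (W : ℝ) ^ 6 ≤ (q : ℝ) ^ 6 * ((Y : ℝ) ^ 6 * (W : ℝ) ^ 6) := by
      calc (Y : ℝ) ^ 2 * (W : ℝ) ^ 6 ≤ (Y : ℝ) ^ 6 * (W : ℝ) ^ 6 := by gcongr
        _ = 1 * ((Y : ℝ) ^ 6 * (W : ℝ) ^ 6) := by ring
        _ ≤ _ := by gcongr
    rw [e0]
    have e5 : ((q : ℝ) * Y * W) ^ 6 = (q : ℝ) ^ 6 * ((Y : ℝ) ^ 6 * (W : ℝ) ^ 6) := by ring
    rw [e5]
    linarith
  have h9 : N ^ (ε / 6) ≤ 2 ^ (ε / 6) * ((q : ℝ) * Y * W) ^ ε := by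
    have hpos : (0 : ℝ) ≤ (q : ℝ) * Y * W := by positivity
    calc N ^ (ε / 6) ≤ (2 * ((q : ℝ) * Y * W) ^ 6) ^ (ε / 6) :=
          Real.rpow_le_rpow (by linarith) h8 (by positivity)
      _ = 2 ^ (ε / 6) * (((q : ℝ) * Y * W) ^ 6) ^ (ε / 6) :=
          Real.mul_rpow (by norm_num) (by positivity)
      _ = 2 ^ (ε / 6) * ((q : ℝ) * Y * W) ^ ε := by
          rw [← Real.rpow_natCast ((q : ℝ) * Y * W) 6, ← Real.rpow_mul hpos]
          congr 2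
          push_cast
          ring
  rw [h7]
  calc 16 * (C ^ 6 * N ^ (ε / 6)) ≤ 16 * (C ^ 6 * (2 ^ (ε / 6) * ((q : ℝ) * Y * W) ^ ε)) := by
        gcongr
    _ = 16 * C ^ 6 * 2 ^ (ε / 6) * ((q : ℝ) * Y * W) ^ ε := by ring

end AbcTR
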