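import Pool.Agent.Work.MP_a793bb_nt.TR.TRDefs

set_option autoImplicit false

namespace AbcTR

open Finset

open Classical in
private theorem cnt_eq {α β G : Type*} (s : Finset α) (t : Finset β) (φ : α → G) (ψ : β → G)
    (J : Finset G) (hJ : ∀ x ∈ s, φ x ∈ J) :
    ((s ×ˢ t).filter (fun p => φ p.1 = ψ p.2)).card =
      ∑ g ∈ J, (s.filter (fun x => φ x = g)).card * (t.filter (fun y => ψ y = g)).card := by
  rw [Finset.card_eq_sum_card_fiberwise (f := fun p : α × β => φ p.1) (t := J)]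
  · refine Finset.sum_congr rfl fun g _ => ?_
    rw [← Finset.card_product]
    congr 1
    ext p
    simp only [Finset.mem_filter, Finset.mem_product]
    constructor
    · rintro ⟨⟨⟨h1, h2⟩, h3⟩, h4⟩
      exact ⟨⟨h1, h4⟩, h2, by rw [← h3, h4]⟩
    · rintro ⟨⟨h1, h4⟩, h2, h3⟩
      exact ⟨⟨⟨h1, h2⟩, by rw [h4, h3]⟩, h4⟩
  · intro p hp
    simp only [Finset.coe_filter, Finset.mem_product, Set.mem_ofPred_eq] at hp
    exact hJ _ hp.1.1

theorem energy_cs {α β G : Type*} (s : Finset α) (t : Finset β) (φ : α → G) (ψ : β → G) :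
    open Classical in
    (((s ×ˢ t).filter (fun p => φ p.1 = ψ p.2)).card : ℝ) ^ 2 ≤ (En s φ : ℝ) * (En t ψ : ℝ) := by
  classical
  set J : Finset G := s.image φ ∪ t.image ψ with hJ
  have h1 : ∀ x ∈ s, φ x ∈ J := fun x hx => by
    rw [hJ]
    exact Finset.mem_union_left _ (Finset.mem_image_of_mem _ hx)
  have h2 : ∀ x ∈ t, ψ x ∈ J := fun x hx => by
    rw [hJ]
    exact Finset.mem_union_right _ (Finset.mem_image_of_mem _ hx)
  have e1 := cnt_eq s t φ ψ J h1
  have e2 := cnt_eq s s φ φ J h1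
  have e3 := cnt_eq t t ψ ψ J h2
  unfold En
  rw [e1, e2, e3]
  push_cast
  have := Finset.sum_mul_sq_le_sq_mul_sq J
    (fun g => ((s.filter (fun x => φ x = g)).card : ℝ))
    (fun g => ((t.filter (fun y => ψ y = g)).card : ℝ))
  simpa only [pow_two] using this

theorem energy_mul {α β G : Type*} [CommGroup G] (s : Finset α) (t : Finset β)
    (φ : α → G) (ψ : β → G) :
    (En (s ×ˢ t) (fun p : α × β => φ p.1 * ψ p.2) : ℝ) ^ 2
      ≤ (En (s ×ˢ s) (dv φ) : ℝ) * (En (t ×ˢ t) (dv ψ) : ℝ) := by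
  classical
  have h := energy_cs (s ×ˢ s) (t ×ˢ t) (dv φ) (dv ψ)
  have e : En (s ×ˢ t) (fun p : α × β => φ p.1 * ψ p.2) =
      (((s ×ˢ s) ×ˢ (t ×ˢ t)).filter (fun p => dv φ p.1 = dv ψ p.2)).card := by
    unfold En
    refine Finset.card_nbij' (fun p => ((p.1.1, p.2.1), (p.2.2, p.1.2)))
      (fun p => ((p.1.1, p.2.2), (p.1.2, p.2.1))) ?_ ?_ ?_ ?_
    · intro p hp
      simp only [Finset.coe_filter, Finset.mem_product, Set.mem_ofPred_eq] at hp ⊢
      refine ⟨⟨⟨hp.1.1.1, hp.1.2.1⟩, hp.1.2.2, hp.1.1.2⟩, ?_⟩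
      have := hp.2
      simp only [dv]
      rw [div_eq_div_iff_mul_eq_mul, this, mul_comm]
    · intro p hp
      simp only [Finset.coe_filter, Finset.mem_product, Set.mem_ofPred_eq] at hp ⊢
      refine ⟨⟨⟨hp.1.1.1, hp.1.2.2⟩, hp.1.1.2, hp.1.2.1⟩, ?_⟩
      have := hp.2
      simp only [dv] at this
      rw [div_eq_div_iff_mul_eq_mul] at this
      rw [this, mul_comm]
    · intro p _
      rfl
    · intro p _
      rfl
  rw [e]
  convert h using 2

end AbcTR
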