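import Pool.Agent.Work.MP_a793bb_nt.TR.Tau
import Pool.Agent.Work.MP_a793bb_nt.TR.Powers

set_option autoImplicit false

namespace AbcTR

open Finset

private theorem card_le_fib {α β : Type*} [DecidableEq β] (s : Finset α) (t : Finset β)
    (f : α → β) (M : ℝ) (hf : ∀ a ∈ s, f a ∈ t)
    (hM : ∀ b ∈ t, ((s.filter (fun a => f a = b)).card : ℝ) ≤ M) :
    (s.card : ℝ) ≤ M * t.card := by
  rw [Finset.card_eq_sum_card_fiberwise (f := f) (t := t) hf]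
  push_cast
  calc ∑ b ∈ t, ((s.filter (fun a => f a = b)).card : ℝ) ≤ ∑ _b ∈ t, M := Finset.sum_le_sum hM
    _ = M * t.card := by rw [Finset.sum_const, nsmul_eq_mul, mul_comm]

private theorem un_val {q x : ℕ} (h : Nat.Coprime x q) : ((un q x : (ZMod q)ˣ) : ZMod q) = x := by
  unfold un
  rw [dif_pos h, ZMod.coe_unitOfCoprime]

private theorem un_mul {q x y : ℕ} (hx : Nat.Coprime x q) (hy : Nat.Coprime y q) :
    un q (x * y) = un q x * un q y := by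
  apply Units.ext
  rw [Units.val_mul, un_val hx, un_val hy, un_val (Nat.Coprime.mul_left hx hy)]
  push_cast
  rfl

private theorem un_pow_eq_iff {q x y e : ℕ} (hx : Nat.Coprime x q) (hy : Nat.Coprime y q) :
    un q x ^ e = un q y ^ e ↔ x ^ e ≡ y ^ e [MOD q] := by
  rw [Units.ext_iff, Units.val_pow_eq_pow_val, Units.val_pow_eq_pow_val, un_val hx, un_val hy,
    ← ZMod.natCast_eq_natCast_iff]
  push_cast
  rfl

private theorem mem_cop {q Y x : ℕ} : x ∈ cop q Y ↔ (1 ≤ x ∧ x ≤ Y) ∧ Nat.Coprime x q := by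
  unfold cop
  rw [Finset.mem_filter, Finset.mem_Icc]

private theorem cop_mul {q Y Z x y : ℕ} (hx : x ∈ cop q Y) (hy : y ∈ cop q Z) :
    x * y ∈ cop q (Y * Z) := by
  rw [mem_cop] at *
  exact ⟨⟨Nat.mul_pos hx.1.1 hy.1.1, Nat.mul_le_mul hx.1.2 hy.1.2⟩,
    Nat.Coprime.mul_left hx.2 hy.2⟩

private theorem tau_le {ε1 C1 : ℝ} (hε1 : 0 < ε1) (hC : 1 ≤ C1)
    (h : ∀ n : ℕ, 1 ≤ n → (n.divisors.card : ℝ) ≤ C1 * (n : ℝ) ^ ε1) {n N : ℕ} (hn : 1 ≤ n)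
    (hN : n ≤ N) : (n.divisors.card : ℝ) ≤ C1 * (N : ℝ) ^ ε1 := by
  refine (h n hn).trans ?_
  refine mul_le_mul_of_nonneg_left ?_ (by linarith)
  exact Real.rpow_le_rpow (by positivity) (by exact_mod_cast hN) hε1.le

theorem mom4_le {ε : ℝ} (hε : 0 < ε) :
    ∃ C : ℝ, 1 ≤ C ∧ ∀ e q Y : ℕ, 1 ≤ e → e ≤ 3 → 1 ≤ q → 1 ≤ Y →
      (En (cop q Y ×ˢ cop q Y) (dv (fun x => un q x ^ e)) : ℝ)
        ≤ C * ((q : ℝ) * Y) ^ ε * ((Y : ℝ) ^ 2 + (Y : ℝ) ^ 4 / q) := by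
  classical
  obtain ⟨C1, hC1, hτ⟩ := card_divisors_le (ε := ε / 4) (by positivity)
  refine ⟨108 * C1 ^ 4, ?_, ?_⟩
  · have : 1 ≤ C1 ^ 4 := one_le_pow₀ hC1
    linarith
  intro e q Y he1 he3 hq hY
  have hq0 : (0 : ℝ) < q := by positivity
  have hY0 : (0 : ℝ) < Y := by positivity
  have hq1 : (1 : ℝ) ≤ q := by exact_mod_cast hq
  set M : ℝ := C1 * ((Y ^ 2 : ℕ) : ℝ) ^ (ε / 4) with hM
  have hM0 : 0 ≤ M := by positivity
  have key := card_le_fib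
    (((cop q Y ×ˢ cop q Y) ×ˢ (cop q Y ×ˢ cop q Y)).filter
      (fun p => dv (fun x => un q x ^ e) p.1 = dv (fun x => un q x ^ e) p.2))
    (((cop q (Y ^ 2)) ×ˢ (cop q (Y ^ 2))).filter (fun p => p.1 ^ e ≡ p.2 ^ e [MOD q]))
    (fun p => (p.1.1 * p.2.2, p.2.1 * p.1.2)) (M * M) ?_ ?_
  · have hen : (En (cop q Y ×ˢ cop q Y) (dv (fun x => un q x ^ e)) : ℝ) =
        ((((cop q Y ×ˢ cop q Y) ×ˢ (cop q Y ×ˢ cop q Y)).filter
      (fun p => dv (fun x => un q x ^ e) p.1 = dv (fun x => un q x ^ e) p.2)).card : ℝ) := by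
      unfold En
      congr 1
      congr 1
      ext p
      simp only [Finset.mem_filter]
    rw [hen]
    refine key.trans ?_
    have hp := card_pow_all e q (Y ^ 2) he1 he3 hq
    have hτq := hτ q hq
    have hMM : M * M = C1 ^ 2 * (Y : ℝ) ^ ε := by
      have : (((Y ^ 2 : ℕ) : ℝ) ^ (ε / 4)) * (((Y ^ 2 : ℕ) : ℝ) ^ (ε / 4)) = (Y : ℝ) ^ ε := by
        push_cast
        rw [← Real.rpow_add (by positivity), ← Real.rpow_natCast (Y : ℝ) 2, ← Real.rpow_mul hY0.le]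
        congr 1
        push_cast
        ring
      rw [hM]
      calc C1 * ((Y ^ 2 : ℕ) : ℝ) ^ (ε / 4) * (C1 * ((Y ^ 2 : ℕ) : ℝ) ^ (ε / 4))
          = C1 ^ 2 * ((((Y ^ 2 : ℕ) : ℝ) ^ (ε / 4)) * (((Y ^ 2 : ℕ) : ℝ) ^ (ε / 4))) := by ring
        _ = _ := by rw [this]
    have hqq : (q.divisors.card : ℝ) ^ 2 ≤ C1 ^ 2 * (q : ℝ) ^ ε := by
      calc (q.divisors.card : ℝ) ^ 2 ≤ (C1 * (q : ℝ) ^ (ε / 4)) ^ 2 :=
            pow_le_pow_left₀ (by positivity) hτq 2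
        _ = C1 ^ 2 * (q : ℝ) ^ (ε / 2) := by
            rw [mul_pow, ← Real.rpow_natCast ((q : ℝ) ^ (ε / 4)) 2, ← Real.rpow_mul hq0.le]
            congr 2
            push_cast
            ring
        _ ≤ C1 ^ 2 * (q : ℝ) ^ ε := by
            refine mul_le_mul_of_nonneg_left ?_ (by positivity)
            exact Real.rpow_le_rpow_of_exponent_le hq1 (by linarith)
    push_cast at hp
    rw [hMM]
    calc C1 ^ 2 * (Y : ℝ) ^ ε * _ ≤ C1 ^ 2 * (Y : ℝ) ^ ε *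
          (108 * (q.divisors.card : ℝ) ^ 2 * (((Y : ℝ) ^ 2) + ((Y : ℝ) ^ 2) ^ 2 / q)) :=
          mul_le_mul_of_nonneg_left hp (by positivity)
      _ ≤ C1 ^ 2 * (Y : ℝ) ^ ε *
          (108 * (C1 ^ 2 * (q : ℝ) ^ ε) * (((Y : ℝ) ^ 2) + ((Y : ℝ) ^ 2) ^ 2 / q)) := by
          gcongr
      _ = 108 * C1 ^ 4 * ((q : ℝ) * Y) ^ ε * ((Y : ℝ) ^ 2 + (Y : ℝ) ^ 4 / q) := by
          rw [Real.mul_rpow hq0.le hY0.le]
          ring
  · intro p hp
    simp only [Finset.mem_filter, Finset.mem_product] at hp ⊢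
    obtain ⟨⟨⟨h1, h2⟩, h3, h4⟩, h5⟩ := hp
    refine ⟨⟨?_, ?_⟩, ?_⟩
    · rw [pow_two]; exact cop_mul h1 h4
    · rw [pow_two]; exact cop_mul h3 h2
    · simp only [dv] at h5
      rw [div_eq_div_iff_mul_eq_mul, ← mul_pow, ← mul_pow,
        ← un_mul (mem_cop.1 h1).2 (mem_cop.1 h4).2, ← un_mul (mem_cop.1 h3).2 (mem_cop.1 h2).2,
        un_pow_eq_iff (Nat.Coprime.mul_left (mem_cop.1 h1).2 (mem_cop.1 h4).2)
          (Nat.Coprime.mul_left (mem_cop.1 h3).2 (mem_cop.1 h2).2)] at h5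
      exact h5
  · rintro ⟨U, V⟩ hb
    simp only [Finset.mem_filter, Finset.mem_product, mem_cop] at hb
    obtain ⟨⟨⟨⟨hU1, hU2⟩, _⟩, ⟨hV1, hV2⟩, _⟩, _⟩ := hb
    have hcard : ((((cop q Y ×ˢ cop q Y) ×ˢ (cop q Y ×ˢ cop q Y)).filter
      (fun p => dv (fun x => un q x ^ e) p.1 = dv (fun x => un q x ^ e) p.2)).filter
        (fun p => (p.1.1 * p.2.2, p.2.1 * p.1.2) = (U, V))).card ≤
        (U.divisors ×ˢ V.divisors).card := by
      refine Finset.card_le_card_of_injOn (fun p => (p.1.1, p.2.1)) ?_ ?_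
      · intro p hp
        simp only [Finset.coe_filter, Finset.mem_filter, Set.mem_ofPred_eq, Prod.mk.injEq] at hp
        simp only [Finset.coe_product, Set.mem_prod, Finset.mem_coe, Nat.mem_divisors]
        exact ⟨⟨Dvd.intro _ hp.2.1, by omega⟩, Dvd.intro _ hp.2.2, by omega⟩
      · rintro ⟨⟨x1, x2⟩, ⟨x3, x4⟩⟩ hp ⟨⟨y1, y2⟩, ⟨y3, y4⟩⟩ hr h
        simp only [Finset.coe_filter, Finset.mem_filter, Finset.mem_product, Set.mem_ofPred_eq,
          Prod.mk.injEq, mem_cop] at hp hr h ⊢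
        obtain ⟨rfl, rfl⟩ := h
        obtain ⟨⟨⟨⟨⟨⟨p1, _⟩, _⟩, _⟩, ⟨⟨p3, _⟩, _⟩, _⟩, _⟩, hpU, hpV⟩ := hp
        obtain ⟨_, hrU, hrV⟩ := hr
        have e4 : x4 = y4 := Nat.eq_of_mul_eq_mul_left p1 (by rw [hpU, hrU])
        have e2 : x2 = y2 := Nat.eq_of_mul_eq_mul_left p3 (by rw [hpV, hrV])
        exact ⟨⟨rfl, e2⟩, rfl, e4⟩
    have hc2 : ((((((cop q Y ×ˢ cop q Y) ×ˢ (cop q Y ×ˢ cop q Y)).filter
      (fun p => dv (fun x => un q x ^ e) p.1 = dv (fun x => un q x ^ e) p.2)).filter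
        (fun p => (p.1.1 * p.2.2, p.2.1 * p.1.2) = (U, V))).card : ℕ) : ℝ) ≤
        ((U.divisors ×ˢ V.divisors).card : ℝ) := by exact_mod_cast hcard
    refine hc2.trans ?_
    rw [Finset.card_product]
    push_cast
    exact mul_le_mul (tau_le (by positivity) hC1 hτ hU1 hU2) (tau_le (by positivity) hC1 hτ hV1 hV2)
      (by positivity) hM0

private theorem four_div {G : Type*} [CommGroup G] (a b c d a' b' c' d' : G) :
    a / b / (c / d) = a' / b' / (c' / d') ↔ a * d * (b' * c') = a' * d' * (b * c) := by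
  rw [div_div_div_eq, div_div_div_eq, div_eq_div_iff_mul_eq_mul]

theorem mom8_le {ε : ℝ} (hε : 0 < ε) :
    ∃ C : ℝ, 1 ≤ C ∧ ∀ e q Y : ℕ, 1 ≤ e → e ≤ 3 → 1 ≤ q → 1 ≤ Y →
      (En ((cop q Y ×ˢ cop q Y) ×ˢ (cop q Y ×ˢ cop q Y))
          (dv (dv (fun x => un q x ^ e))) : ℝ)
        ≤ C * ((q : ℝ) * Y) ^ ε * ((Y : ℝ) ^ 4 + (Y : ℝ) ^ 8 / q) := by
  classical
  obtain ⟨C1, hC1, hτ⟩ := card_divisors_le (ε := ε / 24) (by positivity)
  refine ⟨108 * C1 ^ 8, ?_, ?_⟩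
  · have : 1 ≤ C1 ^ 8 := one_le_pow₀ hC1
    linarith
  intro e q Y he1 he3 hq hY
  have hq0 : (0 : ℝ) < q := by positivity
  have hY0 : (0 : ℝ) < Y := by positivity
  have hq1 : (1 : ℝ) ≤ q := by exact_mod_cast hq
  set M : ℝ := C1 * ((Y ^ 4 : ℕ) : ℝ) ^ (ε / 24) with hM
  have hM0 : 0 ≤ M := by positivity
  have key := card_le_fib
    ((((cop q Y ×ˢ cop q Y) ×ˢ (cop q Y ×ˢ cop q Y)) ×ˢ
      ((cop q Y ×ˢ cop q Y) ×ˢ (cop q Y ×ˢ cop q Y))).filter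
      (fun p => dv (dv (fun x => un q x ^ e)) p.1 = dv (dv (fun x => un q x ^ e)) p.2))
    (((cop q (Y ^ 4)) ×ˢ (cop q (Y ^ 4))).filter (fun p => p.1 ^ e ≡ p.2 ^ e [MOD q]))
    (fun p => (p.1.1.1 * p.1.2.2 * (p.2.1.2 * p.2.2.1), p.2.1.1 * p.2.2.2 * (p.1.1.2 * p.1.2.1)))
    ((M * (M * M)) * (M * (M * M))) ?_ ?_
  · have hen : (En ((cop q Y ×ˢ cop q Y) ×ˢ (cop q Y ×ˢ cop q Y))
          (dv (dv (fun x => un q x ^ e))) : ℝ) =
        (((((cop q Y ×ˢ cop q Y) ×ˢ (cop q Y ×ˢ cop q Y)) ×ˢ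
      ((cop q Y ×ˢ cop q Y) ×ˢ (cop q Y ×ˢ cop q Y))).filter
      (fun p => dv (dv (fun x => un q x ^ e)) p.1 = dv (dv (fun x => un q x ^ e)) p.2)).card : ℝ) := by
      unfold En
      congr 1
      congr 1
      ext p
      simp only [Finset.mem_filter]
    rw [hen]
    refine key.trans ?_
    have hp := card_pow_all e q (Y ^ 4) he1 he3 hq
    have hτq := hτ q hq
    have hMM : (M * (M * M)) * (M * (M * M)) = C1 ^ 6 * (Y : ℝ) ^ ε := by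
      have : (((Y ^ 4 : ℕ) : ℝ) ^ (ε / 24)) ^ 6 = (Y : ℝ) ^ ε := by
        push_cast
        rw [← Real.rpow_natCast (((Y : ℝ) ^ 4) ^ (ε / 24)) 6, ← Real.rpow_natCast (Y : ℝ) 4,
          ← Real.rpow_mul hY0.le, ← Real.rpow_mul hY0.le]
        congr 1
        push_cast
        ring
      rw [hM]
      calc _ = C1 ^ 6 * (((Y ^ 4 : ℕ) : ℝ) ^ (ε / 24)) ^ 6 := by ring
        _ = _ := by rw [this]
    have hqq : (q.divisors.card : ℝ) ^ 2 ≤ C1 ^ 2 * (q : ℝ) ^ ε := by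
      calc (q.divisors.card : ℝ) ^ 2 ≤ (C1 * (q : ℝ) ^ (ε / 24)) ^ 2 :=
            pow_le_pow_left₀ (by positivity) hτq 2
        _ = C1 ^ 2 * (q : ℝ) ^ (ε / 12) := by
            rw [mul_pow, ← Real.rpow_natCast ((q : ℝ) ^ (ε / 24)) 2, ← Real.rpow_mul hq0.le]
            congr 2
            push_cast
            ring
        _ ≤ C1 ^ 2 * (q : ℝ) ^ ε := by
            refine mul_le_mul_of_nonneg_left ?_ (by positivity)
            exact Real.rpow_le_rpow_of_exponent_le hq1 (by linarith)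
    push_cast at hp
    rw [hMM]
    calc C1 ^ 6 * (Y : ℝ) ^ ε * _ ≤ C1 ^ 6 * (Y : ℝ) ^ ε *
          (108 * (q.divisors.card : ℝ) ^ 2 * (((Y : ℝ) ^ 4) + ((Y : ℝ) ^ 4) ^ 2 / q)) :=
          mul_le_mul_of_nonneg_left hp (by positivity)
      _ ≤ C1 ^ 6 * (Y : ℝ) ^ ε *
          (108 * (C1 ^ 2 * (q : ℝ) ^ ε) * (((Y : ℝ) ^ 4) + ((Y : ℝ) ^ 4) ^ 2 / q)) := by
          gcongr
      _ = 108 * C1 ^ 8 * ((q : ℝ) * Y) ^ ε * ((Y : ℝ) ^ 4 + (Y : ℝ) ^ 8 / q) := by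
          rw [Real.mul_rpow hq0.le hY0.le]
          ring
  · intro p hp
    simp only [Finset.mem_filter, Finset.mem_product] at hp ⊢
    obtain ⟨⟨⟨⟨h1, h2⟩, h3, h4⟩, ⟨g1, g2⟩, g3, g4⟩, h5⟩ := hp
    have hU : p.1.1.1 * p.1.2.2 * (p.2.1.2 * p.2.2.1) ∈ cop q (Y ^ 4) := by
      have := cop_mul (cop_mul h1 h4) (cop_mul g2 g3)
      rwa [show Y * Y * (Y * Y) = Y ^ 4 by ring] at this
    have hV : p.2.1.1 * p.2.2.2 * (p.1.1.2 * p.1.2.1) ∈ cop q (Y ^ 4) := by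
      have := cop_mul (cop_mul g1 g4) (cop_mul h2 h3)
      rwa [show Y * Y * (Y * Y) = Y ^ 4 by ring] at this
    refine ⟨⟨hU, hV⟩, ?_⟩
    simp only [dv] at h5
    rw [four_div] at h5
    have c1 := (mem_cop.1 h1).2
    have c2 := (mem_cop.1 h2).2
    have c3 := (mem_cop.1 h3).2
    have c4 := (mem_cop.1 h4).2
    have d1 := (mem_cop.1 g1).2
    have d2 := (mem_cop.1 g2).2
    have d3 := (mem_cop.1 g3).2
    have d4 := (mem_cop.1 g4).2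
    rw [← un_pow_eq_iff (mem_cop.1 hU).2 (mem_cop.1 hV).2,
      un_mul (Nat.Coprime.mul_left c1 c4) (Nat.Coprime.mul_left d2 d3), un_mul c1 c4, un_mul d2 d3,
      un_mul (Nat.Coprime.mul_left d1 d4) (Nat.Coprime.mul_left c2 c3), un_mul d1 d4, un_mul c2 c3,
      mul_pow, mul_pow, mul_pow, mul_pow, mul_pow, mul_pow]
    exact h5
  · rintro ⟨U, V⟩ hb
    simp only [Finset.mem_filter, Finset.mem_product, mem_cop] at hb
    obtain ⟨⟨⟨⟨hU1, hU2⟩, _⟩, ⟨hV1, hV2⟩, _⟩, _⟩ := hb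
    have hcard : (((((cop q Y ×ˢ cop q Y) ×ˢ (cop q Y ×ˢ cop q Y)) ×ˢ
      ((cop q Y ×ˢ cop q Y) ×ˢ (cop q Y ×ˢ cop q Y))).filter
      (fun p => dv (dv (fun x => un q x ^ e)) p.1 = dv (dv (fun x => un q x ^ e)) p.2)).filter
        (fun p => (p.1.1.1 * p.1.2.2 * (p.2.1.2 * p.2.2.1),
          p.2.1.1 * p.2.2.2 * (p.1.1.2 * p.1.2.1)) = (U, V))).card ≤
        ((U.divisors ×ˢ (U.divisors ×ˢ U.divisors)) ×ˢ
          (V.divisors ×ˢ (V.divisors ×ˢ V.divisors))).card := by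
      refine Finset.card_le_card_of_injOn
        (fun p => ((p.1.1.1, p.1.2.2, p.2.1.2), (p.2.1.1, p.2.2.2, p.1.1.2))) ?_ ?_
      · intro p hp
        simp only [Finset.coe_filter, Finset.mem_filter, Set.mem_ofPred_eq, Prod.mk.injEq] at hp
        simp only [Finset.coe_product, Set.mem_prod, Finset.mem_coe, Nat.mem_divisors]
        obtain ⟨_, hpU, hpV⟩ := hp
        have u0 : U ≠ 0 := by omega
        have v0 : V ≠ 0 := by omega
        refine ⟨⟨⟨?_, u0⟩, ⟨?_, u0⟩, ?_, u0⟩, ⟨?_, v0⟩, ⟨?_, v0⟩, ?_, v0⟩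
        · rw [← hpU]; exact Dvd.dvd.mul_right (dvd_mul_right _ _) _
        · rw [← hpU]; exact Dvd.dvd.mul_right (dvd_mul_left _ _) _
        · rw [← hpU]; exact Dvd.dvd.mul_left (dvd_mul_right _ _) _
        · rw [← hpV]; exact Dvd.dvd.mul_right (dvd_mul_right _ _) _
        · rw [← hpV]; exact Dvd.dvd.mul_right (dvd_mul_left _ _) _
        · rw [← hpV]; exact Dvd.dvd.mul_left (dvd_mul_right _ _) _
      · rintro ⟨⟨⟨x1, x2⟩, ⟨x3, x4⟩⟩, ⟨y1, y2⟩, ⟨y3, y4⟩⟩ hp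
          ⟨⟨⟨z1, z2⟩, ⟨z3, z4⟩⟩, ⟨w1, w2⟩, ⟨w3, w4⟩⟩ hr h
        simp only [Finset.coe_filter, Finset.mem_filter, Set.mem_ofPred_eq,
          Prod.mk.injEq] at hp hr h ⊢
        obtain ⟨⟨rfl, rfl, rfl⟩, rfl, rfl, rfl⟩ := h
        obtain ⟨_, hpU, hpV⟩ := hp
        obtain ⟨_, hrU, hrV⟩ := hr
        have hUne : U ≠ 0 := by omega
        have hVne : V ≠ 0 := by omega
        have a1 : x1 * x4 ≠ 0 := by
          intro h0
          rw [h0, zero_mul] at hpU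
          exact hUne hpU.symm
        have a2 : y2 ≠ 0 := by
          intro h0
          rw [h0, zero_mul, mul_zero] at hpU
          exact hUne hpU.symm
        have b1 : y1 * y4 ≠ 0 := by
          intro h0
          rw [h0, zero_mul] at hpV
          exact hVne hpV.symm
        have b2 : x2 ≠ 0 := by
          intro h0
          rw [h0, zero_mul, mul_zero] at hpV
          exact hVne hpV.symm
        have e3 : y3 = w3 := Nat.eq_of_mul_eq_mul_left (Nat.pos_of_ne_zero a2)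
          (Nat.eq_of_mul_eq_mul_left (Nat.pos_of_ne_zero a1) (by rw [hpU, hrU]))
        have f3 : x3 = z3 := Nat.eq_of_mul_eq_mul_left (Nat.pos_of_ne_zero b2)
          (Nat.eq_of_mul_eq_mul_left (Nat.pos_of_ne_zero b1) (by rw [hpV, hrV]))
        exact ⟨⟨⟨rfl, rfl⟩, f3, rfl⟩, ⟨rfl, rfl⟩, e3, rfl⟩
    have hc2 : (((((((cop q Y ×ˢ cop q Y) ×ˢ (cop q Y ×ˢ cop q Y)) ×ˢ
      ((cop q Y ×ˢ cop q Y) ×ˢ (cop q Y ×ˢ cop q Y))).filter
      (fun p => dv (dv (fun x => un q x ^ e)) p.1 = dv (dv (fun x => un q x ^ e)) p.2)).filter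
        (fun p => (p.1.1.1 * p.1.2.2 * (p.2.1.2 * p.2.2.1),
          p.2.1.1 * p.2.2.2 * (p.1.1.2 * p.1.2.1)) = (U, V))).card : ℕ) : ℝ) ≤
        (((U.divisors ×ˢ (U.divisors ×ˢ U.divisors)) ×ˢ
          (V.divisors ×ˢ (V.divisors ×ˢ V.divisors))).card : ℝ) := by exact_mod_cast hcard
    refine hc2.trans ?_
    rw [Finset.card_product, Finset.card_product, Finset.card_product, Finset.card_product,
      Finset.card_product]
    push_cast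
    have tU := tau_le (by positivity) hC1 hτ hU1 hU2
    have tV := tau_le (by positivity) hC1 hτ hV1 hV2
    gcongr

end AbcTR
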