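import Pool.Agent.Work.MP_a793bb_nt.TR.Energy
import Pool.Agent.Work.MP_a793bb_nt.TR.Moments
import Pool.Agent.Work.MP_a793bb_nt.TR.Attach

set_option autoImplicit false

namespace AbcTR

open Finset

/-- bound of type A -/
noncomputable def fA (Q Y M W : ℝ) : ℝ :=
  ((Y ^ 2 * W ^ 2 + Y ^ 2 * W ^ 6 / Real.sqrt Q + Y ^ 4 * W ^ 4 / Q) * (M ^ 2 + M ^ 4 / Q)) ^
    ((1 : ℝ) / 2)
/-- bound of type B -/
noncomputable def fB (Q Y M W : ℝ) : ℝ :=
  (Y ^ 2 + Y ^ 4 / Q) ^ ((1 : ℝ) / 2) *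
    ((M ^ 4 + M ^ 8 / Q) * (W ^ 4 + W ^ 8 / Q)) ^ ((1 : ℝ) / 4)

open Classical in
private theorem En_equiv {α β G : Type*} (s : Finset α) (t : Finset β) (φ : α → G) (ψ : β → G)
    (e : α ≃ β) (hst : ∀ x, x ∈ s ↔ e x ∈ t) (h : ∀ x, φ x = ψ (e x)) : En s φ = En t ψ := by
  unfold En
  refine Finset.card_bij' (fun p _ => (e p.1, e p.2)) (fun p _ => (e.symm p.1, e.symm p.2))
    ?_ ?_ ?_ ?_
  · intro p hp
    simp only [Finset.mem_filter, Finset.mem_product] at hp ⊢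
    refine ⟨⟨(hst _).1 hp.1.1, (hst _).1 hp.1.2⟩, ?_⟩
    rw [← h, ← h]
    exact hp.2
  · intro p hp
    simp only [Finset.mem_filter, Finset.mem_product] at hp ⊢
    refine ⟨⟨(hst _).2 (by simpa using hp.1.1), (hst _).2 (by simpa using hp.1.2)⟩, ?_⟩
    rw [h, h]
    simpa using hp.2
  · intro p _
    simp
  · intro p _
    simp

private theorem En_congr {α G : Type*} (s : Finset α) (φ ψ : α → G) (h : ∀ x, φ x = ψ x) :
    En s φ = En s ψ := by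
  have : φ = ψ := funext h
  rw [this]

/-- `(u,(m,w)) ≃ ((u,w),m)` -/
private def e1 (α β γ : Type*) : α × (β × γ) ≃ (α × γ) × β where
  toFun p := ((p.1, p.2.2), p.2.1)
  invFun p := (p.1.1, (p.2, p.1.2))
  left_inv _ := rfl
  right_inv _ := rfl

/-- `((m,w),(m',w')) ≃ ((m,m'),(w,w'))` -/
private def e2 (α β : Type*) : (α × β) × (α × β) ≃ (α × α) × (β × β) where
  toFun p := ((p.1.1, p.2.1), (p.1.2, p.2.2))
  invFun p := ((p.1.1, p.2.1), (p.1.2, p.2.2))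
  left_inv _ := rfl
  right_inv _ := rfl

private theorem sideA (q Y M W : ℕ) :
    (En (cop q Y ×ˢ (cop q M ×ˢ cop q W)) (Phi q) : ℝ) ^ 2 ≤
      (En ((cop q Y ×ˢ cop q W) ×ˢ (cop q Y ×ˢ cop q W))
          (dv (fun p : ℕ × ℕ => un q p.1 * un q p.2 ^ 3)) : ℝ) *
      (En (cop q M ×ˢ cop q M) (dv (fun x => un q x ^ 2)) : ℝ) := by
  have h := energy_mul (cop q Y ×ˢ cop q W) (cop q M)
    (fun p : ℕ × ℕ => un q p.1 * un q p.2 ^ 3) (fun x => un q x ^ 2)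
  have e : En (cop q Y ×ˢ (cop q M ×ˢ cop q W)) (Phi q) =
      En ((cop q Y ×ˢ cop q W) ×ˢ cop q M)
        (fun p : (ℕ × ℕ) × ℕ => (fun p : ℕ × ℕ => un q p.1 * un q p.2 ^ 3) p.1 *
          (fun x => un q x ^ 2) p.2) := by
    refine En_equiv _ _ _ _ (e1 ℕ ℕ ℕ) ?_ ?_
    · intro x
      simp only [e1, Equiv.coe_fn_mk, Finset.mem_product]
      tauto
    · intro x
      simp only [e1, Equiv.coe_fn_mk, Phi]
      rw [mul_assoc, mul_comm (un q x.2.2 ^ 3)]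
  rw [e]
  exact h

private theorem sideB (q Y M W : ℕ) :
    (En (cop q Y ×ˢ (cop q M ×ˢ cop q W)) (Phi q) : ℝ) ^ 4 ≤
      (En (cop q Y ×ˢ cop q Y) (dv (fun x => un q x ^ 1)) : ℝ) ^ 2 *
      ((En ((cop q M ×ˢ cop q M) ×ˢ (cop q M ×ˢ cop q M))
          (dv (dv (fun x => un q x ^ 2))) : ℝ) *
      (En ((cop q W ×ˢ cop q W) ×ˢ (cop q W ×ˢ cop q W))
          (dv (dv (fun x => un q x ^ 3))) : ℝ)) := by
  have h := energy_mul (cop q Y) (cop q M ×ˢ cop q W)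
    (fun x => un q x ^ 1) (fun p : ℕ × ℕ => un q p.1 ^ 2 * un q p.2 ^ 3)
  have h' := energy_mul (cop q M ×ˢ cop q M) (cop q W ×ˢ cop q W)
    (dv (fun x => un q x ^ 2)) (dv (fun x => un q x ^ 3))
  have e : En (cop q Y ×ˢ (cop q M ×ˢ cop q W)) (Phi q) =
      En (cop q Y ×ˢ (cop q M ×ˢ cop q W))
        (fun p : ℕ × (ℕ × ℕ) => (fun x => un q x ^ 1) p.1 *
          (fun p : ℕ × ℕ => un q p.1 ^ 2 * un q p.2 ^ 3) p.2) := by
    refine En_congr _ _ _ ?_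
    intro x
    simp only [Phi, pow_one]
  have e' : En ((cop q M ×ˢ cop q W) ×ˢ (cop q M ×ˢ cop q W))
      (dv (fun p : ℕ × ℕ => un q p.1 ^ 2 * un q p.2 ^ 3)) =
      En ((cop q M ×ˢ cop q M) ×ˢ (cop q W ×ˢ cop q W))
        (fun p : (ℕ × ℕ) × (ℕ × ℕ) => dv (fun x => un q x ^ 2) p.1 *
          dv (fun x => un q x ^ 3) p.2) := by
    refine En_equiv _ _ _ _ (e2 ℕ ℕ) ?_ ?_
    · intro x
      simp only [e2, Equiv.coe_fn_mk, Finset.mem_product]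
      tauto
    · intro x
      simp only [e2, Equiv.coe_fn_mk, dv]
      rw [mul_div_mul_comm]
  rw [e]
  set E1 : ℝ := (En (cop q Y ×ˢ cop q Y) (dv (fun x => un q x ^ 1)) : ℝ)
  have h0 : 0 ≤ E1 := by positivity
  rw [e'] at h
  calc (_ : ℝ) ^ 4 = (_ ^ 2) ^ 2 := by ring
    _ ≤ (E1 * _) ^ 2 := pow_le_pow_left₀ (by positivity) h 2
    _ = E1 ^ 2 * _ ^ 2 := by rw [mul_pow]
    _ ≤ E1 ^ 2 * _ := mul_le_mul_of_nonneg_left h' (by positivity)

theorem side_le {ε : ℝ} (hε : 0 < ε) :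
    ∃ C : ℝ, 1 ≤ C ∧ ∀ q Y M W : ℕ, 1 ≤ q → 1 ≤ Y → 1 ≤ M → 1 ≤ W →
      (En (cop q Y ×ˢ (cop q M ×ˢ cop q W)) (Phi q) : ℝ)
        ≤ C * ((q : ℝ) * Y * M * W) ^ ε * min (fA q Y M W) (fB q Y M W) := by
  obtain ⟨C1, hC1, h1⟩ := attach_le hε
  obtain ⟨C2, hC2, h2⟩ := mom4_le hε
  obtain ⟨C3, hC3, h3⟩ := mom8_le hε
  refine ⟨C1 * C2 * C3, ?_, ?_⟩
  · have a : 1 ≤ C1 * C2 := one_le_mul_of_one_le_of_one_le hC1 hC2
    exact one_le_mul_of_one_le_of_one_le a hC3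
  intro q Y M W hq hY hM hW
  have hq1 : (1 : ℝ) ≤ q := by exact_mod_cast hq
  have hY1 : (1 : ℝ) ≤ Y := by exact_mod_cast hY
  have hM1 : (1 : ℝ) ≤ M := by exact_mod_cast hM
  have hW1 : (1 : ℝ) ≤ W := by exact_mod_cast hW
  have hq0 : (0 : ℝ) < q := by linarith
  have hY0 : (0 : ℝ) < Y := by linarith
  have hM0 : (0 : ℝ) < M := by linarith
  have hW0 : (0 : ℝ) < W := by linarith
  set E : ℝ := (En (cop q Y ×ˢ (cop q M ×ˢ cop q W)) (Phi q) : ℝ) with hE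
  have hE0 : 0 ≤ E := by positivity
  set C : ℝ := C1 * C2 * C3 with hC
  have hC12 : C1 * C2 ≤ C := by
    rw [hC]
    exact le_mul_of_one_le_right (by positivity) hC3
  have hC23 : C2 * C3 ≤ C := by
    have : C = C1 * (C2 * C3) := by rw [hC]; ring
    rw [this]
    exact le_mul_of_one_le_left (by positivity) hC1
  have hCone : 1 ≤ C := by
    have a : 1 ≤ C1 * C2 := one_le_mul_of_one_le_of_one_le hC1 hC2
    exact one_le_mul_of_one_le_of_one_le a hC3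
  set X : ℝ := ((q : ℝ) * Y * M * W) ^ ε with hX
  have hX0 : 0 < X := by positivity
  rw [mul_min_of_nonneg _ _ (by positivity)]
  refine le_min ?_ ?_
  · have hA := sideA q Y M W
    rw [← hE] at hA
    have hfA : (fA q Y M W) ^ 2 = ((Y : ℝ) ^ 2 * (W : ℝ) ^ 2 + (Y : ℝ) ^ 2 * (W : ℝ) ^ 6 / Real.sqrt q
            + (Y : ℝ) ^ 4 * (W : ℝ) ^ 4 / q) * ((M : ℝ) ^ 2 + (M : ℝ) ^ 4 / q) := by
      unfold fA
      rw [← Real.sqrt_eq_rpow, Real.sq_sqrt (by positivity)]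
    have hfA0 : 0 ≤ fA q Y M W := by unfold fA; positivity
    rw [← pow_le_pow_iff_left₀ hE0 (by positivity) (by norm_num : (2 : ℕ) ≠ 0)]
    have g1 := h1 q Y W hq hY hW
    have g2 := h2 2 q M (by norm_num) (by norm_num) hq hM
    have hpow : ((q : ℝ) * Y * W) ^ ε * ((q : ℝ) * M) ^ ε ≤ X ^ 2 := by
      rw [hX, ← Real.mul_rpow (by positivity) (by positivity), pow_two,
        ← Real.mul_rpow (by positivity) (by positivity)]
      refine Real.rpow_le_rpow (by positivity) ?_ hε.le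
      have : (1 : ℝ) ≤ Y * M * W := by
        have a : (1 : ℝ) ≤ Y * M := one_le_mul_of_one_le_of_one_le hY1 hM1
        exact one_le_mul_of_one_le_of_one_le a hW1
      calc (q : ℝ) * Y * W * (q * M) = (q : ℝ) ^ 2 * (Y * M * W) * 1 := by ring
        _ ≤ (q : ℝ) ^ 2 * (Y * M * W) * (Y * M * W) :=
            mul_le_mul_of_nonneg_left this (by positivity)
        _ = _ := by ring
    calc E ^ 2 ≤ _ := hA
      _ ≤ (C1 * ((q : ℝ) * Y * W) ^ ε *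
          ((Y : ℝ) ^ 2 * (W : ℝ) ^ 2 + (Y : ℝ) ^ 2 * (W : ℝ) ^ 6 / Real.sqrt q
            + (Y : ℝ) ^ 4 * (W : ℝ) ^ 4 / q)) *
          (C2 * ((q : ℝ) * M) ^ ε * ((M : ℝ) ^ 2 + (M : ℝ) ^ 4 / q)) :=
          mul_le_mul g1 g2 (by positivity) (by positivity)
      _ = (C1 * C2) * (((q : ℝ) * Y * W) ^ ε * ((q : ℝ) * M) ^ ε) * (fA q Y M W) ^ 2 := by
          rw [hfA]; ring
      _ ≤ C ^ 2 * X ^ 2 * (fA q Y M W) ^ 2 := by
          refine mul_le_mul_of_nonneg_right ?_ (by positivity)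
          refine mul_le_mul ?_ hpow (by positivity) (by positivity)
          nlinarith
      _ = _ := by ring
  · have hB := sideB q Y M W
    rw [← hE] at hB
    have hfB : (fB q Y M W) ^ 4 = ((Y : ℝ) ^ 2 + (Y : ℝ) ^ 4 / q) ^ 2 *
        (((M : ℝ) ^ 4 + (M : ℝ) ^ 8 / q) * ((W : ℝ) ^ 4 + (W : ℝ) ^ 8 / q)) := by
      unfold fB
      rw [mul_pow, ← Real.rpow_natCast (((Y : ℝ) ^ 2 + (Y : ℝ) ^ 4 / q) ^ ((1 : ℝ) / 2)) 4,
        ← Real.rpow_natCast ((((M : ℝ) ^ 4 + (M : ℝ) ^ 8 / q) * ((W : ℝ) ^ 4 + (W : ℝ) ^ 8 / q)) ^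
          ((1 : ℝ) / 4)) 4, ← Real.rpow_mul (by positivity), ← Real.rpow_mul (by positivity)]
      norm_num
    have hfB0 : 0 ≤ fB q Y M W := by unfold fB; positivity
    rw [← pow_le_pow_iff_left₀ hE0 (by positivity) (by norm_num : (4 : ℕ) ≠ 0)]
    have g1 := h2 1 q Y (by norm_num) (by norm_num) hq hY
    have g2 := h3 2 q M (by norm_num) (by norm_num) hq hM
    have g3 := h3 3 q W (by norm_num) (by norm_num) hq hW
    have hpow : (((q : ℝ) * Y) ^ ε) ^ 2 * ((((q : ℝ) * M) ^ ε) * (((q : ℝ) * W) ^ ε)) ≤ X ^ 4 := by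
      rw [hX, ← Real.mul_rpow (by positivity) (by positivity),
        ← Real.rpow_natCast (((q : ℝ) * Y) ^ ε) 2, ← Real.rpow_mul (by positivity),
        ← Real.rpow_natCast (((q : ℝ) * Y * M * W) ^ ε) 4, ← Real.rpow_mul (by positivity),
        mul_comm ε, mul_comm ε, Real.rpow_mul (by positivity), Real.rpow_mul (by positivity),
        ← Real.mul_rpow (by positivity) (by positivity)]
      refine Real.rpow_le_rpow (by positivity) ?_ hε.le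
      rw [Real.rpow_natCast, Real.rpow_natCast]
      have : (1 : ℝ) ≤ Y ^ 2 * M ^ 3 * W ^ 3 := by
        have a : (1 : ℝ) ≤ Y ^ 2 := one_le_pow₀ hY1
        have b : (1 : ℝ) ≤ M ^ 3 := one_le_pow₀ hM1
        have c : (1 : ℝ) ≤ W ^ 3 := one_le_pow₀ hW1
        exact one_le_mul_of_one_le_of_one_le (one_le_mul_of_one_le_of_one_le a b) c
      calc ((q : ℝ) * Y) ^ 2 * (q * M * (q * W)) = (q : ℝ) ^ 4 * Y ^ 2 * M * W * 1 := by ring
        _ ≤ (q : ℝ) ^ 4 * Y ^ 2 * M * W * (Y ^ 2 * M ^ 3 * W ^ 3) :=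
            mul_le_mul_of_nonneg_left this (by positivity)
        _ = _ := by ring
    calc E ^ 4 ≤ _ := hB
      _ ≤ (C2 * ((q : ℝ) * Y) ^ ε * ((Y : ℝ) ^ 2 + (Y : ℝ) ^ 4 / q)) ^ 2 *
          ((C3 * ((q : ℝ) * M) ^ ε * ((M : ℝ) ^ 4 + (M : ℝ) ^ 8 / q)) *
          (C3 * ((q : ℝ) * W) ^ ε * ((W : ℝ) ^ 4 + (W : ℝ) ^ 8 / q))) := by
          refine mul_le_mul (pow_le_pow_left₀ (by positivity) g1 2) ?_ (by positivity)
            (by positivity)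
          exact mul_le_mul g2 g3 (by positivity) (by positivity)
      _ = (C2 * C3) ^ 2 *
          ((((q : ℝ) * Y) ^ ε) ^ 2 * ((((q : ℝ) * M) ^ ε) * (((q : ℝ) * W) ^ ε))) *
          (fB q Y M W) ^ 4 := by
          rw [hfB]; ring
      _ ≤ C ^ 4 * X ^ 4 * (fB q Y M W) ^ 4 := by
          refine mul_le_mul_of_nonneg_right ?_ (by positivity)
          refine mul_le_mul ?_ hpow (by positivity) (by positivity)
          calc (C2 * C3) ^ 2 ≤ C ^ 2 := pow_le_pow_left₀ (by positivity) hC23 2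
            _ ≤ C ^ 4 := pow_le_pow_right₀ hCone (by norm_num)
      _ = _ := by ring

end AbcTR
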