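import Pool.Agent.Work.MP_a793bb_nt.TR.BoundT
import Pool.Agent.Work.MP_a793bb_nt.TR.Energy
import Pool.Agent.Work.MP_a793bb_nt.TR.Side

set_option autoImplicit false

namespace AbcTR

open Finset

noncomputable def mA (v t0 t1 t2 : ℝ) : ℝ :=
  max (max (1 / 2 * t0 + 1 / 2 * t2) (1 / 2 * t0 + 3 / 2 * t2 - v / 8)) (t0 + t2 - v / 4) +
    max (1 / 2 * t1) (t1 - v / 4)

noncomputable def mB (v t0 t1 t2 : ℝ) : ℝ :=
  max (1 / 2 * t0) (t0 - v / 4) + max (1 / 2 * t1) (t1 - v / 8) + max (1 / 2 * t2) (t2 - v / 8)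

lemma two_rpow_le {x y : ℝ} (h : x ≤ y) : (2 : ℝ) ^ x ≤ 2 ^ y :=
  Real.rpow_le_rpow_of_exponent_le (by norm_num) h

/-- a power of two with natural exponents, divided by `Q`. -/
lemma div_le_two_rpow (n v : ℕ) (Q e : ℝ) (hQ : (2 : ℝ) ^ v ≤ Q) (h : (n : ℝ) - v ≤ e) :
    (2 : ℝ) ^ n / Q ≤ 2 ^ e := by
  have h0 : (0 : ℝ) < 2 ^ v := by positivity
  calc (2 : ℝ) ^ n / Q ≤ 2 ^ n / 2 ^ v := by gcongr
    _ = 2 ^ ((n : ℝ) - v) := by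
        rw [Real.rpow_sub (by norm_num), Real.rpow_natCast, Real.rpow_natCast]
    _ ≤ 2 ^ e := two_rpow_le h

lemma div_sqrt_le_two_rpow (n v : ℕ) (Q e : ℝ) (hQ : (2 : ℝ) ^ v ≤ Q)
    (h : (n : ℝ) - v / 2 ≤ e) : (2 : ℝ) ^ n / Real.sqrt Q ≤ 2 ^ e := by
  have h0 : (0 : ℝ) < 2 ^ v := by positivity
  have h1 : Real.sqrt (2 ^ v) ≤ Real.sqrt Q := Real.sqrt_le_sqrt hQ
  have h2 : 0 < Real.sqrt (2 ^ v) := Real.sqrt_pos.2 h0
  calc (2 : ℝ) ^ n / Real.sqrt Q ≤ 2 ^ n / Real.sqrt (2 ^ v) := by gcongr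
    _ = 2 ^ ((n : ℝ) - v / 2) := by
        rw [Real.rpow_sub (by norm_num), Real.rpow_natCast, Real.sqrt_eq_rpow,
          ← Real.rpow_natCast 2 v, ← Real.rpow_mul (by norm_num)]
        congr 2; ring
    _ ≤ 2 ^ e := two_rpow_le h

lemma pow_le_two_rpow (n : ℕ) (e : ℝ) (h : (n : ℝ) ≤ e) : (2 : ℝ) ^ n ≤ 2 ^ e := by
  rw [← Real.rpow_natCast]; exact two_rpow_le h

lemma two_terms (t v : ℕ) (Q : ℝ) (hQ : (2 : ℝ) ^ v ≤ Q) (e : ℝ) (h1 : 1 / 2 * (t : ℝ) ≤ e)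
    (h2 : (t : ℝ) - v / 4 ≤ e) :
    ((2 : ℝ) ^ (t + 1)) ^ 2 + ((2 : ℝ) ^ (t + 1)) ^ 4 / Q ≤ 20 * 2 ^ (4 * e) := by
  have e1 : ((2 : ℝ) ^ (t + 1)) ^ 2 = 4 * 2 ^ (2 * t) := by ring
  have e2 : ((2 : ℝ) ^ (t + 1)) ^ 4 / Q = 16 * (2 ^ (4 * t) / Q) := by ring
  have i1 := pow_le_two_rpow (2 * t) (4 * e) (by push_cast; linarith)
  have i2 := div_le_two_rpow (4 * t) v Q (4 * e) hQ (by push_cast; linarith)
  rw [e1, e2]; linarith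

lemma two_terms8 (t v : ℕ) (Q : ℝ) (hQ : (2 : ℝ) ^ v ≤ Q) (e : ℝ) (h1 : 1 / 2 * (t : ℝ) ≤ e)
    (h2 : (t : ℝ) - v / 8 ≤ e) :
    ((2 : ℝ) ^ (t + 1)) ^ 4 + ((2 : ℝ) ^ (t + 1)) ^ 8 / Q ≤ 400 * 2 ^ (8 * e) := by
  have e1 : ((2 : ℝ) ^ (t + 1)) ^ 4 = 16 * 2 ^ (4 * t) := by ring
  have e2 : ((2 : ℝ) ^ (t + 1)) ^ 8 / Q = 256 * (2 ^ (8 * t) / Q) := by ring
  have i1 := pow_le_two_rpow (4 * t) (8 * e) (by push_cast; linarith)
  have i2 := div_le_two_rpow (8 * t) v Q (8 * e) hQ (by push_cast; linarith)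
  have : (0 : ℝ) < 2 ^ (8 * e) := by positivity
  rw [e1, e2]; linarith

lemma three_terms (t s v : ℕ) (Q : ℝ) (hQ : (2 : ℝ) ^ v ≤ Q) (e : ℝ)
    (h1 : 1 / 2 * (t : ℝ) + 1 / 2 * s ≤ e) (h2 : 1 / 2 * (t : ℝ) + 3 / 2 * s - v / 8 ≤ e)
    (h3 : (t : ℝ) + s - v / 4 ≤ e) :
    ((2 : ℝ) ^ (t + 1)) ^ 2 * ((2 : ℝ) ^ (s + 1)) ^ 2 +
      ((2 : ℝ) ^ (t + 1)) ^ 2 * ((2 : ℝ) ^ (s + 1)) ^ 6 / Real.sqrt Q +
      ((2 : ℝ) ^ (t + 1)) ^ 4 * ((2 : ℝ) ^ (s + 1)) ^ 4 / Q ≤ 768 * 2 ^ (4 * e) := by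
  have e1 : ((2 : ℝ) ^ (t + 1)) ^ 2 * ((2 : ℝ) ^ (s + 1)) ^ 2 = 16 * 2 ^ (2 * t + 2 * s) := by
    ring
  have e2 : ((2 : ℝ) ^ (t + 1)) ^ 2 * ((2 : ℝ) ^ (s + 1)) ^ 6 / Real.sqrt Q =
      256 * (2 ^ (2 * t + 6 * s) / Real.sqrt Q) := by ring
  have e3 : ((2 : ℝ) ^ (t + 1)) ^ 4 * ((2 : ℝ) ^ (s + 1)) ^ 4 / Q =
      256 * (2 ^ (4 * t + 4 * s) / Q) := by ring
  have i1 := pow_le_two_rpow (2 * t + 2 * s) (4 * e) (by push_cast; linarith)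
  have i2 := div_sqrt_le_two_rpow (2 * t + 6 * s) v Q (4 * e) hQ (by push_cast; linarith)
  have i3 := div_le_two_rpow (4 * t + 4 * s) v Q (4 * e) hQ (by push_cast; linarith)
  have : (0 : ℝ) < 2 ^ (4 * e) := by positivity
  rw [e1, e2, e3]; linarith

lemma fA_le (t0 t1 t2 v : ℕ) (Q : ℝ) (hQ : (2 : ℝ) ^ v ≤ Q) :
    fA Q (2 ^ (t0 + 1)) (2 ^ (t1 + 1)) (2 ^ (t2 + 1)) ≤ 128 * 2 ^ (2 * mA v t0 t1 t2) := by
  have hQ0 : 0 < Q := lt_of_lt_of_le (by positivity) hQ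
  have h1 := three_terms t0 t2 v Q hQ
    (max (max (1 / 2 * (t0 : ℝ) + 1 / 2 * t2) (1 / 2 * (t0 : ℝ) + 3 / 2 * t2 - v / 8))
      ((t0 : ℝ) + t2 - v / 4))
    (le_trans (le_max_left _ _) (le_max_left _ _)) (le_trans (le_max_right _ _) (le_max_left _ _))
    (le_max_right _ _)
  have h2 := two_terms t1 v Q hQ (max (1 / 2 * (t1 : ℝ)) ((t1 : ℝ) - v / 4)) (le_max_left _ _)
    (le_max_right _ _)
  unfold fA mA
  generalize max (max (1 / 2 * (t0 : ℝ) + 1 / 2 * t2) (1 / 2 * (t0 : ℝ) + 3 / 2 * t2 - v / 8))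
      ((t0 : ℝ) + t2 - v / 4) = m1 at *
  generalize max (1 / 2 * (t1 : ℝ)) ((t1 : ℝ) - v / 4) = m2 at *
  have hsq : (128 * (2 : ℝ) ^ (2 * (m1 + m2))) = ((128 * (2 : ℝ) ^ (2 * (m1 + m2))) ^ 2) ^
      ((1 : ℝ) / 2) := by
    rw [← Real.sqrt_eq_rpow, Real.sqrt_sq (by positivity)]
  rw [hsq]
  apply Real.rpow_le_rpow (by positivity) _ (by norm_num)
  have e3 : (128 * (2 : ℝ) ^ (2 * (m1 + m2))) ^ 2 = 16384 * ((2 : ℝ) ^ (4 * m1) * 2 ^ (4 * m2)) := by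
    rw [mul_pow, ← Real.rpow_natCast ((2 : ℝ) ^ (2 * (m1 + m2))) 2, ← Real.rpow_mul (by norm_num),
      ← Real.rpow_add (by norm_num)]
    norm_num
    congr 1; ring
  rw [e3]
  calc _ ≤ (768 * (2 : ℝ) ^ (4 * m1)) * (20 * 2 ^ (4 * m2)) := by
        apply mul_le_mul h1 h2 (by positivity) (by positivity)
    _ ≤ 16384 * ((2 : ℝ) ^ (4 * m1) * 2 ^ (4 * m2)) := by
        have : (0 : ℝ) < (2 : ℝ) ^ (4 * m1) * 2 ^ (4 * m2) := by positivity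
        nlinarith

lemma fB_le (t0 t1 t2 v : ℕ) (Q : ℝ) (hQ : (2 : ℝ) ^ v ≤ Q) :
    fB Q (2 ^ (t0 + 1)) (2 ^ (t1 + 1)) (2 ^ (t2 + 1)) ≤ 128 * 2 ^ (2 * mB v t0 t1 t2) := by
  have hQ0 : 0 < Q := lt_of_lt_of_le (by positivity) hQ
  have h1 := two_terms t0 v Q hQ (max (1 / 2 * (t0 : ℝ)) ((t0 : ℝ) - v / 4)) (le_max_left _ _)
    (le_max_right _ _)
  have h2 := two_terms8 t1 v Q hQ (max (1 / 2 * (t1 : ℝ)) ((t1 : ℝ) - v / 8)) (le_max_left _ _)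
    (le_max_right _ _)
  have h3 := two_terms8 t2 v Q hQ (max (1 / 2 * (t2 : ℝ)) ((t2 : ℝ) - v / 8)) (le_max_left _ _)
    (le_max_right _ _)
  unfold fB mB
  generalize max (1 / 2 * (t0 : ℝ)) ((t0 : ℝ) - v / 4) = m0 at *
  generalize max (1 / 2 * (t1 : ℝ)) ((t1 : ℝ) - v / 8) = m1 at *
  generalize max (1 / 2 * (t2 : ℝ)) ((t2 : ℝ) - v / 8) = m2 at *
  have hA : (((2 : ℝ) ^ (t0 + 1)) ^ 2 + ((2 : ℝ) ^ (t0 + 1)) ^ 4 / Q) ^ ((1 : ℝ) / 2) ≤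
      5 * 2 ^ (2 * m0) := by
    have hsq : (5 * (2 : ℝ) ^ (2 * m0)) = ((5 * (2 : ℝ) ^ (2 * m0)) ^ 2) ^ ((1 : ℝ) / 2) := by
      rw [← Real.sqrt_eq_rpow, Real.sqrt_sq (by positivity)]
    rw [hsq]
    apply Real.rpow_le_rpow (by positivity) _ (by norm_num)
    have e3 : (5 * (2 : ℝ) ^ (2 * m0)) ^ 2 = 25 * (2 : ℝ) ^ (4 * m0) := by
      rw [mul_pow, ← Real.rpow_natCast ((2 : ℝ) ^ (2 * m0)) 2, ← Real.rpow_mul (by norm_num)]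
      norm_num
      congr 1; ring
    rw [e3]
    have : (0 : ℝ) < 2 ^ (4 * m0) := by positivity
    linarith
  have hB : ((((2 : ℝ) ^ (t1 + 1)) ^ 4 + ((2 : ℝ) ^ (t1 + 1)) ^ 8 / Q) *
      (((2 : ℝ) ^ (t2 + 1)) ^ 4 + ((2 : ℝ) ^ (t2 + 1)) ^ 8 / Q)) ^ ((1 : ℝ) / 4) ≤
      20 * 2 ^ (2 * (m1 + m2)) := by
    have hsq : (20 * (2 : ℝ) ^ (2 * (m1 + m2))) =
        ((20 * (2 : ℝ) ^ (2 * (m1 + m2))) ^ 4) ^ ((1 : ℝ) / 4) := by
      rw [← Real.rpow_natCast (20 * (2 : ℝ) ^ (2 * (m1 + m2))) 4, ← Real.rpow_mul (by positivity)]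
      norm_num
    rw [hsq]
    apply Real.rpow_le_rpow (by positivity) _ (by norm_num)
    have e3 : (20 * (2 : ℝ) ^ (2 * (m1 + m2))) ^ 4 =
        160000 * ((2 : ℝ) ^ (8 * m1) * 2 ^ (8 * m2)) := by
      rw [mul_pow, ← Real.rpow_natCast ((2 : ℝ) ^ (2 * (m1 + m2))) 4, ← Real.rpow_mul (by norm_num),
        ← Real.rpow_add (by norm_num)]
      norm_num
      congr 1; ring
    rw [e3]
    calc _ ≤ (400 * (2 : ℝ) ^ (8 * m1)) * (400 * 2 ^ (8 * m2)) := by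
          apply mul_le_mul h2 h3 (by positivity) (by positivity)
      _ = _ := by ring
  calc _ ≤ (5 * (2 : ℝ) ^ (2 * m0)) * (20 * 2 ^ (2 * (m1 + m2))) := by
        apply mul_le_mul hA hB (by positivity) (by positivity)
    _ = 100 * ((2 : ℝ) ^ (2 * m0) * 2 ^ (2 * (m1 + m2))) := by ring
    _ = 100 * (2 : ℝ) ^ (2 * (m0 + m1 + m2)) := by
        rw [← Real.rpow_add (by norm_num)]
        congr 2; ring
    _ ≤ _ := by
        have : (0 : ℝ) < (2 : ℝ) ^ (2 * (m0 + m1 + m2)) := by positivity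
        linarith

/-- the side bound in logarithmic form. -/
lemma side_log {ε : ℝ} (hε : 0 < ε) : ∃ K : ℝ, 1 ≤ K ∧ ∀ J q v t0 t1 t2 : ℕ, 2 ^ v ≤ q →
    q ≤ 2 ^ J → t0 ≤ J → t1 ≤ J → t2 ≤ J →
    (En (cop q (2 ^ (t0 + 1)) ×ˢ (cop q (2 ^ (t1 + 1)) ×ˢ cop q (2 ^ (t2 + 1)))) (Phi q) : ℝ) ≤
      K * (2 : ℝ) ^ (ε * J) * 2 ^ (2 * min (mA v t0 t1 t2) (mB v t0 t1 t2)) := by
  have hε4 : 0 < ε / 4 := by positivity
  obtain ⟨C, hC1, hC⟩ := side_le hε4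
  refine ⟨C * 8 ^ (ε / 4) * 128, ?_, fun J q v t0 t1 t2 hv hq h0 h1 h2 => ?_⟩
  · have : (1 : ℝ) ≤ 8 ^ (ε / 4) := Real.one_le_rpow (by norm_num) (by positivity)
    have : 1 ≤ C * 8 ^ (ε / 4) := by nlinarith
    linarith
  have hq1 : 1 ≤ q := le_trans Nat.one_le_two_pow hv
  have hQ : (2 : ℝ) ^ v ≤ (q : ℝ) := by exact_mod_cast hv
  have hmain := hC q (2 ^ (t0 + 1)) (2 ^ (t1 + 1)) (2 ^ (t2 + 1)) hq1 Nat.one_le_two_pow
    Nat.one_le_two_pow Nat.one_le_two_pow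
  push_cast at hmain
  refine hmain.trans ?_
  have e1 : ((q : ℝ) * 2 ^ (t0 + 1) * 2 ^ (t1 + 1) * 2 ^ (t2 + 1)) ^ (ε / 4) ≤
      8 ^ (ε / 4) * 2 ^ (ε * J) := by
    have i1 : (q : ℝ) * 2 ^ (t0 + 1) * 2 ^ (t1 + 1) * 2 ^ (t2 + 1) ≤ 8 * (2 : ℝ) ^ (4 * J) := by
      have j0 : (2 : ℝ) ^ (t0 + 1) ≤ 2 ^ (J + 1) := pow_le_pow_right₀ (by norm_num) (by omega)
      have j1 : (2 : ℝ) ^ (t1 + 1) ≤ 2 ^ (J + 1) := pow_le_pow_right₀ (by norm_num) (by omega)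
      have j2 : (2 : ℝ) ^ (t2 + 1) ≤ 2 ^ (J + 1) := pow_le_pow_right₀ (by norm_num) (by omega)
      have j3 : (q : ℝ) ≤ 2 ^ J := by exact_mod_cast hq
      calc (q : ℝ) * 2 ^ (t0 + 1) * 2 ^ (t1 + 1) * 2 ^ (t2 + 1)
          ≤ 2 ^ J * 2 ^ (J + 1) * 2 ^ (J + 1) * 2 ^ (J + 1) := by gcongr
        _ = _ := by ring
    calc ((q : ℝ) * 2 ^ (t0 + 1) * 2 ^ (t1 + 1) * 2 ^ (t2 + 1)) ^ (ε / 4)
        ≤ (8 * (2 : ℝ) ^ (4 * J)) ^ (ε / 4) :=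
          Real.rpow_le_rpow (by positivity) i1 (by positivity)
      _ = 8 ^ (ε / 4) * ((2 : ℝ) ^ (4 * J)) ^ (ε / 4) :=
          Real.mul_rpow (by norm_num) (by positivity)
      _ = 8 ^ (ε / 4) * 2 ^ (ε * J) := by
          rw [← Real.rpow_natCast 2 (4 * J), ← Real.rpow_mul (by norm_num)]
          congr 2; push_cast; ring
  have e2 : min (fA (q : ℝ) (2 ^ (t0 + 1)) (2 ^ (t1 + 1)) (2 ^ (t2 + 1)))
      (fB (q : ℝ) (2 ^ (t0 + 1)) (2 ^ (t1 + 1)) (2 ^ (t2 + 1))) ≤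
      128 * 2 ^ (2 * min (mA v t0 t1 t2) (mB v t0 t1 t2)) := by
    rcases min_choice (mA v t0 t1 t2) (mB v t0 t1 t2) with h | h
    · rw [h]; exact (min_le_left _ _).trans (fA_le t0 t1 t2 v q hQ)
    · rw [h]; exact (min_le_right _ _).trans (fB_le t0 t1 t2 v q hQ)
  have hpos : 0 ≤ min (fA (q : ℝ) (2 ^ (t0 + 1)) (2 ^ (t1 + 1)) (2 ^ (t2 + 1)))
      (fB (q : ℝ) (2 ^ (t0 + 1)) (2 ^ (t1 + 1)) (2 ^ (t2 + 1))) := by
    apply le_min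
    · unfold fA; positivity
    · unfold fB; positivity
  generalize min (fA (q : ℝ) (2 ^ (t0 + 1)) (2 ^ (t1 + 1)) (2 ^ (t2 + 1)))
      (fB (q : ℝ) (2 ^ (t0 + 1)) (2 ^ (t1 + 1)) (2 ^ (t2 + 1))) = mm at *
  calc C * ((q : ℝ) * 2 ^ (t0 + 1) * 2 ^ (t1 + 1) * 2 ^ (t2 + 1)) ^ (ε / 4) * mm
      ≤ C * (8 ^ (ε / 4) * 2 ^ (ε * J)) *
        (128 * 2 ^ (2 * min (mA v t0 t1 t2) (mB v t0 t1 t2))) := by
        gcongr
    _ = _ := by ring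

lemma En_const_mul {α G : Type*} [Group G] (s : Finset α) (φ : α → G) (g : G) :
    En s (fun x => g * φ x) = En s φ := by
  unfold En
  congr 1
  ext p
  simp [mul_right_inj]

lemma En_const_mul2 {α G : Type*} [Group G] (s : Finset α) (φ : α → G) (g h : G) :
    En s (fun x => g * (h * φ x)) = En s φ := by
  unfold En
  congr 1
  ext p
  simp [mul_right_inj]

lemma un_val' {q x : ℕ} (h : Nat.Coprime x q) : ((un q x : (ZMod q)ˣ) : ZMod q) = x := by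
  unfold un; rw [dif_pos h]; rfl

/-- the box of the three free variables of one side -/
def SB (q : ℕ) (t : Exps) : Finset (ℕ × (ℕ × ℕ)) :=
  cop q (2 ^ (t.1 + 1)) ×ˢ (cop q (2 ^ (t.2.1 + 1)) ×ˢ cop q (2 ^ (t.2.2.1 + 1)))

/-- the three free variables -/
def hd (d : Dat) : ℕ × (ℕ × ℕ) := (d.1, (d.2.1, d.2.2.1))

lemma cop_of_dvd_val {q : ℕ} {d : Dat} (h : Nat.Coprime (val d) q) :
    Nat.Coprime d.1 q ∧ Nat.Coprime d.2.1 q ∧ Nat.Coprime d.2.2.1 q ∧ Nat.Coprime d.2.2.2 q := by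
  obtain ⟨h1, h2, h3, h4⟩ := dvd_val d
  exact ⟨h.coprime_dvd_left h1, h.coprime_dvd_left h2, h.coprime_dvd_left h3,
    h.coprime_dvd_left h4⟩

lemma hd_mem {q J : ℕ} {k : Exps} {d : Dat} (hd' : d ∈ DD J k) (h : Nat.Coprime (val d) q) :
    hd d ∈ SB q k := by
  obtain ⟨h1, h2, h3, -⟩ := cop_of_dvd_val h
  simp only [DD, mem_product] at hd'
  obtain ⟨e1, e2, e3, -⟩ := hd'
  have p1 := pos_of_mem_blk e1
  have p2 := pos_of_mem_blk e2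
  have p3 := pos_of_mem_blk e3
  rw [mem_blk] at e1 e2 e3
  simp only [SB, hd, mem_product, cop, mem_filter, mem_Icc]
  refine ⟨⟨⟨p1, ?_⟩, h1⟩, ⟨⟨p2, ?_⟩, h2⟩, ⟨⟨p3, ?_⟩, h3⟩⟩
  · rw [pow_succ]; omega
  · rw [pow_succ]; omega
  · rw [pow_succ]; omega

lemma phi_val {q : ℕ} {d : Dat} (h : Nat.Coprime (val d) q) :
    ((un q d.2.2.2 * Phi q (hd d) : (ZMod q)ˣ) : ZMod q) = (val d : ℕ) := by
  obtain ⟨h1, h2, h3, h4⟩ := cop_of_dvd_val h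
  simp only [Phi, hd, Units.val_mul, Units.val_pow_eq_pow_val, un_val' h1, un_val' h2, un_val' h3,
    un_val' h4]
  unfold val
  push_cast
  ring

/-- one relation type: the pairs satisfy a congruence in the unit group. -/
lemma type_card (q fa fb : ℕ) (ka kb : Exps) (κ : (ZMod q)ˣ) (S : Finset (Dat × (Dat × Dat)))
    (h1 : ∀ p ∈ S, hd p.1 ∈ SB q ka ∧ hd p.2.1 ∈ SB q kb ∧
      un q fa * Phi q (hd p.1) = κ * (un q fb * Phi q (hd p.2.1)))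
    (h2 : ∀ p ∈ S, ∀ p' ∈ S, hd p.1 = hd p'.1 → hd p.2.1 = hd p'.2.1 → p = p') :
    (S.card : ℝ) ^ 2 ≤ (En (SB q ka) (Phi q) : ℝ) * (En (SB q kb) (Phi q) : ℝ) := by
  classical
  have hcs := energy_cs (SB q ka) (SB q kb) (fun x => un q fa * Phi q x)
    (fun y => κ * (un q fb * Phi q y))
  rw [En_const_mul, En_const_mul2] at hcs
  refine le_trans ?_ hcs
  apply pow_le_pow_left₀ (by positivity)
  refine Nat.cast_le.2 ?_
  apply card_le_card_of_injOn (fun p => (hd p.1, hd p.2.1))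
  · intro p hp
    obtain ⟨a1, a2, a3⟩ := h1 p hp
    simp only [coe_filter, Set.mem_ofPred_eq, mem_product]
    exact ⟨⟨a1, a2⟩, a3⟩
  · intro p hp p' hp' h
    simp only [Prod.mk.injEq] at h
    exact h2 p hp p' hp' h.1 h.2

lemma sqrt_form {N : ℝ} {Ea Eb A B K : ℝ} (hN : N ^ 2 ≤ Ea * Eb) (hK : 0 ≤ K)
    (hEb : 0 ≤ Eb) (ha : Ea ≤ K * 2 ^ (2 * A)) (hb : Eb ≤ K * 2 ^ (2 * B)) :
    N ≤ K * 2 ^ (A + B) := by
  have h1 : N ^ 2 ≤ (K * (2 : ℝ) ^ (A + B)) ^ 2 := by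
    refine hN.trans ?_
    have e : (K * (2 : ℝ) ^ (A + B)) ^ 2 = (K * 2 ^ (2 * A)) * (K * 2 ^ (2 * B)) := by
      rw [mul_pow, ← Real.rpow_natCast ((2 : ℝ) ^ (A + B)) 2, ← Real.rpow_mul (by norm_num)]
      have : (2 : ℝ) ^ ((A + B) * ((2 : ℕ) : ℝ)) = 2 ^ (2 * A) * 2 ^ (2 * B) := by
        rw [← Real.rpow_add (by norm_num)]
        congr 1; push_cast; ring
      rw [this]; ring
    rw [e]
    exact mul_le_mul ha hb hEb (by positivity)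
  exact le_of_sq_le_sq h1 (by positivity)

lemma dat_ext {d d' : Dat} (h : hd d = hd d') (hf : d.2.2.2 = d'.2.2.2) : d = d' := by
  simp only [hd, Prod.mk.injEq] at h
  exact Prod.ext h.1 (Prod.ext h.2.1 (Prod.ext h.2.2 hf))

lemma dat_ext2 {d d' : Dat} (h1 : d.2 = d'.2) (h2 : val d = val d') (h3 : 1 ≤ val d) : d = d' := by
  refine Prod.ext ?_ h1
  unfold val at h2 h3
  rw [h1] at h2 h3
  have e1 : d.1 * (d'.2.1 ^ 2 * d'.2.2.1 ^ 3 * d'.2.2.2) =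
      d'.1 * (d'.2.1 ^ 2 * d'.2.2.1 ^ 3 * d'.2.2.2) := by
    calc _ = d.1 * d'.2.1 ^ 2 * d'.2.2.1 ^ 3 * d'.2.2.2 := by ring
      _ = d'.1 * d'.2.1 ^ 2 * d'.2.2.1 ^ 3 * d'.2.2.2 := h2
      _ = _ := by ring
  refine Nat.eq_of_mul_eq_mul_right ?_ e1
  rcases Nat.eq_zero_or_pos (d'.2.1 ^ 2 * d'.2.2.1 ^ 3 * d'.2.2.2) with h0 | h0
  · exfalso
    have : d.1 * d'.2.1 ^ 2 * d'.2.2.1 ^ 3 * d'.2.2.2 =
      d.1 * (d'.2.1 ^ 2 * d'.2.2.1 ^ 3 * d'.2.2.2) := by ring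
    rw [this, h0] at h3
    omega
  · exact h0

/-- the modular bound: the modulus is the non-linear part of the third term. -/
theorem bound_M {ε : ℝ} (hε : 0 < ε) : ∃ K : ℝ, 1 ≤ K ∧ ∀ (J : ℕ) (ka kb kc : Exps),
    ka.1 ≤ J → ka.2.1 ≤ J → ka.2.2.1 ≤ J → kb.1 ≤ J → kb.2.1 ≤ J → kb.2.2.1 ≤ J →
    ((SS J ka kb kc).card : ℝ) ≤ K * (2 : ℝ) ^ (ε * J) *
      (2 ^ (kc.2.1 + kc.2.2.1 + kc.2.2.2) * 2 ^ ka.2.2.2 * 2 ^ kb.2.2.2) *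
      2 ^ (min (mA ((2 * kc.2.1 + 3 * kc.2.2.1 + 4 * kc.2.2.2 : ℕ) : ℝ) ka.1 ka.2.1 ka.2.2.1)
          (mB ((2 * kc.2.1 + 3 * kc.2.2.1 + 4 * kc.2.2.2 : ℕ) : ℝ) ka.1 ka.2.1 ka.2.2.1) +
        min (mA ((2 * kc.2.1 + 3 * kc.2.2.1 + 4 * kc.2.2.2 : ℕ) : ℝ) kb.1 kb.2.1 kb.2.2.1)
          (mB ((2 * kc.2.1 + 3 * kc.2.2.1 + 4 * kc.2.2.2 : ℕ) : ℝ) kb.1 kb.2.1 kb.2.2.1)) := by
  have hε4 : 0 < ε / 4 := by positivity
  obtain ⟨C, hC1, hC⟩ := card_FF hε4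
  obtain ⟨K, hK1, hK⟩ := side_log hε4
  refine ⟨C ^ 3 * (3 * K), ?_, fun J ka kb kc c1 c2 c3 c4 c5 c6 => ?_⟩
  · have h1 : 1 ≤ C ^ 3 := one_le_pow₀ hC1
    nlinarith
  set v : ℕ := 2 * kc.2.1 + 3 * kc.2.2.1 + 4 * kc.2.2.2 with hv
  set A : ℝ := min (mA (v : ℝ) ka.1 ka.2.1 ka.2.2.1) (mB (v : ℝ) ka.1 ka.2.1 ka.2.2.1) with hA
  set B : ℝ := min (mA (v : ℝ) kb.1 kb.2.1 kb.2.2.1) (mB (v : ℝ) kb.1 kb.2.1 kb.2.2.1) with hB
  have hfib := card_le_fiber (SS J ka kb kc)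
    ((blk kc.2.1 ×ˢ (blk kc.2.2.1 ×ˢ FF J kc.2.2.2)) ×ˢ (FF J ka.2.2.2 ×ˢ FF J kb.2.2.2))
    (fun p => (p.2.2.2, (p.1.2.2.2, p.2.1.2.2.2))) (by
    intro p hp
    simp only [SS, DD, mem_filter, mem_product] at hp
    simp only [mem_product]
    obtain ⟨⟨⟨a1, a2, a3, a4⟩, ⟨b1, b2, b3, b4⟩, e1, e2⟩, -⟩ := hp
    exact ⟨e2, a4, b4⟩)
    (3 * (K * (2 : ℝ) ^ (ε / 4 * J) * 2 ^ (A + B))) (by
    rintro ⟨⟨m, w, f⟩, fa, fb⟩ h
    simp only [mem_product, FF, mem_filter, mem_Icc] at h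
    obtain ⟨⟨hm, hw, ⟨hf, -⟩, hf1, -, hf4⟩, -⟩ := h
    set q : ℕ := m ^ 2 * w ^ 3 * f with hq
    have hvq : 2 ^ v ≤ q := by
      calc 2 ^ v = (2 ^ kc.2.1) ^ 2 * (2 ^ kc.2.2.1) ^ 3 * (2 ^ kc.2.2.2) ^ 4 := by
            rw [hv]; ring
        _ ≤ m ^ 2 * w ^ 3 * f := by
            refine Nat.mul_le_mul (Nat.mul_le_mul (Nat.pow_le_pow_left (mem_blk.1 hm).1 2)
              (Nat.pow_le_pow_left (mem_blk.1 hw).1 3)) ?_
            exact le_trans (Nat.pow_le_pow_left hf1 4) hf4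
    set F := (SS J ka kb kc).filter
      (fun p => (p.2.2.2, (p.1.2.2.2, p.2.1.2.2.2)) = ((m, (w, f)), (fa, fb))) with hF
    rcases F.eq_empty_or_nonempty with h0 | ⟨p0, hp0⟩
    · rw [h0]
      simp only [card_empty, Nat.cast_zero]
      positivity
    have hmemF : ∀ p ∈ F, p.1 ∈ DD J ka ∧ p.2.1 ∈ DD J kb ∧ p.2.2 ∈ DD J kc ∧ Good J p ∧
        p.2.2.2 = (m, (w, f)) ∧ p.1.2.2.2 = fa ∧ p.2.1.2.2.2 = fb := by
      intro p hp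
      simp only [hF, SS, mem_filter, mem_product, Prod.mk.injEq] at hp
      obtain ⟨⟨⟨h1, h2, h3⟩, h4⟩, h5, h6, h7⟩ := hp
      exact ⟨h1, h2, h3, h4, h5, h6, h7⟩
    have hdvd : ∀ p ∈ F, q ∣ val p.2.2 := by
      intro p hp
      obtain ⟨-, -, -, -, h5, -⟩ := hmemF p hp
      refine ⟨p.2.2.1, ?_⟩
      unfold val
      rw [h5, hq]; ring
    have hqJ : q ≤ 2 ^ J := by
      obtain ⟨-, -, h3, h4, -⟩ := hmemF p0 hp0
      exact le_trans (Nat.le_of_dvd (val_pos h3) (hdvd p0 hp0)) h4.2.2.2.2.2.2.1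
    have hEa := hK J q v ka.1 ka.2.1 ka.2.2.1 hvq hqJ c1 c2 c3
    have hEb := hK J q v kb.1 kb.2.1 kb.2.2.1 hvq hqJ c4 c5 c6
    -- one type
    have htype : ∀ (κ : (ZMod q)ˣ) (S : Finset (Dat × (Dat × Dat))), S ⊆ F →
        (∀ p ∈ S, ((val p.1 : ℕ) : ZMod q) = κ * ((val p.2.1 : ℕ) : ZMod q)) →
        (∀ p ∈ S, ∀ p' ∈ S, val p.1 = val p'.1 → val p.2.1 = val p'.2.1 →
          val p.2.2 = val p'.2.2) →
        (S.card : ℝ) ≤ K * (2 : ℝ) ^ (ε / 4 * J) * 2 ^ (A + B) := by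
      intro κ S hS h1 h2
      have hc : ∀ p ∈ F, Nat.Coprime (val p.1) q ∧ Nat.Coprime (val p.2.1) q := by
        intro p hp
        obtain ⟨-, -, -, hg, -⟩ := hmemF p hp
        exact ⟨hg.2.2.2.1.coprime_dvd_right (hdvd p hp), hg.2.2.1.coprime_dvd_right (hdvd p hp)⟩
      have hmain := type_card q fa fb ka kb κ S (by
        intro p hp
        obtain ⟨d1, d2, d3, hg, e1, e2, e3⟩ := hmemF p (hS hp)
        obtain ⟨k1, k2⟩ := hc p (hS hp)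
        refine ⟨hd_mem d1 k1, hd_mem d2 k2, ?_⟩
        apply Units.ext
        have i1 := phi_val k1
        have i2 := phi_val k2
        rw [e2] at i1
        rw [e3] at i2
        rw [i1, Units.val_mul, i2]
        exact h1 p hp) (by
        intro p hp p' hp' g1 g2
        obtain ⟨d1, d2, d3, hg, e1, e2, e3⟩ := hmemF p (hS hp)
        obtain ⟨d1', d2', d3', hg', e1', e2', e3'⟩ := hmemF p' (hS hp')
        have i1 : p.1 = p'.1 := dat_ext g1 (e2.trans e2'.symm)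
        have i2 : p.2.1 = p'.2.1 := dat_ext g2 (e3.trans e3'.symm)
        have i3 : p.2.2 = p'.2.2 := dat_ext2 (e1.trans e1'.symm)
          (h2 p hp p' hp' (by rw [i1]) (by rw [i2])) (val_pos d3)
        exact Prod.ext i1 (Prod.ext i2 i3))
      exact sqrt_form hmain (by positivity) (by positivity) hEa hEb
    have hz : ∀ p ∈ F, ((val p.2.2 : ℕ) : ZMod q) = 0 := by
      intro p hp
      exact (ZMod.natCast_eq_zero_iff _ _).2 (hdvd p hp)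
    have h1 := htype (-1) (F.filter (fun p => val p.1 + val p.2.1 = val p.2.2))
      (filter_subset _ _) (by
        intro p hp
        rw [mem_filter] at hp
        have i1 := hz p hp.1
        rw [← hp.2] at i1
        push_cast at i1
        rw [Units.val_neg, Units.val_one]
        linear_combination i1) (by
        intro p hp p' hp' g1 g2
        rw [mem_filter] at hp hp'
        rw [← hp.2, ← hp'.2, g1, g2])
    have h2 := htype 1 (F.filter (fun p => val p.2.1 + val p.2.2 = val p.1))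
      (filter_subset _ _) (by
        intro p hp
        rw [mem_filter] at hp
        have i1 := hz p hp.1
        rw [← hp.2]
        push_cast
        rw [i1]; ring) (by
        intro p hp p' hp' g1 g2
        rw [mem_filter] at hp hp'
        omega)
    have h3 := htype 1 (F.filter (fun p => val p.2.2 + val p.1 = val p.2.1))
      (filter_subset _ _) (by
        intro p hp
        rw [mem_filter] at hp
        have i1 := hz p hp.1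
        rw [← hp.2]
        push_cast
        rw [i1]; ring) (by
        intro p hp p' hp' g1 g2
        rw [mem_filter] at hp hp'
        omega)
    have hsplit : F ⊆ F.filter (fun p => val p.1 + val p.2.1 = val p.2.2) ∪
        (F.filter (fun p => val p.2.1 + val p.2.2 = val p.1) ∪
        F.filter (fun p => val p.2.2 + val p.1 = val p.2.1)) := by
      intro p hp
      simp only [mem_union, mem_filter, hp, true_and]
      obtain ⟨-, -, -, hg, -⟩ := hmemF p hp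
      exact hg.1
    have hcard : (F.card : ℝ) ≤ ((F.filter (fun p => val p.1 + val p.2.1 = val p.2.2)).card : ℝ) +
        (((F.filter (fun p => val p.2.1 + val p.2.2 = val p.1)).card : ℝ) +
        ((F.filter (fun p => val p.2.2 + val p.1 = val p.2.1)).card : ℝ)) := by
      have e1 := card_le_card hsplit
      have e2 := card_union_le (F.filter (fun p => val p.1 + val p.2.1 = val p.2.2))
        (F.filter (fun p => val p.2.1 + val p.2.2 = val p.1) ∪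
        F.filter (fun p => val p.2.2 + val p.1 = val p.2.1))
      have e3 := card_union_le (F.filter (fun p => val p.2.1 + val p.2.2 = val p.1))
        (F.filter (fun p => val p.2.2 + val p.1 = val p.2.1))
      exact_mod_cast e1.trans (by omega)
    linarith)
  refine hfib.trans ?_
  simp only [card_product, card_blk]
  push_cast
  have h1 := hC J ka.2.2.2
  have h2 := hC J kb.2.2.2
  have h3 := hC J kc.2.2.2
  have e4 : (2 : ℝ) ^ (ε / 4 * J) * 2 ^ (ε / 4 * J) * 2 ^ (ε / 4 * J) * 2 ^ (ε / 4 * J)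
      = 2 ^ (ε * J) := by
    rw [← Real.rpow_add (by norm_num), ← Real.rpow_add (by norm_num),
      ← Real.rpow_add (by norm_num)]
    congr 1; ring
  calc (2 : ℝ) ^ kc.2.1 * (2 ^ kc.2.2.1 * ((FF J kc.2.2.2).card : ℝ)) *
        (((FF J ka.2.2.2).card : ℝ) * ((FF J kb.2.2.2).card : ℝ)) *
        (3 * (K * (2 : ℝ) ^ (ε / 4 * J) * 2 ^ (A + B)))
      ≤ (2 : ℝ) ^ kc.2.1 * (2 ^ kc.2.2.1 * (C * 2 ^ (ε / 4 * J) * 2 ^ kc.2.2.2)) *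
        ((C * 2 ^ (ε / 4 * J) * 2 ^ ka.2.2.2) * (C * 2 ^ (ε / 4 * J) * 2 ^ kb.2.2.2)) *
        (3 * (K * (2 : ℝ) ^ (ε / 4 * J) * 2 ^ (A + B))) := by gcongr
    _ = C ^ 3 * (3 * K) *
      ((2 : ℝ) ^ (ε / 4 * J) * 2 ^ (ε / 4 * J) * 2 ^ (ε / 4 * J) * 2 ^ (ε / 4 * J)) *
      (2 ^ (kc.2.1 + kc.2.2.1 + kc.2.2.2) * 2 ^ ka.2.2.2 * 2 ^ kb.2.2.2) * 2 ^ (A + B) := by
      ring
    _ = _ := by rw [e4]

end AbcTR
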