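import Pool.Agent.Work.MP_a793bb_nt.TR.Tau
import Pool.Agent.Work.MP_a793bb_nt.TR.Sep

set_option autoImplicit false

namespace AbcTR

open Finset

/-- `C ∣ 2 D` for two points in the same class -/
private theorem dvd_two_mul {C : ℤ} {x y x' y' x0 y0 : ℤ}
    (hx : IsCoprime x C) (hy0 : IsCoprime y0 C)
    (h1 : C ∣ (x * y0 - x0 * y) * (x * y0 + x0 * y))
    (h2 : C ∣ (x' * y0 - x0 * y') * (x' * y0 + x0 * y'))
    (hd : gcd C (x * y0 - x0 * y) = gcd C (x' * y0 - x0 * y')) :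
    C ∣ 2 * (x * y' - x' * y) := by
  set d := gcd C (x * y0 - x0 * y) with hdd
  have e1 : C ∣ d * (x * y0 + x0 * y) := dvd_gcd_mul_iff_dvd_mul.2 h1
  have e2 : C ∣ d * (x' * y0 + x0 * y') := by
    rw [hd]; exact dvd_gcd_mul_iff_dvd_mul.2 h2
  have d1 : d ∣ x * y0 - x0 * y := gcd_dvd_right _ _
  have d2 : d ∣ x' * y0 - x0 * y' := by rw [hd]; exact gcd_dvd_right _ _
  have dC : d ∣ C := gcd_dvd_left _ _
  have hyd : IsCoprime y0 d := hy0.of_isCoprime_of_dvd_right dC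
  obtain ⟨c, hc⟩ := dC
  have k1 : d ∣ (x * y' - x' * y) := by
    have : d ∣ y0 * (x * y' - x' * y) := by
      have e : y0 * (x * y' - x' * y) = (x * y0 - x0 * y) * y' - (x' * y0 - x0 * y') * y := by ring
      rw [e]
      exact dvd_sub (d1.mul_right _) (d2.mul_right _)
    exact hyd.symm.dvd_of_dvd_mul_left this
  have k2 : C ∣ d * (x * y' - x' * y) := by
    have : C ∣ y0 * (d * (x * y' - x' * y)) := by
      have e : y0 * (d * (x * y' - x' * y)) =
        (d * (x * y0 + x0 * y)) * y' - (d * (x' * y0 + x0 * y')) * y := by ring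
      rw [e]
      exact dvd_sub (e1.mul_right _) (e2.mul_right _)
    exact hy0.symm.dvd_of_dvd_mul_left this
  by_cases hd0 : d = 0
  · have : C = 0 := by rw [hc, hd0, zero_mul]
    rw [hd0] at k1
    rw [this, zero_dvd_iff.1 k1, mul_zero]
  have k3 : c ∣ (x * y' - x' * y) := by
    rw [hc] at k2
    exact (mul_dvd_mul_iff_left hd0).1 k2
  have k4 : c ∣ (x * y0 + x0 * y) := by
    rw [hc] at e1
    exact (mul_dvd_mul_iff_left hd0).1 e1
  -- the gcd of the two parts divides `2`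
  have hg : gcd c d ∣ 2 := by
    have g1 : gcd c d ∣ c := gcd_dvd_left _ _
    have g2 : gcd c d ∣ d := gcd_dvd_right _ _
    have gC : gcd c d ∣ C := by rw [hc]; exact g1.mul_left _
    have g3 : gcd c d ∣ (x * y0) * 2 := by
      have e : (x * y0) * 2 = (x * y0 - x0 * y) + (x * y0 + x0 * y) := by ring
      rw [e]
      exact dvd_add (g2.trans d1) (g1.trans k4)
    have hcop : IsCoprime (gcd c d) (x * y0) :=
      ((hx.mul_left hy0).of_isCoprime_of_dvd_right gC).symm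
    exact hcop.dvd_of_dvd_mul_left g3
  obtain ⟨u, hu⟩ := k1
  have k5 : c ∣ gcd c d * u := by
    rw [dvd_gcd_mul_iff_dvd_mul, ← hu]; exact k3
  have k6 : C ∣ gcd c d * (x * y' - x' * y) := by
    rw [hu, hc]
    have e : gcd c d * (d * u) = d * (gcd c d * u) := by ring
    rw [e]
    exact mul_dvd_mul_left d k5
  exact k6.trans (mul_dvd_mul_right hg _)

/-- a class: all pairs satisfy `C ∣ 2 D` -/
private theorem class_card {C V : ℕ} (hC : 1 ≤ C) (hV : 1 ≤ V) (S : Finset (ℕ × ℕ × ℕ))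
    (hx : ∀ p ∈ S, 1 ≤ p.1) (hy : ∀ p ∈ S, 1 ≤ p.2.1 ∧ p.2.1 ≤ 2 * V)
    (hcop : ∀ p ∈ S, Nat.Coprime p.1 p.2.1)
    (hz : ∀ p ∈ S, ∀ q ∈ S, p.1 = q.1 → p.2.1 = q.2.1 → p = q)
    (hd : ∀ p ∈ S, ∀ q ∈ S, (C : ℤ) ∣ 2 * ((p.1 : ℤ) * q.2.1 - q.1 * p.2.1))
    (a l : ℝ) (hl : 0 ≤ l) (hint : ∀ p ∈ S, a ≤ (p.1 : ℝ) / p.2.1 ∧ (p.1 : ℝ) / p.2.1 ≤ a + l) :
    (S.card : ℝ) ≤ 1 + l * (8 * (V : ℝ) ^ 2) / C := by
  have hCr : (0 : ℝ) < C := by exact_mod_cast hC
  have hVr : (0 : ℝ) < V := by exact_mod_cast hV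
  have hdist : ∀ p ∈ S, ∀ q ∈ S, p ≠ q →
      (C : ℝ) / (8 * (V : ℝ) ^ 2) ≤ |(p.1 : ℝ) / p.2.1 - (q.1 : ℝ) / q.2.1| := by
    intro p hp q hq hpq
    have hyp := hy p hp
    have hyq := hy q hq
    have yp : (0 : ℝ) < p.2.1 := by exact_mod_cast hyp.1
    have yq : (0 : ℝ) < q.2.1 := by exact_mod_cast hyq.1
    have hD : (p.1 : ℤ) * q.2.1 - q.1 * p.2.1 ≠ 0 := by
      intro h
      have h' : p.1 * q.2.1 = q.1 * p.2.1 := by
        have : (p.1 : ℤ) * q.2.1 = q.1 * p.2.1 := by linarith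
        exact_mod_cast this
      have k1 : p.1 ∣ q.1 := (hcop p hp).dvd_of_dvd_mul_right (h' ▸ dvd_mul_right _ _)
      have k2 : q.1 ∣ p.1 := (hcop q hq).dvd_of_dvd_mul_right (h'.symm ▸ dvd_mul_right _ _)
      have k3 : p.1 = q.1 := Nat.dvd_antisymm k1 k2
      have k4 : p.2.1 = q.2.1 := by
        rw [k3] at h'
        exact (Nat.eq_of_mul_eq_mul_left (hx q hq) h').symm
      exact hpq (hz p hp q hq k3 k4)
    have h2 : (C : ℤ) ≤ |2 * ((p.1 : ℤ) * q.2.1 - q.1 * p.2.1)| := by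
      have h3 : (2 * ((p.1 : ℤ) * q.2.1 - q.1 * p.2.1)) ≠ 0 := mul_ne_zero two_ne_zero hD
      have := Int.le_of_dvd (abs_pos.2 h3) ((dvd_abs _ _).2 (hd p hp q hq))
      exact this
    have h2r : (C : ℝ) ≤ 2 * |(p.1 : ℝ) * q.2.1 - q.1 * p.2.1| := by
      have : ((C : ℤ) : ℝ) ≤ ((|2 * ((p.1 : ℤ) * q.2.1 - q.1 * p.2.1)| : ℤ) : ℝ) := by
        exact_mod_cast h2
      rw [abs_mul] at this
      push_cast at this
      simpa using this
    have e : (p.1 : ℝ) / p.2.1 - (q.1 : ℝ) / q.2.1 =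
        ((p.1 : ℝ) * q.2.1 - q.1 * p.2.1) / (p.2.1 * q.2.1) := by
      field_simp
    rw [e, abs_div, abs_of_pos (mul_pos yp yq), div_le_div_iff₀ (by positivity) (by positivity)]
    have hm : (p.2.1 : ℝ) * q.2.1 ≤ (2 * V) * (2 * V) := by
      have h5 : (p.2.1 : ℝ) ≤ 2 * V := by exact_mod_cast hyp.2
      have h6 : (q.2.1 : ℝ) ≤ 2 * V := by exact_mod_cast hyq.2
      exact mul_le_mul h5 h6 yq.le (by positivity)
    calc (C : ℝ) * (p.2.1 * q.2.1) ≤ C * ((2 * V) * (2 * V)) := by gcongr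
      _ ≤ (2 * |(p.1 : ℝ) * q.2.1 - q.1 * p.2.1|) * ((2 * V) * (2 * V)) := by gcongr
      _ = _ := by ring
  have hs : (0 : ℝ) < (C : ℝ) / (8 * (V : ℝ) ^ 2) := by positivity
  have hinj : Set.InjOn (fun p : ℕ × ℕ × ℕ => (p.1 : ℝ) / p.2.1) S := by
    intro p hp q hq hpq
    by_contra hne
    have := hdist p hp q hq hne
    simp only at hpq
    rw [hpq, sub_self, abs_zero] at this
    linarith
  have hc : (S.image (fun p : ℕ × ℕ × ℕ => (p.1 : ℝ) / p.2.1)).card = S.card :=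
    Finset.card_image_of_injOn hinj
  have := card_le_of_separated (S.image (fun p : ℕ × ℕ × ℕ => (p.1 : ℝ) / p.2.1)) a l
    ((C : ℝ) / (8 * (V : ℝ) ^ 2)) hs hl
    (fun x hx => by
      obtain ⟨p, hp, rfl⟩ := Finset.mem_image.1 hx
      exact hint p hp)
    (fun x hx y hy hxy => by
      obtain ⟨p, hp, rfl⟩ := Finset.mem_image.1 hx
      obtain ⟨q, hq, rfl⟩ := Finset.mem_image.1 hy
      exact hdist p hp q hq (fun h => hxy (by rw [h])))
  rw [hc] at this
  refine this.trans (le_of_eq ?_)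
  field_simp

/-- solutions of one type -/
private theorem type_card {i A B C H V Z X : ℕ} (hi1 : 1 ≤ i) (hi2 : i ≤ 2) (hA : 1 ≤ A)
    (hB : 1 ≤ B) (hC : 1 ≤ C) (hH : 1 ≤ H) (hV : 1 ≤ V) (hZ : 1 ≤ Z) (hX : 1 ≤ X)
    (S : Finset (ℕ × ℕ × ℕ)) (s t : ℤ) (hs : s = 1 ∨ s = -1) (ht : t = 1 ∨ t = -1)
    (hbox : ∀ p ∈ S, (H ≤ p.1 ∧ p.1 < 2 * H) ∧ (V ≤ p.2.1 ∧ p.2.1 < 2 * V) ∧
      (Z ≤ p.2.2 ∧ p.2.2 < 2 * Z))
    (hrel : ∀ p ∈ S, (A : ℤ) * p.1 ^ i + s * (B * p.2.1 ^ i) = t * (C * p.2.2))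
    (hc1 : ∀ p ∈ S, Nat.Coprime (A * p.1 ^ i) (B * p.2.1 ^ i))
    (hc2 : ∀ p ∈ S, Nat.Coprime (B * p.2.1 ^ i) (C * p.2.2))
    (hc3 : ∀ p ∈ S, Nat.Coprime (A * p.1 ^ i) (C * p.2.2))
    (hX1 : ∀ p ∈ S, A * p.1 ^ i ≤ X ∧ B * p.2.1 ^ i ≤ X ∧ C * p.2.2 ≤ X ∧
      X < 2 * max (A * p.1 ^ i) (max (B * p.2.1 ^ i) (C * p.2.2))) :
    (S.card : ℝ) ≤ (C.divisors.card : ℝ) * (1 + 256 * ((H : ℝ) * V * Z / X)) := by
  have hCr : (0 : ℝ) < C := by exact_mod_cast hC
  have hVr : (0 : ℝ) < V := by exact_mod_cast hV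
  have hHr : (0 : ℝ) < H := by exact_mod_cast hH
  have hZr : (0 : ℝ) < Z := by exact_mod_cast hZ
  have hXr : (0 : ℝ) < X := by exact_mod_cast hX
  have hAr : (0 : ℝ) < A := by exact_mod_cast hA
  have hBr : (0 : ℝ) < B := by exact_mod_cast hB
  have hdx : ∀ x : ℕ, x ∣ x ^ i := fun x => dvd_pow_self x (by omega)
  have hxC : ∀ p ∈ S, Nat.Coprime p.1 C := fun p hp =>
    ((hc3 p hp).coprime_dvd_left ((hdx p.1).mul_left A)).coprime_dvd_right (dvd_mul_right C _)
  have hyC : ∀ p ∈ S, Nat.Coprime p.2.1 C := fun p hp =>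
    ((hc2 p hp).coprime_dvd_left ((hdx p.2.1).mul_left B)).coprime_dvd_right (dvd_mul_right C _)
  have hxy : ∀ p ∈ S, Nat.Coprime p.1 p.2.1 := fun p hp =>
    ((hc1 p hp).coprime_dvd_left ((hdx p.1).mul_left A)).coprime_dvd_right
      ((hdx p.2.1).mul_left B)
  have hx1 : ∀ p ∈ S, 1 ≤ p.1 := fun p hp => by have := hbox p hp; omega
  have hy1 : ∀ p ∈ S, 1 ≤ p.2.1 ∧ p.2.1 ≤ 2 * V := fun p hp => by have := hbox p hp; omega
  have hAC : S.Nonempty → IsCoprime (A : ℤ) C := fun ⟨p, hp⟩ =>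
    Nat.isCoprime_iff_coprime.2 (((hc3 p hp).coprime_dvd_left (dvd_mul_right A _)).coprime_dvd_right
      (dvd_mul_right C _))
  have hz : ∀ p ∈ S, ∀ q ∈ S, p.1 = q.1 → p.2.1 = q.2.1 → p = q := by
    intro p hp q hq h1 h2
    have e1 := hrel p hp
    have e2 := hrel q hq
    rw [h1, h2, e2] at e1
    have h3 : (C : ℤ) * p.2.2 = C * q.2.2 := by
      rcases ht with rfl | rfl <;> linarith
    have h4 : p.2.2 = q.2.2 := by
      have : C * p.2.2 = C * q.2.2 := by exact_mod_cast h3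
      exact Nat.eq_of_mul_eq_mul_left hC this
    exact Prod.ext h1 (Prod.ext h2 h4)
  have hmod : ∀ p ∈ S, ∀ q ∈ S, (C : ℤ) ∣
      ((p.1 : ℤ) * q.2.1 - q.1 * p.2.1) * (p.1 * q.2.1 + q.1 * p.2.1) := by
    intro p hp q hq
    have h0 := hAC ⟨p, hp⟩
    have e1 := hrel p hp
    have e2 := hrel q hq
    have h1 : (C : ℤ) ∣ A * (((p.1 : ℤ) * q.2.1) ^ i - (q.1 * p.2.1) ^ i) := by
      have e : (A : ℤ) * (((p.1 : ℤ) * q.2.1) ^ i - (q.1 * p.2.1) ^ i) =
          C * (t * (p.2.2 * (q.2.1 : ℤ) ^ i - q.2.2 * (p.2.1 : ℤ) ^ i)) := by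
        rw [mul_pow, mul_pow]
        linear_combination (q.2.1 : ℤ) ^ i * e1 - (p.2.1 : ℤ) ^ i * e2
      rw [e]
      exact dvd_mul_right _ _
    have h2 := h0.symm.dvd_of_dvd_mul_left h1
    interval_cases i
    · rw [pow_one, pow_one] at h2
      exact h2.mul_right _
    · have e : ((p.1 : ℤ) * q.2.1 - q.1 * p.2.1) * (p.1 * q.2.1 + q.1 * p.2.1) =
        ((p.1 : ℤ) * q.2.1) ^ 2 - (q.1 * p.2.1) ^ 2 := by ring
      rw [e]
      exact h2
  -- the interval
  have hint : ∃ a l : ℝ, 0 ≤ l ∧ l * (8 * (V : ℝ) ^ 2) / C ≤ 256 * ((H : ℝ) * V * Z / X) ∧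
      ∀ p ∈ S, a ≤ (p.1 : ℝ) / p.2.1 ∧ (p.1 : ℝ) / p.2.1 ≤ a + l := by
    by_cases hcase : X ≤ 16 * C * Z
    · refine ⟨0, 2 * H / V, by positivity, ?_, fun p hp => ⟨by positivity, ?_⟩⟩
      · have hcr : (X : ℝ) ≤ 16 * C * Z := by exact_mod_cast hcase
        have e : 2 * (H : ℝ) / V * (8 * (V : ℝ) ^ 2) / C = 16 * H * V / C := by field_simp; ring
        rw [e, ← mul_div_assoc, div_le_div_iff₀ hCr hXr]
        calc 16 * (H : ℝ) * V * X ≤ 16 * H * V * (16 * C * Z) := by gcongr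
          _ = _ := by ring
      · have hb := hbox p hp
        have h1 : (p.1 : ℝ) ≤ 2 * H := by exact_mod_cast hb.1.2.le
        have h2 : (V : ℝ) ≤ p.2.1 := by exact_mod_cast hb.2.1.1
        rw [zero_add]
        gcongr
    · push Not at hcase
      have hcr : 16 * (C : ℝ) * Z < X := by exact_mod_cast hcase
      set L : ℝ := 16 * C * Z * H / (X * V) with hL
      have hL0 : 0 ≤ L := by positivity
      have key : ∃ ρ : ℝ, ∀ p ∈ S, |(p.1 : ℝ) / p.2.1 - ρ| ≤ L := by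
        have hfacts : ∀ p ∈ S, s = -1 ∧ (C : ℝ) * p.2.2 ≤ 2 * C * Z ∧
            |(A : ℝ) * p.1 ^ i - B * p.2.1 ^ i| = C * p.2.2 ∧ (X : ℝ) / 4 < A * p.1 ^ i := by
          intro p hp
          have hb := hbox p hp
          have e1 := hrel p hp
          have hm := hX1 p hp
          have hz2 : C * p.2.2 ≤ 2 * C * Z := by
            calc C * p.2.2 ≤ C * (2 * Z) := Nat.mul_le_mul_left _ hb.2.2.2.le
              _ = _ := by ring
          set a := A * p.1 ^ i with ha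
          set b := B * p.2.1 ^ i with hb'
          set c := C * p.2.2 with hc'
          have hapos : 1 ≤ a := Nat.one_le_iff_ne_zero.2 (by
            have := hx1 p hp; positivity)
          have hbpos : 1 ≤ b := Nat.one_le_iff_ne_zero.2 (by
            have := (hy1 p hp).1; positivity)
          have e1' : (a : ℤ) + s * b = t * c := by
            rw [ha, hb', hc']; push_cast; exact e1
          have hCZ : 16 * (C * Z) < X := by rw [← mul_assoc]; exact hcase
          have hz2' : c ≤ 2 * (C * Z) := by rw [← mul_assoc]; exact hz2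
          have hs' : s = -1 := by
            rcases hs with rfl | h
            · exfalso
              rcases ht with rfl | rfl
              · have : a + b = c := by
                  have : (a : ℤ) + b = c := by linarith
                  exact_mod_cast this
                omega
              · have : (a : ℤ) + b = -c := by linarith
                omega
            · exact h
          have habs : |(a : ℝ) - b| = c := by
            rw [hs'] at e1'
            have e2 : (a : ℝ) - b = t * c := by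
              have : ((a : ℤ) + (-1) * b : ℤ) = t * c := e1'
              have h2 : (((a : ℤ) + (-1) * b : ℤ) : ℝ) = ((t * c : ℤ) : ℝ) := by rw [this]
              push_cast at h2
              linarith
            rw [e2]
            rcases ht with rfl | rfl
            · simp
            · simp
          have hfin : (X : ℝ) / 4 < a := by
            have h3 : X < 4 * a := by
              rw [hs'] at e1'
              rcases ht with rfl | rfl
              · have : a = b + c := by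
                  have : (a : ℤ) = b + c := by linarith
                  exact_mod_cast this
                omega
              · have : b = a + c := by
                  have : (b : ℤ) = a + c := by linarith
                  exact_mod_cast this
                omega
            have : (X : ℝ) < 4 * a := by exact_mod_cast h3
            linarith
          refine ⟨hs', ?_, ?_, ?_⟩
          · have : ((C * p.2.2 : ℕ) : ℝ) ≤ ((2 * C * Z : ℕ) : ℝ) := by exact_mod_cast hz2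
            push_cast at this
            exact this
          · rw [ha, hb', hc'] at habs
            push_cast at habs
            exact habs
          · rw [ha] at hfin
            push_cast at hfin
            exact hfin
        have hLV : ∀ p ∈ S, ∀ w : ℝ, (X : ℝ) / 4 < w * p.1 → (C : ℝ) * p.2.2 ≤ L * (w * p.2.1) := by
          intro p hp w hw
          have hb := hbox p hp
          have h1 : (p.1 : ℝ) ≤ 2 * H := by exact_mod_cast hb.1.2.le
          have h2 : (V : ℝ) ≤ p.2.1 := by exact_mod_cast hb.2.1.1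
          have hp0 : (0 : ℝ) < p.1 := by exact_mod_cast hx1 p hp
          have hw0 : 0 < w := by
            by_contra h
            have : w * p.1 ≤ 0 := mul_nonpos_of_nonpos_of_nonneg (not_lt.1 h) hp0.le
            linarith
          have h3 : (X : ℝ) ≤ 8 * H * w := by nlinarith
          have h4 := (hfacts p hp).2.1
          refine h4.trans ?_
          rw [hL, div_mul_eq_mul_div, le_div_iff₀ (by positivity)]
          calc 2 * (C : ℝ) * Z * (X * V) ≤ 2 * C * Z * ((8 * H * w) * p.2.1) := by gcongr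
            _ = _ := by ring
        interval_cases i
        · refine ⟨(B : ℝ) / A, fun p hp => ?_⟩
          obtain ⟨-, f2, f3, f4⟩ := hfacts p hp
          have yp : (0 : ℝ) < p.2.1 := by exact_mod_cast (hy1 p hp).1
          rw [pow_one, pow_one] at f3
          rw [pow_one] at f4
          have e : (p.1 : ℝ) / p.2.1 - B / A = (A * p.1 - B * p.2.1) / (A * p.2.1) := by field_simp
          rw [e, abs_div, f3, abs_of_pos (by positivity), div_le_iff₀ (by positivity)]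
          exact hLV p hp A f4
        · refine ⟨Real.sqrt ((B : ℝ) / A), fun p hp => ?_⟩
          obtain ⟨-, f2, f3, f4⟩ := hfacts p hp
          have yp : (0 : ℝ) < p.2.1 := by exact_mod_cast (hy1 p hp).1
          have xp : (0 : ℝ) < p.1 := by exact_mod_cast hx1 p hp
          set ρ := Real.sqrt ((B : ℝ) / A)
          have hρ : ρ ^ 2 = B / A := Real.sq_sqrt (by positivity)
          have hρ0 : 0 ≤ ρ := Real.sqrt_nonneg _
          have e : ((p.1 : ℝ) / p.2.1 - ρ) * ((p.1 : ℝ) / p.2.1 + ρ) =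
              (A * p.1 ^ 2 - B * p.2.1 ^ 2) / (A * p.2.1 ^ 2) := by
            have : ((p.1 : ℝ) / p.2.1 - ρ) * ((p.1 : ℝ) / p.2.1 + ρ) =
              ((p.1 : ℝ) / p.2.1) ^ 2 - ρ ^ 2 := by ring
            rw [this, hρ]
            field_simp
          have e2 : |(p.1 : ℝ) / p.2.1 - ρ| * ((p.1 : ℝ) / p.2.1) ≤ C * p.2.2 / (A * p.2.1 ^ 2) := by
            have h5 : |(p.1 : ℝ) / p.2.1 - ρ| * ((p.1 : ℝ) / p.2.1 + ρ) =
                C * p.2.2 / (A * p.2.1 ^ 2) := by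
              rw [← abs_of_nonneg (by positivity : 0 ≤ (p.1 : ℝ) / p.2.1 + ρ), ← abs_mul, e, abs_div,
                f3, abs_of_pos (by positivity)]
            rw [← h5]
            gcongr
            linarith
          have e3 : |(p.1 : ℝ) / p.2.1 - ρ| ≤ C * p.2.2 / (A * p.1 * p.2.1) := by
            have h6 : (C : ℝ) * p.2.2 / (A * p.2.1 ^ 2) =
              (C * p.2.2 / (A * p.1 * p.2.1)) * ((p.1 : ℝ) / p.2.1) := by field_simp
            rw [h6] at e2
            exact le_of_mul_le_mul_right e2 (by positivity)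
          refine e3.trans ?_
          rw [div_le_iff₀ (by positivity)]
          exact hLV p hp (A * p.1) (by nlinarith)
      obtain ⟨ρ, hρ⟩ := key
      refine ⟨ρ - L, 2 * L, by positivity, ?_, fun p hp => ?_⟩
      · rw [hL]
        have e : 2 * (16 * (C : ℝ) * Z * H / (X * V)) * (8 * (V : ℝ) ^ 2) / C =
          256 * (H * V * Z / X) := by field_simp; ring
        rw [e]
      · have := abs_le.1 (hρ p hp)
        constructor <;> linarith [this.1, this.2]
  obtain ⟨a, l, hl0, hl, hint⟩ := hint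
  rcases S.eq_empty_or_nonempty with rfl | ⟨p0, hp0⟩
  · simp only [card_empty, Nat.cast_zero]
    positivity
  have hclass : ∀ p ∈ S, Int.gcd C ((p.1 : ℤ) * p0.2.1 - p0.1 * p.2.1) ∈ C.divisors := by
    intro p hp
    rw [Nat.mem_divisors]
    refine ⟨?_, by omega⟩
    have := Int.gcd_dvd_left (a := (C : ℤ)) (b := (p.1 : ℤ) * p0.2.1 - p0.1 * p.2.1)
    exact_mod_cast this
  rw [Finset.card_eq_sum_card_fiberwise hclass]
  push_cast
  rw [← nsmul_eq_mul]
  refine Finset.sum_le_card_nsmul _ _ _ fun d _ => ?_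
  refine (class_card hC hV (S.filter fun p =>
      Int.gcd C ((p.1 : ℤ) * p0.2.1 - p0.1 * p.2.1) = d) ?_ ?_ ?_ ?_ ?_ a l hl0 ?_).trans ?_
  · exact fun p hp => hx1 p (Finset.mem_filter.1 hp).1
  · exact fun p hp => hy1 p (Finset.mem_filter.1 hp).1
  · exact fun p hp => hxy p (Finset.mem_filter.1 hp).1
  · exact fun p hp q hq => hz p (Finset.mem_filter.1 hp).1 q (Finset.mem_filter.1 hq).1
  · intro p hp q hq
    rw [Finset.mem_filter] at hp hq
    refine dvd_two_mul (x0 := p0.1) (y0 := p0.2.1)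
      (Nat.isCoprime_iff_coprime.2 (hxC p hp.1)) (Nat.isCoprime_iff_coprime.2 (hyC p0 hp0))
      (hmod p hp.1 p0 hp0) (hmod q hq.1 p0 hp0) ?_
    rw [← Int.coe_gcd, ← Int.coe_gcd, hp.2, hq.2]
  · exact fun p hp => hint p (Finset.mem_filter.1 hp).1
  · linarith

theorem two_point {ε : ℝ} (hε : 0 < ε) :
    ∃ K : ℝ, 1 ≤ K ∧ ∀ i A B C H V Z X : ℕ, 1 ≤ i → i ≤ 2 → 1 ≤ A → 1 ≤ B → 1 ≤ C →
      1 ≤ H → 1 ≤ V → 1 ≤ Z → 1 ≤ X →
      ((((Ico H (2 * H)) ×ˢ ((Ico V (2 * V)) ×ˢ (Ico Z (2 * Z)))).filter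
        (fun p => Rel (A * p.1 ^ i) (B * p.2.1 ^ i) (C * p.2.2) ∧
          Nat.Coprime (A * p.1 ^ i) (B * p.2.1 ^ i) ∧
          Nat.Coprime (B * p.2.1 ^ i) (C * p.2.2) ∧
          Nat.Coprime (A * p.1 ^ i) (C * p.2.2) ∧
          A * p.1 ^ i ≤ X ∧ B * p.2.1 ^ i ≤ X ∧ C * p.2.2 ≤ X ∧
          X < 2 * max (A * p.1 ^ i) (max (B * p.2.1 ^ i) (C * p.2.2)))).card : ℝ)
        ≤ K * (X : ℝ) ^ ε * (1 + (H : ℝ) * V * Z / X) := by
  obtain ⟨K, hK, hτ⟩ := card_divisors_le hε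
  refine ⟨768 * K, by linarith, fun i A B C H V Z X hi1 hi2 hA hB hC hH hV hZ hX => ?_⟩
  set T := ((Ico H (2 * H)) ×ˢ ((Ico V (2 * V)) ×ˢ (Ico Z (2 * Z)))).filter
        (fun p => Rel (A * p.1 ^ i) (B * p.2.1 ^ i) (C * p.2.2) ∧
          Nat.Coprime (A * p.1 ^ i) (B * p.2.1 ^ i) ∧
          Nat.Coprime (B * p.2.1 ^ i) (C * p.2.2) ∧
          Nat.Coprime (A * p.1 ^ i) (C * p.2.2) ∧
          A * p.1 ^ i ≤ X ∧ B * p.2.1 ^ i ≤ X ∧ C * p.2.2 ≤ X ∧
          X < 2 * max (A * p.1 ^ i) (max (B * p.2.1 ^ i) (C * p.2.2))) with hT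
  have hXr : (0 : ℝ) < X := by exact_mod_cast hX
  rcases T.eq_empty_or_nonempty with hE | ⟨p0, hp0⟩
  · rw [hE]
    simp only [card_empty, Nat.cast_zero]
    positivity
  have hmem : ∀ p ∈ T, (((H ≤ p.1 ∧ p.1 < 2 * H) ∧ (V ≤ p.2.1 ∧ p.2.1 < 2 * V) ∧
      (Z ≤ p.2.2 ∧ p.2.2 < 2 * Z)) ∧ Rel (A * p.1 ^ i) (B * p.2.1 ^ i) (C * p.2.2) ∧
          Nat.Coprime (A * p.1 ^ i) (B * p.2.1 ^ i) ∧
          Nat.Coprime (B * p.2.1 ^ i) (C * p.2.2) ∧
          Nat.Coprime (A * p.1 ^ i) (C * p.2.2) ∧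
          A * p.1 ^ i ≤ X ∧ B * p.2.1 ^ i ≤ X ∧ C * p.2.2 ≤ X ∧
          X < 2 * max (A * p.1 ^ i) (max (B * p.2.1 ^ i) (C * p.2.2))) := by
    intro p hp
    rw [hT, Finset.mem_filter, Finset.mem_product, Finset.mem_product, Finset.mem_Ico,
      Finset.mem_Ico, Finset.mem_Ico] at hp
    exact hp
  have hCX : (C : ℝ) ≤ X := by
    have h1 := (hmem p0 hp0)
    have h2 : C ≤ C * p0.2.2 := Nat.le_mul_of_pos_right _ (by omega)
    exact_mod_cast h2.trans h1.2.2.2.2.2.2.2.1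
  have hdiv : (C.divisors.card : ℝ) ≤ K * (X : ℝ) ^ ε := by
    refine (hτ C hC).trans ?_
    gcongr
  have hbound : ∀ s t : ℤ, (s = 1 ∨ s = -1) → (t = 1 ∨ t = -1) →
      ((T.filter fun p => (A : ℤ) * p.1 ^ i + s * (B * p.2.1 ^ i) = t * (C * p.2.2)).card : ℝ) ≤
        K * (X : ℝ) ^ ε * (1 + 256 * ((H : ℝ) * V * Z / X)) := by
    intro s t hs ht
    have hsub : ∀ p ∈ T.filter (fun p => (A : ℤ) * p.1 ^ i + s * (B * p.2.1 ^ i) =
        t * (C * p.2.2)), p ∈ T := fun p hp => (Finset.mem_filter.1 hp).1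
    refine (type_card hi1 hi2 hA hB hC hH hV hZ hX _ s t hs ht ?_ ?_ ?_ ?_ ?_ ?_).trans ?_
    · exact fun p hp => (hmem p (hsub p hp)).1
    · exact fun p hp => (Finset.mem_filter.1 hp).2
    · exact fun p hp => (hmem p (hsub p hp)).2.2.1
    · exact fun p hp => (hmem p (hsub p hp)).2.2.2.1
    · exact fun p hp => (hmem p (hsub p hp)).2.2.2.2.1
    · exact fun p hp => (hmem p (hsub p hp)).2.2.2.2.2
    · gcongr
  have hcover : T ⊆ (T.filter fun p => (A : ℤ) * p.1 ^ i + 1 * (B * p.2.1 ^ i) = 1 * (C * p.2.2)) ∪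
      ((T.filter fun p => (A : ℤ) * p.1 ^ i + (-1) * (B * p.2.1 ^ i) = 1 * (C * p.2.2)) ∪
      (T.filter fun p => (A : ℤ) * p.1 ^ i + (-1) * (B * p.2.1 ^ i) = (-1) * (C * p.2.2))) := by
    intro p hp
    rw [Finset.mem_union, Finset.mem_union]
    rcases (hmem p hp).2.1 with h | h | h
    · left
      refine Finset.mem_filter.2 ⟨hp, ?_⟩
      have : ((A * p.1 ^ i + B * p.2.1 ^ i : ℕ) : ℤ) = ((C * p.2.2 : ℕ) : ℤ) := by rw [h]
      push_cast at this
      linarith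
    · right; left
      refine Finset.mem_filter.2 ⟨hp, ?_⟩
      have : ((B * p.2.1 ^ i + C * p.2.2 : ℕ) : ℤ) = ((A * p.1 ^ i : ℕ) : ℤ) := by rw [h]
      push_cast at this
      linarith
    · right; right
      refine Finset.mem_filter.2 ⟨hp, ?_⟩
      have : ((C * p.2.2 + A * p.1 ^ i : ℕ) : ℤ) = ((B * p.2.1 ^ i : ℕ) : ℤ) := by rw [h]
      push_cast at this
      linarith
  have hcard := (Finset.card_le_card hcover).trans ((Finset.card_union_le _ _).trans
    (add_le_add le_rfl (Finset.card_union_le _ _)))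
  have hcard' : (T.card : ℝ) ≤ K * (X : ℝ) ^ ε * (1 + 256 * ((H : ℝ) * V * Z / X)) +
      (K * (X : ℝ) ^ ε * (1 + 256 * ((H : ℝ) * V * Z / X)) +
        K * (X : ℝ) ^ ε * (1 + 256 * ((H : ℝ) * V * Z / X))) := by
    have this := (Nat.cast_le (α := ℝ)).2 hcard
    rw [Nat.cast_add, Nat.cast_add] at this
    refine this.trans (add_le_add (hbound 1 1 (Or.inl rfl) (Or.inl rfl)) (add_le_add
      (hbound (-1) 1 (Or.inr rfl) (Or.inl rfl)) (hbound (-1) (-1) (Or.inr rfl) (Or.inr rfl))))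
  refine hcard'.trans ?_
  have hpos : 0 ≤ K * (X : ℝ) ^ ε := by positivity
  have hq : (0 : ℝ) ≤ (H : ℝ) * V * Z / X := by positivity
  nlinarith [mul_nonneg hpos hq]

end AbcTR
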