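import Pool.Agent.Work.MP_a793bb_nt.TR.Box
import Pool.Agent.Work.MP_a793bb_nt.TR.Tau
import Pool.Agent.Work.MP_a793bb_nt.TR.TwoPoint

set_option autoImplicit false

namespace AbcTR

open Finset

lemma two_pow_rpow (J : ℕ) (ε : ℝ) : (((2 : ℕ) ^ J : ℕ) : ℝ) ^ ε = (2 : ℝ) ^ (ε * J) := by
  push_cast
  rw [← Real.rpow_natCast 2 J, ← Real.rpow_mul (by norm_num), mul_comm (J : ℝ) ε]

lemma one_le_two_rpow {x : ℝ} (h : 0 ≤ x) : (1 : ℝ) ≤ (2 : ℝ) ^ x :=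
  Real.one_le_rpow (by norm_num) h

lemma val_pos {J : ℕ} {k : Exps} {d : Dat} (h : d ∈ DD J k) : 1 ≤ val d := by
  obtain ⟨h1, h2, h3, h4⟩ := pos_val h
  unfold val
  exact Nat.mul_pos (Nat.mul_pos (Nat.mul_pos h1 (Nat.pow_pos h2)) (Nat.pow_pos h3)) h4

lemma dvd_val (d : Dat) : d.1 ∣ val d ∧ d.2.1 ∣ val d ∧ d.2.2.1 ∣ val d ∧ d.2.2.2 ∣ val d := by
  unfold val
  refine ⟨⟨d.2.1 ^ 2 * d.2.2.1 ^ 3 * d.2.2.2, by ring⟩,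
    ⟨d.1 * d.2.1 * d.2.2.1 ^ 3 * d.2.2.2, by ring⟩,
    ⟨d.1 * d.2.1 ^ 2 * d.2.2.1 ^ 2 * d.2.2.2, by ring⟩,
    ⟨d.1 * d.2.1 ^ 2 * d.2.2.1 ^ 3, by ring⟩⟩

/-- all data with divisors of `n` as entries -/
def Dv (n : ℕ) : Finset Dat := n.divisors ×ˢ (n.divisors ×ˢ (n.divisors ×ˢ n.divisors))

lemma mem_Dv {d : Dat} {n : ℕ} (h : val d = n) (hn : 1 ≤ n) : d ∈ Dv n := by
  obtain ⟨h1, h2, h3, h4⟩ := dvd_val d
  rw [h] at h1 h2 h3 h4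
  simp only [Dv, mem_product, Nat.mem_divisors]
  exact ⟨⟨h1, by omega⟩, ⟨h2, by omega⟩, ⟨h3, by omega⟩, ⟨h4, by omega⟩⟩

lemma card_DD {ε : ℝ} (hε : 0 < ε) : ∃ C : ℝ, 1 ≤ C ∧ ∀ (J : ℕ) (k : Exps),
    ((DD J k).card : ℝ) ≤ C * (2 : ℝ) ^ (ε * J) * 2 ^ (k.1 + k.2.1 + k.2.2.1 + k.2.2.2) := by
  obtain ⟨C, hC1, hC⟩ := card_FF hε
  refine ⟨C, hC1, fun J k => ?_⟩
  unfold DD
  simp only [card_product, card_blk]
  push_cast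
  calc (2 : ℝ) ^ k.1 * (2 ^ k.2.1 * (2 ^ k.2.2.1 * ((FF J k.2.2.2).card : ℝ)))
      ≤ (2 : ℝ) ^ k.1 * (2 ^ k.2.1 * (2 ^ k.2.2.1 * (C * (2 : ℝ) ^ (ε * J) * 2 ^ k.2.2.2))) := by
        gcongr; exact hC J _
    _ = _ := by ring

/-- trivial bound: the third term is determined by the first two. -/
theorem bound_T {ε : ℝ} (hε : 0 < ε) : ∃ K : ℝ, 1 ≤ K ∧ ∀ (J : ℕ) (ka kb kc : Exps),
    ((SS J ka kb kc).card : ℝ) ≤ K * (2 : ℝ) ^ (ε * J) *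
      (2 ^ (ka.1 + ka.2.1 + ka.2.2.1 + ka.2.2.2) * 2 ^ (kb.1 + kb.2.1 + kb.2.2.1 + kb.2.2.2)) := by
  have hε4 : 0 < ε / 4 := by positivity
  have hε8 : 0 < ε / 8 := by positivity
  obtain ⟨C, hC1, hC⟩ := card_DD hε4
  obtain ⟨T, hT1, hT⟩ := card_divisors_le hε8
  refine ⟨C ^ 2 * (3 * (T * 2) ^ 4 * 2 ^ (ε / 2)), ?_, fun J ka kb kc => ?_⟩
  · have h1 : 1 ≤ C ^ 2 := one_le_pow₀ hC1
    have h2 : 1 ≤ (T * 2) ^ 4 := one_le_pow₀ (by linarith)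
    have h3 : (1 : ℝ) ≤ 2 ^ (ε / 2) := one_le_two_rpow (by positivity)
    have h4 : 1 ≤ (T * 2) ^ 4 * 2 ^ (ε / 2) := by nlinarith
    nlinarith
  set E : ℝ := T * ((2 * 2 ^ J : ℕ) : ℝ) ^ (ε / 8) with hE
  have hE0 : 0 ≤ E := by positivity
  have hDv : ∀ n : ℕ, n ≤ 2 * 2 ^ J → ((Dv n).card : ℝ) ≤ E ^ 4 := by
    intro n hn
    have h1 : (n.divisors.card : ℝ) ≤ E := by
      rcases Nat.eq_zero_or_pos n with h0 | h0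
      · rw [h0]; simpa using hE0
      · refine (hT n h0).trans ?_
        rw [hE]
        apply mul_le_mul_of_nonneg_left _ (by linarith)
        exact Real.rpow_le_rpow (by positivity) (by exact_mod_cast hn) hε8.le
    unfold Dv
    simp only [card_product]
    push_cast
    calc (n.divisors.card : ℝ) * (n.divisors.card * (n.divisors.card * n.divisors.card))
        ≤ E * (E * (E * E)) := by gcongr
      _ = E ^ 4 := by ring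
  have hfib := card_le_fiber (SS J ka kb kc) (DD J ka ×ˢ DD J kb) (fun p => (p.1, p.2.1)) (by
    intro p hp
    simp only [SS, mem_filter, mem_product] at hp
    simp only [mem_product]
    exact ⟨hp.1.1, hp.1.2.1⟩) (3 * E ^ 4) (by
    rintro ⟨x, y⟩ hxy
    simp only [mem_product] at hxy
    by_cases hle : val x ≤ 2 ^ J ∧ val y ≤ 2 ^ J
    · have hsub : (((SS J ka kb kc).filter (fun p => (p.1, p.2.1) = (x, y))).card) ≤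
          (Dv (val x + val y) ∪ (Dv (val x - val y) ∪ Dv (val y - val x))).card := by
        apply card_le_card_of_injOn (fun p => p.2.2)
        · intro p hp
          simp only [coe_filter, Set.mem_ofPred_eq, SS, mem_filter, mem_product,
            Prod.mk.injEq] at hp
          obtain ⟨⟨⟨h1, h2, h3⟩, hg⟩, h4, h5⟩ := hp
          have hz := val_pos h3
          obtain ⟨hrel, -⟩ := hg
          rw [h4, h5] at hrel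
          simp only [coe_union, Set.mem_union, mem_coe]
          rcases hrel with h | h | h
          · left; exact mem_Dv h.symm (by omega)
          · right; left; exact mem_Dv (by omega) (by omega)
          · right; right; exact mem_Dv (by omega) (by omega)
        · intro p hp p' hp' h
          simp only [coe_filter, Set.mem_ofPred_eq, Prod.mk.injEq] at hp hp'
          exact Prod.ext (hp.2.1.trans hp'.2.1.symm) (Prod.ext (hp.2.2.trans hp'.2.2.symm) h)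
      have h2 : ((Dv (val x + val y) ∪ (Dv (val x - val y) ∪ Dv (val y - val x))).card : ℝ) ≤
          (Dv (val x + val y)).card + ((Dv (val x - val y)).card + (Dv (val y - val x)).card) := by
        have e1 := card_union_le (Dv (val x + val y)) (Dv (val x - val y) ∪ Dv (val y - val x))
        have e2 := card_union_le (Dv (val x - val y)) (Dv (val y - val x))
        exact_mod_cast e1.trans (by omega)
      have e1 := hDv (val x + val y) (by omega)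
      have e2 := hDv (val x - val y) (by omega)
      have e3 := hDv (val y - val x) (by omega)
      have h3 : ((((SS J ka kb kc).filter (fun p => (p.1, p.2.1) = (x, y))).card : ℕ) : ℝ) ≤
        ((Dv (val x + val y) ∪ (Dv (val x - val y) ∪ Dv (val y - val x))).card : ℝ) := by
        exact_mod_cast hsub
      linarith
    · have : ((SS J ka kb kc).filter (fun p => (p.1, p.2.1) = (x, y))) = ∅ := by
        rw [filter_eq_empty_iff]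
        intro p hp h
        simp only [SS, mem_filter, Prod.mk.injEq] at hp h
        obtain ⟨-, -, -, -, -, h5, h6, -⟩ := hp
        rw [h.1] at h5
        rw [h.2] at h6
        exact hle ⟨h5, h6⟩
      rw [this]
      simp only [card_empty, Nat.cast_zero]
      positivity)
  refine hfib.trans ?_
  rw [card_product]
  push_cast
  have hE4 : E ^ 4 ≤ (T * 2) ^ 4 * 2 ^ (ε / 2) * (2 : ℝ) ^ (ε / 2 * J) := by
    have e1 : ((2 * 2 ^ J : ℕ) : ℝ) ^ (ε / 8) = 2 ^ (ε / 8) * (2 : ℝ) ^ (ε / 8 * J) := by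
      push_cast
      rw [Real.mul_rpow (by norm_num) (by positivity), ← Real.rpow_natCast 2 J,
        ← Real.rpow_mul (by norm_num), mul_comm (J : ℝ) (ε / 8)]
    have e2 : ((2 : ℝ) ^ (ε / 8)) ^ 4 = 2 ^ (ε / 2) := by
      rw [← Real.rpow_natCast, ← Real.rpow_mul (by norm_num)]
      congr 1; push_cast; ring
    have e3 : ((2 : ℝ) ^ (ε / 8 * J)) ^ 4 = 2 ^ (ε / 2 * J) := by
      rw [← Real.rpow_natCast ((2 : ℝ) ^ (ε / 8 * J)) 4, ← Real.rpow_mul (by norm_num)]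
      congr 1; push_cast; ring
    rw [hE, e1, mul_pow, mul_pow ((2 : ℝ) ^ (ε / 8)), e2, e3]
    have hT4 : T ^ 4 ≤ (T * 2) ^ 4 := by
      apply pow_le_pow_left₀ (by linarith); linarith
    calc T ^ 4 * (2 ^ (ε / 2) * 2 ^ (ε / 2 * J)) ≤ (T * 2) ^ 4 * (2 ^ (ε / 2) * 2 ^ (ε / 2 * J)) := by
          gcongr
      _ = _ := by ring
  have h1 := hC J ka
  have h2 := hC J kb
  have e4 : (2 : ℝ) ^ (ε / 4 * J) * 2 ^ (ε / 4 * J) * 2 ^ (ε / 2 * J) = 2 ^ (ε * J) := by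
    rw [← Real.rpow_add (by norm_num), ← Real.rpow_add (by norm_num)]
    congr 1; ring
  calc ((DD J ka).card : ℝ) * (DD J kb).card * (3 * E ^ 4)
      ≤ (C * (2 : ℝ) ^ (ε / 4 * J) * 2 ^ (ka.1 + ka.2.1 + ka.2.2.1 + ka.2.2.2)) *
        (C * (2 : ℝ) ^ (ε / 4 * J) * 2 ^ (kb.1 + kb.2.1 + kb.2.2.1 + kb.2.2.2)) *
        (3 * ((T * 2) ^ 4 * 2 ^ (ε / 2) * (2 : ℝ) ^ (ε / 2 * J))) := by gcongr
    _ = C ^ 2 * (3 * (T * 2) ^ 4 * 2 ^ (ε / 2)) *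
        ((2 : ℝ) ^ (ε / 4 * J) * 2 ^ (ε / 4 * J) * 2 ^ (ε / 2 * J)) *
        (2 ^ (ka.1 + ka.2.1 + ka.2.2.1 + ka.2.2.2) * 2 ^ (kb.1 + kb.2.1 + kb.2.2.1 + kb.2.2.2)) := by
      ring
    _ = _ := by rw [e4]

/-- lattice bound, all three terms linear. -/
theorem bound_G {ε : ℝ} (hε : 0 < ε) : ∃ K : ℝ, 1 ≤ K ∧ ∀ (J : ℕ) (ka kb kc : Exps),
    ((SS J ka kb kc).card : ℝ) ≤ K * (2 : ℝ) ^ (ε * J) *
      (2 ^ (ka.2.1 + ka.2.2.1 + ka.2.2.2) * 2 ^ (kb.2.1 + kb.2.2.1 + kb.2.2.2) *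
        2 ^ (kc.2.1 + kc.2.2.1 + kc.2.2.2)) * (1 + 2 ^ ka.1 * 2 ^ kb.1 * 2 ^ kc.1 / 2 ^ J) := by
  have hε4 : 0 < ε / 4 := by positivity
  obtain ⟨C, hC1, hC⟩ := card_FF hε4
  obtain ⟨K, hK1, hK⟩ := two_point hε4
  refine ⟨C ^ 3 * K, ?_, fun J ka kb kc => ?_⟩
  · have h1 : 1 ≤ C ^ 3 := one_le_pow₀ hC1
    nlinarith
  have hfib := card_le_fiber (SS J ka kb kc)
    ((blk ka.2.1 ×ˢ (blk ka.2.2.1 ×ˢ FF J ka.2.2.2)) ×ˢ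
      ((blk kb.2.1 ×ˢ (blk kb.2.2.1 ×ˢ FF J kb.2.2.2)) ×ˢ
        (blk kc.2.1 ×ˢ (blk kc.2.2.1 ×ˢ FF J kc.2.2.2))))
    (fun p => (p.1.2, (p.2.1.2, p.2.2.2))) (by
    intro p hp
    simp only [SS, DD, mem_filter, mem_product] at hp
    simp only [mem_product]
    exact ⟨hp.1.1.2, hp.1.2.1.2, hp.1.2.2.2⟩)
    (K * (((2 : ℕ) ^ J : ℕ) : ℝ) ^ (ε / 4) * (1 + (((2 : ℕ) ^ ka.1 : ℕ) : ℝ) *
      (((2 : ℕ) ^ kb.1 : ℕ) : ℝ) * (((2 : ℕ) ^ kc.1 : ℕ) : ℝ) / (((2 : ℕ) ^ J : ℕ) : ℝ))) (by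
    rintro ⟨⟨m, w, f⟩, ⟨m', w', f'⟩, ⟨m'', w'', f''⟩⟩ h
    simp only [mem_product, FF, mem_filter, mem_Icc] at h
    obtain ⟨⟨hm, hw, ⟨hf, -⟩, -⟩, ⟨hm', hw', ⟨hf', -⟩, -⟩, ⟨hm'', hw'', ⟨hf'', -⟩, -⟩⟩ := h
    have pA : ∀ m w f : ℕ, 1 ≤ m → 1 ≤ w → 1 ≤ f → 1 ≤ m ^ 2 * w ^ 3 * f := fun m w f a b c =>
      Nat.mul_pos (Nat.mul_pos (Nat.pow_pos a) (Nat.pow_pos b)) c
    refine le_trans (Nat.cast_le.2 ?_) (hK 1 (m ^ 2 * w ^ 3 * f) (m' ^ 2 * w' ^ 3 * f')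
      (m'' ^ 2 * w'' ^ 3 * f'') (2 ^ ka.1) (2 ^ kb.1) (2 ^ kc.1) (2 ^ J) le_rfl (by norm_num)
      (pA _ _ _ (pos_of_mem_blk hm) (pos_of_mem_blk hw) hf)
      (pA _ _ _ (pos_of_mem_blk hm') (pos_of_mem_blk hw') hf')
      (pA _ _ _ (pos_of_mem_blk hm'') (pos_of_mem_blk hw'') hf'')
      Nat.one_le_two_pow Nat.one_le_two_pow Nat.one_le_two_pow Nat.one_le_two_pow)
    apply card_le_card_of_injOn (fun p => (p.1.1, (p.2.1.1, p.2.2.1)))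
    · rintro ⟨⟨u, t⟩, ⟨u', t'⟩, ⟨u'', t''⟩⟩ hp
      simp only [coe_filter, Set.mem_ofPred_eq, SS, mem_filter, mem_product, Prod.mk.injEq,
        DD] at hp ⊢
      obtain ⟨⟨⟨h1, h2, h3⟩, hg⟩, h4, h5, h6⟩ := hp
      subst h4; subst h5; subst h6
      refine ⟨⟨h1.1, h2.1, h3.1⟩, ?_⟩
      have ev : ∀ u m w f : ℕ, m ^ 2 * w ^ 3 * f * u ^ 1 = val (u, (m, (w, f))) := by
        intro u m w f; unfold val; ring
      have ev' : ∀ u m w f : ℕ, m ^ 2 * w ^ 3 * f * u = val (u, (m, (w, f))) := by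
        intro u m w f; unfold val; ring
      rw [ev, ev, ev']
      exact hg
    · rintro ⟨⟨u, t⟩, ⟨u', t'⟩, ⟨u'', t''⟩⟩ hp ⟨⟨v, s⟩, ⟨v', s'⟩, ⟨v'', s''⟩⟩ hq h
      simp only [coe_filter, Set.mem_ofPred_eq, Prod.mk.injEq] at hp hq h ⊢
      exact ⟨⟨h.1, hp.2.1.trans hq.2.1.symm⟩, ⟨h.2.1, hp.2.2.1.trans hq.2.2.1.symm⟩,
        h.2.2, hp.2.2.2.trans hq.2.2.2.symm⟩)
  refine hfib.trans ?_
  rw [two_pow_rpow]
  simp only [card_product, card_blk]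
  push_cast
  have h1 := hC J ka.2.2.2
  have h2 := hC J kb.2.2.2
  have h3 := hC J kc.2.2.2
  have e4 : (2 : ℝ) ^ (ε / 4 * J) * 2 ^ (ε / 4 * J) * 2 ^ (ε / 4 * J) * 2 ^ (ε / 4 * J)
      = 2 ^ (ε * J) := by
    rw [← Real.rpow_add (by norm_num), ← Real.rpow_add (by norm_num),
      ← Real.rpow_add (by norm_num)]
    congr 1; ring
  calc (2 : ℝ) ^ ka.2.1 * (2 ^ ka.2.2.1 * ((FF J ka.2.2.2).card : ℝ)) *
        (2 ^ kb.2.1 * (2 ^ kb.2.2.1 * ((FF J kb.2.2.2).card : ℝ)) *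
          (2 ^ kc.2.1 * (2 ^ kc.2.2.1 * ((FF J kc.2.2.2).card : ℝ)))) *
        (K * (2 : ℝ) ^ (ε / 4 * J) * (1 + 2 ^ ka.1 * 2 ^ kb.1 * 2 ^ kc.1 / 2 ^ J))
      ≤ (2 : ℝ) ^ ka.2.1 * (2 ^ ka.2.2.1 * (C * 2 ^ (ε / 4 * J) * 2 ^ ka.2.2.2)) *
        (2 ^ kb.2.1 * (2 ^ kb.2.2.1 * (C * 2 ^ (ε / 4 * J) * 2 ^ kb.2.2.2)) *
          (2 ^ kc.2.1 * (2 ^ kc.2.2.1 * (C * 2 ^ (ε / 4 * J) * 2 ^ kc.2.2.2)))) *
        (K * (2 : ℝ) ^ (ε / 4 * J) * (1 + 2 ^ ka.1 * 2 ^ kb.1 * 2 ^ kc.1 / 2 ^ J)) := by gcongr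
    _ = C ^ 3 * K * ((2 : ℝ) ^ (ε / 4 * J) * 2 ^ (ε / 4 * J) * 2 ^ (ε / 4 * J) * 2 ^ (ε / 4 * J)) *
      (2 ^ (ka.2.1 + ka.2.2.1 + ka.2.2.2) * 2 ^ (kb.2.1 + kb.2.2.1 + kb.2.2.2) *
        2 ^ (kc.2.1 + kc.2.2.1 + kc.2.2.2)) * (1 + 2 ^ ka.1 * 2 ^ kb.1 * 2 ^ kc.1 / 2 ^ J) := by
      ring
    _ = _ := by rw [e4]

/-- lattice bound, third term linear, squares of `m` in the two others. -/
theorem bound_P {ε : ℝ} (hε : 0 < ε) : ∃ K : ℝ, 1 ≤ K ∧ ∀ (J : ℕ) (ka kb kc : Exps),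
    ((SS J ka kb kc).card : ℝ) ≤ K * (2 : ℝ) ^ (ε * J) *
      (2 ^ (ka.1 + ka.2.2.1 + ka.2.2.2) * 2 ^ (kb.1 + kb.2.2.1 + kb.2.2.2) *
        2 ^ (kc.2.1 + kc.2.2.1 + kc.2.2.2)) *
        (1 + 2 ^ ka.2.1 * 2 ^ kb.2.1 * 2 ^ kc.1 / 2 ^ J) := by
  have hε4 : 0 < ε / 4 := by positivity
  obtain ⟨C, hC1, hC⟩ := card_FF hε4
  obtain ⟨K, hK1, hK⟩ := two_point hε4
  refine ⟨C ^ 3 * K, ?_, fun J ka kb kc => ?_⟩
  · have h1 : 1 ≤ C ^ 3 := one_le_pow₀ hC1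
    nlinarith
  have hfib := card_le_fiber (SS J ka kb kc)
    ((blk ka.1 ×ˢ (blk ka.2.2.1 ×ˢ FF J ka.2.2.2)) ×ˢ
      ((blk kb.1 ×ˢ (blk kb.2.2.1 ×ˢ FF J kb.2.2.2)) ×ˢ
        (blk kc.2.1 ×ˢ (blk kc.2.2.1 ×ˢ FF J kc.2.2.2))))
    (fun p => ((p.1.1, (p.1.2.2.1, p.1.2.2.2)), ((p.2.1.1, (p.2.1.2.2.1, p.2.1.2.2.2)),
      p.2.2.2))) (by
    intro p hp
    simp only [SS, DD, mem_filter, mem_product] at hp
    simp only [mem_product]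
    obtain ⟨⟨⟨a1, a2, a3, a4⟩, ⟨b1, b2, b3, b4⟩, c1, c2⟩, -⟩ := hp
    exact ⟨⟨a1, a3, a4⟩, ⟨b1, b3, b4⟩, c2⟩)
    (K * (((2 : ℕ) ^ J : ℕ) : ℝ) ^ (ε / 4) * (1 + (((2 : ℕ) ^ ka.2.1 : ℕ) : ℝ) *
      (((2 : ℕ) ^ kb.2.1 : ℕ) : ℝ) * (((2 : ℕ) ^ kc.1 : ℕ) : ℝ) / (((2 : ℕ) ^ J : ℕ) : ℝ))) (by
    rintro ⟨⟨u, w, f⟩, ⟨u', w', f'⟩, ⟨m'', w'', f''⟩⟩ h
    simp only [mem_product, FF, mem_filter, mem_Icc] at h
    obtain ⟨⟨hm, hw, ⟨hf, -⟩, -⟩, ⟨hm', hw', ⟨hf', -⟩, -⟩, ⟨hm'', hw'', ⟨hf'', -⟩, -⟩⟩ := h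
    have pA : ∀ m w f : ℕ, 1 ≤ m → 1 ≤ w → 1 ≤ f → 1 ≤ m ^ 2 * w ^ 3 * f := fun m w f a b c =>
      Nat.mul_pos (Nat.mul_pos (Nat.pow_pos a) (Nat.pow_pos b)) c
    have pB : ∀ m w f : ℕ, 1 ≤ m → 1 ≤ w → 1 ≤ f → 1 ≤ m * w ^ 3 * f := fun m w f a b c =>
      Nat.mul_pos (Nat.mul_pos a (Nat.pow_pos b)) c
    refine le_trans (Nat.cast_le.2 ?_) (hK 2 (u * w ^ 3 * f) (u' * w' ^ 3 * f')
      (m'' ^ 2 * w'' ^ 3 * f'') (2 ^ ka.2.1) (2 ^ kb.2.1) (2 ^ kc.1) (2 ^ J) (by norm_num) le_rfl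
      (pB _ _ _ (pos_of_mem_blk hm) (pos_of_mem_blk hw) hf)
      (pB _ _ _ (pos_of_mem_blk hm') (pos_of_mem_blk hw') hf')
      (pA _ _ _ (pos_of_mem_blk hm'') (pos_of_mem_blk hw'') hf'')
      Nat.one_le_two_pow Nat.one_le_two_pow Nat.one_le_two_pow Nat.one_le_two_pow)
    apply card_le_card_of_injOn (fun p => (p.1.2.1, (p.2.1.2.1, p.2.2.1)))
    · rintro ⟨⟨u1, m1, w1, f1⟩, ⟨u2, m2, w2, f2⟩, ⟨u3, t3⟩⟩ hp
      simp only [coe_filter, Set.mem_ofPred_eq, SS, mem_filter, mem_product, Prod.mk.injEq,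
        DD] at hp ⊢
      obtain ⟨⟨⟨h1, h2, h3⟩, hg⟩, ⟨h4, h4', h4''⟩, ⟨h5, h5', h5''⟩, h6⟩ := hp
      subst h4; subst h5; subst h6; subst h4'; subst h4''; subst h5'; subst h5''
      refine ⟨⟨h1.2.1, h2.2.1, h3.1⟩, ?_⟩
      have ev : ∀ u m w f : ℕ, u * w ^ 3 * f * m ^ 2 = val (u, (m, (w, f))) := by
        intro u m w f; unfold val; ring
      have ev' : ∀ u m w f : ℕ, m ^ 2 * w ^ 3 * f * u = val (u, (m, (w, f))) := by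
        intro u m w f; unfold val; ring
      rw [ev, ev, ev']
      exact hg
    · rintro ⟨⟨u1, m1, w1, f1⟩, ⟨u2, m2, w2, f2⟩, ⟨u3, t3⟩⟩ hp
        ⟨⟨v1, n1, x1, g1⟩, ⟨v2, n2, x2, g2⟩, ⟨v3, s3⟩⟩ hq h
      simp only [coe_filter, Set.mem_ofPred_eq, Prod.mk.injEq] at hp hq h ⊢
      obtain ⟨-, ⟨h4, h4', h4''⟩, ⟨h5, h5', h5''⟩, h6⟩ := hp
      obtain ⟨-, ⟨k4, k4', k4''⟩, ⟨k5, k5', k5''⟩, k6⟩ := hq
      exact ⟨⟨h4.trans k4.symm, h.1, h4'.trans k4'.symm, h4''.trans k4''.symm⟩,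
        ⟨h5.trans k5.symm, h.2.1, h5'.trans k5'.symm, h5''.trans k5''.symm⟩,
        h.2.2, h6.trans k6.symm⟩)
  refine hfib.trans ?_
  rw [two_pow_rpow]
  simp only [card_product, card_blk]
  push_cast
  have h1 := hC J ka.2.2.2
  have h2 := hC J kb.2.2.2
  have h3 := hC J kc.2.2.2
  have e4 : (2 : ℝ) ^ (ε / 4 * J) * 2 ^ (ε / 4 * J) * 2 ^ (ε / 4 * J) * 2 ^ (ε / 4 * J)
      = 2 ^ (ε * J) := by
    rw [← Real.rpow_add (by norm_num), ← Real.rpow_add (by norm_num),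
      ← Real.rpow_add (by norm_num)]
    congr 1; ring
  calc (2 : ℝ) ^ ka.1 * (2 ^ ka.2.2.1 * ((FF J ka.2.2.2).card : ℝ)) *
        (2 ^ kb.1 * (2 ^ kb.2.2.1 * ((FF J kb.2.2.2).card : ℝ)) *
          (2 ^ kc.2.1 * (2 ^ kc.2.2.1 * ((FF J kc.2.2.2).card : ℝ)))) *
        (K * (2 : ℝ) ^ (ε / 4 * J) * (1 + 2 ^ ka.2.1 * 2 ^ kb.2.1 * 2 ^ kc.1 / 2 ^ J))
      ≤ (2 : ℝ) ^ ka.1 * (2 ^ ka.2.2.1 * (C * 2 ^ (ε / 4 * J) * 2 ^ ka.2.2.2)) *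
        (2 ^ kb.1 * (2 ^ kb.2.2.1 * (C * 2 ^ (ε / 4 * J) * 2 ^ kb.2.2.2)) *
          (2 ^ kc.2.1 * (2 ^ kc.2.2.1 * (C * 2 ^ (ε / 4 * J) * 2 ^ kc.2.2.2)))) *
        (K * (2 : ℝ) ^ (ε / 4 * J) * (1 + 2 ^ ka.2.1 * 2 ^ kb.2.1 * 2 ^ kc.1 / 2 ^ J)) := by
        gcongr
    _ = C ^ 3 * K * ((2 : ℝ) ^ (ε / 4 * J) * 2 ^ (ε / 4 * J) * 2 ^ (ε / 4 * J) * 2 ^ (ε / 4 * J)) *
      (2 ^ (ka.1 + ka.2.2.1 + ka.2.2.2) * 2 ^ (kb.1 + kb.2.2.1 + kb.2.2.2) *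
        2 ^ (kc.2.1 + kc.2.2.1 + kc.2.2.2)) *
        (1 + 2 ^ ka.2.1 * 2 ^ kb.2.1 * 2 ^ kc.1 / 2 ^ J) := by
      ring
    _ = _ := by rw [e4]

end AbcTR
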