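import Pool.Agent.Work.MP_a793bb_nt.TR.TRDefs

set_option autoImplicit false

namespace AbcTR

open Finset

theorem rad_mul_of_coprime {a b : ℕ} (h : Nat.Coprime a b) : rad (a * b) = rad a * rad b := by
  unfold rad
  rw [h.primeFactors_mul, Finset.prod_union h.disjoint_primeFactors]

theorem rad_one : rad 1 = 1 := by simp [rad]

theorem rad_prime_pow {p k : ℕ} (hp : p.Prime) (hk : k ≠ 0) : rad (p ^ k) = p := by
  unfold rad
  rw [Nat.primeFactors_prime_pow hk hp]
  simp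

theorem exists_decomp_aux (n : ℕ) : n ≠ 0 →
    ∃ u m w f : ℕ, 1 ≤ u ∧ 1 ≤ m ∧ 1 ≤ w ∧ 1 ≤ f ∧ n = u * m ^ 2 * w ^ 3 * f ∧
      rad n = u * m * w * rad f ∧ (rad f) ^ 4 ≤ f := by
  induction n using Nat.recOnPosPrimePosCoprime with
  | zero => intro h; exact absurd rfl h
  | one => intro _; exact ⟨1, 1, 1, 1, le_rfl, le_rfl, le_rfl, le_rfl, by norm_num,
      by simp [rad_one], by simp [rad_one]⟩
  | prime_pow p k hp hk =>
    intro _
    have hp1 : 1 ≤ p := hp.one_lt.le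
    have hr := rad_prime_pow hp (Nat.pos_iff_ne_zero.1 hk)
    by_cases h1 : k = 1
    · subst h1
      exact ⟨p, 1, 1, 1, hp1, le_rfl, le_rfl, le_rfl, by ring, by rw [hr, rad_one]; ring,
        by simp [rad_one]⟩
    by_cases h2 : k = 2
    · subst h2
      exact ⟨1, p, 1, 1, le_rfl, hp1, le_rfl, le_rfl, by ring, by rw [hr, rad_one]; ring,
        by simp [rad_one]⟩
    by_cases h3 : k = 3
    · subst h3
      exact ⟨1, 1, p, 1, le_rfl, le_rfl, hp1, le_rfl, by ring, by rw [hr, rad_one]; ring,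
        by simp [rad_one]⟩
    · refine ⟨1, 1, 1, p ^ k, le_rfl, le_rfl, le_rfl, Nat.one_le_pow _ _ hp1, by ring,
        by ring, ?_⟩
      rw [hr]
      exact Nat.pow_le_pow_right hp1 (by omega)
  | coprime a b ha hb hab iha ihb =>
    intro _
    obtain ⟨u, m, w, f, hu, hm, hw, hf, h1, h2, h3⟩ := iha (by omega)
    obtain ⟨u', m', w', f', hu', hm', hw', hf', h1', h2', h3'⟩ := ihb (by omega)
    have hff : Nat.Coprime f f' := by
      have ha' : f ∣ a := by rw [h1]; exact Dvd.intro_left _ rfl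
      have hb' : f' ∣ b := by rw [h1']; exact Dvd.intro_left _ rfl
      exact Nat.Coprime.coprime_dvd_left ha' (Nat.Coprime.coprime_dvd_right hb' hab)
    refine ⟨u * u', m * m', w * w', f * f', Nat.mul_pos hu hu', Nat.mul_pos hm hm',
      Nat.mul_pos hw hw', Nat.mul_pos hf hf', ?_, ?_, ?_⟩
    · rw [h1, h1']; ring
    · rw [rad_mul_of_coprime hab, rad_mul_of_coprime hff, h2, h2']; ring
    · rw [rad_mul_of_coprime hff, mul_pow]
      exact Nat.mul_le_mul h3 h3'

theorem exists_decomp (n : ℕ) (hn : 1 ≤ n) :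
    ∃ u m w f : ℕ, 1 ≤ u ∧ 1 ≤ m ∧ 1 ≤ w ∧ 1 ≤ f ∧ n = u * m ^ 2 * w ^ 3 * f ∧
      rad n = u * m * w * rad f ∧ (rad f) ^ 4 ≤ f :=
  exists_decomp_aux n (by omega)

end AbcTR
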