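import Pool.Agent.Work.MP_a793bb_nt.TR.TRDefs
import Pool.Agent.Work.MP_a793bb_nt.TR.Decomp
import Pool.Agent.Work.MP_a793bb_nt.TR.RadCount

set_option autoImplicit false

namespace AbcTR

open Finset

/-- data `(u, m, w, f)` with value `u m² w³ f`. -/
abbrev Dat := ℕ × (ℕ × (ℕ × ℕ))

def val (d : Dat) : ℕ := d.1 * d.2.1 ^ 2 * d.2.2.1 ^ 3 * d.2.2.2

/-- dyadic block -/
def blk (k : ℕ) : Finset ℕ := Ico (2 ^ k) (2 * 2 ^ k)

lemma card_blk (k : ℕ) : (blk k).card = 2 ^ k := by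
  simp [blk, Nat.card_Ico]; omega

lemma mem_blk {k x : ℕ} : x ∈ blk k ↔ 2 ^ k ≤ x ∧ x < 2 * 2 ^ k := by simp [blk]

lemma pos_of_mem_blk {k x : ℕ} (h : x ∈ blk k) : 1 ≤ x :=
  le_trans (Nat.one_le_two_pow) (mem_blk.1 h).1

lemma log_mem_blk {x : ℕ} (h : 1 ≤ x) : x ∈ blk (Nat.log 2 x) := by
  rw [mem_blk]
  refine ⟨Nat.pow_log_le_self 2 (by omega), ?_⟩
  have := Nat.lt_pow_succ_log_self (b := 2) (by norm_num) x
  rw [pow_succ] at this; omega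

/-- integers up to `2^J` with radical in the dyadic block `k`, at least the fourth power of the
radical -/
def FF (J k : ℕ) : Finset ℕ :=
  (Icc 1 (2 ^ J)).filter (fun n => 2 ^ k ≤ rad n ∧ rad n < 2 ^ (k + 1) ∧ rad n ^ 4 ≤ n)

/-- exponents (dyadic sizes) -/
abbrev Exps := ℕ × (ℕ × (ℕ × ℕ))

def DD (J : ℕ) (k : Exps) : Finset Dat :=
  blk k.1 ×ˢ (blk k.2.1 ×ˢ (blk k.2.2.1 ×ˢ FF J k.2.2.2))

/-- triples of data forming an abc triple with maximum in `(2^(J-1), 2^J]`. -/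
def Good (J : ℕ) (p : Dat × (Dat × Dat)) : Prop :=
  Rel (val p.1) (val p.2.1) (val p.2.2) ∧
  Nat.Coprime (val p.1) (val p.2.1) ∧ Nat.Coprime (val p.2.1) (val p.2.2) ∧
  Nat.Coprime (val p.1) (val p.2.2) ∧
  val p.1 ≤ 2 ^ J ∧ val p.2.1 ≤ 2 ^ J ∧ val p.2.2 ≤ 2 ^ J ∧
  2 ^ J < 2 * max (val p.1) (max (val p.2.1) (val p.2.2))

instance (J : ℕ) (p : Dat × (Dat × Dat)) : Decidable (Good J p) := by
  unfold Good; infer_instance

def SS (J : ℕ) (ka kb kc : Exps) : Finset (Dat × (Dat × Dat)) :=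
  (DD J ka ×ˢ (DD J kb ×ˢ DD J kc)).filter (Good J)

lemma Rel.swap {a b c : ℕ} (h : Rel a b c) : Rel b a c := by
  unfold Rel at *; omega

lemma Rel.rot {a b c : ℕ} (h : Rel a b c) : Rel b c a := by
  unfold Rel at *; omega

lemma card_SS_swap (J : ℕ) (ka kb kc : Exps) : (SS J ka kb kc).card ≤ (SS J kb ka kc).card := by
  apply Finset.card_le_card_of_injOn (fun p => (p.2.1, (p.1, p.2.2)))
  · intro p hp
    simp only [SS, Finset.coe_filter, Finset.mem_product, Set.mem_setOf_eq] at hp ⊢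
    obtain ⟨⟨h1, h2, h3⟩, h4, h5, h6, h7, h8, h9, h10, h11⟩ := hp
    refine ⟨⟨h2, h1, h3⟩, h4.swap, h5.symm, h7, h6, h9, h8, h10, ?_⟩
    show 2 ^ J < 2 * max (val p.2.1) (max (val p.1) (val p.2.2))
    rw [max_left_comm]; exact h11
  · intro p _ q _ h
    simp only [Prod.mk.injEq] at h
    exact Prod.ext h.2.1 (Prod.ext h.1 h.2.2)

lemma card_SS_rot (J : ℕ) (ka kb kc : Exps) : (SS J ka kb kc).card ≤ (SS J kb kc ka).card := by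
  apply Finset.card_le_card_of_injOn (fun p => (p.2.1, (p.2.2, p.1)))
  · intro p hp
    simp only [SS, Finset.coe_filter, Finset.mem_product, Set.mem_setOf_eq] at hp ⊢
    obtain ⟨⟨h1, h2, h3⟩, h4, h5, h6, h7, h8, h9, h10, h11⟩ := hp
    refine ⟨⟨h2, h3, h1⟩, h4.rot, h6, h7.symm, h5.symm, h9, h10, h8, ?_⟩
    show 2 ^ J < 2 * max (val p.2.1) (max (val p.2.2) (val p.1))
    rw [max_comm (val p.2.2), max_left_comm]; exact h11
  · intro p _ q _ h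
    simp only [Prod.mk.injEq] at h
    exact Prod.ext h.2.2 (Prod.ext h.1 h.2.1)

/-- counting by fibres -/
lemma card_le_fiber {α β : Type*} [DecidableEq β] (s : Finset α) (t : Finset β) (g : α → β)
    (hg : ∀ x ∈ s, g x ∈ t) (B : ℝ) (hB : ∀ y ∈ t, ((s.filter (fun x => g x = y)).card : ℝ) ≤ B) :
    (s.card : ℝ) ≤ t.card * B := by
  rw [Finset.card_eq_sum_card_fiberwise (f := g) (t := t) (by intro x hx; exact hg x hx)]
  push_cast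
  calc ∑ y ∈ t, (({x ∈ s | g x = y}).card : ℝ) ≤ ∑ _y ∈ t, B := Finset.sum_le_sum hB
    _ = t.card * B := by simp

lemma pos_val {J : ℕ} {k : Exps} {d : Dat} (h : d ∈ DD J k) :
    1 ≤ d.1 ∧ 1 ≤ d.2.1 ∧ 1 ≤ d.2.2.1 ∧ 1 ≤ d.2.2.2 := by
  simp only [DD, Finset.mem_product, FF, Finset.mem_filter, Finset.mem_Icc] at h
  exact ⟨pos_of_mem_blk h.1, pos_of_mem_blk h.2.1, pos_of_mem_blk h.2.2.1, h.2.2.2.1.1⟩

lemma exists_dec (n : ℕ) (h : 1 ≤ n) : ∃ d : Dat, (1 ≤ d.1 ∧ 1 ≤ d.2.1 ∧ 1 ≤ d.2.2.1 ∧ 1 ≤ d.2.2.2) ∧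
    n = val d ∧ rad n = d.1 * d.2.1 * d.2.2.1 * rad d.2.2.2 ∧ rad d.2.2.2 ^ 4 ≤ d.2.2.2 := by
  obtain ⟨u, m, w, f, h1, h2, h3, h4, h5, h6, h7⟩ := exists_decomp n h
  exact ⟨(u, m, w, f), ⟨h1, h2, h3, h4⟩, h5, h6, h7⟩

open Classical in
noncomputable def dec (n : ℕ) : Dat := if h : 1 ≤ n then (exists_dec n h).choose else (1, 1, 1, 1)

lemma dec_spec (n : ℕ) (h : 1 ≤ n) :
    (1 ≤ (dec n).1 ∧ 1 ≤ (dec n).2.1 ∧ 1 ≤ (dec n).2.2.1 ∧ 1 ≤ (dec n).2.2.2) ∧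
    n = val (dec n) ∧ rad n = (dec n).1 * (dec n).2.1 * (dec n).2.2.1 * rad (dec n).2.2.2 ∧
      rad (dec n).2.2.2 ^ 4 ≤ (dec n).2.2.2 := by
  unfold dec; rw [dif_pos h]; exact (exists_dec n h).choose_spec

noncomputable def lgs (n : ℕ) : Exps :=
  (Nat.log 2 (dec n).1, Nat.log 2 (dec n).2.1, Nat.log 2 (dec n).2.2.1,
    Nat.log 2 (rad (dec n).2.2.2))

lemma rad_pos {n : ℕ} : 1 ≤ rad n := by
  unfold rad; exact Finset.prod_pos (fun p hp => (Nat.prime_of_mem_primeFactors hp).pos)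

lemma dec_mem (J n : ℕ) (h : 1 ≤ n) (hJ : n ≤ 2 ^ J) : dec n ∈ DD J (lgs n) := by
  obtain ⟨⟨h1, h2, h3, h4⟩, h5, h6, h7⟩ := dec_spec n h
  simp only [DD, lgs, Finset.mem_product, FF, Finset.mem_filter, Finset.mem_Icc]
  refine ⟨log_mem_blk h1, log_mem_blk h2, log_mem_blk h3, ⟨h4, ?_⟩, ?_, ?_, h7⟩
  · refine le_trans ?_ hJ
    conv_rhs => rw [h5]
    unfold val
    exact Nat.le_mul_of_pos_left _ (by positivity)
  · exact Nat.pow_log_le_self 2 (by have := @rad_pos (dec n).2.2.2; omega)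
  · exact Nat.lt_pow_succ_log_self (by norm_num) _

/-- size constraints on the exponents of a number up to `2^J`. -/
lemma lgs_cap (J n : ℕ) (h : 1 ≤ n) (hJ : n ≤ 2 ^ J) :
    (lgs n).1 + 2 * (lgs n).2.1 + 3 * (lgs n).2.2.1 + 4 * (lgs n).2.2.2 ≤ J := by
  obtain ⟨⟨h1, h2, h3, h4⟩, h5, h6, h7⟩ := dec_spec n h
  have e1 := (mem_blk.1 (log_mem_blk h1)).1
  have e2 := (mem_blk.1 (log_mem_blk h2)).1
  have e3 := (mem_blk.1 (log_mem_blk h3)).1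
  have e4 := (mem_blk.1 (log_mem_blk (@rad_pos (dec n).2.2.2))).1
  have : 2 ^ ((lgs n).1 + 2 * (lgs n).2.1 + 3 * (lgs n).2.2.1 + 4 * (lgs n).2.2.2) ≤ 2 ^ J := by
    refine le_trans ?_ hJ
    conv_rhs => rw [h5]
    unfold val
    calc 2 ^ ((lgs n).1 + 2 * (lgs n).2.1 + 3 * (lgs n).2.2.1 + 4 * (lgs n).2.2.2)
        = 2 ^ (lgs n).1 * (2 ^ (lgs n).2.1) ^ 2 * (2 ^ (lgs n).2.2.1) ^ 3 *
            (2 ^ (lgs n).2.2.2) ^ 4 := by ring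
      _ ≤ (dec n).1 * (dec n).2.1 ^ 2 * (dec n).2.2.1 ^ 3 * (dec n).2.2.2 := by
          refine Nat.mul_le_mul (Nat.mul_le_mul (Nat.mul_le_mul e1 (Nat.pow_le_pow_left e2 2))
            (Nat.pow_le_pow_left e3 3)) (le_trans (Nat.pow_le_pow_left e4 4) h7)
  exact (Nat.pow_le_pow_iff_right (by norm_num)).1 this

lemma lgs_rad (n : ℕ) (h : 1 ≤ n) :
    2 ^ ((lgs n).1 + (lgs n).2.1 + (lgs n).2.2.1 + (lgs n).2.2.2) ≤ rad n := by
  obtain ⟨⟨h1, h2, h3, h4⟩, h5, h6, h7⟩ := dec_spec n h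
  have e1 := (mem_blk.1 (log_mem_blk h1)).1
  have e2 := (mem_blk.1 (log_mem_blk h2)).1
  have e3 := (mem_blk.1 (log_mem_blk h3)).1
  have e4 := (mem_blk.1 (log_mem_blk (@rad_pos (dec n).2.2.2))).1
  rw [h6]
  calc 2 ^ ((lgs n).1 + (lgs n).2.1 + (lgs n).2.2.1 + (lgs n).2.2.2)
      = 2 ^ (lgs n).1 * 2 ^ (lgs n).2.1 * 2 ^ (lgs n).2.2.1 * 2 ^ (lgs n).2.2.2 := by ring
    _ ≤ _ := Nat.mul_le_mul (Nat.mul_le_mul (Nat.mul_le_mul e1 e2) e3) e4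

lemma card_FF {ε : ℝ} (hε : 0 < ε) : ∃ C : ℝ, 1 ≤ C ∧ ∀ J k : ℕ,
    ((FF J k).card : ℝ) ≤ C * (2 : ℝ) ^ (ε * J) * 2 ^ k := by
  obtain ⟨C, hC1, hC⟩ := card_rad_dyadic hε
  refine ⟨C, hC1, fun J k => ?_⟩
  have := hC (2 ^ J) k Nat.one_le_two_pow
  refine le_trans (Nat.cast_le.2 (Finset.card_le_card ?_)) (le_trans this (le_of_eq ?_))
  · intro n hn
    simp only [FF, Finset.mem_filter] at hn ⊢
    exact ⟨hn.1, hn.2.1, hn.2.2.1⟩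
  push_cast
  rw [← Real.rpow_natCast 2 J, ← Real.rpow_mul (by norm_num), mul_comm (J : ℝ) ε]

end AbcTR
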