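import Pool.Agent.Work.MP_a793bb_nt.TR.LPBox

set_option autoImplicit false

namespace AbcTR

open Finset

/-- weighted size of an exponent vector -/
def cap (k : Exps) : ℕ := k.1 + 2 * k.2.1 + 3 * k.2.2.1 + 4 * k.2.2.2
/-- size of the radical -/
def sm (k : Exps) : ℕ := k.1 + k.2.1 + k.2.2.1 + k.2.2.2

lemma le_of_bound {N K L x X e : ℝ} (hL : 0 < L) (hx : x = K * L * 2 ^ N)
    (hK : 0 < K) (K' : ℝ) (hKK : K' ≤ K) (h : x ≤ K' * L * X) (hX0 : 0 ≤ X) (hX : X ≤ 2 ^ e) :
    N ≤ e := by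
  have h1 : K * L * (2 : ℝ) ^ N ≤ K * L * 2 ^ e := by
    rw [← hx]
    calc x ≤ K' * L * X := h
      _ ≤ K * L * 2 ^ e := by gcongr
  have h2 : (2 : ℝ) ^ N ≤ 2 ^ e := le_of_mul_le_mul_left h1 (by positivity)
  exact (Real.rpow_le_rpow_left_iff (by norm_num)).1 h2

lemma one_add_le (a b c J : ℕ) :
    (1 + (2 : ℝ) ^ a * 2 ^ b * 2 ^ c / 2 ^ J) ≤ 2 * 2 ^ (max 0 ((a : ℝ) + b + c - J)) := by
  have h1 : (1 : ℝ) ≤ 2 ^ (max 0 ((a : ℝ) + b + c - J)) := one_le_two_rpow (le_max_left _ _)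
  have h2 : (2 : ℝ) ^ a * 2 ^ b * 2 ^ c / 2 ^ J ≤ 2 ^ (max 0 ((a : ℝ) + b + c - J)) := by
    have e : (2 : ℝ) ^ a * 2 ^ b * 2 ^ c / 2 ^ J = 2 ^ ((a : ℝ) + b + c - J) := by
      rw [Real.rpow_sub (by norm_num), Real.rpow_add (by norm_num), Real.rpow_add (by norm_num)]
      simp only [Real.rpow_natCast]
    rw [e]
    exact two_rpow_le (le_max_right _ _)
  linarith

lemma SS_rot_T {ε : ℝ} (hε : 0 < ε) : ∃ K : ℝ, 1 ≤ K ∧ ∀ (J : ℕ) (ka kb kc : Exps),
    cap ka ≤ J → cap kb ≤ J → cap kc ≤ J → sm kb ≤ sm ka → sm kc ≤ sm kb →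
    sm ka + sm kb + sm kc ≤ 2 * J →
    ((SS J ka kb kc).card : ℝ) ≤ K * (2 : ℝ) ^ (ε * J) *
      2 ^ ((5 * J + (sm ka + sm kb + sm kc : ℕ)) / 7 : ℝ) := by
  obtain ⟨KT, hKT1, hKT⟩ := bound_T hε
  obtain ⟨KG, hKG1, hKG⟩ := bound_G hε
  obtain ⟨KP, hKP1, hKP⟩ := bound_P hε
  obtain ⟨KM, hKM1, hKM⟩ := bound_M hε
  set K : ℝ := KT + 2 * KG + 2 * KP + KM with hK
  have hK0 : 1 ≤ K := by rw [hK]; linarith
  refine ⟨K, hK0, fun J ka kb kc ca cb cc s1 s2 hL => ?_⟩
  obtain ⟨a0, a1, a2, a3⟩ := ka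
  obtain ⟨b0, b1, b2, b3⟩ := kb
  obtain ⟨c0, c1, c2, c3⟩ := kc
  simp only [cap, sm] at ca cb cc s1 s2 hL ⊢
  set x : ℝ := ((SS J (a0, a1, a2, a3) (b0, b1, b2, b3) (c0, c1, c2, c3)).card : ℝ) with hx
  set L : ℝ := (2 : ℝ) ^ (ε * J) with hLdef
  have hL0 : 0 < L := by positivity
  have hx0 : 0 ≤ x := by positivity
  rcases eq_or_lt_of_le hx0 with h0 | hpos
  · rw [← h0]; positivity
  set N : ℝ := Real.logb 2 (x / (K * L)) with hN
  have hxN : x = K * L * 2 ^ N := by
    rw [hN, Real.rpow_logb (by norm_num) (by norm_num) (by positivity)]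
    field_simp
  rcases lt_or_ge N 0 with hN0 | hN0
  · rw [hxN]
    have h1 : (2 : ℝ) ^ N ≤ 2 ^ ((5 * (J : ℝ) + ((a0 + a1 + a2 + a3 + (b0 + b1 + b2 + b3) +
        (c0 + c1 + c2 + c3) : ℕ) : ℝ)) / 7) := by
      apply two_rpow_le
      have : (0 : ℝ) ≤ (5 * (J : ℝ) + ((a0 + a1 + a2 + a3 + (b0 + b1 + b2 + b3) +
        (c0 + c1 + c2 + c3) : ℕ) : ℝ)) / 7 := by positivity
      linarith
    gcongr
  -- the cards of the rotated boxes
  have r1 : x ≤ ((SS J (b0, b1, b2, b3) (c0, c1, c2, c3) (a0, a1, a2, a3)).card : ℝ) := by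
    rw [hx]; exact_mod_cast card_SS_rot _ _ _ _
  have r2 : x ≤ ((SS J (c0, c1, c2, c3) (a0, a1, a2, a3) (b0, b1, b2, b3)).card : ℝ) :=
    r1.trans (by exact_mod_cast card_SS_rot _ _ _ _)
  have hlp := lp_box a0 a1 a2 a3 b0 b1 b2 b3 c0 c1 c2 c3 J N (by positivity) (by positivity)
    (by positivity) (by positivity) (by positivity) (by positivity) (by positivity)
    (by positivity) (by positivity) (by positivity) (by positivity) (by positivity) hN0
    (by positivity) (by exact_mod_cast ca) (by exact_mod_cast cb) (by exact_mod_cast cc)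
    (by
      have : ((a0 + a1 + a2 + a3 + (b0 + b1 + b2 + b3) + (c0 + c1 + c2 + c3) : ℕ) : ℝ) ≤
        ((2 * J : ℕ) : ℝ) := by exact_mod_cast hL
      push_cast at this; linarith)
    (by exact_mod_cast s1) (by exact_mod_cast s2)
    (by
      refine le_of_bound hL0 hxN (by linarith) KT (by rw [hK]; linarith)
        (r1.trans (hKT J _ _ _)) (by positivity) (le_of_eq ?_)
      rw [← pow_add, ← Real.rpow_natCast]
      congr 1; push_cast; ring)
    (by
      refine le_of_bound hL0 hxN (by linarith) (2 * KG) (by rw [hK]; linarith)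
        (X := (2 ^ (a1 + a2 + a3) * 2 ^ (b1 + b2 + b3) * 2 ^ (c1 + c2 + c3)) *
          2 ^ (max 0 ((a0 : ℝ) + b0 + c0 - J))) ?_ (by positivity) (le_of_eq ?_)
      · refine (hKG J _ _ _).trans ?_
        have := one_add_le a0 b0 c0 J
        calc _ ≤ KG * L * (2 ^ (a1 + a2 + a3) * 2 ^ (b1 + b2 + b3) * 2 ^ (c1 + c2 + c3)) *
            (2 * 2 ^ (max 0 ((a0 : ℝ) + b0 + c0 - J))) := by gcongr
          _ = _ := by ring
      · rw [Real.rpow_add (by norm_num)]
        congr 1
        rw [← pow_add, ← pow_add, ← Real.rpow_natCast]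
        congr 1; push_cast; ring)
    (by
      refine le_of_bound hL0 hxN (by linarith) (2 * KP) (by rw [hK]; linarith)
        (X := (2 ^ (b0 + b2 + b3) * 2 ^ (c0 + c2 + c3) * 2 ^ (a1 + a2 + a3)) *
          2 ^ (max 0 ((b1 : ℝ) + c1 + a0 - J))) ?_ (by positivity) (le_of_eq ?_)
      · refine (r1.trans (hKP J _ _ _)).trans ?_
        have := one_add_le b1 c1 a0 J
        calc _ ≤ KP * L * (2 ^ (b0 + b2 + b3) * 2 ^ (c0 + c2 + c3) * 2 ^ (a1 + a2 + a3)) *
            (2 * 2 ^ (max 0 ((b1 : ℝ) + c1 + a0 - J))) := by gcongr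
          _ = _ := by ring
      · rw [Real.rpow_add (by norm_num)]
        congr 1
        · rw [← pow_add, ← pow_add, ← Real.rpow_natCast]
          congr 1; push_cast; ring
        · congr 2; ring)
    (by
      refine le_of_bound hL0 hxN (by linarith) (2 * KP) (by rw [hK]; linarith)
        (X := (2 ^ (c0 + c2 + c3) * 2 ^ (a0 + a2 + a3) * 2 ^ (b1 + b2 + b3)) *
          2 ^ (max 0 ((c1 : ℝ) + a1 + b0 - J))) ?_ (by positivity) (le_of_eq ?_)
      · refine (r2.trans (hKP J _ _ _)).trans ?_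
        have := one_add_le c1 a1 b0 J
        calc _ ≤ KP * L * (2 ^ (c0 + c2 + c3) * 2 ^ (a0 + a2 + a3) * 2 ^ (b1 + b2 + b3)) *
            (2 * 2 ^ (max 0 ((c1 : ℝ) + a1 + b0 - J))) := by gcongr
          _ = _ := by ring
      · rw [Real.rpow_add (by norm_num)]
        congr 1
        · rw [← pow_add, ← pow_add, ← Real.rpow_natCast]
          congr 1; push_cast; ring
        · congr 2; ring)
    (by
      refine le_of_bound hL0 hxN (by linarith) (2 * KP) (by rw [hK]; linarith)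
        (X := (2 ^ (a0 + a2 + a3) * 2 ^ (b0 + b2 + b3) * 2 ^ (c1 + c2 + c3)) *
          2 ^ (max 0 ((a1 : ℝ) + b1 + c0 - J))) ?_ (by positivity) (le_of_eq ?_)
      · refine (hKP J _ _ _).trans ?_
        have := one_add_le a1 b1 c0 J
        calc _ ≤ KP * L * (2 ^ (a0 + a2 + a3) * 2 ^ (b0 + b2 + b3) * 2 ^ (c1 + c2 + c3)) *
            (2 * 2 ^ (max 0 ((a1 : ℝ) + b1 + c0 - J))) := by gcongr
          _ = _ := by ring
      · rw [Real.rpow_add (by norm_num)]
        congr 1
        rw [← pow_add, ← pow_add, ← Real.rpow_natCast]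
        congr 1; push_cast; ring)
    (by
      have hb := hKM J (b0, b1, b2, b3) (c0, c1, c2, c3) (a0, a1, a2, a3)
        (by simp only; omega) (by simp only; omega) (by simp only; omega) (by simp only; omega)
        (by simp only; omega) (by simp only; omega)
      simp only at hb
      push_cast at hb
      rw [mul_assoc (KM * (2 : ℝ) ^ (ε * J))] at hb
      refine le_of_bound hL0 hxN (by linarith) KM (by rw [hK]; linarith)
        (r1.trans hb) (by positivity) (le_of_eq ?_)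
      rw [Real.rpow_add (by norm_num) ((a1 : ℝ) + a2 + a3 + b3 + c3)]
      congr 1
      rw [← pow_add, ← pow_add, ← Real.rpow_natCast]
      congr 1; push_cast; ring)
    (by
      have hb := hKM J (c0, c1, c2, c3) (a0, a1, a2, a3) (b0, b1, b2, b3)
        (by simp only; omega) (by simp only; omega) (by simp only; omega) (by simp only; omega)
        (by simp only; omega) (by simp only; omega)
      simp only at hb
      push_cast at hb
      rw [mul_assoc (KM * (2 : ℝ) ^ (ε * J))] at hb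
      refine le_of_bound hL0 hxN (by linarith) KM (by rw [hK]; linarith)
        (r2.trans hb) (by positivity) (le_of_eq ?_)
      rw [Real.rpow_add (by norm_num) ((b1 : ℝ) + b2 + b3 + a3 + c3)]
      congr 1
      · rw [← pow_add, ← pow_add, ← Real.rpow_natCast]
        congr 1; push_cast; ring
      · congr 1; ring)
    (by
      have hb := hKM J (a0, a1, a2, a3) (b0, b1, b2, b3) (c0, c1, c2, c3)
        (by simp only; omega) (by simp only; omega) (by simp only; omega) (by simp only; omega)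
        (by simp only; omega) (by simp only; omega)
      simp only at hb
      push_cast at hb
      rw [mul_assoc (KM * (2 : ℝ) ^ (ε * J))] at hb
      refine le_of_bound hL0 hxN (by linarith) KM (by rw [hK]; linarith)
        hb (by positivity) (le_of_eq ?_)
      rw [Real.rpow_add (by norm_num) ((c1 : ℝ) + c2 + c3 + a3 + b3)]
      congr 1
      rw [← pow_add, ← pow_add, ← Real.rpow_natCast]
      congr 1; push_cast; ring)
  rw [hxN]
  have h1 : (2 : ℝ) ^ N ≤ 2 ^ ((5 * (J : ℝ) + ((a0 + a1 + a2 + a3 + (b0 + b1 + b2 + b3) +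
      (c0 + c1 + c2 + c3) : ℕ) : ℝ)) / 7) := by
    apply two_rpow_le
    push_cast
    linarith
  gcongr

/-- the bound for one box. -/
theorem box_le {ε : ℝ} (hε : 0 < ε) : ∃ K : ℝ, 1 ≤ K ∧ ∀ (J : ℕ) (ka kb kc : Exps),
    cap ka ≤ J → cap kb ≤ J → cap kc ≤ J → sm ka + sm kb + sm kc ≤ 2 * J →
    ((SS J ka kb kc).card : ℝ) ≤ K * (2 : ℝ) ^ (ε * J) *
      2 ^ ((5 * J + (sm ka + sm kb + sm kc : ℕ)) / 7 : ℝ) := by
  obtain ⟨K, hK1, hK⟩ := SS_rot_T hε
  refine ⟨K, hK1, fun J ka kb kc ca cb cc hL => ?_⟩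
  have rot : ∀ x y z, ((SS J x y z).card : ℝ) ≤ ((SS J y z x).card : ℝ) := fun x y z => by
    exact_mod_cast card_SS_rot J x y z
  have swap : ∀ x y z, ((SS J x y z).card : ℝ) ≤ ((SS J y x z).card : ℝ) := fun x y z => by
    exact_mod_cast card_SS_swap J x y z
  rcases le_total (sm kb) (sm ka) with h1 | h1
  · rcases le_total (sm kc) (sm kb) with h2 | h2
    · exact hK J ka kb kc ca cb cc h1 h2 hL
    · rcases le_total (sm kc) (sm ka) with h3 | h3
      · -- a ≥ c ≥ b
        have := hK J ka kc kb ca cc cb h3 h2 (by omega)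
        have e : sm ka + sm kc + sm kb = sm ka + sm kb + sm kc := by ring
        rw [e] at this
        exact ((rot _ _ _).trans ((rot _ _ _).trans (swap _ _ _))).trans this
      · -- c ≥ a ≥ b
        have := hK J kc ka kb cc ca cb h3 h1 (by omega)
        have e : sm kc + sm ka + sm kb = sm ka + sm kb + sm kc := by ring
        rw [e] at this
        exact ((rot _ _ _).trans (rot _ _ _)).trans this
  · rcases le_total (sm kc) (sm ka) with h2 | h2
    · -- b ≥ a ≥ c
      have := hK J kb ka kc cb ca cc h1 h2 (by omega)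
      have e : sm kb + sm ka + sm kc = sm ka + sm kb + sm kc := by ring
      rw [e] at this
      exact (swap _ _ _).trans this
    · rcases le_total (sm kc) (sm kb) with h3 | h3
      · -- b ≥ c ≥ a
        have := hK J kb kc ka cb cc ca h3 h2 (by omega)
        have e : sm kb + sm kc + sm ka = sm ka + sm kb + sm kc := by ring
        rw [e] at this
        exact (rot _ _ _).trans this
      · -- c ≥ b ≥ a
        have := hK J kc kb ka cc cb ca h3 h1 (by omega)
        have e : sm kc + sm kb + sm ka = sm ka + sm kb + sm kc := by ring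
        rw [e] at this
        exact ((rot _ _ _).trans (swap _ _ _)).trans this

end AbcTR
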