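import Pool.Agent.Work.MP_a793bb_nt.TR.BoxBound

set_option autoImplicit false

namespace AbcTR

open Finset

lemma poly_le {δ : ℝ} (hδ : 0 < δ) : ∃ C : ℝ, 1 ≤ C ∧ ∀ J : ℕ, ((J : ℝ) + 1) ≤ C * 2 ^ (δ * J) := by
  have hl : 0 < δ * Real.log 2 := mul_pos hδ (Real.log_pos (by norm_num))
  set L := δ * Real.log 2 with hL
  refine ⟨1 + 1 / L, by have : 0 < 1 / L := by positivity
                        linarith, fun J => ?_⟩
  have h1 : L * J + 1 ≤ (2 : ℝ) ^ (δ * J) := by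
    rw [Real.rpow_def_of_pos (by norm_num)]
    have := Real.add_one_le_exp (Real.log 2 * (δ * J))
    have e : L * J = Real.log 2 * (δ * J) := by rw [hL]; ring
    rw [e]; exact this
  have hJ : (0 : ℝ) ≤ J := by positivity
  calc (J : ℝ) + 1 ≤ (1 + 1 / L) * (L * J + 1) := by
        have : (1 + 1 / L) * (L * J + 1) = L * J + 1 + J + 1 / L := by field_simp; ring
        rw [this]
        have : 0 < 1 / L := by positivity
        have : 0 ≤ L * J := by positivity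
        linarith
    _ ≤ _ := by
        have : 0 < 1 / L := by positivity
        gcongr

lemma rad_mul3 {a b : ℕ} (ha : 1 ≤ a) (hb : 1 ≤ b) (h : Nat.Coprime a b) :
    rad (a * b * (a + b)) = rad a * rad b * rad (a + b) := by
  have h2 : Nat.Coprime (a * b) (a + b) := by
    apply Nat.Coprime.mul_left
    · rw [Nat.coprime_self_add_right]; exact h
    · rw [Nat.coprime_add_self_right]; exact h.symm
  rw [rad_mul_of_coprime h2, rad_mul_of_coprime h]

open Classical in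
/-- pairs in one dyadic range. -/
noncomputable def ExD (lam : ℝ) (J : ℕ) : Finset (ℕ × ℕ) :=
  (Icc 1 (2 ^ J) ×ˢ Icc 1 (2 ^ J)).filter (fun p => p.1 + p.2 ≤ 2 ^ J ∧ 2 ^ J < 2 * (p.1 + p.2) ∧
    Nat.Coprime p.1 p.2 ∧
    (rad (p.1 * p.2 * (p.1 + p.2)) : ℝ) ≤ ((p.1 + p.2 : ℕ) : ℝ) ^ lam)

/-- the box of exponent vectors -/
def KS (J : ℕ) : Finset Exps :=
  range (J + 1) ×ˢ (range (J + 1) ×ˢ (range (J + 1) ×ˢ range (J + 1)))

lemma card_KS (J : ℕ) : (KS J).card = (J + 1) ^ 4 := by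
  unfold KS; simp only [card_product, card_range]; ring

lemma mem_KS {J : ℕ} {k : Exps} (h : cap k ≤ J) : k ∈ KS J := by
  unfold cap at h
  simp only [KS, mem_product, mem_range]
  omega

theorem dyadic_le {lam : ℝ} (h0 : 0 ≤ lam) (h2 : lam ≤ 2) {ε : ℝ} (hε : 0 < ε) :
    ∃ K : ℝ, 1 ≤ K ∧ ∀ J : ℕ,
      ((ExD lam J).card : ℝ) ≤ K * 2 ^ (ε * J) * 2 ^ ((5 + lam) / 7 * J) := by
  classical
  have hε2 : 0 < ε / 2 := by positivity
  have hε24 : 0 < ε / 24 := by positivity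
  obtain ⟨K, hK1, hK⟩ := box_le hε2
  obtain ⟨C, hC1, hC⟩ := poly_le hε24
  refine ⟨C ^ 12 * K, ?_, fun J => ?_⟩
  · have h1 : 1 ≤ C ^ 12 := one_le_pow₀ hC1
    nlinarith
  set T := (KS J ×ˢ (KS J ×ˢ KS J)).filter (fun k : Exps × (Exps × Exps) =>
    cap k.1 ≤ J ∧ cap k.2.1 ≤ J ∧ cap k.2.2 ≤ J ∧
    ((sm k.1 + sm k.2.1 + sm k.2.2 : ℕ) : ℝ) ≤ lam * J) with hT
  have hkey : ∀ p ∈ ExD lam J, (lgs p.1, (lgs p.2, lgs (p.1 + p.2))) ∈ T := by
    intro p hp
    simp only [ExD, mem_filter, mem_product, mem_Icc] at hp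
    obtain ⟨⟨⟨p1, p2⟩, p3, p4⟩, p5, p6, p7, p8⟩ := hp
    have c1 := lgs_cap J p.1 p1 p2
    have c2 := lgs_cap J p.2 p3 p4
    have c3 := lgs_cap J (p.1 + p.2) (by omega) p5
    have l1 := lgs_rad p.1 p1
    have l2 := lgs_rad p.2 p3
    have l3 := lgs_rad (p.1 + p.2) (by omega)
    simp only [hT, mem_filter, mem_product]
    refine ⟨⟨mem_KS c1, mem_KS c2, mem_KS c3⟩, c1, c2, c3, ?_⟩
    have e1 : (2 : ℝ) ^ (((sm (lgs p.1) + sm (lgs p.2) + sm (lgs (p.1 + p.2)) : ℕ) : ℝ)) ≤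
        2 ^ (lam * J) := by
      rw [Real.rpow_natCast]
      calc (2 : ℝ) ^ (sm (lgs p.1) + sm (lgs p.2) + sm (lgs (p.1 + p.2)))
          = 2 ^ sm (lgs p.1) * 2 ^ sm (lgs p.2) * 2 ^ sm (lgs (p.1 + p.2)) := by
            rw [pow_add, pow_add]
        _ ≤ (rad p.1 : ℝ) * rad p.2 * rad (p.1 + p.2) := by
            unfold sm
            have i1 : (2 : ℝ) ^ ((lgs p.1).1 + (lgs p.1).2.1 + (lgs p.1).2.2.1 +
              (lgs p.1).2.2.2) ≤ (rad p.1 : ℝ) := by exact_mod_cast l1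
            have i2 : (2 : ℝ) ^ ((lgs p.2).1 + (lgs p.2).2.1 + (lgs p.2).2.2.1 +
              (lgs p.2).2.2.2) ≤ (rad p.2 : ℝ) := by exact_mod_cast l2
            have i3 : (2 : ℝ) ^ ((lgs (p.1 + p.2)).1 + (lgs (p.1 + p.2)).2.1 +
              (lgs (p.1 + p.2)).2.2.1 + (lgs (p.1 + p.2)).2.2.2) ≤ (rad (p.1 + p.2) : ℝ) := by
              exact_mod_cast l3
            gcongr
        _ = (rad (p.1 * p.2 * (p.1 + p.2)) : ℝ) := by
            rw [rad_mul3 p1 p3 p7]; push_cast; ring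
        _ ≤ ((p.1 + p.2 : ℕ) : ℝ) ^ lam := p8
        _ ≤ ((2 : ℝ) ^ J) ^ lam := by
            apply Real.rpow_le_rpow (by positivity) _ h0
            exact_mod_cast p5
        _ = 2 ^ (lam * J) := by
            rw [← Real.rpow_natCast, ← Real.rpow_mul (by norm_num), mul_comm]
    exact (Real.rpow_le_rpow_left_iff (by norm_num)).1 e1
  have hfib := card_le_fiber (ExD lam J) T (fun p => (lgs p.1, (lgs p.2, lgs (p.1 + p.2)))) hkey
    (K * 2 ^ (ε / 2 * J) * 2 ^ ((5 + lam) / 7 * J)) (by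
    rintro ⟨ka, kb, kc⟩ hk
    simp only [hT, mem_filter, mem_product] at hk
    obtain ⟨-, c1, c2, c3, c4⟩ := hk
    have hbox := hK J ka kb kc c1 c2 c3 (by
      have : ((sm ka + sm kb + sm kc : ℕ) : ℝ) ≤ ((2 * J : ℕ) : ℝ) := by
        refine c4.trans ?_
        push_cast
        have : (0 : ℝ) ≤ J := by positivity
        nlinarith
      exact_mod_cast this)
    have h5 : (2 : ℝ) ^ ((5 * (J : ℝ) + ((sm ka + sm kb + sm kc : ℕ) : ℝ)) / 7) ≤
        2 ^ ((5 + lam) / 7 * J) := by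
      apply two_rpow_le
      have : (5 + lam) / 7 * (J : ℝ) = (5 * J + lam * J) / 7 := by ring
      rw [this]
      gcongr
    refine le_trans (Nat.cast_le.2 ?_) (hbox.trans (by gcongr))
    apply card_le_card_of_injOn (fun p => (dec p.1, (dec p.2, dec (p.1 + p.2))))
    · intro p hp
      simp only [coe_filter, Set.mem_ofPred_eq, ExD, mem_filter, mem_product, mem_Icc,
        Prod.mk.injEq] at hp
      obtain ⟨⟨⟨⟨p1, p2⟩, p3, p4⟩, p5, p6, p7, p8⟩, k1, k2, k3⟩ := hp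
      have e1 := (dec_spec p.1 p1).2.1
      have e2 := (dec_spec p.2 p3).2.1
      have e3 := (dec_spec (p.1 + p.2) (by omega)).2.1
      have m1 := dec_mem J p.1 p1 p2
      have m2 := dec_mem J p.2 p3 p4
      have m3 := dec_mem J (p.1 + p.2) (by omega) p5
      rw [k1] at m1
      rw [k2] at m2
      rw [k3] at m3
      simp only [SS, coe_filter, Set.mem_ofPred_eq, mem_product]
      refine ⟨⟨m1, m2, m3⟩, ?_⟩
      unfold Good
      simp only
      rw [← e1, ← e2, ← e3]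
      refine ⟨Or.inl rfl, p7, ?_, ?_, p2, p4, p5, ?_⟩
      · rw [Nat.coprime_add_self_right]; exact p7.symm
      · rw [Nat.coprime_self_add_right]; exact p7
      · have : p.1 + p.2 ≤ max p.1 (max p.2 (p.1 + p.2)) :=
          le_trans (le_max_right _ _) (le_max_right _ _)
        omega
    · intro p hp p' hp' h
      simp only [coe_filter, Set.mem_ofPred_eq, ExD, mem_filter, mem_product, mem_Icc,
        Prod.mk.injEq] at hp hp' h
      have e1 := (dec_spec p.1 hp.1.1.1.1).2.1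
      have e2 := (dec_spec p.2 hp.1.1.2.1).2.1
      have e1' := (dec_spec p'.1 hp'.1.1.1.1).2.1
      have e2' := (dec_spec p'.2 hp'.1.1.2.1).2.1
      refine Prod.ext ?_ ?_
      · rw [e1, e1', h.1]
      · rw [e2, e2', h.2.1])
  refine hfib.trans ?_
  have hcT : (T.card : ℝ) ≤ (C * 2 ^ (ε / 24 * J)) ^ 12 := by
    have i1 : T.card ≤ ((J + 1) ^ 4) * (((J + 1) ^ 4) * ((J + 1) ^ 4)) := by
      refine (card_filter_le _ _).trans ?_
      simp only [card_product, card_KS]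
      exact le_rfl
    have i2 : (T.card : ℝ) ≤ ((J : ℝ) + 1) ^ 12 := by
      have : (T.card : ℝ) ≤ (((J + 1) ^ 4) * (((J + 1) ^ 4) * ((J + 1) ^ 4)) : ℕ) := by
        exact_mod_cast i1
      refine this.trans (le_of_eq ?_)
      push_cast; ring
    refine i2.trans ?_
    gcongr
    exact hC J
  have e1 : ((2 : ℝ) ^ (ε / 24 * J)) ^ 12 = 2 ^ (ε / 2 * J) := by
    rw [← Real.rpow_natCast ((2 : ℝ) ^ (ε / 24 * J)) 12, ← Real.rpow_mul (by norm_num)]
    congr 1; push_cast; ring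
  have e2 : (2 : ℝ) ^ (ε / 2 * J) * 2 ^ (ε / 2 * J) = 2 ^ (ε * J) := by
    rw [← Real.rpow_add (by norm_num)]
    congr 1; ring
  calc (T.card : ℝ) * (K * 2 ^ (ε / 2 * J) * 2 ^ ((5 + lam) / 7 * J))
      ≤ (C * 2 ^ (ε / 24 * J)) ^ 12 * (K * 2 ^ (ε / 2 * J) * 2 ^ ((5 + lam) / 7 * J)) := by
        gcongr
    _ = C ^ 12 * K * (((2 : ℝ) ^ (ε / 24 * J)) ^ 12 * 2 ^ (ε / 2 * J)) *
        2 ^ ((5 + lam) / 7 * J) := by ring
    _ = _ := by rw [e1, e2]

open Classical in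
/-- the exceptional pairs. -/
noncomputable def Ex (lam : ℝ) (X : ℕ) : Finset (ℕ × ℕ) :=
  (Icc 1 X ×ˢ Icc 1 X).filter (fun p => p.1 + p.2 ≤ X ∧ Nat.Coprime p.1 p.2 ∧
    (rad (p.1 * p.2 * (p.1 + p.2)) : ℝ) ≤ ((p.1 + p.2 : ℕ) : ℝ) ^ lam)

theorem count_le {lam : ℝ} (h0 : 0 ≤ lam) (h2 : lam ≤ 2) {ε : ℝ} (hε : 0 < ε) :
    ∃ K : ℝ, 1 ≤ K ∧ ∀ X : ℕ, 1 ≤ X →
      ((Ex lam X).card : ℝ) ≤ K * (X : ℝ) ^ ((5 + lam) / 7 + ε) := by
  classical
  have hε2 : 0 < ε / 2 := by positivity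
  obtain ⟨K, hK1, hK⟩ := dyadic_le h0 h2 hε2
  obtain ⟨C, hC1, hC⟩ := poly_le hε2
  refine ⟨C * K * 2 ^ ((5 + lam) / 7 + ε), ?_, fun X hX => ?_⟩
  · have h1 : (1 : ℝ) ≤ 2 ^ ((5 + lam) / 7 + ε) := one_le_two_rpow (by positivity)
    have h3 : 1 ≤ C * K := by nlinarith
    nlinarith
  set J0 : ℕ := Nat.clog 2 X with hJ0
  have hXJ : X ≤ 2 ^ J0 := Nat.le_pow_clog (by norm_num) X
  have hJX : 2 ^ J0 ≤ 2 * X := by
    rcases Nat.lt_or_ge 1 X with h | h
    · have h3 := Nat.pow_pred_clog_lt_self (b := 2) (by norm_num) h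
      have h4 : 1 ≤ J0 := Nat.clog_pos (by norm_num) h
      have h5 : 2 ^ J0 = 2 * 2 ^ (J0 - 1) := by
        rw [← pow_succ']
        congr 1; omega
      rw [h5]
      have : 2 ^ (J0 - 1) ≤ X := h3.le
      omega
    · have : X = 1 := by omega
      subst this
      simp [hJ0]
  have hfib := card_le_fiber (Ex lam X) (range (J0 + 1)) (fun p => Nat.clog 2 (p.1 + p.2)) (by
      intro p hp
      simp only [Ex, mem_filter] at hp
      rw [mem_range]
      have := Nat.clog_mono_right 2 hp.2.1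
      omega)
    (K * 2 ^ (ε / 2 * J0) * 2 ^ ((5 + lam) / 7 * J0)) (by
      intro J hJ
      rw [mem_range] at hJ
      have hJJ : (J : ℝ) ≤ J0 := by exact_mod_cast (by omega : J ≤ J0)
      refine le_trans (Nat.cast_le.2 (card_le_card ?_)) ((hK J).trans ?_)
      · intro p hp
        simp only [Ex, mem_filter, mem_product, mem_Icc] at hp
        obtain ⟨⟨⟨⟨p1, p2⟩, p3, p4⟩, p5, p6, p7⟩, k1⟩ := hp
        have q1 : p.1 + p.2 ≤ 2 ^ J := by
          rw [← k1]; exact Nat.le_pow_clog (by norm_num) _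
        have q2 : 2 ^ J < 2 * (p.1 + p.2) := by
          have h : 1 < p.1 + p.2 := by omega
          have h3 := Nat.pow_pred_clog_lt_self (b := 2) (by norm_num) h
          have h4 : 1 ≤ J := by rw [← k1]; exact Nat.clog_pos (by norm_num) h
          rw [k1] at h3
          have h5 : 2 ^ J = 2 * 2 ^ (J - 1) := by
            rw [← pow_succ']
            congr 1; omega
          rw [h5]
          have : 2 ^ (J - 1) < p.1 + p.2 := h3
          omega
        simp only [ExD, mem_filter, mem_product, mem_Icc]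
        exact ⟨⟨⟨p1, by omega⟩, p3, by omega⟩, q1, q2, p6, p7⟩
      · have i1 : (2 : ℝ) ^ (ε / 2 * J) ≤ 2 ^ (ε / 2 * J0) := by
          apply two_rpow_le; gcongr
        have i2 : (2 : ℝ) ^ ((5 + lam) / 7 * J) ≤ 2 ^ ((5 + lam) / 7 * J0) := by
          apply two_rpow_le; gcongr
        gcongr)
  refine hfib.trans ?_
  rw [card_range]
  have h3 := hC J0
  have e1 : (2 : ℝ) ^ (ε / 2 * J0) * (2 ^ (ε / 2 * J0) * 2 ^ ((5 + lam) / 7 * J0)) =
      ((2 : ℝ) ^ J0) ^ ((5 + lam) / 7 + ε) := by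
    rw [← Real.rpow_add (by norm_num), ← Real.rpow_add (by norm_num), ← Real.rpow_natCast 2 J0,
      ← Real.rpow_mul (by norm_num)]
    congr 1; ring
  have e2 : ((2 : ℝ) ^ J0) ^ ((5 + lam) / 7 + ε) ≤ (2 * (X : ℝ)) ^ ((5 + lam) / 7 + ε) := by
    apply Real.rpow_le_rpow (by positivity) _ (by positivity)
    exact_mod_cast hJX
  have e3 : (2 * (X : ℝ)) ^ ((5 + lam) / 7 + ε) = 2 ^ ((5 + lam) / 7 + ε) *
      (X : ℝ) ^ ((5 + lam) / 7 + ε) := Real.mul_rpow (by norm_num) (by positivity)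
  push_cast
  calc ((J0 : ℝ) + 1) * (K * 2 ^ (ε / 2 * J0) * 2 ^ ((5 + lam) / 7 * J0))
      ≤ (C * 2 ^ (ε / 2 * J0)) * (K * 2 ^ (ε / 2 * J0) * 2 ^ ((5 + lam) / 7 * J0)) := by gcongr
    _ = C * K * ((2 : ℝ) ^ (ε / 2 * J0) * (2 ^ (ε / 2 * J0) * 2 ^ ((5 + lam) / 7 * J0))) := by
        ring
    _ = C * K * ((2 : ℝ) ^ J0) ^ ((5 + lam) / 7 + ε) := by rw [e1]
    _ ≤ C * K * (2 ^ ((5 + lam) / 7 + ε) * (X : ℝ) ^ ((5 + lam) / 7 + ε)) := by
        rw [← e3]; gcongr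
    _ = _ := by ring

end AbcTR
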