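import Mathlib

set_option autoImplicit false
set_option linter.unusedVariables false
set_option maxRecDepth 100000

namespace AbcTR

/-- linear programming lemma (branch and bound tree), sides ordered by the size of their radical. -/
lemma lp_sym (a0 a1 a2 a3 b0 b1 b2 b3 c0 c1 c2 c3 J N g pa pb pc tA1ab tA2ab tA1ac tA2ac tB1ac tB2ac tB3ac tB1ab tB2ab tB3ab tA1ba tA2ba tA1bc tA2bc tB1bc tB2bc tB3bc tB1ba tB2ba tB3ba tA1ca tA2ca tA1cb tA2cb : ℝ)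
    (na0 : 0 ≤ a0)
    (na1 : 0 ≤ a1)
    (na2 : 0 ≤ a2)
    (na3 : 0 ≤ a3)
    (nb0 : 0 ≤ b0)
    (nb1 : 0 ≤ b1)
    (nb2 : 0 ≤ b2)
    (nb3 : 0 ≤ b3)
    (nc0 : 0 ≤ c0)
    (nc1 : 0 ≤ c1)
    (nc2 : 0 ≤ c2)
    (nc3 : 0 ≤ c3)
    (hN : 0 ≤ N) (hJ : 0 ≤ J)
    (ha : a0 + 2*a1 + 3*a2 + 4*a3 ≤ J)
    (hb : b0 + 2*b1 + 3*b2 + 4*b3 ≤ J)
    (hc : c0 + 2*c1 + 3*c2 + 4*c3 ≤ J)
    (hL : a0 + a1 + a2 + a3 + b0 + b1 + b2 + b3 + c0 + c1 + c2 + c3 ≤ 2*J)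
    (s1 : b0 + b1 + b2 + b3 ≤ a0 + a1 + a2 + a3)
    (s2 : c0 + c1 + c2 + c3 ≤ b0 + b1 + b2 + b3)
    (Hg : (g = 0 ∧ a0 + b0 + c0 - J ≤ 0) ∨ (g = a0 + b0 + c0 - J ∧ 0 ≤ a0 + b0 + c0 - J))
    (Hpa : (pa = 0 ∧ a0 + b1 + c1 - J ≤ 0) ∨ (pa = a0 + b1 + c1 - J ∧ 0 ≤ a0 + b1 + c1 - J))
    (Hpb : (pb = 0 ∧ a1 + b0 + c1 - J ≤ 0) ∨ (pb = a1 + b0 + c1 - J ∧ 0 ≤ a1 + b0 + c1 - J))
    (Hpc : (pc = 0 ∧ a1 + b1 + c0 - J ≤ 0) ∨ (pc = a1 + b1 + c0 - J ∧ 0 ≤ a1 + b1 + c0 - J))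
    (HtA1ab : (tA1ab = 1/2*b0 + 1/2*b2 ∧ -1/4*a1 - 3/8*a2 - 1/2*a3 + 1/2*b0 + 3/2*b2 ≤ 1/2*b0 + 1/2*b2 ∧ -1/2*a1 - 3/4*a2 - a3 + b0 + b2 ≤ 1/2*b0 + 1/2*b2) ∨ (tA1ab = -1/4*a1 - 3/8*a2 - 1/2*a3 + 1/2*b0 + 3/2*b2 ∧ 1/2*b0 + 1/2*b2 ≤ -1/4*a1 - 3/8*a2 - 1/2*a3 + 1/2*b0 + 3/2*b2 ∧ -1/2*a1 - 3/4*a2 - a3 + b0 + b2 ≤ -1/4*a1 - 3/8*a2 - 1/2*a3 + 1/2*b0 + 3/2*b2) ∨ (tA1ab = -1/2*a1 - 3/4*a2 - a3 + b0 + b2 ∧ 1/2*b0 + 1/2*b2 ≤ -1/2*a1 - 3/4*a2 - a3 + b0 + b2 ∧ -1/4*a1 - 3/8*a2 - 1/2*a3 + 1/2*b0 + 3/2*b2 ≤ -1/2*a1 - 3/4*a2 - a3 + b0 + b2))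
    (HtA2ab : (tA2ab = 1/2*b1 ∧ -1/2*a1 - 3/4*a2 - a3 + b1 ≤ 1/2*b1) ∨ (tA2ab = -1/2*a1 - 3/4*a2 - a3 + b1 ∧ 1/2*b1 ≤ -1/2*a1 - 3/4*a2 - a3 + b1))
    (HtA1ac : (tA1ac = 1/2*c0 + 1/2*c2 ∧ -1/4*a1 - 3/8*a2 - 1/2*a3 + 1/2*c0 + 3/2*c2 ≤ 1/2*c0 + 1/2*c2 ∧ -1/2*a1 - 3/4*a2 - a3 + c0 + c2 ≤ 1/2*c0 + 1/2*c2) ∨ (tA1ac = -1/4*a1 - 3/8*a2 - 1/2*a3 + 1/2*c0 + 3/2*c2 ∧ 1/2*c0 + 1/2*c2 ≤ -1/4*a1 - 3/8*a2 - 1/2*a3 + 1/2*c0 + 3/2*c2 ∧ -1/2*a1 - 3/4*a2 - a3 + c0 + c2 ≤ -1/4*a1 - 3/8*a2 - 1/2*a3 + 1/2*c0 + 3/2*c2) ∨ (tA1ac = -1/2*a1 - 3/4*a2 - a3 + c0 + c2 ∧ 1/2*c0 + 1/2*c2 ≤ -1/2*a1 - 3/4*a2 - a3 + c0 + c2 ∧ -1/4*a1 - 3/8*a2 - 1/2*a3 + 1/2*c0 + 3/2*c2 ≤ -1/2*a1 - 3/4*a2 - a3 + c0 + c2))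
    (HtA2ac : (tA2ac = 1/2*c1 ∧ -1/2*a1 - 3/4*a2 - a3 + c1 ≤ 1/2*c1) ∨ (tA2ac = -1/2*a1 - 3/4*a2 - a3 + c1 ∧ 1/2*c1 ≤ -1/2*a1 - 3/4*a2 - a3 + c1))
    (HtB1ac : (tB1ac = 1/2*c0 ∧ -1/2*a1 - 3/4*a2 - a3 + c0 ≤ 1/2*c0) ∨ (tB1ac = -1/2*a1 - 3/4*a2 - a3 + c0 ∧ 1/2*c0 ≤ -1/2*a1 - 3/4*a2 - a3 + c0))
    (HtB2ac : (tB2ac = 1/2*c1 ∧ -1/4*a1 - 3/8*a2 - 1/2*a3 + c1 ≤ 1/2*c1) ∨ (tB2ac = -1/4*a1 - 3/8*a2 - 1/2*a3 + c1 ∧ 1/2*c1 ≤ -1/4*a1 - 3/8*a2 - 1/2*a3 + c1))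
    (HtB3ac : (tB3ac = 1/2*c2 ∧ -1/4*a1 - 3/8*a2 - 1/2*a3 + c2 ≤ 1/2*c2) ∨ (tB3ac = -1/4*a1 - 3/8*a2 - 1/2*a3 + c2 ∧ 1/2*c2 ≤ -1/4*a1 - 3/8*a2 - 1/2*a3 + c2))
    (HtB1ab : (tB1ab = 1/2*b0 ∧ -1/2*a1 - 3/4*a2 - a3 + b0 ≤ 1/2*b0) ∨ (tB1ab = -1/2*a1 - 3/4*a2 - a3 + b0 ∧ 1/2*b0 ≤ -1/2*a1 - 3/4*a2 - a3 + b0))
    (HtB2ab : (tB2ab = 1/2*b1 ∧ -1/4*a1 - 3/8*a2 - 1/2*a3 + b1 ≤ 1/2*b1) ∨ (tB2ab = -1/4*a1 - 3/8*a2 - 1/2*a3 + b1 ∧ 1/2*b1 ≤ -1/4*a1 - 3/8*a2 - 1/2*a3 + b1))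
    (HtB3ab : (tB3ab = 1/2*b2 ∧ -1/4*a1 - 3/8*a2 - 1/2*a3 + b2 ≤ 1/2*b2) ∨ (tB3ab = -1/4*a1 - 3/8*a2 - 1/2*a3 + b2 ∧ 1/2*b2 ≤ -1/4*a1 - 3/8*a2 - 1/2*a3 + b2))
    (HtA1ba : (tA1ba = 1/2*a0 + 1/2*a2 ∧ 1/2*a0 + 3/2*a2 - 1/4*b1 - 3/8*b2 - 1/2*b3 ≤ 1/2*a0 + 1/2*a2 ∧ a0 + a2 - 1/2*b1 - 3/4*b2 - b3 ≤ 1/2*a0 + 1/2*a2) ∨ (tA1ba = 1/2*a0 + 3/2*a2 - 1/4*b1 - 3/8*b2 - 1/2*b3 ∧ 1/2*a0 + 1/2*a2 ≤ 1/2*a0 + 3/2*a2 - 1/4*b1 - 3/8*b2 - 1/2*b3 ∧ a0 + a2 - 1/2*b1 - 3/4*b2 - b3 ≤ 1/2*a0 + 3/2*a2 - 1/4*b1 - 3/8*b2 - 1/2*b3) ∨ (tA1ba = a0 + a2 - 1/2*b1 - 3/4*b2 - b3 ∧ 1/2*a0 + 1/2*a2 ≤ a0 + a2 - 1/2*b1 - 3/4*b2 - b3 ∧ 1/2*a0 + 3/2*a2 - 1/4*b1 - 3/8*b2 - 1/2*b3 ≤ a0 + a2 - 1/2*b1 - 3/4*b2 - b3))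
    (HtA2ba : (tA2ba = 1/2*a1 ∧ a1 - 1/2*b1 - 3/4*b2 - b3 ≤ 1/2*a1) ∨ (tA2ba = a1 - 1/2*b1 - 3/4*b2 - b3 ∧ 1/2*a1 ≤ a1 - 1/2*b1 - 3/4*b2 - b3))
    (HtA1bc : (tA1bc = 1/2*c0 + 1/2*c2 ∧ -1/4*b1 - 3/8*b2 - 1/2*b3 + 1/2*c0 + 3/2*c2 ≤ 1/2*c0 + 1/2*c2 ∧ -1/2*b1 - 3/4*b2 - b3 + c0 + c2 ≤ 1/2*c0 + 1/2*c2) ∨ (tA1bc = -1/4*b1 - 3/8*b2 - 1/2*b3 + 1/2*c0 + 3/2*c2 ∧ 1/2*c0 + 1/2*c2 ≤ -1/4*b1 - 3/8*b2 - 1/2*b3 + 1/2*c0 + 3/2*c2 ∧ -1/2*b1 - 3/4*b2 - b3 + c0 + c2 ≤ -1/4*b1 - 3/8*b2 - 1/2*b3 + 1/2*c0 + 3/2*c2) ∨ (tA1bc = -1/2*b1 - 3/4*b2 - b3 + c0 + c2 ∧ 1/2*c0 + 1/2*c2 ≤ -1/2*b1 - 3/4*b2 - b3 + c0 + c2 ∧ -1/4*b1 - 3/8*b2 - 1/2*b3 + 1/2*c0 + 3/2*c2 ≤ -1/2*b1 - 3/4*b2 - b3 + c0 + c2))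
    (HtA2bc : (tA2bc = 1/2*c1 ∧ -1/2*b1 - 3/4*b2 - b3 + c1 ≤ 1/2*c1) ∨ (tA2bc = -1/2*b1 - 3/4*b2 - b3 + c1 ∧ 1/2*c1 ≤ -1/2*b1 - 3/4*b2 - b3 + c1))
    (HtB1bc : (tB1bc = 1/2*c0 ∧ -1/2*b1 - 3/4*b2 - b3 + c0 ≤ 1/2*c0) ∨ (tB1bc = -1/2*b1 - 3/4*b2 - b3 + c0 ∧ 1/2*c0 ≤ -1/2*b1 - 3/4*b2 - b3 + c0))
    (HtB2bc : (tB2bc = 1/2*c1 ∧ -1/4*b1 - 3/8*b2 - 1/2*b3 + c1 ≤ 1/2*c1) ∨ (tB2bc = -1/4*b1 - 3/8*b2 - 1/2*b3 + c1 ∧ 1/2*c1 ≤ -1/4*b1 - 3/8*b2 - 1/2*b3 + c1))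
    (HtB3bc : (tB3bc = 1/2*c2 ∧ -1/4*b1 - 3/8*b2 - 1/2*b3 + c2 ≤ 1/2*c2) ∨ (tB3bc = -1/4*b1 - 3/8*b2 - 1/2*b3 + c2 ∧ 1/2*c2 ≤ -1/4*b1 - 3/8*b2 - 1/2*b3 + c2))
    (HtB1ba : (tB1ba = 1/2*a0 ∧ a0 - 1/2*b1 - 3/4*b2 - b3 ≤ 1/2*a0) ∨ (tB1ba = a0 - 1/2*b1 - 3/4*b2 - b3 ∧ 1/2*a0 ≤ a0 - 1/2*b1 - 3/4*b2 - b3))
    (HtB2ba : (tB2ba = 1/2*a1 ∧ a1 - 1/4*b1 - 3/8*b2 - 1/2*b3 ≤ 1/2*a1) ∨ (tB2ba = a1 - 1/4*b1 - 3/8*b2 - 1/2*b3 ∧ 1/2*a1 ≤ a1 - 1/4*b1 - 3/8*b2 - 1/2*b3))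
    (HtB3ba : (tB3ba = 1/2*a2 ∧ a2 - 1/4*b1 - 3/8*b2 - 1/2*b3 ≤ 1/2*a2) ∨ (tB3ba = a2 - 1/4*b1 - 3/8*b2 - 1/2*b3 ∧ 1/2*a2 ≤ a2 - 1/4*b1 - 3/8*b2 - 1/2*b3))
    (HtA1ca : (tA1ca = 1/2*a0 + 1/2*a2 ∧ 1/2*a0 + 3/2*a2 - 1/4*c1 - 3/8*c2 - 1/2*c3 ≤ 1/2*a0 + 1/2*a2 ∧ a0 + a2 - 1/2*c1 - 3/4*c2 - c3 ≤ 1/2*a0 + 1/2*a2) ∨ (tA1ca = 1/2*a0 + 3/2*a2 - 1/4*c1 - 3/8*c2 - 1/2*c3 ∧ 1/2*a0 + 1/2*a2 ≤ 1/2*a0 + 3/2*a2 - 1/4*c1 - 3/8*c2 - 1/2*c3 ∧ a0 + a2 - 1/2*c1 - 3/4*c2 - c3 ≤ 1/2*a0 + 3/2*a2 - 1/4*c1 - 3/8*c2 - 1/2*c3) ∨ (tA1ca = a0 + a2 - 1/2*c1 - 3/4*c2 - c3 ∧ 1/2*a0 + 1/2*a2 ≤ a0 + a2 - 1/2*c1 - 3/4*c2 - c3 ∧ 1/2*a0 + 3/2*a2 - 1/4*c1 - 3/8*c2 - 1/2*c3 ≤ a0 + a2 - 1/2*c1 - 3/4*c2 - c3))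
    (HtA2ca : (tA2ca = 1/2*a1 ∧ a1 - 1/2*c1 - 3/4*c2 - c3 ≤ 1/2*a1) ∨ (tA2ca = a1 - 1/2*c1 - 3/4*c2 - c3 ∧ 1/2*a1 ≤ a1 - 1/2*c1 - 3/4*c2 - c3))
    (HtA1cb : (tA1cb = 1/2*b0 + 1/2*b2 ∧ 1/2*b0 + 3/2*b2 - 1/4*c1 - 3/8*c2 - 1/2*c3 ≤ 1/2*b0 + 1/2*b2 ∧ b0 + b2 - 1/2*c1 - 3/4*c2 - c3 ≤ 1/2*b0 + 1/2*b2) ∨ (tA1cb = 1/2*b0 + 3/2*b2 - 1/4*c1 - 3/8*c2 - 1/2*c3 ∧ 1/2*b0 + 1/2*b2 ≤ 1/2*b0 + 3/2*b2 - 1/4*c1 - 3/8*c2 - 1/2*c3 ∧ b0 + b2 - 1/2*c1 - 3/4*c2 - c3 ≤ 1/2*b0 + 3/2*b2 - 1/4*c1 - 3/8*c2 - 1/2*c3) ∨ (tA1cb = b0 + b2 - 1/2*c1 - 3/4*c2 - c3 ∧ 1/2*b0 + 1/2*b2 ≤ b0 + b2 - 1/2*c1 - 3/4*c2 - c3 ∧ 1/2*b0 + 3/2*b2 - 1/4*c1 - 3/8*c2 - 1/2*c3 ≤ b0 + b2 - 1/2*c1 - 3/4*c2 - c3))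
    (HtA2cb : (tA2cb = 1/2*b1 ∧ b1 - 1/2*c1 - 3/4*c2 - c3 ≤ 1/2*b1) ∨ (tA2cb = b1 - 1/2*c1 - 3/4*c2 - c3 ∧ 1/2*b1 ≤ b1 - 1/2*c1 - 3/4*c2 - c3))
    (BTa : N ≤ b0 + b1 + b2 + b3 + c0 + c1 + c2 + c3)
    (BG : N ≤ a1 + a2 + a3 + b1 + b2 + b3 + c1 + c2 + c3 + g)
    (BPa : N ≤ a1 + a2 + a3 + b0 + b2 + b3 + c0 + c2 + c3 + pa)
    (BPb : N ≤ a0 + a2 + a3 + b1 + b2 + b3 + c0 + c2 + c3 + pb)
    (BPc : N ≤ a0 + a2 + a3 + b0 + b2 + b3 + c1 + c2 + c3 + pc)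
    (BMaAA : N ≤ a1 + a2 + a3 + b3 + c3 + tA1ab + tA2ab + tA1ac + tA2ac)
    (BMaAB : N ≤ a1 + a2 + a3 + b3 + c3 + tA1ab + tA2ab + tB1ac + tB2ac + tB3ac)
    (BMaBA : N ≤ a1 + a2 + a3 + b3 + c3 + tB1ab + tB2ab + tB3ab + tA1ac + tA2ac)
    (BMaBB : N ≤ a1 + a2 + a3 + b3 + c3 + tB1ab + tB2ab + tB3ab + tB1ac + tB2ac + tB3ac)
    (BMbAA : N ≤ a3 + b1 + b2 + b3 + c3 + tA1ba + tA2ba + tA1bc + tA2bc)
    (BMbAB : N ≤ a3 + b1 + b2 + b3 + c3 + tA1ba + tA2ba + tB1bc + tB2bc + tB3bc)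
    (BMbBA : N ≤ a3 + b1 + b2 + b3 + c3 + tB1ba + tB2ba + tB3ba + tA1bc + tA2bc)
    (BMcAA : N ≤ a3 + b3 + c1 + c2 + c3 + tA1ca + tA2ca + tA1cb + tA2cb)
    : 7*N ≤ 5*J + (a0 + a1 + a2 + a3 + b0 + b1 + b2 + b3 + c0 + c1 + c2 + c3) := by
  rcases Hg with ⟨eg, ig_1⟩ | ⟨eg, ig_0⟩
  · rcases Hpa with ⟨epa, ipa_1⟩ | ⟨epa, ipa_0⟩
    · rcases Hpb with ⟨epb, ipb_1⟩ | ⟨epb, ipb_0⟩
      · rcases Hpc with ⟨epc, ipc_1⟩ | ⟨epc, ipc_0⟩
        · rcases HtA2ab with ⟨etA2ab, itA2ab_1⟩ | ⟨etA2ab, itA2ab_0⟩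
          · rcases HtA2ac with ⟨etA2ac, itA2ac_1⟩ | ⟨etA2ac, itA2ac_0⟩
            · rcases HtA1ab with ⟨etA1ab, itA1ab_1, itA1ab_2⟩ | ⟨etA1ab, itA1ab_0, itA1ab_2⟩ | ⟨etA1ab, itA1ab_0, itA1ab_1⟩
              · rcases HtA1ac with ⟨etA1ac, itA1ac_1, itA1ac_2⟩ | ⟨etA1ac, itA1ac_0, itA1ac_2⟩ | ⟨etA1ac, itA1ac_0, itA1ac_1⟩
                · rcases HtB1ba with ⟨etB1ba, itB1ba_1⟩ | ⟨etB1ba, itB1ba_0⟩
                  · rcases HtA2bc with ⟨etA2bc, itA2bc_1⟩ | ⟨etA2bc, itA2bc_0⟩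
                    · rcases HtA1bc with ⟨etA1bc, itA1bc_1, itA1bc_2⟩ | ⟨etA1bc, itA1bc_0, itA1bc_2⟩ | ⟨etA1bc, itA1bc_0, itA1bc_1⟩
                      · rcases HtB2ba with ⟨etB2ba, itB2ba_1⟩ | ⟨etB2ba, itB2ba_0⟩
                        · rcases HtB3ba with ⟨etB3ba, itB3ba_1⟩ | ⟨etB3ba, itB3ba_0⟩
                          · linarith only [hJ, BG, eg, nc2, na3, ha, s1, BPc, epc, nb2, hb, s2, BMaAA, etA1ab, etA2ab, etA1ac, etA2ac, BMbBA, etB1ba, etB2ba, etB3ba, etA1bc, etA2bc, hc, itB2ba_1]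
                          · linarith only [hJ, BPa, epa, hc, BG, eg, na3, ha, BPc, epc, BMaAA, etA1ab, etA2ab, etA1ac, etA2ac, hb, s2, BMbBA, etB1ba, etB2ba, etB3ba, etA1bc, etA2bc, nc2, s1, itB3ba_0]
                        · rcases HtB3ba with ⟨etB3ba, itB3ba_1⟩ | ⟨etB3ba, itB3ba_0⟩
                          · rcases HtA2ba with ⟨etA2ba, itA2ba_1⟩ | ⟨etA2ba, itA2ba_0⟩
                            · rcases HtA1ba with ⟨etA1ba, itA1ba_1, itA1ba_2⟩ | ⟨etA1ba, itA1ba_0, itA1ba_2⟩ | ⟨etA1ba, itA1ba_0, itA1ba_1⟩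
                              · linarith only [hJ, BPb, epb, ha, nb3, hb, BMaAA, etA1ab, etA2ab, etA1ac, etA2ac, nc2, nb2, na3, s2, BMbAA, etA1ba, etA2ba, etA1bc, etA2bc, BPc, epc, hc, itA1ab_2]
                              · linarith only [hJ, BMbBA, etB1ba, etB2ba, etB3ba, etA1bc, etA2bc, BG, eg, ha, BMbAA, etA1ba, etA2ba, na3, s1, BMaAA, etA1ab, etA2ab, etA1ac, etA2ac, BPc, epc, s2, hb, nc2, hc, BPa, epa]
                              · linarith only [hJ, nc3, BMbAA, etA1ba, etA2ba, etA1bc, etA2bc, ha, BPa, epa, s1, hb, itA1ba_0, BG, eg, na2, itA1ac_2, nb3, hc, na3]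
                            · linarith only [hJ, itA2ba_0, BG, eg, na2, BPc, epc, na3, hc, BPb, epb, nb3, ha, itA1bc_2, BMaAA, etA1ab, etA2ab, etA1ac, etA2ac, s1]
                          · linarith only [hJ, itB2ba_0, ha, na3, itB3ba_0, BPc, epc, hc, nb2, BG, eg, s2, BMbBA, etB1ba, etB2ba, etB3ba, etA1bc, etA2bc, nc2, s1, nb3]
                      · rcases HtB2ba with ⟨etB2ba, itB2ba_1⟩ | ⟨etB2ba, itB2ba_0⟩
                        · rcases HtB3ba with ⟨etB3ba, itB3ba_1⟩ | ⟨etB3ba, itB3ba_0⟩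
                          · linarith only [hJ, na3, hc, itA1bc_0, BPc, epc, s1, BMaAA, etA1ab, etA2ab, etA1ac, etA2ac, nb2, itA1ac_1, s2, BMbBA, etB1ba, etB2ba, etB3ba, etA1bc, etA2bc, ha, itA1ac_2, itB2ba_1]
                          · linarith only [hJ, na3, itB3ba_0, itA1bc_0, BPc, epc, ha, s1, nb2, BMaAA, etA1ab, etA2ab, etA1ac, etA2ac, s2, BMbBA, etB1ba, etB2ba, etB3ba, etA1bc, etA2bc, itA1ac_1, hc, BG, eg]
                        · rcases HtB3ba with ⟨etB3ba, itB3ba_1⟩ | ⟨etB3ba, itB3ba_0⟩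
                          · linarith only [hJ, BPc, epc, BG, eg, na3, BPb, epb, itA1bc_2, hc, nb2, BMaAA, etA1ab, etA2ab, etA1ac, etA2ac, s1, BMbBA, etB1ba, etB2ba, etB3ba, etA1bc, etA2bc, ha, itA1ac_1, hb]
                          · linarith only [hJ, itB3ba_0, BMbBA, etB1ba, etB2ba, etB3ba, etA1bc, etA2bc, BPb, epb, na3, BPc, epc, itA1ac_1, nb2, s1, s2, hc, ha, itA1bc_2, nb3]
                      · linarith only [hJ, BG, eg, BPc, epc, na3, na2, ha, itA1bc_0, nb2, hb, s2, BMaAA, etA1ab, etA2ab, etA1ac, etA2ac, s1, hc, BPb, epb]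
                    · linarith only [hJ, itA2bc_0, hb, na3, BPb, epb, BMaAA, etA1ab, etA2ab, etA1ac, etA2ac, hc, ha, itA1ab_2, s2, nb3, nc2, nb2, s1]
                  · linarith only [hJ, itB1ba_0, nb2, na2, ha, s1, BMaAA, etA1ab, etA2ab, etA1ac, etA2ac, BPb, epb, nb3, na3, itA1ac_2, nc2, hc, BG, eg]
                · rcases HtB1ac with ⟨etB1ac, itB1ac_1⟩ | ⟨etB1ac, itB1ac_0⟩
                  · rcases HtB2ac with ⟨etB2ac, itB2ac_1⟩ | ⟨etB2ac, itB2ac_0⟩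
                    · rcases HtB3ac with ⟨etB3ac, itB3ac_1⟩ | ⟨etB3ac, itB3ac_0⟩
                      · rcases HtA2bc with ⟨etA2bc, itA2bc_1⟩ | ⟨etA2bc, itA2bc_0⟩
                        · rcases HtA2ba with ⟨etA2ba, itA2ba_1⟩ | ⟨etA2ba, itA2ba_0⟩
                          · rcases HtA1ba with ⟨etA1ba, itA1ba_1, itA1ba_2⟩ | ⟨etA1ba, itA1ba_0, itA1ba_2⟩ | ⟨etA1ba, itA1ba_0, itA1ba_1⟩
                            · linarith only [hJ, BG, eg, BPc, epc, itA1ba_1, BMaAB, etA1ab, etA2ab, etB1ac, etB2ac, etB3ac, s1, BMaAA, etA1ac, etA2ac, nb2, hb, s2, BPb, epb, ha, hc, na3]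
                            · rcases HtA1bc with ⟨etA1bc, itA1bc_1, itA1bc_2⟩ | ⟨etA1bc, itA1bc_0, itA1bc_2⟩ | ⟨etA1bc, itA1bc_0, itA1bc_1⟩
                              · linarith only [hJ, itA1ac_0, BPc, epc, itA1bc_1, BMaAB, etA1ab, etA2ab, etB1ac, etB2ac, etB3ac, na3, ha, nb2, hb, s2, BMbAA, etA1ba, etA2ba, etA1bc, etA2bc, BG, eg, hc, BTa]
                              · linarith only [hJ, ha, hc, hb, nb2, s1, BPc, epc, BPb, epb, BMbAA, etA1ba, etA2ba, etA1bc, etA2bc, s2, BMaAB, etA1ab, etA2ab, etB1ac, etB2ac, etB3ac, BG, eg, na3, BTa]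
                              · linarith only [hJ, BMbAA, etA1ba, etA2ba, etA1bc, etA2bc, itA1ac_2, BG, eg, BMaAB, etA1ab, etA2ab, etB1ac, etB2ac, etB3ac, itA1bc_1, BPc, epc, nb2, itA1ba_0, s2, na3, s1, hc, ha]
                            · linarith only [hJ, BMaAA, etA1ab, etA2ab, etA1ac, etA2ac, BPb, epb, itA2ba_1, BMaAB, etB1ac, etB2ac, etB3ac, ha, itA1ba_0, nb2, BPc, epc, s1, hc, BG, eg, na3, itB2ac_1]
                          · linarith only [hJ, hc, BPc, epc, s1, BMaAB, etA1ab, etA2ab, etB1ac, etB2ac, etB3ac, ha, itA2ba_0, itA1ab_2, na3, hb, BPb, epb, BG, eg, nc3, itB2ac_1]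
                        · linarith only [hJ, hc, BPb, epb, na3, BMaAB, etA1ab, etA2ab, etB1ac, etB2ac, etB3ac, ha, itA2bc_0, nb2, nb3, s2, s1, BG, eg, itA1ac_0, itB2ac_1]
                      · rcases HtA2cb with ⟨etA2cb, itA2cb_1⟩ | ⟨etA2cb, itA2cb_0⟩
                        · rcases HtA2ca with ⟨etA2ca, itA2ca_1⟩ | ⟨etA2ca, itA2ca_0⟩
                          · rcases HtA1cb with ⟨etA1cb, itA1cb_1, itA1cb_2⟩ | ⟨etA1cb, itA1cb_0, itA1cb_2⟩ | ⟨etA1cb, itA1cb_0, itA1cb_1⟩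
                            · rcases HtA1ca with ⟨etA1ca, itA1ca_1, itA1ca_2⟩ | ⟨etA1ca, itA1ca_0, itA1ca_2⟩ | ⟨etA1ca, itA1ca_0, itA1ca_1⟩
                              · rcases HtB1bc with ⟨etB1bc, itB1bc_1⟩ | ⟨etB1bc, itB1bc_0⟩
                                · rcases HtB2bc with ⟨etB2bc, itB2bc_1⟩ | ⟨etB2bc, itB2bc_0⟩
                                  · rcases HtB3bc with ⟨etB3bc, itB3bc_1⟩ | ⟨etB3bc, itB3bc_0⟩
                                    · linarith only [hJ, itB3bc_1, BMcAA, etA1ca, etA2ca, etA1cb, etA2cb, hc, BG, eg, na3, BMaAB, etA1ab, etA2ab, etB1ac, etB2ac, etB3ac, nb2, hb, itB3ac_0, BPb, epb, ha, na2, nc3]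
                                    · rcases HtA1ba with ⟨etA1ba, itA1ba_1, itA1ba_2⟩ | ⟨etA1ba, itA1ba_0, itA1ba_2⟩ | ⟨etA1ba, itA1ba_0, itA1ba_1⟩
                                      · rcases HtA2ba with ⟨etA2ba, itA2ba_1⟩ | ⟨etA2ba, itA2ba_0⟩
                                        · linarith only [hJ, hc, BMbAB, etA1ba, etA2ba, etB1bc, etB2bc, etB3bc, na2, BMaAB, etA1ab, etA2ab, etB1ac, etB2ac, etB3ac, s1, nb2, BMcAA, etA1ca, etA2ca, etA1cb, etA2cb, hb, na3, nc1, BPc, epc, nc3, ha]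
                                        · linarith only [hJ, BPc, epc, BMaAB, etA1ab, etA2ab, etB1ac, etB2ac, etB3ac, na2, BMbAB, etA1ba, etA2ba, etB1bc, etB2bc, etB3bc, itA2ab_1, na3, itA1ab_2, nb3, ha, nc1, hc, nc3, nb2]
                                      · linarith only [hJ, BG, eg, BMcAA, etA1ca, etA2ca, etA1cb, etA2cb, BPb, epb, ha, s1, BMaAB, etA1ab, etA2ab, etB1ac, etB2ac, etB3ac, nb2, itA1ba_0, na3, hb, nc1, nc3, hc]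
                                      · linarith only [hJ, hc, itA1ba_0, na2, ha, BPb, epb, BMaAB, etA1ab, etA2ab, etB1ac, etB2ac, etB3ac, s1, nb2, nc1, na3, BG, eg, nc3, itA1ab_2]
                                  · linarith only [hJ, itB2bc_0, BPb, epb, na2, itB3ac_0, s1, itA1ab_2, hc, hb, nb2, BMaAB, etA1ab, etA2ab, etB1ac, etB2ac, etB3ac, na3, nc3, ha]
                                · linarith only [hJ, itB1bc_0, BPb, epb, na2, nb2, s1, BMcAA, etA1ca, etA2ca, etA1cb, etA2cb, ha, nb3, na3, itB3ac_0, BG, eg, nc3, hc]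
                              · linarith only [hJ, BMaAB, etA1ab, etA2ab, etB1ac, etB2ac, etB3ac, hb, ha, BPb, epb, s1, na3, BMcAA, etA1ca, etA2ca, etA1cb, etA2cb, BTa, s2, nb2, BG, eg, nc3, hc]
                              · linarith only [hJ, s1, ha, nb2, itA1ca_0, itA2ab_1, hc, BMaAB, etA1ab, etA2ab, etB1ac, etB2ac, etB3ac, hb, na3, itB3ac_0, BG, eg, nc3, BMcAA, etA1ca, etA2ca, etA1cb, etA2cb]
                            · rcases HtA1ca with ⟨etA1ca, itA1ca_1, itA1ca_2⟩ | ⟨etA1ca, itA1ca_0, itA1ca_2⟩ | ⟨etA1ca, itA1ca_0, itA1ca_1⟩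
                              · linarith only [hJ, itA1ab_1, hc, na2, BPb, epb, s1, itA1cb_0, BMaAB, etA1ab, etA2ab, etB1ac, etB2ac, etB3ac, BMcAA, etA1ca, etA2ca, etA1cb, etA2cb, itA1ab_2, hb, BG, eg, nc3, ha]
                              · linarith only [hJ, BMcAA, etA1ca, etA2ca, etA1cb, etA2cb, hc, itA1ab_1, BPb, epb, s1, na3, BMaAB, etA1ab, etA2ab, etB1ac, etB2ac, etB3ac, BTa, s2, nb1, hb, nc3, ha]
                              · linarith only [hJ, BG, eg, itB3ac_0, itA1ab_1, itA1cb_0, ha, na2, BMaAB, etA1ab, etA2ab, etB1ac, etB2ac, etB3ac, na3, BMcAA, etA1ca, etA2ca, etA1cb, etA2cb, itA1ac_2, hb, nc3, itA1ab_2]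
                            · linarith only [hJ, BPc, epc, BPb, epb, na3, BG, eg, s1, itA1ab_2, itA1ab_1, hb, ha, hc, itA1cb_0, nc3, BMaAB, etA1ab, etA2ab, etB1ac, etB2ac, etB3ac]
                          · linarith only [hJ, BPb, epb, BG, eg, na2, itA2ca_0, na3, ha, itA1ab_1, hb, itA1ab_2, BMaAB, etA1ab, etA2ab, etB1ac, etB2ac, etB3ac, BPc, epc, nc3, hc]
                        · linarith only [hJ, itA2cb_0, BPc, epc, na3, BG, eg, s1, hc, nb2, hb, itA2ab_1, itB3ac_0, ha, nc3, BMaAB, etA1ab, etA2ab, etB1ac, etB2ac, etB3ac]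
                    · rcases HtB3ac with ⟨etB3ac, itB3ac_1⟩ | ⟨etB3ac, itB3ac_0⟩
                      · rcases HtA2bc with ⟨etA2bc, itA2bc_1⟩ | ⟨etA2bc, itA2bc_0⟩
                        · rcases HtA2ba with ⟨etA2ba, itA2ba_1⟩ | ⟨etA2ba, itA2ba_0⟩
                          · rcases HtA1bc with ⟨etA1bc, itA1bc_1, itA1bc_2⟩ | ⟨etA1bc, itA1bc_0, itA1bc_2⟩ | ⟨etA1bc, itA1bc_0, itA1bc_1⟩
                            · linarith only [hJ, BMaAA, etA1ab, etA2ab, etA1ac, etA2ac, na3, itA1ac_0, itA1ac_2, ha, BPc, epc, nb2, BG, eg, s2, itA1bc_1, hb, hc, BPb, epb]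
                            · rcases HtA1ba with ⟨etA1ba, itA1ba_1, itA1ba_2⟩ | ⟨etA1ba, itA1ba_0, itA1ba_2⟩ | ⟨etA1ba, itA1ba_0, itA1ba_1⟩
                              · linarith only [hJ, hb, na3, na2, BMbAA, etA1ba, etA2ba, etA1bc, etA2bc, itA2ab_1, BPc, epc, nb2, BMaAB, etA1ab, etA2ab, etB1ac, etB2ac, etB3ac, nb3, BPb, epb, hc, nc3, ha]
                              · linarith only [hJ, hb, hc, BPa, epa, BMaAB, etA1ab, etA2ab, etB1ac, etB2ac, etB3ac, s1, BPc, epc, nb2, na3, s2, BMaAA, etA1ac, etA2ac, BMbAA, etA1ba, etA2ba, etA1bc, etA2bc, nc3, ha]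
                              · linarith only [hJ, na2, na3, BMbAA, etA1ba, etA2ba, etA1bc, etA2bc, ha, BMaAA, etA1ab, etA2ab, etA1ac, etA2ac, itA1ac_2, nb2, nb3, s1, hb, hc, nc3, BMaAB, etB1ac, etB2ac, etB3ac]
                            · linarith only [hJ, ha, hb, na3, BMaAB, etA1ab, etA2ab, etB1ac, etB2ac, etB3ac, s1, hc, s2, BG, eg, BMaAA, etA1ac, etA2ac, BPb, epb, BPc, epc, itA1bc_1, nc3]
                          · rcases HtA1bc with ⟨etA1bc, itA1bc_1, itA1bc_2⟩ | ⟨etA1bc, itA1bc_0, itA1bc_2⟩ | ⟨etA1bc, itA1bc_0, itA1bc_1⟩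
                            · linarith only [hJ, BPb, epb, BG, eg, itA1ac_0, na3, ha, BMaAA, etA1ab, etA2ab, etA1ac, etA2ac, nb2, itA2ba_0, hb, itA1bc_1, itA1ac_2, hc, BPc, epc]
                            · rcases HtA1ba with ⟨etA1ba, itA1ba_1, itA1ba_2⟩ | ⟨etA1ba, itA1ba_0, itA1ba_2⟩ | ⟨etA1ba, itA1ba_0, itA1ba_1⟩
                              · linarith only [hJ, nb2, BPb, epb, na2, BPc, epc, hc, BMaAB, etA1ab, etA2ab, etB1ac, etB2ac, etB3ac, na3, ha, hb, s1, nb3, nc3, BMbAA, etA1ba, etA2ba, etA1bc, etA2bc]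
                              · linarith only [hJ, BPb, epb, BPc, epc, BMbAA, etA1ba, etA2ba, etA1bc, etA2bc, hc, itA2ba_0, BMaAB, etA1ab, etA2ab, etB1ac, etB2ac, etB3ac, nb2, itB2ac_0, s2, na3, nb3, nc3, ha]
                              · linarith only [hJ, ha, BG, eg, na2, itA1ab_2, BPb, epb, BMaAB, etA1ab, etA2ab, etB1ac, etB2ac, etB3ac, nb2, na3, nb3, s1, BMbAA, etA1ba, etA2ba, etA1bc, etA2bc, nc3, hc]
                            · linarith only [hJ, s1, BG, eg, itA2ba_0, itA1bc_1, ha, hb, itA1ab_2, BPb, epb, BPc, epc, BMaAA, etA1ab, etA2ab, etA1ac, etA2ac, na3, nc3, hc]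
                        · linarith only [hJ, BMaAA, etA1ab, etA2ab, etA1ac, etA2ac, itA2bc_0, na3, itA1ac_0, s1, BG, eg, nb2, nb3, itA1ab_2, hc, ha, nc3, BPb, epb]
                      · linarith only [hJ, na3, BPb, epb, na2, hc, s1, ha, nb2, itB2ac_0, itA1ab_2, itB3ac_0, hb, nc3, BMaAB, etA1ab, etA2ab, etB1ac, etB2ac, etB3ac]
                  · linarith only [hJ, nb3, BPc, epc, na2, BG, eg, na3, itB1ac_0, itA1ac_2, ha, s2, hc, hb, nc3, itA2ab_1]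
                · linarith only [hJ, hc, hb, na3, BG, eg, itA1ab_2, BPc, epc, BMaAA, etA1ab, etA2ab, etA1ac, etA2ac, itA1ac_0, nc3, ha]
              · rcases HtA1ac with ⟨etA1ac, itA1ac_1, itA1ac_2⟩ | ⟨etA1ac, itA1ac_0, itA1ac_2⟩ | ⟨etA1ac, itA1ac_0, itA1ac_1⟩
                · rcases HtB1ab with ⟨etB1ab, itB1ab_1⟩ | ⟨etB1ab, itB1ab_0⟩
                  · rcases HtB2ab with ⟨etB2ab, itB2ab_1⟩ | ⟨etB2ab, itB2ab_0⟩
                    · rcases HtB3ab with ⟨etB3ab, itB3ab_1⟩ | ⟨etB3ab, itB3ab_0⟩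
                      · rcases HtA2cb with ⟨etA2cb, itA2cb_1⟩ | ⟨etA2cb, itA2cb_0⟩
                        · rcases HtA2ca with ⟨etA2ca, itA2ca_1⟩ | ⟨etA2ca, itA2ca_0⟩
                          · rcases HtA1ca with ⟨etA1ca, itA1ca_1, itA1ca_2⟩ | ⟨etA1ca, itA1ca_0, itA1ca_2⟩ | ⟨etA1ca, itA1ca_0, itA1ca_1⟩
                            · linarith only [hJ, BMaAA, etA1ab, etA2ab, etA1ac, etA2ac, BPc, epc, itA1ca_1, ha, hc, s1, BMaBA, etB1ab, etB2ab, etB3ab, hb, s2, BPb, epb, nc2, BG, eg, na3]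
                            · rcases HtA1cb with ⟨etA1cb, itA1cb_1, itA1cb_2⟩ | ⟨etA1cb, itA1cb_0, itA1cb_2⟩ | ⟨etA1cb, itA1cb_0, itA1cb_1⟩
                              · linarith only [hJ, hc, BPb, epb, itA1cb_1, itA1ab_0, na3, BMaBA, etB1ab, etB2ab, etB3ab, etA1ac, etA2ac, BMcAA, etA1ca, etA2ca, etA1cb, etA2cb, hb, s1, ha, nc2, BG, eg, BTa]
                              · linarith only [hJ, nc2, hb, hc, BG, eg, s1, BMaBA, etB1ab, etB2ab, etB3ab, etA1ac, etA2ac, ha, na3, s2, BPb, epb, BPc, epc, BMcAA, etA1ca, etA2ca, etA1cb, etA2cb, BTa]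
                              · linarith only [hJ, itA1ab_2, BPb, epb, BG, eg, na3, BMaBA, etB1ab, etB2ab, etB3ab, etA1ac, etA2ac, s2, ha, hb, s1, itA1cb_1, itA1ca_0, BMcAA, etA1ca, etA2ca, etA1cb, etA2cb, nc2]
                            · linarith only [hJ, nb3, BMaBA, etB1ab, etB2ab, etB3ab, etA1ac, etA2ac, itA1ca_1, BG, eg, na3, BPc, epc, ha, hb, s2, BPb, epb, itA1ca_0, nc2, itB2ab_1]
                          · linarith only [hJ, ha, BPc, epc, itA2ca_0, BG, eg, na3, BMaBA, etB1ab, etB2ab, etB3ab, etA1ac, etA2ac, itB2ab_1, hb, BPb, epb, s2, nb3, itA1ac_2, hc]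
                        · linarith only [hJ, BMaBA, etB1ab, etB2ab, etB3ab, etA1ac, etA2ac, hb, na3, BG, eg, s1, ha, BPc, epc, s2, itB2ab_1, nc3, itA2cb_0, itA1ab_0, nc2]
                      · rcases HtA2bc with ⟨etA2bc, itA2bc_1⟩ | ⟨etA2bc, itA2bc_0⟩
                        · rcases HtA2ba with ⟨etA2ba, itA2ba_1⟩ | ⟨etA2ba, itA2ba_0⟩
                          · rcases HtA1bc with ⟨etA1bc, itA1bc_1, itA1bc_2⟩ | ⟨etA1bc, itA1bc_0, itA1bc_2⟩ | ⟨etA1bc, itA1bc_0, itA1bc_1⟩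
                            · rcases HtA1ba with ⟨etA1ba, itA1ba_1, itA1ba_2⟩ | ⟨etA1ba, itA1ba_0, itA1ba_2⟩ | ⟨etA1ba, itA1ba_0, itA1ba_1⟩
                              · linarith only [hJ, ha, BTa, na2, BG, eg, na3, hc, BMaBA, etB1ab, etB2ab, etB3ab, etA1ac, etA2ac, nb3, s2, nc2, BPc, epc, BMbAA, etA1ba, etA2ba, etA1bc, etA2bc, hb]
                              · linarith only [hJ, BPc, epc, hc, ha, BG, eg, s1, nc2, BMaBA, etB1ab, etB2ab, etB3ab, etA1ac, etA2ac, nb3, s2, na3, BMbAA, etA1ba, etA2ba, etA1bc, etA2bc, BTa, hb]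
                              · linarith only [hJ, na3, ha, hc, BG, eg, nc2, itB3ab_0, itA1ba_0, nb3, s2, BMbAA, etA1ba, etA2ba, etA1bc, etA2bc, BMaBA, etB1ab, etB2ab, etB3ab, etA1ac, etA2ac, na2, hb]
                            · rcases HtA1ba with ⟨etA1ba, itA1ba_1, itA1ba_2⟩ | ⟨etA1ba, itA1ba_0, itA1ba_2⟩ | ⟨etA1ba, itA1ba_0, itA1ba_1⟩
                              · linarith only [hJ, BPc, epc, hb, na2, BG, eg, itA1bc_0, hc, itA1ac_1, nb3, s2, itB3ab_0, BMaBA, etB1ab, etB2ab, etB3ab, etA1ac, etA2ac, BMbAA, etA1ba, etA2ba, etA1bc, etA2bc, ha]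
                              · linarith only [hJ, BPc, epc, hb, itA1ac_1, hc, s1, nc1, BMbAA, etA1ba, etA2ba, etA1bc, etA2bc, nb3, s2, na3, BMaBA, etB1ab, etB2ab, etB3ab, etA1ac, etA2ac, BTa, ha]
                              · linarith only [hJ, BMaBA, etB1ab, etB2ab, etB3ab, etA1ac, etA2ac, itA1bc_0, BMbAA, etA1ba, etA2ba, etA1bc, etA2bc, BG, eg, na3, itB3ab_0, ha, nb3, s2, nc3, hc, itA1ab_2, itA1ac_1]
                            · linarith only [hJ, BG, eg, hb, na3, BPc, epc, s1, itB3ab_0, ha, nb3, s2, BPb, epb, itA1bc_0, hc, itA1bc_1]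
                          · linarith only [hJ, itA2ba_0, BG, eg, na2, BPc, epc, na3, BMaBA, etB1ab, etB2ab, etB3ab, etA1ac, etA2ac, BPb, epb, nb3, s2, ha, itA1ac_1, hc, hb]
                        · linarith only [hJ, BG, eg, BPb, epb, na3, ha, s1, itB3ab_0, itA2bc_0, nb3, s2, hb, nc2, hc, BMaBA, etB1ab, etB2ab, etB3ab, etA1ac, etA2ac]
                    · rcases HtB3ab with ⟨etB3ab, itB3ab_1⟩ | ⟨etB3ab, itB3ab_0⟩
                      · rcases HtA2cb with ⟨etA2cb, itA2cb_1⟩ | ⟨etA2cb, itA2cb_0⟩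
                        · rcases HtA2ca with ⟨etA2ca, itA2ca_1⟩ | ⟨etA2ca, itA2ca_0⟩
                          · rcases HtA1cb with ⟨etA1cb, itA1cb_1, itA1cb_2⟩ | ⟨etA1cb, itA1cb_0, itA1cb_2⟩ | ⟨etA1cb, itA1cb_0, itA1cb_1⟩
                            · linarith only [hJ, itA1cb_1, hb, na3, hc, s1, BMaBA, etB1ab, etB2ab, etB3ab, etA1ac, etA2ac, BMaAA, etA1ab, etA2ab, itA1ab_0, BPc, epc, BPb, epb, nc2, BG, eg, ha]
                            · rcases HtA1ca with ⟨etA1ca, itA1ca_1, itA1ca_2⟩ | ⟨etA1ca, itA1ca_0, itA1ca_2⟩ | ⟨etA1ca, itA1ca_0, itA1ca_1⟩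
                              · linarith only [hJ, nc2, BMaAA, etA1ab, etA2ab, etA1ac, etA2ac, na2, hb, na3, BMcAA, etA1ca, etA2ca, etA1cb, etA2cb, hc, nb3, s2, BPb, epb, itA1ab_2, BMaBA, etB1ab, etB2ab, etB3ab, ha]
                              · linarith only [hJ, BMaAA, etA1ab, etA2ab, etA1ac, etA2ac, hb, BPa, epa, BMcAA, etA1ca, etA2ca, etA1cb, etA2cb, s1, BMaBA, etB1ab, etB2ab, etB3ab, hc, nb3, s2, BPb, epb, nc2, na3, ha]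
                              · linarith only [hJ, na2, na3, BMcAA, etA1ca, etA2ca, etA1cb, etA2cb, hb, BMaAA, etA1ab, etA2ab, etA1ac, etA2ac, ha, itA2ca_1, nb3, s2, itA1ab_2, nc2, itA1ca_0, BMaBA, etB1ab, etB2ab, etB3ab]
                            · linarith only [hJ, itA1cb_1, BPc, epc, na3, hb, s1, BMaBA, etB1ab, etB2ab, etB3ab, etA1ac, etA2ac, BPb, epb, nb3, ha, hc, BMaAA, etA1ab, etA2ab, BG, eg, s2]
                          · linarith only [hJ, hb, BG, eg, itA1ac_2, BMaBA, etB1ab, etB2ab, etB3ab, etA1ac, etA2ac, na3, BPb, epb, BPc, epc, nb3, ha, BMaAA, etA1ab, etA2ab, hc, itA2ca_0, s2]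
                        · linarith only [hJ, hb, itA2cb_0, na3, ha, s1, itA1ab_0, BMaAA, etA1ab, etA2ab, etA1ac, etA2ac, nb3, s2, BG, eg, nc2, nc3, BPc, epc]
                      · linarith only [hJ, itB3ab_0, BPc, epc, na2, hc, ha, hb, na3, nb3, s2, BG, eg, nc2, itB2ab_0, BMaBA, etB1ab, etB2ab, etB3ab, etA1ac, etA2ac]
                  · linarith only [hJ, BPb, epb, hb, na2, hc, na3, itA1ab_2, itB1ab_0, nb3, ha, BG, eg, nc3, BMaAA, etA1ab, etA2ab, etA1ac, etA2ac, itA2ac_1]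
                · rcases HtB1ac with ⟨etB1ac, itB1ac_1⟩ | ⟨etB1ac, itB1ac_0⟩
                  · rcases HtB2ac with ⟨etB2ac, itB2ac_1⟩ | ⟨etB2ac, itB2ac_0⟩
                    · rcases HtB3ac with ⟨etB3ac, itB3ac_1⟩ | ⟨etB3ac, itB3ac_0⟩
                      · rcases HtB1ab with ⟨etB1ab, itB1ab_1⟩ | ⟨etB1ab, itB1ab_0⟩
                        · rcases HtB2ab with ⟨etB2ab, itB2ab_1⟩ | ⟨etB2ab, itB2ab_0⟩
                          · rcases HtB3ab with ⟨etB3ab, itB3ab_1⟩ | ⟨etB3ab, itB3ab_0⟩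
                            · linarith only [hJ, BMaBA, etB1ab, etB2ab, etB3ab, etA1ac, etA2ac, BPc, epc, s2, BG, eg, s1, na3, BTa, hb, itA1ab_0, BPb, epb, BMaBB, etB1ac, etB2ac, etB3ac, hc, ha]
                            · rcases HtA2bc with ⟨etA2bc, itA2bc_1⟩ | ⟨etA2bc, itA2bc_0⟩
                              · rcases HtA2ba with ⟨etA2ba, itA2ba_1⟩ | ⟨etA2ba, itA2ba_0⟩
                                · rcases HtA1ba with ⟨etA1ba, itA1ba_1, itA1ba_2⟩ | ⟨etA1ba, itA1ba_0, itA1ba_2⟩ | ⟨etA1ba, itA1ba_0, itA1ba_1⟩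
                                  · linarith only [hJ, BG, eg, BPc, epc, itA1ba_1, ha, BTa, na3, nb1, nb3, s2, BPb, epb, BMaBB, etB1ab, etB2ab, etB3ab, etB1ac, etB2ac, etB3ac, hc, hb]
                                  · rcases HtA1bc with ⟨etA1bc, itA1bc_1, itA1bc_2⟩ | ⟨etA1bc, itA1bc_0, itA1bc_2⟩ | ⟨etA1bc, itA1bc_0, itA1bc_1⟩
                                    · linarith only [hJ, na3, itA1ac_0, hc, itA1bc_1, ha, BMaBA, etB1ab, etB2ab, etB3ab, etA1ac, etA2ac, hb, nb3, s2, nc1, BPc, epc, BTa, BMbAA, etA1ba, etA2ba, etA1bc, etA2bc]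
                                    · linarith only [hJ, BPc, epc, itB3ac_1, na3, BMaBB, etB1ab, etB2ab, etB3ab, etB1ac, etB2ac, etB3ac, s1, nb1, hb, nb3, s2, nc1, BMbAA, etA1ba, etA2ba, etA1bc, etA2bc, hc, ha]
                                    · linarith only [hJ, hb, hc, itA1bc_1, BG, eg, s1, itB3ab_0, na3, nb3, s2, ha, BMbAA, etA1ba, etA2ba, etA1bc, etA2bc, nc1, itA1ac_0]
                                  · linarith only [hJ, itB2ac_1, hc, itA1ba_1, BG, eg, na3, itB3ab_0, hb, nb3, BPb, epb, BMaBB, etB1ab, etB2ab, etB3ab, etB1ac, etB2ac, etB3ac, ha, itA1ac_0, itA1ba_0]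
                                · linarith only [hJ, na3, BG, eg, itB3ac_1, itA2ba_0, BMaBB, etB1ab, etB2ab, etB3ab, etB1ac, etB2ac, etB3ac, nb1, BPb, epb, nb3, s2, ha, BPc, epc, hc, hb]
                              · linarith only [hJ, itA1ab_2, itA2bc_0, s1, nb1, itB3ab_0, nb3, s2, itB2ac_1, BTa]
                          · rcases HtB3ab with ⟨etB3ab, itB3ab_1⟩ | ⟨etB3ab, itB3ab_0⟩
                            · linarith only [hJ, itA1ab_2, BPc, epc, na3, BMaAB, etA1ab, etA2ab, etB1ac, etB2ac, etB3ac, s1, BMaBB, etB1ab, etB2ab, etB3ab, hc, nb3, itB2ac_1, BPb, epb, BMaBA, etA1ac, etA2ac, hb, ha]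
                            · linarith only [hJ, itB3ab_0, BPc, epc, na2, BMaBB, etB1ab, etB2ab, etB3ab, etB1ac, etB2ac, etB3ac, itB2ab_0, itA1ac_2, nb3, na3, itA1ac_0, hc, hb]
                        · linarith only [hJ, itB2ac_1, BMaAB, etA1ab, etA2ab, etB1ac, etB2ac, etB3ac, na2, BG, eg, na3, itA1ab_2, BPb, epb, nb3, itB3ac_1, hb, ha, hc, itB1ab_0]
                      · rcases HtB1ab with ⟨etB1ab, itB1ab_1⟩ | ⟨etB1ab, itB1ab_0⟩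
                        · rcases HtB2ab with ⟨etB2ab, itB2ab_1⟩ | ⟨etB2ab, itB2ab_0⟩
                          · rcases HtB3ab with ⟨etB3ab, itB3ab_1⟩ | ⟨etB3ab, itB3ab_0⟩
                            · rcases HtA2cb with ⟨etA2cb, itA2cb_1⟩ | ⟨etA2cb, itA2cb_0⟩
                              · rcases HtA2ca with ⟨etA2ca, itA2ca_1⟩ | ⟨etA2ca, itA2ca_0⟩
                                · rcases HtA1ca with ⟨etA1ca, itA1ca_1, itA1ca_2⟩ | ⟨etA1ca, itA1ca_0, itA1ca_2⟩ | ⟨etA1ca, itA1ca_0, itA1ca_1⟩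
                                  · rcases HtA1cb with ⟨etA1cb, itA1cb_1, itA1cb_2⟩ | ⟨etA1cb, itA1cb_0, itA1cb_2⟩ | ⟨etA1cb, itA1cb_0, itA1cb_1⟩
                                    · linarith only [hJ, ha, itA1ab_2, na2, itB2ab_1, na3, BMcAA, etA1ca, etA2ca, etA1cb, etA2cb, BMaAB, etA1ab, etA2ab, etB1ac, etB2ac, etB3ac, hb, BPb, epb, nc1, hc, nc3, BMaBB, etB1ab, etB2ab, etB3ab]
                                    · linarith only [hJ, ha, nc1, itB3ab_1, hc, na2, na3, BMaBB, etB1ab, etB2ab, etB3ab, etB1ac, etB2ac, etB3ac, BMcAA, etA1ca, etA2ca, etA1cb, etA2cb, nb3, hb, BG, eg, nc3, BPb, epb]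
                                    · linarith only [hJ, itA1ab_2, BPb, epb, na2, BMcAA, etA1ca, etA2ca, etA1cb, etA2cb, itB3ac_0, hb, ha, nb3, itA1cb_1, hc, BG, eg, nc3, BMaBB, etB1ab, etB2ab, etB3ab, etB1ac, etB2ac, etB3ac]
                                  · rcases HtA1cb with ⟨etA1cb, itA1cb_1, itA1cb_2⟩ | ⟨etA1cb, itA1cb_0, itA1cb_2⟩ | ⟨etA1cb, itA1cb_0, itA1cb_1⟩
                                    · linarith only [hJ, BMaBB, etB1ab, etB2ab, etB3ab, etB1ac, etB2ac, etB3ac, BPb, epb, itA1cb_1, hc, s1, BMaAB, etA1ab, etA2ab, ha, BTa, BMcAA, etA1ca, etA2ca, etA1cb, etA2cb, hb, BG, eg, nc3, na3]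
                                    · linarith only [hJ, hc, itB3ab_1, na3, BMaBB, etB1ab, etB2ab, etB3ab, etB1ac, etB2ac, etB3ac, s1, nb1, BPb, epb, hb, s2, nc1, BMcAA, etA1ca, etA2ca, etA1cb, etA2cb, nc3, ha]
                                    · linarith only [hJ, itB3ac_0, BMaAB, etA1ab, etA2ab, etB1ac, etB2ac, etB3ac, BMcAA, etA1ca, etA2ca, etA1cb, etA2cb, BG, eg, s1, ha, itA1cb_1, hb, itA1ab_2, BPb, epb, itA1ab_0, nc3, na3]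
                                  · linarith only [hJ, itA1ca_1, itB2ab_1, BPc, epc, BG, eg, na3, hb, itA1ca_0, BMaAB, etA1ab, etA2ab, etB1ac, etB2ac, etB3ac, s2, nc1, BMaBB, etB1ab, etB2ab, etB3ab, nc3, ha]
                                · linarith only [hJ, BPb, epb, BG, eg, na2, itA2ca_0, BMaBB, etB1ab, etB2ab, etB3ab, etB1ac, etB2ac, etB3ac, BPc, epc, ha, hb, nb3, nc1, na3, nc3, hc]
                              · linarith only [hJ, itB2ab_1, itA2cb_0, s1, itB1ab_1, itA1ac_2, hb, itB3ab_1, nc1, itB3ac_0, nc3, BTa]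
                            · linarith only [hJ, hc, ha, BMaBB, etB1ab, etB2ab, etB3ab, etB1ac, etB2ac, etB3ac, BG, eg, BPc, epc, na3, nb3, s2, nc1, BPb, epb, nc3, hb]
                          · linarith only [hJ, hc, BPc, epc, na2, itB2ab_0, BMaAB, etA1ab, etA2ab, etB1ac, etB2ac, etB3ac, nb3, na3, nc1, nc3, hb]
                        · linarith only [hJ, hc, na3, na2, BG, eg, ha, itA1ab_2, hb, nb3, BPb, epb, BMaAB, etA1ab, etA2ab, etB1ac, etB2ac, etB3ac, nc0, nc3, itB1ab_0]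
                    · rcases HtB3ac with ⟨etB3ac, itB3ac_1⟩ | ⟨etB3ac, itB3ac_0⟩
                      · rcases HtB1ab with ⟨etB1ab, itB1ab_1⟩ | ⟨etB1ab, itB1ab_0⟩
                        · rcases HtB2ab with ⟨etB2ab, itB2ab_1⟩ | ⟨etB2ab, itB2ab_0⟩
                          · rcases HtB3ab with ⟨etB3ab, itB3ab_1⟩ | ⟨etB3ab, itB3ab_0⟩
                            · linarith only [hJ, hb, BPb, epb, na3, BMaBA, etB1ab, etB2ab, etB3ab, etA1ac, etA2ac, s1, itB2ab_1, itA1ab_2, hc, s2, BMaAB, etA1ab, etA2ab, etB1ac, etB2ac, etB3ac, BMaBB, itA1ac_2, ha]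
                            · linarith only [hJ, hb, BPb, epb, na2, BMaBA, etB1ab, etB2ab, etB3ab, etA1ac, etA2ac, na3, itB3ab_0, BMaBB, etB1ac, etB2ac, etB3ac, nb3, s2, hc, BG, eg, itA1ac_0, ha]
                          · rcases HtB3ab with ⟨etB3ab, itB3ab_1⟩ | ⟨etB3ab, itB3ab_0⟩
                            · linarith only [hJ, BPb, epb, na3, ha, BPc, epc, hc, BMaBA, etB1ab, etB2ab, etB3ab, etA1ac, etA2ac, nb3, s2, BMaAB, etA1ab, etA2ab, etB1ac, etB2ac, etB3ac, hb, BG, eg]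
                            · linarith only [hJ, itB3ab_0, na3, na2, BMaBA, etB1ab, etB2ab, etB3ab, etA1ac, etA2ac, s1, BMaBB, etB1ac, etB2ac, etB3ac, hc, nb3, s2, BPa, epa, BPb, epb, nc3, hb]
                        · linarith only [hJ, nc3, BPb, epb, na2, ha, na3, BPa, epa, itB1ab_0, nb3, hb, BG, eg, BMaAB, etA1ab, etA2ab, etB1ac, etB2ac, etB3ac, hc, BMaAA, etA1ac, etA2ac]
                      · rcases HtB1ab with ⟨etB1ab, itB1ab_1⟩ | ⟨etB1ab, itB1ab_0⟩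
                        · rcases HtB2ab with ⟨etB2ab, itB2ab_1⟩ | ⟨etB2ab, itB2ab_0⟩
                          · rcases HtB3ab with ⟨etB3ab, itB3ab_1⟩ | ⟨etB3ab, itB3ab_0⟩
                            · linarith only [hJ, itA1ab_2, itB2ac_0, na2, hc, na3, itA1ab_0, hb, BPb, epb, itB3ac_0, nc3, BMaBB, etB1ab, etB2ab, etB3ab, etB1ac, etB2ac, etB3ac]
                            · linarith only [hJ, hb, BPb, epb, na2, BG, eg, nb1, itB3ac_0, itB2ac_0, nb3, s2, hc, BMaBB, etB1ab, etB2ab, etB3ab, etB1ac, etB2ac, etB3ac, nc3, na3]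
                          · linarith only [hJ, itB2ab_0, BPb, epb, na2, hc, itB3ac_0, BG, eg, BPa, epa, nb3, s2, BMaAB, etA1ab, etA2ab, etB1ac, etB2ac, etB3ac, na3, nc3, hb]
                        · linarith only [hJ, nc0, BPb, epb, na2, BMaAB, etA1ab, etA2ab, etB1ac, etB2ac, etB3ac, ha, BPa, epa, hb, nb3, na3, BG, eg, itB1ab_0, nc3, hc]
                  · linarith only [hJ, itB1ac_0, na2, na3, itA1ab_0, itA2ab_1, hb, nb3, s2, itA1ab_2, BG, eg, BPc, epc]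
                · linarith only [hJ, hb, BMaAA, etA1ab, etA2ab, etA1ac, etA2ac, ha, na3, BPc, epc, BG, eg, nb3, s2, BPb, epb, itA1ac_1, hc]
              · rcases HtB1ac with ⟨etB1ac, itB1ac_1⟩ | ⟨etB1ac, itB1ac_0⟩
                · rcases HtB2ac with ⟨etB2ac, itB2ac_1⟩ | ⟨etB2ac, itB2ac_0⟩
                  · rcases HtB3ac with ⟨etB3ac, itB3ac_1⟩ | ⟨etB3ac, itB3ac_0⟩
                    · linarith only [hJ, ha, na3, itA1ab_1, BG, eg, s1, BPc, epc, BPb, epb, nb3, hb, BMaAB, etA1ab, etA2ab, etB1ac, etB2ac, etB3ac, nc3, hc, itB2ac_1]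
                    · rcases HtA2cb with ⟨etA2cb, itA2cb_1⟩ | ⟨etA2cb, itA2cb_0⟩
                      · rcases HtA1ca with ⟨etA1ca, itA1ca_1, itA1ca_2⟩ | ⟨etA1ca, itA1ca_0, itA1ca_2⟩ | ⟨etA1ca, itA1ca_0, itA1ca_1⟩
                        · rcases HtA2ca with ⟨etA2ca, itA2ca_1⟩ | ⟨etA2ca, itA2ca_0⟩
                          · rcases HtA1cb with ⟨etA1cb, itA1cb_1, itA1cb_2⟩ | ⟨etA1cb, itA1cb_0, itA1cb_2⟩ | ⟨etA1cb, itA1cb_0, itA1cb_1⟩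
                            · rcases HtB1bc with ⟨etB1bc, itB1bc_1⟩ | ⟨etB1bc, itB1bc_0⟩
                              · rcases HtB2bc with ⟨etB2bc, itB2bc_1⟩ | ⟨etB2bc, itB2bc_0⟩
                                · rcases HtB3bc with ⟨etB3bc, itB3bc_1⟩ | ⟨etB3bc, itB3bc_0⟩
                                  · linarith only [hJ, hc, itB3ac_0, na2, BMcAA, etA1ca, etA2ca, etA1cb, etA2cb, s1, nb3, na3, hb, itA1cb_2, BPb, epb, BG, eg, BMaAB, etA1ab, etA2ab, etB1ac, etB2ac, etB3ac, itB3bc_1]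
                                  · rcases HtA2ba with ⟨etA2ba, itA2ba_1⟩ | ⟨etA2ba, itA2ba_0⟩
                                    · rcases HtA1ba with ⟨etA1ba, itA1ba_1, itA1ba_2⟩ | ⟨etA1ba, itA1ba_0, itA1ba_2⟩ | ⟨etA1ba, itA1ba_0, itA1ba_1⟩
                                      · linarith only [hJ, na3, BMbAB, etA1ba, etA2ba, etB1bc, etB2bc, etB3bc, na2, nb3, s1, BMaAB, etA1ab, etA2ab, etB1ac, etB2ac, etB3ac, itA1ab_0, BG, eg, ha, nc1, hb, nc3, hc]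
                                      · linarith only [hJ, BMcAA, etA1ca, etA2ca, etA1cb, etA2cb, BMbAB, etA1ba, etA2ba, etB1bc, etB2bc, etB3bc, hb, itA1ca_1, s1, BMaAB, etA1ab, etA2ab, etB1ac, etB2ac, etB3ac, itA1ba_2, na3, ha, nc1, itA1cb_1, nc3, hc]
                                      · linarith only [hJ, nc0, BMbAB, etA1ba, etA2ba, etB1bc, etB2bc, etB3bc, hc, na3, ha, BMaAB, etA1ab, etA2ab, etB1ac, etB2ac, etB3ac, nb3, na2, hb, nc1, BG, eg, nc3, nb2]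
                                    · rcases HtA1ba with ⟨etA1ba, itA1ba_1, itA1ba_2⟩ | ⟨etA1ba, itA1ba_0, itA1ba_2⟩ | ⟨etA1ba, itA1ba_0, itA1ba_1⟩
                                      · linarith only [hJ, nb2, na3, na2, hc, itA1ab_0, BMcAA, etA1ca, etA2ca, etA1cb, etA2cb, nb3, itA2ab_1, ha, nc1, hb, nc3, BMbAB, etA1ba, etA2ba, etB1bc, etB2bc, etB3bc]
                                      · linarith only [hJ, BMbAB, etA1ba, etA2ba, etB1bc, etB2bc, etB3bc, BG, eg, na3, itA1ba_2, s1, itA1ab_0, BPb, epb, nb3, ha, nc1, hc, nc3, nc0]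
                                      · linarith only [hJ, nb3, hc, na2, BG, eg, na3, BMaAB, etA1ab, etA2ab, etB1ac, etB2ac, etB3ac, nb2, hb, ha, nc1, nc0, nc3, BMbAB, etA1ba, etA2ba, etB1bc, etB2bc, etB3bc]
                                · linarith only [hJ, hc, hb, na2, itA1cb_2, s1, na3, BMaAB, etA1ab, etA2ab, etB1ac, etB2ac, etB3ac, itB2bc_0, ha, nb3, BG, eg, nc3, BPb, epb]
                              · linarith only [hJ, ha, itB1bc_0, na2, BPb, epb, na3, BMcAA, etA1ca, etA2ca, etA1cb, etA2cb, itA1cb_2, nb3, nb2, itB3ac_0, BG, eg, nc3, hc]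
                            · rcases HtB1ab with ⟨etB1ab, itB1ab_1⟩ | ⟨etB1ab, itB1ab_0⟩
                              · rcases HtB3ab with ⟨etB3ab, itB3ab_1⟩ | ⟨etB3ab, itB3ab_0⟩
                                · rcases HtB2ab with ⟨etB2ab, itB2ab_1⟩ | ⟨etB2ab, itB2ab_0⟩
                                  · linarith only [hJ, BMcAA, etA1ca, etA2ca, etA1cb, etA2cb, BPb, epb, na2, hb, na3, BMaBB, etB1ab, etB2ab, etB3ab, etB1ac, etB2ac, etB3ac, itA1ab_1, nb3, hc, nc1, ha, nc3, BG, eg]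
                                  · linarith only [hJ, hb, itB2ab_0, na2, itA1cb_0, ha, BMcAA, etA1ca, etA2ca, etA1cb, etA2cb, hc, nb3, BMaBB, etB1ab, etB2ab, etB3ab, etB1ac, etB2ac, etB3ac, BPb, epb, na3, nc3, itA1ab_1]
                                · linarith only [hJ, itB3ab_0, BPb, epb, na2, BG, eg, na3, hb, nc0, nb3, hc, BMaAB, etA1ab, etA2ab, etB1ac, etB2ac, etB3ac, itA1ab_1, nc3, ha]
                              · linarith only [hJ, itA1cb_0, BPb, epb, na2, BG, eg, na3, itB1ab_0, hc, nb3, hb, BMaAB, etA1ab, etA2ab, etB1ac, etB2ac, etB3ac, nc0, nc3, ha]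
                            · linarith only [hJ, BG, eg, BPb, epb, na3, BMcAA, etA1ca, etA2ca, etA1cb, etA2cb, s1, hb, hc, nb3, ha, BMaAB, etA1ab, etA2ab, etB1ac, etB2ac, etB3ac, na2, nc3, itA1cb_0]
                          · linarith only [hJ, itA2ca_0, ha, na2, na3, hb, hc, itA1ab_1, nb3, BPb, epb, itB3ac_0, BG, eg, nc3, BPc, epc]
                        · linarith only [hJ, BG, eg, BPb, epb, itA1ab_1, nc1, na3, BMaAB, etA1ab, etA2ab, etB1ac, etB2ac, etB3ac, s1, BTa, ha, hb, itA1ca_0, nc3, hc]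
                        · linarith only [hJ, hc, itA1ca_0, na3, itB3ac_0, s1, BMaAB, etA1ab, etA2ab, etB1ac, etB2ac, etB3ac, ha, nb3, itA2ab_1, itB2ac_1, BG, eg, nc3, hb]
                      · linarith only [hJ, itA1ab_0, na3, na2, BMaAB, etA1ab, etA2ab, etB1ac, etB2ac, etB3ac, s1, itA2ab_1, ha, nb3, BG, eg, itB3ac_0, itA2cb_0, nc3, hb]
                  · rcases HtB3ac with ⟨etB3ac, itB3ac_1⟩ | ⟨etB3ac, itB3ac_0⟩
                    · rcases HtA1ac with ⟨etA1ac, itA1ac_1, itA1ac_2⟩ | ⟨etA1ac, itA1ac_0, itA1ac_2⟩ | ⟨etA1ac, itA1ac_0, itA1ac_1⟩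
                      · linarith only [hJ, itA1ab_0, hb, na3, BPb, epb, itA1ac_2, BMaAA, etA1ab, etA2ab, etA1ac, etA2ac, hc, BG, eg, nb3, ha]
                      · rcases HtA2bc with ⟨etA2bc, itA2bc_1⟩ | ⟨etA2bc, itA2bc_0⟩
                        · rcases HtA1ba with ⟨etA1ba, itA1ba_1, itA1ba_2⟩ | ⟨etA1ba, itA1ba_0, itA1ba_2⟩ | ⟨etA1ba, itA1ba_0, itA1ba_1⟩
                          · rcases HtA1bc with ⟨etA1bc, itA1bc_1, itA1bc_2⟩ | ⟨etA1bc, itA1bc_0, itA1bc_2⟩ | ⟨etA1bc, itA1bc_0, itA1bc_1⟩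
                            · linarith only [hJ, hc, BPb, epb, na2, na3, itA1ab_1, itA1ac_0, nb3, itA1bc_1, hb, BPc, epc, BG, eg, BMaAA, etA1ab, etA2ab, etA1ac, etA2ac, itA1ac_2]
                            · rcases HtA2ba with ⟨etA2ba, itA2ba_1⟩ | ⟨etA2ba, itA2ba_0⟩
                              · linarith only [hJ, BMaAB, etA1ab, etA2ab, etB1ac, etB2ac, etB3ac, ha, na2, itA2ba_1, s1, itA1ac_2, na3, hc, hb, nb3, itA1ba_2, nc3, BMbAA, etA1ba, etA2ba, etA1bc, etA2bc]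
                              · linarith only [hJ, BMbAA, etA1ba, etA2ba, etA1bc, etA2bc, BG, eg, nb3, s1, na2, ha, BMaAB, etA1ab, etA2ab, etB1ac, etB2ac, etB3ac, BPc, epc, na3, hc, nc3, itB2ac_0]
                            · rcases HtA2ba with ⟨etA2ba, itA2ba_1⟩ | ⟨etA2ba, itA2ba_0⟩
                              · linarith only [hJ, hb, hc, na2, na3, itA1bc_1, itA1ab_0, BPc, epc, itA1ac_2, nb3, BMbAA, etA1ba, etA2ba, etA1bc, etA2bc, BG, eg, nc3, ha]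
                              · linarith only [hJ, hb, BG, eg, na2, nb2, s1, BMbAA, etA1ba, etA2ba, etA1bc, etA2bc, itA1ac_2, nb3, ha, na3, hc, nc3, BPc, epc]
                          · linarith only [hJ, hb, nc3, na3, BMaAA, etA1ab, etA2ab, etA1ac, etA2ac, s1, itA1ba_0, ha, hc, itA1ba_2, itA1ab_1, BG, eg, BPb, epb, BMaAB, etB1ac, etB2ac, etB3ac]
                          · rcases HtA1bc with ⟨etA1bc, itA1bc_1, itA1bc_2⟩ | ⟨etA1bc, itA1bc_0, itA1bc_2⟩ | ⟨etA1bc, itA1bc_0, itA1bc_1⟩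
                            · linarith only [hJ, hc, itA1ba_0, na2, ha, nc3, itA1ac_0, nb3, BG, eg, BPb, epb, hb, na3, BMaAA, etA1ab, etA2ab, etA1ac, etA2ac, itA1bc_1]
                            · rcases HtA2ba with ⟨etA2ba, itA2ba_1⟩ | ⟨etA2ba, itA2ba_0⟩
                              · linarith only [hJ, BMaAB, etA1ab, etA2ab, etB1ac, etB2ac, etB3ac, nb3, ha, BMbAA, etA1ba, etA2ba, etA1bc, etA2bc, s1, hb, na3, BG, eg, BPb, epb, hc, BPa, epa, itA2ba_1, nc3]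
                              · linarith only [hJ, BMaAA, etA1ab, etA2ab, etA1ac, etA2ac, BG, eg, na2, na3, BPb, epb, BMbAA, etA1ba, etA2ba, etA1bc, etA2bc, BMaAB, etB1ac, etB2ac, etB3ac, nb2, hb, hc, nb3, nc3, ha]
                            · linarith only [hJ, BPb, epb, itA1ba_0, nc3, nb3, s1, na2, na3, BG, eg, BMaAA, etA1ab, etA2ab, etA1ac, etA2ac, hc, hb, ha, itA1bc_1]
                        · linarith only [hJ, BPa, epa, BPb, epb, na3, s1, nb2, ha, nb3, itA1ac_0, BG, eg, hc, nc3, itA2bc_0]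
                      · linarith only [hJ, BPb, epb, hb, na3, ha, BMaAA, etA1ab, etA2ab, etA1ac, etA2ac, hc, nb3, BG, eg, nc3, BPc, epc]
                    · linarith only [hJ, itB3ac_0, BPb, epb, na2, hc, s1, hb, ha, nb3, BPa, epa, na3, BG, eg, nc3, BMaAB, etA1ab, etA2ab, etB1ac, etB2ac, etB3ac]
                · linarith only [hJ, BG, eg, itB1ac_0, na2, na3, s1, hb, nb2, nb3, s2, BPc, epc, hc, nc3, BPa, epa]
            · linarith only [hJ, BG, eg, BPa, epa, na2, na3, s1, itA2ac_0, hb, nb3, s2, BPb, epb, hc, nc3, ha]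
          · rcases HtB1ac with ⟨etB1ac, itB1ac_1⟩ | ⟨etB1ac, itB1ac_0⟩
            · rcases HtB2ac with ⟨etB2ac, itB2ac_1⟩ | ⟨etB2ac, itB2ac_0⟩
              · rcases HtB3ac with ⟨etB3ac, itB3ac_1⟩ | ⟨etB3ac, itB3ac_0⟩
                · rcases HtA1ab with ⟨etA1ab, itA1ab_1, itA1ab_2⟩ | ⟨etA1ab, itA1ab_0, itA1ab_2⟩ | ⟨etA1ab, itA1ab_0, itA1ab_1⟩
                  · linarith only [hJ, hb, itB2ac_1, na2, na3, s1, BPa, epa, nb2, nc2, BG, eg, ha, BMaAB, etA1ab, etA2ab, etB1ac, etB2ac, etB3ac, hc, BPc, epc]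
                  · linarith only [hJ, itA2ab_0, na2, nc2, BMaAB, etA1ab, etA2ab, etB1ac, etB2ac, etB3ac, hb, nb3, na3, itB1ac_1, hc, BPc, epc]
                  · linarith only [hJ, itB2ac_1, na3, na2, hc, s1, BMaAB, etA1ab, etA2ab, etB1ac, etB2ac, etB3ac, nb2, nb3, hb, itA1ab_0, BG, eg, ha, nc2]
                · rcases HtA1ab with ⟨etA1ab, itA1ab_1, itA1ab_2⟩ | ⟨etA1ab, itA1ab_0, itA1ab_2⟩ | ⟨etA1ab, itA1ab_0, itA1ab_1⟩
                  · linarith only [hJ, nc1, BPc, epc, na2, na3, BG, eg, s1, nb2, nb3, hb, BMaAB, etA1ab, etA2ab, etB1ac, etB2ac, etB3ac, ha, nc3, hc]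
                  · linarith only [hJ, hb, BPc, epc, na2, BG, eg, s1, BMaAB, etA1ab, etA2ab, etB1ac, etB2ac, etB3ac, itA2ab_0, nb3, na3, BPa, epa, nc1, nc3, hc]
                  · linarith only [hJ, nc0, na3, na2, hc, s1, BMaAB, etA1ab, etA2ab, etB1ac, etB2ac, etB3ac, nb2, nb3, hb, nc1, BG, eg, nc3, ha]
              · rcases HtA1ab with ⟨etA1ab, itA1ab_1, itA1ab_2⟩ | ⟨etA1ab, itA1ab_0, itA1ab_2⟩ | ⟨etA1ab, itA1ab_0, itA1ab_1⟩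
                · rcases HtB3ac with ⟨etB3ac, itB3ac_1⟩ | ⟨etB3ac, itB3ac_0⟩
                  · rcases HtA2ac with ⟨etA2ac, itA2ac_1⟩ | ⟨etA2ac, itA2ac_0⟩
                    · rcases HtA1ac with ⟨etA1ac, itA1ac_1, itA1ac_2⟩ | ⟨etA1ac, itA1ac_0, itA1ac_2⟩ | ⟨etA1ac, itA1ac_0, itA1ac_1⟩
                      · linarith only [hJ, BMaAA, etA1ab, etA2ab, etA1ac, etA2ac, itA1ac_2, na2, itA2ab_0, s1, BPa, epa, hb, nb2, na3, BG, eg, hc, BPc, epc, ha]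
                      · linarith only [hJ, BMaAA, etA1ab, etA2ab, etA1ac, etA2ac, na3, na2, ha, s1, hc, nb2, nb3, hb, BPc, epc, BPa, epa, nc3, BMaAB, etB1ac, etB2ac, etB3ac]
                      · linarith only [hJ, hc, BPc, epc, na2, BMaAA, etA1ab, etA2ab, etA1ac, etA2ac, s1, na3, hb, nb3, s2, BG, eg, ha, nc3, BPa, epa]
                    · linarith only [hJ, BPa, epa, na3, na2, itA2ab_0, s1, itA2ac_0, hb, nb3, s2, BG, eg, hc, nc3, ha]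
                  · linarith only [hJ, BPa, epa, na3, na2, hc, s1, BMaAB, etA1ab, etA2ab, etB1ac, etB2ac, etB3ac, nb2, nb3, hb, itB1ac_1, BPc, epc, nc3, itB3ac_0]
                · linarith only [hJ, itA1ab_0, itA2ab_0, na2, BG, eg, na3, BPc, epc, hb, nb3, itB2ac_0, BPa, epa, itA1ab_2, nc3, hc]
                · rcases HtB3ac with ⟨etB3ac, itB3ac_1⟩ | ⟨etB3ac, itB3ac_0⟩
                  · rcases HtA2ac with ⟨etA2ac, itA2ac_1⟩ | ⟨etA2ac, itA2ac_0⟩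
                    · rcases HtA1ac with ⟨etA1ac, itA1ac_1, itA1ac_2⟩ | ⟨etA1ac, itA1ac_0, itA1ac_2⟩ | ⟨etA1ac, itA1ac_0, itA1ac_1⟩
                      · linarith only [hJ, BMaAA, etA1ab, etA2ab, etA1ac, etA2ac, na2, ha, s1, na3, nb2, nb3, hb, BG, eg, nc2, nc3, hc]
                      · linarith only [hJ, hb, na3, na2, s1, nc3, ha, nb3, BMaAA, etA1ab, etA2ab, etA1ac, etA2ac, BG, eg, BMaAB, etB1ac, etB2ac, etB3ac, BPa, epa, hc]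
                      · linarith only [hJ, ha, itA1ab_0, na2, hc, s1, nb2, nc2, nb3, hb, BG, eg, na3, nc3, BMaAA, etA1ab, etA2ab, etA1ac, etA2ac]
                    · linarith only [hJ, itA2ac_0, na3, na2, itA2ab_0, s1, hc, ha, nb3, s2, BG, eg, hb, nc3, BPa, epa]
                  · linarith only [hJ, BMaAB, etA1ab, etA2ab, etB1ac, etB2ac, etB3ac, na3, na2, itA2ab_0, s1, hb, itB3ac_0, nb3, nb2, hc, BG, eg, nc3, BPa, epa]
            · linarith only [hJ, BG, eg, itB1ac_0, na2, na3, s1, BPc, epc, hb, nb3, s2, BPa, epa, nb2, nc3, hc]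
        · linarith only [hJ, hb, ha, na2, na3, nb3, nb2, ig_1, hc, nc2, nc3, BPc, epc]
      · linarith only [hJ, ig_1, ha, na2, na3, nb2, nb3, nc2, hb, hc, nc3, BPb, epb]
    · linarith only [hJ, ha, na2, na3, ig_1, BPa, epa, nb2, hc, nc2, nc3, hb, nb3]
  · linarith only [hJ, BG, eg, hL]

end AbcTR
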