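import Pool.Agent.Work.MP_a793bb_nt.TR.BoundM
import Pool.Agent.Work.MP_a793bb_nt.TR.LPTree

set_option autoImplicit false

namespace AbcTR

open Finset

noncomputable def A1 (v t0 t2 : ℝ) : ℝ :=
  max (max (1 / 2 * t0 + 1 / 2 * t2) (1 / 2 * t0 + 3 / 2 * t2 - v / 8)) (t0 + t2 - v / 4)
noncomputable def A2 (v t1 : ℝ) : ℝ := max (1 / 2 * t1) (t1 - v / 4)
noncomputable def B1 (v t0 : ℝ) : ℝ := max (1 / 2 * t0) (t0 - v / 4)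
noncomputable def B2 (v t1 : ℝ) : ℝ := max (1 / 2 * t1) (t1 - v / 8)

lemma mA_eq (v t0 t1 t2 : ℝ) : mA v t0 t1 t2 = A1 v t0 t2 + A2 v t1 := rfl
lemma mB_eq (v t0 t1 t2 : ℝ) : mB v t0 t1 t2 = B1 v t0 + B2 v t1 + B2 v t2 := rfl

lemma H3 (t x y z x' y' z' : ℝ) (ht : t = max (max x y) z) (hx : x' = x) (hy : y' = y)
    (hz : z' = z) : (t = x' ∧ y' ≤ x' ∧ z' ≤ x') ∨ (t = y' ∧ x' ≤ y' ∧ z' ≤ y') ∨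
      (t = z' ∧ x' ≤ z' ∧ y' ≤ z') := by
  subst hx hy hz ht
  rcases le_total (max x' y') z' with h | h
  · right; right
    rw [max_eq_right h]
    exact ⟨rfl, (le_max_left _ _).trans h, (le_max_right _ _).trans h⟩
  · rw [max_eq_left h]
    rcases le_total x' y' with h2 | h2
    · right; left
      rw [max_eq_right h2] at h ⊢
      exact ⟨rfl, h2, h⟩
    · left
      rw [max_eq_left h2] at h ⊢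
      exact ⟨rfl, h2, h⟩

lemma H2 (t x y x' y' : ℝ) (ht : t = max x y) (hx : x' = x) (hy : y' = y) :
    (t = x' ∧ y' ≤ x') ∨ (t = y' ∧ x' ≤ y') := by
  subst hx hy ht
  rcases le_total x' y' with h2 | h2
  · right; rw [max_eq_right h2]; exact ⟨rfl, h2⟩
  · left; rw [max_eq_left h2]; exact ⟨rfl, h2⟩

/-- the linear program for one ordered box. -/
lemma lp_box (a0 a1 a2 a3 b0 b1 b2 b3 c0 c1 c2 c3 J N : ℝ)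
    (na0 : 0 ≤ a0) (na1 : 0 ≤ a1) (na2 : 0 ≤ a2) (na3 : 0 ≤ a3)
    (nb0 : 0 ≤ b0) (nb1 : 0 ≤ b1) (nb2 : 0 ≤ b2) (nb3 : 0 ≤ b3)
    (nc0 : 0 ≤ c0) (nc1 : 0 ≤ c1) (nc2 : 0 ≤ c2) (nc3 : 0 ≤ c3)
    (hN : 0 ≤ N) (hJ : 0 ≤ J)
    (ha : a0 + 2*a1 + 3*a2 + 4*a3 ≤ J)
    (hb : b0 + 2*b1 + 3*b2 + 4*b3 ≤ J)
    (hc : c0 + 2*c1 + 3*c2 + 4*c3 ≤ J)
    (hL : a0 + a1 + a2 + a3 + b0 + b1 + b2 + b3 + c0 + c1 + c2 + c3 ≤ 2*J)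
    (s1 : b0 + b1 + b2 + b3 ≤ a0 + a1 + a2 + a3)
    (s2 : c0 + c1 + c2 + c3 ≤ b0 + b1 + b2 + b3)
    (BTa : N ≤ b0 + b1 + b2 + b3 + c0 + c1 + c2 + c3)
    (BG : N ≤ a1 + a2 + a3 + b1 + b2 + b3 + c1 + c2 + c3 + max 0 (a0 + b0 + c0 - J))
    (BPa : N ≤ a1 + a2 + a3 + b0 + b2 + b3 + c0 + c2 + c3 + max 0 (a0 + b1 + c1 - J))
    (BPb : N ≤ a0 + a2 + a3 + b1 + b2 + b3 + c0 + c2 + c3 + max 0 (a1 + b0 + c1 - J))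
    (BPc : N ≤ a0 + a2 + a3 + b0 + b2 + b3 + c1 + c2 + c3 + max 0 (a1 + b1 + c0 - J))
    (BMa : N ≤ a1 + a2 + a3 + b3 + c3 +
      (min (mA (2*a1+3*a2+4*a3) b0 b1 b2) (mB (2*a1+3*a2+4*a3) b0 b1 b2) +
       min (mA (2*a1+3*a2+4*a3) c0 c1 c2) (mB (2*a1+3*a2+4*a3) c0 c1 c2)))
    (BMb : N ≤ b1 + b2 + b3 + a3 + c3 +
      (min (mA (2*b1+3*b2+4*b3) a0 a1 a2) (mB (2*b1+3*b2+4*b3) a0 a1 a2) +
       min (mA (2*b1+3*b2+4*b3) c0 c1 c2) (mB (2*b1+3*b2+4*b3) c0 c1 c2)))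
    (BMc : N ≤ c1 + c2 + c3 + a3 + b3 +
      (min (mA (2*c1+3*c2+4*c3) a0 a1 a2) (mB (2*c1+3*c2+4*c3) a0 a1 a2) +
       min (mA (2*c1+3*c2+4*c3) b0 b1 b2) (mB (2*c1+3*c2+4*c3) b0 b1 b2)))
    : 7*N ≤ 5*J + (a0 + a1 + a2 + a3 + b0 + b1 + b2 + b3 + c0 + c1 + c2 + c3) := by
  refine lp_sym a0 a1 a2 a3 b0 b1 b2 b3 c0 c1 c2 c3 J N
    (max 0 (a0 + b0 + c0 - J)) (max 0 (a0 + b1 + c1 - J)) (max 0 (a1 + b0 + c1 - J))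
    (max 0 (a1 + b1 + c0 - J))
    (A1 (2*a1+3*a2+4*a3) b0 b2) (A2 (2*a1+3*a2+4*a3) b1)
    (A1 (2*a1+3*a2+4*a3) c0 c2) (A2 (2*a1+3*a2+4*a3) c1)
    (B1 (2*a1+3*a2+4*a3) c0) (B2 (2*a1+3*a2+4*a3) c1) (B2 (2*a1+3*a2+4*a3) c2)
    (B1 (2*a1+3*a2+4*a3) b0) (B2 (2*a1+3*a2+4*a3) b1) (B2 (2*a1+3*a2+4*a3) b2)
    (A1 (2*b1+3*b2+4*b3) a0 a2) (A2 (2*b1+3*b2+4*b3) a1)
    (A1 (2*b1+3*b2+4*b3) c0 c2) (A2 (2*b1+3*b2+4*b3) c1)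
    (B1 (2*b1+3*b2+4*b3) c0) (B2 (2*b1+3*b2+4*b3) c1) (B2 (2*b1+3*b2+4*b3) c2)
    (B1 (2*b1+3*b2+4*b3) a0) (B2 (2*b1+3*b2+4*b3) a1) (B2 (2*b1+3*b2+4*b3) a2)
    (A1 (2*c1+3*c2+4*c3) a0 a2) (A2 (2*c1+3*c2+4*c3) a1)
    (A1 (2*c1+3*c2+4*c3) b0 b2) (A2 (2*c1+3*c2+4*c3) b1)
    na0 na1 na2 na3 nb0 nb1 nb2 nb3 nc0 nc1 nc2 nc3 hN hJ ha hb hc hL s1 s2
    (H2 _ _ _ _ _ rfl rfl rfl) (H2 _ _ _ _ _ rfl rfl rfl) (H2 _ _ _ _ _ rfl rfl rfl)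
    (H2 _ _ _ _ _ rfl rfl rfl)
    (H3 _ _ _ _ _ _ _ rfl (by ring) (by ring) (by ring)) (H2 _ _ _ _ _ rfl (by ring) (by ring))
    (H3 _ _ _ _ _ _ _ rfl (by ring) (by ring) (by ring)) (H2 _ _ _ _ _ rfl (by ring) (by ring))
    (H2 _ _ _ _ _ rfl (by ring) (by ring)) (H2 _ _ _ _ _ rfl (by ring) (by ring))
    (H2 _ _ _ _ _ rfl (by ring) (by ring)) (H2 _ _ _ _ _ rfl (by ring) (by ring))
    (H2 _ _ _ _ _ rfl (by ring) (by ring)) (H2 _ _ _ _ _ rfl (by ring) (by ring))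
    (H3 _ _ _ _ _ _ _ rfl (by ring) (by ring) (by ring)) (H2 _ _ _ _ _ rfl (by ring) (by ring))
    (H3 _ _ _ _ _ _ _ rfl (by ring) (by ring) (by ring)) (H2 _ _ _ _ _ rfl (by ring) (by ring))
    (H2 _ _ _ _ _ rfl (by ring) (by ring)) (H2 _ _ _ _ _ rfl (by ring) (by ring))
    (H2 _ _ _ _ _ rfl (by ring) (by ring)) (H2 _ _ _ _ _ rfl (by ring) (by ring))
    (H2 _ _ _ _ _ rfl (by ring) (by ring)) (H2 _ _ _ _ _ rfl (by ring) (by ring))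
    (H3 _ _ _ _ _ _ _ rfl (by ring) (by ring) (by ring)) (H2 _ _ _ _ _ rfl (by ring) (by ring))
    (H3 _ _ _ _ _ _ _ rfl (by ring) (by ring) (by ring)) (H2 _ _ _ _ _ rfl (by ring) (by ring))
    BTa BG BPa BPb BPc ?_ ?_ ?_ ?_ ?_ ?_ ?_ ?_
  · have h1 := min_le_left (mA (2*a1+3*a2+4*a3) b0 b1 b2) (mB (2*a1+3*a2+4*a3) b0 b1 b2)
    have h2 := min_le_left (mA (2*a1+3*a2+4*a3) c0 c1 c2) (mB (2*a1+3*a2+4*a3) c0 c1 c2)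
    have e1 := mA_eq (2*a1+3*a2+4*a3) b0 b1 b2
    have e2 := mA_eq (2*a1+3*a2+4*a3) c0 c1 c2
    linarith
  · have h1 := min_le_left (mA (2*a1+3*a2+4*a3) b0 b1 b2) (mB (2*a1+3*a2+4*a3) b0 b1 b2)
    have h2 := min_le_right (mA (2*a1+3*a2+4*a3) c0 c1 c2) (mB (2*a1+3*a2+4*a3) c0 c1 c2)
    have e1 := mA_eq (2*a1+3*a2+4*a3) b0 b1 b2
    have e2 := mB_eq (2*a1+3*a2+4*a3) c0 c1 c2
    linarith
  · have h1 := min_le_right (mA (2*a1+3*a2+4*a3) b0 b1 b2) (mB (2*a1+3*a2+4*a3) b0 b1 b2)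
    have h2 := min_le_left (mA (2*a1+3*a2+4*a3) c0 c1 c2) (mB (2*a1+3*a2+4*a3) c0 c1 c2)
    have e1 := mB_eq (2*a1+3*a2+4*a3) b0 b1 b2
    have e2 := mA_eq (2*a1+3*a2+4*a3) c0 c1 c2
    linarith
  · have h1 := min_le_right (mA (2*a1+3*a2+4*a3) b0 b1 b2) (mB (2*a1+3*a2+4*a3) b0 b1 b2)
    have h2 := min_le_right (mA (2*a1+3*a2+4*a3) c0 c1 c2) (mB (2*a1+3*a2+4*a3) c0 c1 c2)
    have e1 := mB_eq (2*a1+3*a2+4*a3) b0 b1 b2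
    have e2 := mB_eq (2*a1+3*a2+4*a3) c0 c1 c2
    linarith
  · have h1 := min_le_left (mA (2*b1+3*b2+4*b3) a0 a1 a2) (mB (2*b1+3*b2+4*b3) a0 a1 a2)
    have h2 := min_le_left (mA (2*b1+3*b2+4*b3) c0 c1 c2) (mB (2*b1+3*b2+4*b3) c0 c1 c2)
    have e1 := mA_eq (2*b1+3*b2+4*b3) a0 a1 a2
    have e2 := mA_eq (2*b1+3*b2+4*b3) c0 c1 c2
    linarith
  · have h1 := min_le_left (mA (2*b1+3*b2+4*b3) a0 a1 a2) (mB (2*b1+3*b2+4*b3) a0 a1 a2)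
    have h2 := min_le_right (mA (2*b1+3*b2+4*b3) c0 c1 c2) (mB (2*b1+3*b2+4*b3) c0 c1 c2)
    have e1 := mA_eq (2*b1+3*b2+4*b3) a0 a1 a2
    have e2 := mB_eq (2*b1+3*b2+4*b3) c0 c1 c2
    linarith
  · have h1 := min_le_right (mA (2*b1+3*b2+4*b3) a0 a1 a2) (mB (2*b1+3*b2+4*b3) a0 a1 a2)
    have h2 := min_le_left (mA (2*b1+3*b2+4*b3) c0 c1 c2) (mB (2*b1+3*b2+4*b3) c0 c1 c2)
    have e1 := mB_eq (2*b1+3*b2+4*b3) a0 a1 a2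
    have e2 := mA_eq (2*b1+3*b2+4*b3) c0 c1 c2
    linarith
  · have h1 := min_le_left (mA (2*c1+3*c2+4*c3) a0 a1 a2) (mB (2*c1+3*c2+4*c3) a0 a1 a2)
    have h2 := min_le_left (mA (2*c1+3*c2+4*c3) b0 b1 b2) (mB (2*c1+3*c2+4*c3) b0 b1 b2)
    have e1 := mA_eq (2*c1+3*c2+4*c3) a0 a1 a2
    have e2 := mA_eq (2*c1+3*c2+4*c3) b0 b1 b2
    linarith

end AbcTR
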