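import Mathlib

set_option autoImplicit false

/-! Definitions for the almost-all abc theorem (exponent 2) over `ℚ`. -/

namespace AbcTR

/-- the radical of `n`: the product of the primes dividing `n`. -/
def rad (n : ℕ) : ℕ := ∏ p ∈ n.primeFactors, p

/-- `a + b = c` in some order. -/
def Rel (a b c : ℕ) : Prop := a + b = c ∨ b + c = a ∨ c + a = b

instance (a b c : ℕ) : Decidable (Rel a b c) := by unfold Rel; infer_instance

/-- the positive integers up to `Y` prime to `q`. -/
def cop (q Y : ℕ) : Finset ℕ := (Finset.Icc 1 Y).filter (fun x => Nat.Coprime x q)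

/-- the class of `x` in `(ZMod q)ˣ` (`1` if `x` is not prime to `q`). -/
noncomputable def un (q x : ℕ) : (ZMod q)ˣ :=
  if h : Nat.Coprime x q then ZMod.unitOfCoprime x h else 1

open Classical in
/-- energy: the number of coincidences of `φ` on `s`. -/
noncomputable def En {α G : Type*} (s : Finset α) (φ : α → G) : ℕ :=
  ((s ×ˢ s).filter (fun p => φ p.1 = φ p.2)).card

/-- quotient map on pairs. -/
def dv {α G : Type*} [Group G] (φ : α → G) : α × α → G := fun p => φ p.1 / φ p.2

/-- the map `(u, m, w) ↦ u m² w³` to the units modulo `q`. -/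
noncomputable def Phi (q : ℕ) : ℕ × (ℕ × ℕ) → (ZMod q)ˣ :=
  fun p => un q p.1 * (un q p.2.1 ^ 2 * un q p.2.2 ^ 3)

end AbcTR
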